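import Mathlib
import Pool.Agent.LGO.RU.Defs

/-!
# LGO/RCM: the pair theorem at a point at infinity where `x_a` is infinite and `x_b` is a singular modulus: definitions

Notes 3170 (A), 3207 on MP_d83ecd_ag; `LGO/RU` is the case of a common pole.  `β = x_b(c_0)` is the singular modulus, `c_0` the point at infinity.

`LocC V a b β`: the local data (`x_b = Sb(t)`, `Sb(0) = β`).  `MdlC`: the complex model.  `QDC`: the `q`-series of `x_a`.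
`CMF β`: for every conjugate `s β`: a point `t (s β)` of the upper half plane with `j = s β` and its primitive quadratic form `(al, be, ga)`;
`n` is not a square and `β` has an endomorphism of degree `n`.
`Qf F b c d = al d ^ 2 - be c d + ga c ^ 2 = al |c t + d| ^ 2`: norm form of the order, at the conjugate `b`.
`SG n L β`: the `y` with `IsogDeg L β y` and with an endomorphism of degree `n` (for large `L`: the quotients of `E_β` by the eigenlines of the order).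
`Phs Φ S = Φ(S(t), Y)`.  `Pf N f = ∑_{k < N} f_k Y ^ k`.  `VB`: the coefficients of the remainder of `U * Pf N f` modulo `Φs` vanish up to the order `T`.
`Ar1`: the coefficient of `A ^ i` in the expansion of `(∑_{k < R} G_k Y_a ^ k) Δ(A) ^ R`, `Y_a = j(A)`, `A ^ d = q_a ^ a`.
`VAC`: the vanishing conditions at the types `a = 1` (all conditions) and `a = L` (after multiplication with `U`).
`LD`: the modular polynomial of the prime level `L` and a factor `G` of `Φ(β, Y)`.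
-/

namespace Pool.Agent.LGO.RCM

open PowerSeries Pool.Agent.Hhelper14.ZP Pool.Agent.Hhelper14.ZPL Pool.Agent.LGO
  Pool.Agent.LGO.PA Pool.Agent.LGO.RU UpperHalfPlane
open scoped MatrixGroups

/-- the local data at a pole of `x_a` where `x_b` takes the value `β` -/
structure LocC {n : ℕ} (V : Set (Fin n → ℂ)) (a b : Fin n) (β : ℂ) where
  e : ℕ
  h : ℕ
  m : ℕ
  n₀ : ℕ
  C : ℕ
  K₀ : IntermediateField ℚ ℂ
  E : Set (Fin n → ℂ)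
  Xi : MvPolynomial (Fin n) Qb
  Et : MvPolynomial (Fin n) Qb
  W : Ser
  Wa : Ser
  Sb : Ser
  r : ℝ
  fd : FiniteDimensional ℚ K₀
  fin : E.Finite
  pos : 0 < e ∧ 0 < m ∧ 0 < n₀ ∧ 0 < C ∧ 0 < r ∧ r ≤ 1
  inK : InK K₀ W ∧ InK K₀ Wa ∧ InK K₀ Sb
  gr : Gr r C W ∧ Gr r C Wa ∧ Gr r C Sb
  val : ((coeff 0 Sb : OO) : ℂ) = β
  /-- near the pole, `p`-adically -/
  near_p : ∀ (p : ℕ) [Fact p.Prime] (φ : ℂ →+* ℂ_[p]), ∀ x ∈ V, x ∉ E →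
    1 < ‖φ (MvPolynomial.aeval x Xi : ℂ)‖ → 1 < ‖φ (x a)‖ ∧ ‖φ (x b)‖ ≤ 1
  /-- near the pole, at the complex places -/
  near_c : ∀ (s : ℂ ≃+* ℂ), ∀ x ∈ V, x ∉ E → (C : ℝ) ≤ ‖s (MvPolynomial.aeval x Xi : ℂ)‖ →
    ∃ t : ℂ, 0 < ‖t‖ ∧ ‖t‖ ≤ r ∧
      t ^ e * s (MvPolynomial.aeval x Xi : ℂ) = 1 ∧
      t ^ h * s (MvPolynomial.aeval x Et : ℂ) = evc s W t ∧
      s (x a) * (t ^ m * evc s Wa t) = 1 ∧ s (x b) = evc s Sb t ∧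
      1 ≤ C * ‖evc s Wa t‖
  /-- upper bounds in terms of `ξ` -/
  up_p : ∀ (p : ℕ) [Fact p.Prime] (φ : ℂ →+* ℂ_[p]), ∀ x ∈ V, x ∉ E →
    ‖(n₀ : ℂ_[p])‖ * ‖φ (MvPolynomial.aeval x Et : ℂ)‖ ≤
      max 1 ‖φ (MvPolynomial.aeval x Xi : ℂ)‖ ^ C ∧
    ‖(n₀ : ℂ_[p])‖ * (‖φ (MvPolynomial.aeval x Xi : ℂ)‖ * ‖φ (x a)‖) ≤
      max 1 ‖φ (MvPolynomial.aeval x Xi : ℂ)‖ ^ C ∧
    ‖(n₀ : ℂ_[p])‖ * (‖φ (MvPolynomial.aeval x Xi : ℂ)‖ * ‖φ (x b)‖) ≤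
      max 1 ‖φ (MvPolynomial.aeval x Xi : ℂ)‖ ^ C
  up_c : ∀ (s : ℂ ≃+* ℂ), ∀ x ∈ V, x ∉ E →
    ‖s (MvPolynomial.aeval x Et : ℂ)‖ ≤ C * max 1 ‖s (MvPolynomial.aeval x Xi : ℂ)‖ ^ C ∧
    ‖s (MvPolynomial.aeval x Xi : ℂ)‖ * ‖s (x a)‖ ≤
      C * max 1 ‖s (MvPolynomial.aeval x Xi : ℂ)‖ ^ C ∧
    ‖s (MvPolynomial.aeval x Xi : ℂ)‖ * ‖s (x b)‖ ≤
      C * max 1 ‖s (MvPolynomial.aeval x Xi : ℂ)‖ ^ C
  /-- linear independence of the `η ^ i ξ ^ j`, `i < e` -/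
  indep : ∀ (N : ℕ) (c : ℕ → ℕ → ℂ), (∀ i j, IsAlgebraic ℚ (c i j)) →
    {x ∈ V | x ∉ E ∧ ∑ i ∈ Finset.range e, ∑ j ∈ Finset.range N, c i j *
      (MvPolynomial.aeval x Et : ℂ) ^ i * (MvPolynomial.aeval x Xi : ℂ) ^ j = 0}.Infinite →
    ∀ i < e, ∀ j < N, c i j = 0
  /-- `ξ` is not constant -/
  nc : ∀ c : ℂ, ∃ x ∈ V, (MvPolynomial.aeval x Xi : ℂ) ≠ c

variable {n : ℕ} {V : Set (Fin n → ℂ)} {a b : Fin n} {β : ℂ}

/-- the function `ξ` -/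
noncomputable def LocC.ξ (D : LocC V a b β) (x : Fin n → ℂ) : ℂ := MvPolynomial.aeval x D.Xi

/-- the function `η` -/
noncomputable def LocC.η (D : LocC V a b β) (x : Fin n → ℂ) : ℂ := MvPolynomial.aeval x D.Et

/-- the complex model: the points of `V` are the points `(ξ, η)` of a plane curve -/
structure MdlC (D : LocC V a b β) where
  S : AXG.Cur 2
  A : AXG.Atl S
  ET : Finset ℂ
  nco : S.NCo
  nomod : S.NoMod
  to_ : ∀ x ∈ V, x ∉ D.E → (D.ξ x, D.η x) ∈ S.pt ∧ S.x 0 (D.ξ x, D.η x) = x a ∧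
    S.x 1 (D.ξ x, D.η x) = x b
  from_ : ∀ q ∈ S.pt, q.1 ∉ ET → ∃ x ∈ V, x ∉ D.E ∧ D.ξ x = q.1 ∧ D.η x = q.2
  cusp : ∃ β₀ : AXG.Br S, 0 < β₀.e 0 ∧ β₀.e 1 = 0

/-- the `q`-series of the coordinate `a` at the pole -/
structure QDC (D : LocC V a b β) where
  qa : Ser
  ρ : ℝ
  C : ℕ
  pos : 0 < ρ ∧ ρ ≤ 1 ∧ 0 < C
  c0 : coeff 0 qa = 0
  inK : InK D.K₀ qa
  gr : Gr ρ (1 / 2) qa ∧ Gr ρ C D.W ∧ Gr ρ C D.Sb
  near_c : ∀ (s : ℂ ≃+* ℂ), ∀ x ∈ V, x ∉ D.E → (C : ℝ) ≤ ‖s (D.ξ x)‖ →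
    ∃ t : ℂ, 0 < ‖t‖ ∧ ‖t‖ ≤ ρ ∧ t ^ D.e * s (D.ξ x) = 1 ∧ t ^ D.h * s (D.η x) = evc s D.W t ∧
      s (x b) = evc s D.Sb t ∧ ‖s (x b) - s β‖ ≤ C * ‖t‖ ∧
      ‖t‖ ^ D.m ≤ C * ‖evc s qa t‖ ∧
      ∃ τ : ℍ, 1 < τ.im ∧ jInv τ = s (x a) ∧
        Complex.exp (2 * Real.pi * Complex.I * τ) = evc s qa t

/-- the CM points over the conjugates of a singular modulus -/
structure CMF (β : ℂ) where
  t : ℂ → ℍ
  al : ℂ → ℤ
  be : ℂ → ℤ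
  ga : ℂ → ℤ
  n : ℕ
  B : ℕ
  n_pos : 0 < n
  nsq : ¬ IsSquare n
  isog : IsogDeg n β β
  B_pos : 0 < B
  j : ∀ s : ℂ ≃+* ℂ, jInv (t (s β)) = s β
  al_pos : ∀ s : ℂ ≃+* ℂ, 0 < al (s β)
  prim : ∀ (s : ℂ ≃+* ℂ) (d : ℤ), d ∣ al (s β) → d ∣ be (s β) → d ∣ ga (s β) → IsUnit d
  quad : ∀ s : ℂ ≃+* ℂ, (al (s β) : ℂ) * (t (s β) : ℂ) ^ 2 + be (s β) * (t (s β) : ℂ) + ga (s β) = 0
  disc : ∀ s : ℂ ≃+* ℂ, be (s β) ^ 2 - 4 * al (s β) * ga (s β) ∣ (B : ℤ)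
  bd : ∀ s : ℂ ≃+* ℂ, |al (s β)| ≤ B ∧ |be (s β)| ≤ B ∧ |ga (s β)| ≤ B
  im : ∀ s : ℂ ≃+* ℂ, 1 ≤ B * (t (s β)).im ∧ ‖(t (s β) : ℂ)‖ ≤ B
  nB : n ∣ B

/-- the norm form at the conjugate `b` of `β` -/
def Qf (F : CMF β) (b : ℂ) (c d : ℤ) : ℤ := F.al b * d ^ 2 - F.be b * c * d + F.ga b * c ^ 2

/-- the quotients by the eigenlines -/
def SG (n L : ℕ) (β : ℂ) : Set ℂ := {y | IsogDeg L β y ∧ IsogDeg n y y}

/-- `Φ(S(t), Y)` -/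
noncomputable def Phs (Φ : Polynomial (Polynomial ℤ)) (S : Ser) : Polynomial Ser :=
  Φ.map (Polynomial.eval₂RingHom (Int.castRingHom Ser) S)

/-- `∑_{k < N} f_k Y ^ k` -/
noncomputable def Pf (N : ℕ) (f : ℕ → Ser) : Polynomial Ser :=
  ∑ k ∈ Finset.range N, Polynomial.C (f k) * Polynomial.X ^ k

/-- the remainder of `U * Pf N f` modulo `Φs` vanishes up to the order `T` -/
def VB (Φs U : Polynomial Ser) (N R T : ℕ) (f : ℕ → Ser) : Prop :=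
  ∀ k < R, ∀ n < T, coeff n (((U * Pf N f) %ₘ Φs).coeff k) = 0

/-- the coefficient of `A ^ i` in the expansion of `(∑ G k Y_a ^ k) Δ(A) ^ R` -/
noncomputable def Ar1 (R : ℕ) (G : ℕ → Ser) (qa : Ser) (a d i : ℕ) : Ser :=
  ∑ k ∈ Finset.range R, G k * sp (PE R k) d i (qa ^ a)

/-- the vanishing conditions at the two types -/
def VAC (L N R : ℕ) (G : ℕ → ℕ → Ser) (qa : Ser) (Φs U : Polynomial Ser) (T : ℕ) : Prop :=
  (∀ i < L, VB Φs 1 N R T fun k' => Ar1 N (fun k => G k k') qa 1 L i) ∧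
    VB Φs U N R T fun k' => Ar1 N (fun k => G k k') qa L 1 0

/-- the modular polynomial of the prime level `L` and a factor of `Φ(β, Y)` -/
structure LD (K : IntermediateField ℚ ℂ) (β : ℂ) (L : ℕ) (B : ℝ) where
  Φ : Polynomial (Polynomial ℤ)
  G : Polynomial OO
  monic : Φ.Monic
  deg : Φ.natDegree = L + 1
  root : ∀ x y : ℂ, IsogDeg L x y →
    (Φ.map (Polynomial.eval₂RingHom (Int.castRingHom ℂ) x)).eval y = 0
  bdd : ∀ k, ((Φ.coeff k).natDegree : ℝ) ≤ B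
  bdc : ∀ k m, |(((Φ.coeff k).coeff m : ℤ) : ℝ)| ≤ Real.exp B
  Gpos : 0 < G.natDegree
  Gdeg : (G.natDegree : ℝ) ≤ B
  GK : ∀ k, ((G.coeff k : OO) : ℂ) ∈ K
  Gbd : ∀ (s : ℂ ≃+* ℂ) (k : ℕ), ‖s ((G.coeff k : OO) : ℂ)‖ ≤ Real.exp B
  Gdvd : G.map OO.subtype ∣ Φ.map (Polynomial.eval₂RingHom (Int.castRingHom ℂ) β)

/-- a larger bound -/
def LD.mono {K : IntermediateField ℚ ℂ} {L : ℕ} {B B' : ℝ} (ld : LD K β L B) (h : B ≤ B') :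
    LD K β L B' where
  Φ := ld.Φ
  G := ld.G
  monic := ld.monic
  deg := ld.deg
  root := ld.root
  bdd := fun k => (ld.bdd k).trans h
  bdc := fun k m => (ld.bdc k m).trans (Real.exp_le_exp.2 h)
  Gpos := ld.Gpos
  Gdeg := ld.Gdeg.trans h
  GK := ld.GK
  Gbd := fun s k => (ld.Gbd s k).trans (Real.exp_le_exp.2 h)
  Gdvd := ld.Gdvd

/-- the type of `ya`, `yb` at a complex place near the point at infinity: `A ^ L = q_a`, or `A = q_a ^ L` and `G(yb)` is not small -/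
def TyCC (s : ℂ ≃+* ℂ) (L : ℕ) (G : Polynomial OO) (δ : ℝ) (qa : ℂ) (ya yb : ℂ) : Prop :=
  ∃ τ : ℍ, jInv τ = s ya ∧ (Complex.exp (2 * Real.pi * Complex.I * τ) ^ L = qa ∨
    (Complex.exp (2 * Real.pi * Complex.I * τ) = qa ^ L ∧ δ ≤ ‖(G.map (sC s)).eval (s yb)‖))

end Pool.Agent.LGO.RCM
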