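import Mathlib
import Pool.Agent.LGO.RCM.Defs

/-!
# LGO/RCM: the rank of the conditions at the type `a = L`

`M = k[[t]][Y] / Φs`, `Φs` monic of degree `R`, `G ∣ Φs(0, Y)`, `G` not constant.  The conditions `G ^ S P ≡ 0 mod (t ^ T, Φs)`, `S ≥ R T`, are `R T` linear conditions for `P`, but their rank is at most `(R - 1) T`:
the conditions for the coefficients of `Y ^ i`, `1 ≤ i < R`, imply those for the coefficient of `Y ^ 0`.
PROOF.  Let `p` be an irreducible factor of `G`, `Φs(0, Y) = p ^ e H`, `H` prime to `p`, `1 ≤ e ≤ R`.  Then `G ^ S H ^ T` is divisible by `Φs(0, Y) ^ T`, which lies in the ideal `(Φs, t ^ T)`.  If `G ^ S P ≡ f mod (Φs, t ^ T)` with `f` in `k[[t]]`, then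
`f H ^ T` lies in `(Φs, t ^ T)`.  If `f = t ^ j u`, `j < T`, `u(0) ≠ 0`, then (`t` is a prime of `k[[t]][Y]` which does not divide `Φs`) `u H ^ T` lies in `(Φs, t)`, so `p` divides `u(0) H ^ T`, contradiction.
`rank_OO`: map everything to `ℂ[[t]][Y]` by the injective homomorphism `OO → ℂ`.
-/

namespace Pool.Agent.LGO.RCM

open PowerSeries Pool.Agent.Hhelper14.ZP Pool.Agent.LGO.RU Pool.Agent.LGO

private theorem Rank_X_prime {k : Type} [Field k] :
    Prime (Polynomial.C (X : PowerSeries k)) :=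
  Polynomial.prime_C_iff.2 PowerSeries.X_prime

/-- if `f H ^ N` lies in the ideal `(Φs, t ^ T)` then `t ^ T ∣ f` -/
private theorem Rank_core {k : Type} [Field k] (Φs : Polynomial (PowerSeries k)) (hm : Φs.Monic)
    (p H : Polynomial k) (hp : Prime p) (hpd : p ∣ Φs.map (constantCoeff (R := k)))
    (hH : ¬ p ∣ H) (N T : ℕ) (f : PowerSeries k) (B D : Polynomial (PowerSeries k))
    (h : Polynomial.C f * (H.map (C (R := k))) ^ N =
      Φs * B + (Polynomial.C (X : PowerSeries k)) ^ T * D) : X ^ T ∣ f := by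
  by_contra hf
  have hf0 : f ≠ 0 := by
    rintro rfl
    exact hf (dvd_zero _)
  -- the largest power of `X` which divides `f`
  have hfin : FiniteMultiplicity (X : PowerSeries k) f := by
    refine FiniteMultiplicity.of_prime_left PowerSeries.X_prime hf0
  obtain ⟨u, hu, hXu⟩ := hfin.exists_eq_pow_mul_and_not_dvd
  set j := multiplicity (X : PowerSeries k) f with hj
  have hjT : j < T := by
    by_contra hc
    push Not at hc
    exact hf ((pow_dvd_pow _ hc).trans ⟨u, hu⟩)
  have hu0 : constantCoeff u ≠ 0 := by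
    intro h0
    exact hXu (PowerSeries.X_dvd_iff.2 h0)
  have hX := Rank_X_prime (k := k)
  have hΦ : ¬ Polynomial.C (X : PowerSeries k) ∣ Φs := by
    intro hd
    have h1 := (Polynomial.C_dvd_iff_dvd_coeff _ _).1 hd Φs.natDegree
    rw [hm.coeff_natDegree] at h1
    exact PowerSeries.X_prime.not_isUnit (isUnit_of_dvd_one h1)
  have hdB : (Polynomial.C (X : PowerSeries k)) ^ j ∣ B := by
    refine hX.pow_dvd_of_dvd_mul_left j hΦ ?_
    have h2 : Φs * B = (Polynomial.C (X : PowerSeries k)) ^ j *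
        (Polynomial.C u * (H.map (C (R := k))) ^ N -
          (Polynomial.C (X : PowerSeries k)) ^ (T - j) * D) := by
      have h3 : (Polynomial.C (X : PowerSeries k)) ^ T =
          (Polynomial.C (X : PowerSeries k)) ^ j * (Polynomial.C (X : PowerSeries k)) ^ (T - j) := by
        rw [← pow_add, Nat.add_sub_cancel' hjT.le]
      have h4 : Polynomial.C f = (Polynomial.C (X : PowerSeries k)) ^ j * Polynomial.C u := by
        rw [hu, Polynomial.C_mul, Polynomial.C_pow]
      rw [h3, h4] at h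
      linear_combination - h
    exact ⟨_, h2⟩
  obtain ⟨B', rfl⟩ := hdB
  have h5 : Polynomial.C u * (H.map (C (R := k))) ^ N =
      Φs * B' + (Polynomial.C (X : PowerSeries k)) ^ (T - j) * D := by
    have h6 : (Polynomial.C (X : PowerSeries k)) ^ j ≠ 0 := pow_ne_zero _ hX.ne_zero
    apply mul_left_cancel₀ h6
    have h3 : (Polynomial.C (X : PowerSeries k)) ^ T =
        (Polynomial.C (X : PowerSeries k)) ^ j * (Polynomial.C (X : PowerSeries k)) ^ (T - j) := by
      rw [← pow_add, Nat.add_sub_cancel' hjT.le]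
    have h4 : Polynomial.C f = (Polynomial.C (X : PowerSeries k)) ^ j * Polynomial.C u := by
      rw [hu, Polynomial.C_mul, Polynomial.C_pow]
    rw [h3, h4] at h
    linear_combination h
  have h7 := congrArg (Polynomial.map (constantCoeff (R := k))) h5
  rw [Polynomial.map_mul, Polynomial.map_add, Polynomial.map_mul, Polynomial.map_mul,
    Polynomial.map_pow, Polynomial.map_pow, Polynomial.map_C, Polynomial.map_C,
    Polynomial.map_map] at h7
  have h8 : (constantCoeff (R := k)).comp (C (R := k)) = RingHom.id k := by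
    ext x
    simp
  rw [h8, Polynomial.map_id, PowerSeries.constantCoeff_X, Polynomial.C_0,
    zero_pow (by omega : T - j ≠ 0), zero_mul, add_zero] at h7
  have h9 : p ∣ Polynomial.C (constantCoeff u) * H ^ N := by
    rw [h7]
    exact hpd.mul_right _
  rcases hp.dvd_or_dvd h9 with h10 | h10
  · have : IsUnit (Polynomial.C (constantCoeff u) : Polynomial k) :=
      Polynomial.isUnit_C.2 (isUnit_iff_ne_zero.2 hu0)
    exact hp.not_isUnit (isUnit_of_dvd_unit h10 this)
  · exact hH (hp.dvd_of_dvd_pow h10)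

/-- `Φs(0, Y) ^ T` lies in the ideal `(Φs, t ^ T)` -/
private theorem Rank_pow {k : Type} [Field k] (Φs : Polynomial (PowerSeries k)) (T : ℕ) :
    ∃ B D : Polynomial (PowerSeries k),
      ((Φs.map (constantCoeff (R := k))).map (C (R := k))) ^ T =
        Φs * B + (Polynomial.C (X : PowerSeries k)) ^ T * D := by
  have h1 : Polynomial.C (X : PowerSeries k) ∣
      (Φs.map (constantCoeff (R := k))).map (C (R := k)) - Φs := by
    rw [Polynomial.C_dvd_iff_dvd_coeff]
    intro i
    rw [Polynomial.coeff_sub, Polynomial.coeff_map, Polynomial.coeff_map, PowerSeries.X_dvd_iff]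
    simp
  obtain ⟨Ψ, hΨ⟩ := h1
  have h2 : (Φs.map (constantCoeff (R := k))).map (C (R := k)) =
      Φs + Polynomial.C (X : PowerSeries k) * Ψ := by
    linear_combination hΨ
  rw [h2]
  have h3 : Φs ∣ (Φs + Polynomial.C (X : PowerSeries k) * Ψ) ^ T -
      (Polynomial.C (X : PowerSeries k) * Ψ) ^ T := by
    have h4 := sub_dvd_pow_sub_pow (Φs + Polynomial.C (X : PowerSeries k) * Ψ)
      (Polynomial.C (X : PowerSeries k) * Ψ) T
    rwa [add_sub_cancel_right] at h4
  obtain ⟨B, hB⟩ := h3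
  refine ⟨B, Ψ ^ T, ?_⟩
  rw [mul_pow] at hB
  linear_combination hB

theorem rank_lem {k : Type} [Field k] (Φs : Polynomial (PowerSeries k)) (hm : Φs.Monic) {R : ℕ}
    (hR : Φs.natDegree = R) (G : Polynomial k) (hG : 0 < G.natDegree)
    (hd : G ∣ Φs.map (constantCoeff (R := k))) (T S : ℕ) (hS : R * T ≤ S) :
    ∃ I : Finset (ℕ × ℕ), I.card ≤ (R - 1) * T ∧ (∀ x ∈ I, x.1 < R ∧ x.2 < T) ∧
      ∀ P : Polynomial (PowerSeries k),
      (∀ x ∈ I, coeff x.2 ((((G.map (C (R := k))) ^ S * P) %ₘ Φs).coeff x.1) = 0) →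
      ∀ i < R, ∀ m < T, coeff m ((((G.map (C (R := k))) ^ S * P) %ₘ Φs).coeff i) = 0 := by
  classical
  set F₀ := Φs.map (constantCoeff (R := k)) with hF₀
  have hF₀m : F₀.Monic := hm.map _
  have hF₀d : F₀.natDegree = R := by rw [hF₀, hm.natDegree_map, hR]
  have hF₀0 : F₀ ≠ 0 := hF₀m.ne_zero
  have hRpos : 0 < R := by
    have := Polynomial.natDegree_le_of_dvd hd hF₀0
    omega
  have hGu : ¬ IsUnit G := Polynomial.not_isUnit_of_natDegree_pos G hG
  have hG0 : G ≠ 0 := by
    rintro rfl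
    simp at hG
  obtain ⟨p, hpi, hpG⟩ := WfDvdMonoid.exists_irreducible_factor hGu hG0
  have hp : Prime p := hpi.prime
  have hfin : FiniteMultiplicity p F₀ := FiniteMultiplicity.of_prime_left hp hF₀0
  obtain ⟨H, hH, hpH⟩ := hfin.exists_eq_pow_mul_and_not_dvd
  set e := multiplicity p F₀ with he
  have heR : e ≤ R := by
    have h1 : p ^ e ∣ F₀ := ⟨H, hH⟩
    have h2 := Polynomial.natDegree_le_of_dvd h1 hF₀0
    rw [Polynomial.natDegree_pow, hF₀d] at h2
    have h3 : 0 < p.natDegree := hpi.natDegree_pos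
    nlinarith
  refine ⟨((Finset.range R).erase 0) ×ˢ Finset.range T, ?_, ?_, ?_⟩
  · rw [Finset.card_product, Finset.card_erase_of_mem (Finset.mem_range.2 hRpos),
      Finset.card_range, Finset.card_range]
  · intro x hx
    rw [Finset.mem_product, Finset.mem_erase, Finset.mem_range, Finset.mem_range] at hx
    exact ⟨hx.1.2, hx.2⟩
  intro P hP i hi m hmT
  by_cases hi0 : i ≠ 0
  · exact hP (i, m) (by simp [hi0, hi, hmT])
  push Not at hi0
  subst hi0
  set r := ((G.map (C (R := k))) ^ S * P) %ₘ Φs with hr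
  set Q := ((G.map (C (R := k))) ^ S * P) /ₘ Φs with hQ
  have hrQ : r + Φs * Q = (G.map (C (R := k))) ^ S * P :=
    Polynomial.modByMonic_add_div _ Φs
  -- `r = f + t ^ T r'`
  have h1 : (Polynomial.C (X : PowerSeries k)) ^ T ∣ r - Polynomial.C (r.coeff 0) := by
    rw [← Polynomial.C_pow, Polynomial.C_dvd_iff_dvd_coeff]
    intro j
    rw [PowerSeries.X_pow_dvd_iff]
    intro l hl
    rw [Polynomial.coeff_sub, Polynomial.coeff_C]
    split_ifs with hj
    · rw [hj]
      simp
    · rw [sub_zero]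
      by_cases hjR : j < R
      · exact hP (j, l) (by simp [hj, hjR, hl])
      · have h2 : r.coeff j = 0 := by
          apply Polynomial.coeff_eq_zero_of_degree_lt
          refine (Polynomial.degree_modByMonic_lt _ hm).trans_le ?_
          rw [Polynomial.degree_eq_natDegree hm.ne_zero, hR]
          exact_mod_cast not_lt.1 hjR
        rw [h2]
        simp
  obtain ⟨r', hr'⟩ := h1
  -- `G ^ S H ^ T` lies in the ideal `(Φs, t ^ T)`
  obtain ⟨B, D, hBD⟩ := Rank_pow Φs T
  obtain ⟨q, hq⟩ := hpG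
  have heS : e * T ≤ S := (Nat.mul_le_mul_right T heR).trans hS
  have h2 : G ^ S * H ^ T = F₀ ^ T * (p ^ (S - e * T) * q ^ S) := by
    have h3 : p ^ S = p ^ (e * T) * p ^ (S - e * T) := by
      rw [← pow_add, Nat.add_sub_cancel' heS]
    have h4 : F₀ ^ T = p ^ (e * T) * H ^ T := by
      conv_lhs => rw [hH]
      rw [mul_pow, pow_mul]
    rw [hq, mul_pow, h3, h4]
    ring
  have h5 : (G.map (C (R := k))) ^ S * (H.map (C (R := k))) ^ T =
      (Φs * B + (Polynomial.C (X : PowerSeries k)) ^ T * D) *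
        (p ^ (S - e * T) * q ^ S).map (C (R := k)) := by
    rw [← hBD, ← Polynomial.map_pow, ← Polynomial.map_pow, ← Polynomial.map_mul, h2,
      Polynomial.map_mul, Polynomial.map_pow]
  set E := (p ^ (S - e * T) * q ^ S).map (C (R := k)) with hE
  have h6 : Polynomial.C (r.coeff 0) * (H.map (C (R := k))) ^ T =
      Φs * (B * E * P - Q * (H.map (C (R := k))) ^ T) +
        (Polynomial.C (X : PowerSeries k)) ^ T * (D * E * P - r' * (H.map (C (R := k))) ^ T) := by
    linear_combination P * h5 + (H.map (C (R := k))) ^ T * hrQ - (H.map (C (R := k))) ^ T * hr'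
  have h7 := Rank_core Φs hm p H hp (by rw [← hF₀]; exact (dvd_trans ⟨q, hq⟩ hd)) hpH T T
    (r.coeff 0) _ _ h6
  exact PowerSeries.X_pow_dvd_iff.1 h7 m hmT

theorem rank_OO (Φs : Polynomial Ser) (hm : Φs.Monic) {R : ℕ}
    (hR : Φs.natDegree = R) (G : Polynomial OO) (hG : 0 < G.natDegree)
    (hd : G.map OO.subtype ∣ (Φs.map (constantCoeff (R := OO))).map OO.subtype) (T S : ℕ)
    (hS : R * T ≤ S) :
    ∃ I : Finset (ℕ × ℕ), I.card ≤ (R - 1) * T ∧ (∀ x ∈ I, x.1 < R ∧ x.2 < T) ∧
      ∀ P : Polynomial Ser,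
      (∀ x ∈ I, coeff x.2 ((((G.map (C (R := OO))) ^ S * P) %ₘ Φs).coeff x.1) = 0) →
      ∀ i < R, ∀ m < T, coeff m ((((G.map (C (R := OO))) ^ S * P) %ₘ Φs).coeff i) = 0 := by
  have hinj : Function.Injective (OO.subtype) := Subtype.val_injective
  set σ : Ser →+* PowerSeries ℂ := PowerSeries.map OO.subtype with hσ
  have hc1 : (constantCoeff (R := ℂ)).comp σ = OO.subtype.comp (constantCoeff (R := OO)) := by
    refine RingHom.ext fun x => ?_
    rw [RingHom.comp_apply, RingHom.comp_apply, hσ, ← PowerSeries.coeff_zero_eq_constantCoeff_apply,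
      ← PowerSeries.coeff_zero_eq_constantCoeff_apply, PowerSeries.coeff_map]
  have hc2 : σ.comp (C (R := OO)) = (C (R := ℂ)).comp OO.subtype := by
    ext x
    simp [hσ]
  obtain ⟨I, hI1, hI2, hI3⟩ := rank_lem (k := ℂ) (Φs.map σ) (hm.map _) (R := R)
    (by rw [hm.natDegree_map, hR]) (G.map OO.subtype)
    (by rw [Polynomial.natDegree_map_eq_of_injective hinj]; exact hG)
    (by rw [Polynomial.map_map, hc1, ← Polynomial.map_map]; exact hd) T S hS
  have key : ∀ P : Polynomial Ser, ∀ i m : ℕ,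
      coeff m (((((G.map OO.subtype).map (C (R := ℂ))) ^ S * P.map σ) %ₘ Φs.map σ).coeff i) =
      ((coeff m ((((G.map (C (R := OO))) ^ S * P) %ₘ Φs).coeff i) : OO) : ℂ) := by
    intro P i m
    have h1 : ((G.map OO.subtype).map (C (R := ℂ))) ^ S * P.map σ =
        ((G.map (C (R := OO))) ^ S * P).map σ := by
      rw [Polynomial.map_mul, Polynomial.map_pow, Polynomial.map_map, Polynomial.map_map, hc2]
    rw [h1, ← Polynomial.map_modByMonic _ hm, Polynomial.coeff_map, hσ, PowerSeries.coeff_map]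
    rfl
  refine ⟨I, hI1, hI2, ?_⟩
  intro P hP i hi m hmT
  have h2 := hI3 (P.map σ) (by
    intro x hx
    rw [key, hP x hx]
    rfl) i hi m hmT
  rw [key] at h2
  exact_mod_cast h2

end Pool.Agent.LGO.RCM
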