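import Mathlib
import Pool.Agent.LGO.RCM.Defs
import Pool.Agent.LGO.RU.GrC
import Pool.Agent.LGO.RU.GrK

/-!
# LGO/RCM: polynomials over the ring of series: growth of the remainders, evaluation

`GrP r B P`: all coefficients have growth `Gr r B`.  `evP s P t y`: the value.
`modby_gr`: the coefficients of the remainder of `Y ^ j` modulo `Φs` have `Gr`-norm `≤ (1 + A) ^ j` (induction: multiply by `Y` and subtract the leading coefficient times `Φs`), so those of `P = ∑_{j ≤ n} p_j Y ^ j` at most `∑_j B (1 + A) ^ j`.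
(`Polynomial.modByMonic` is additive and `(C c * p) %ₘ q = C c * (p %ₘ q)`: `Polynomial.add_modByMonic`, `Polynomial.smul_modByMonic`.)
`evP_mod`: `P = Φs (P /ₘ Φs) + P %ₘ Φs`; growth of the quotient: every coefficient of every polynomial that occurs has finite `Gr`-norm (the quotient of `Y ^ j` by recursion, or: the series with `Gr r B` for some `B` form a subring, `Φs` is monic over it, division with remainder over this subring and uniqueness).
`evP_phs`: `Φ(S(t), Y)` evaluated at `t`: the integral polynomials `Φ.coeff k` at `S`, `evc_add`, `evc_mul`, `evc_C`.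
`vb_c`: `evP_mul`, `evP_mod` and `evc_order` for the coefficients of the remainder.
-/

namespace Pool.Agent.LGO.RCM

open PowerSeries Pool.Agent.Hhelper14.ZP Pool.Agent.LGO.RU Pool.Agent.LGO

/-- all coefficients have growth `Gr r B` -/
def GrP (r B : ℝ) (P : Polynomial Ser) : Prop := ∀ k, Gr r B (P.coeff k)

/-- the value at `(t, y)` of a polynomial over the ring of series, with the coefficients moved by `s` -/
noncomputable def evP (s : ℂ ≃+* ℂ) (P : Polynomial Ser) (t y : ℂ) : ℂ :=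
  ∑ k ∈ Finset.range (P.natDegree + 1), evc s (P.coeff k) t * y ^ k

private theorem ModBy_nn {r A : ℝ} {P : Polynomial Ser} (h : GrP r A P) : 0 ≤ A := gr_nonneg (h 0)

private theorem ModBy_ne {Φs : Polynomial Ser} (h0 : Φs.natDegree ≠ 0) : Φs ≠ 1 := by
  intro h
  apply h0
  rw [h, Polynomial.natDegree_one]

/-- the remainder of `Y ^ (j + 1)` -/
private theorem ModBy_step {Φs : Polynomial Ser} (hm : Φs.Monic) (h0 : Φs.natDegree ≠ 0) (j : ℕ) :
    ((Polynomial.X : Polynomial Ser) ^ (j + 1)) %ₘ Φs =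
      Polynomial.X * ((Polynomial.X ^ j) %ₘ Φs) -
        Polynomial.C (((Polynomial.X ^ j) %ₘ Φs).coeff (Φs.natDegree - 1)) * Φs := by
  set Q := ((Polynomial.X : Polynomial Ser) ^ j) %ₘ Φs with hQ
  have hQd : Q.natDegree < Φs.natDegree := Polynomial.natDegree_modByMonic_lt _ hm (ModBy_ne h0)
  have e1 : Q + Φs * ((Polynomial.X : Polynomial Ser) ^ j /ₘ Φs) = Polynomial.X ^ j :=
    Polynomial.modByMonic_add_div _ Φs
  have hlt : (Polynomial.X * Q - Polynomial.C (Q.coeff (Φs.natDegree - 1)) * Φs).degree <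
      Φs.degree := by
    rw [Polynomial.degree_eq_natDegree hm.ne_zero, Polynomial.degree_lt_iff_coeff_zero]
    intro m hm'
    obtain ⟨m', rfl⟩ : ∃ m', m = m' + 1 := ⟨m - 1, by omega⟩
    rw [Polynomial.coeff_sub, Polynomial.coeff_X_mul, Polynomial.coeff_C_mul]
    rcases hm'.eq_or_lt with h | h
    · have h1 : Φs.natDegree - 1 = m' := by omega
      have h2 : Φs.coeff (m' + 1) = 1 := by
        rw [← h]
        exact hm.coeff_natDegree
      rw [h1, h2, mul_one, sub_self]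
    · rw [Polynomial.coeff_eq_zero_of_natDegree_lt (show Q.natDegree < m' by omega),
        Polynomial.coeff_eq_zero_of_natDegree_lt h, mul_zero, sub_zero]
  refine (Polynomial.div_modByMonic_unique
    (Polynomial.X * ((Polynomial.X : Polynomial Ser) ^ j /ₘ Φs) +
      Polynomial.C (Q.coeff (Φs.natDegree - 1))) _ hm ⟨?_, hlt⟩).2
  linear_combination Polynomial.X * e1

private theorem ModBy_sum {Φs P : Polynomial Ser} {n : ℕ} (hn : P.natDegree ≤ n) (k : ℕ) :
    (P %ₘ Φs).coeff k =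
      ∑ j ∈ Finset.range (n + 1), P.coeff j * (((Polynomial.X : Polynomial Ser) ^ j) %ₘ Φs).coeff k := by
  have e1 : P %ₘ Φs = Polynomial.modByMonicHom Φs P := rfl
  have e2 : P = ∑ j ∈ Finset.range (n + 1), P.coeff j • (Polynomial.X : Polynomial Ser) ^ j := by
    conv_lhs => rw [P.as_sum_range' (n + 1) (by omega)]
    refine Finset.sum_congr rfl fun j _ => ?_
    rw [Polynomial.smul_X_eq_monomial]
  rw [e1]
  conv_lhs => rw [e2]
  rw [map_sum, Polynomial.finset_sum_coeff]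
  refine Finset.sum_congr rfl fun j _ => ?_
  rw [map_smul, Polynomial.coeff_smul, smul_eq_mul]
  rfl

private theorem ModBy_xgr {r A : ℝ} (hr : 0 ≤ r) {Φs : Polynomial Ser} (hm : Φs.Monic)
    (h0 : Φs.natDegree ≠ 0) (h1 : GrP r A Φs) (j : ℕ) :
    GrP r ((1 + A) ^ j) (((Polynomial.X : Polynomial Ser) ^ j) %ₘ Φs) := by
  have hA := ModBy_nn h1
  induction j with
  | zero =>
    intro k
    have e1 : ((Polynomial.X : Polynomial Ser) ^ 0) %ₘ Φs = 1 := by
      rw [pow_zero]
      refine (Polynomial.modByMonic_eq_self_iff hm).2 ?_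
      rw [Polynomial.degree_one, Polynomial.degree_eq_natDegree hm.ne_zero]
      exact_mod_cast Nat.pos_of_ne_zero h0
    rw [e1, Polynomial.coeff_one, pow_zero]
    split_ifs
    · exact gr_one
    · exact gr_mono gr_zero zero_le_one
  | succ j ih =>
    intro k
    have hp : 0 ≤ (1 + A) ^ j := pow_nonneg (by linarith) j
    rw [ModBy_step hm h0, Polynomial.coeff_sub, Polynomial.coeff_C_mul]
    have h2 := gr_mul (ih (Φs.natDegree - 1)) (h1 k) hr
    rcases k with _ | k
    · rw [Polynomial.mul_coeff_zero, Polynomial.coeff_X_zero, zero_mul, zero_sub]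
      refine gr_mono (gr_neg h2) ?_
      rw [pow_succ]
      nlinarith
    · rw [Polynomial.coeff_X_mul]
      refine gr_mono (gr_sub (ih k) h2 hr) ?_
      rw [pow_succ]
      linarith

theorem modby_gr {r A B : ℝ} (hr : 0 ≤ r) {Φs P : Polynomial Ser} (hm : Φs.Monic) (h1 : GrP r A Φs)
    (h2 : GrP r B P) {n : ℕ} (hn : P.natDegree ≤ n) :
    GrP r (B * (n + 1) * (1 + A) ^ (n + 1)) (P %ₘ Φs) := by
  have hA := ModBy_nn h1
  have hB := ModBy_nn h2
  have hpos : 0 ≤ B * (n + 1) * (1 + A) ^ (n + 1) := by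
    have : 0 ≤ (1 + A) ^ (n + 1) := pow_nonneg (by linarith) _
    positivity
  intro k
  rcases eq_or_ne Φs.natDegree 0 with h0 | h0
  · rw [hm.natDegree_eq_zero.1 h0, Polynomial.modByMonic_one, Polynomial.coeff_zero]
    exact gr_mono gr_zero hpos
  · rw [ModBy_sum hn]
    refine gr_mono (gr_sum (Finset.range (n + 1)) _ (fun j => B * (1 + A) ^ j) hr
      fun j _ => gr_mul (h2 j) (ModBy_xgr hr hm h0 h1 j k) hr) ?_
    calc ∑ j ∈ Finset.range (n + 1), B * (1 + A) ^ j
        ≤ ∑ j ∈ Finset.range (n + 1), B * (1 + A) ^ (n + 1) := by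
          refine Finset.sum_le_sum fun j hj => ?_
          exact mul_le_mul_of_nonneg_left (pow_le_pow_right₀ (by linarith)
            (Finset.mem_range.1 hj).le) hB
      _ = B * (n + 1) * (1 + A) ^ (n + 1) := by
          rw [Finset.sum_const, Finset.card_range, nsmul_eq_mul]
          push_cast
          ring

theorem mul_gr {r A B : ℝ} (hr : 0 ≤ r) {P Q : Polynomial Ser} (h1 : GrP r A P)
    (h2 : GrP r B Q) : GrP r ((P.natDegree + 1) * (A * B)) (P * Q) := by
  have hA := ModBy_nn h1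
  have hB := ModBy_nn h2
  intro k
  have e1 : (P * Q).coeff k = ∑ i ∈ Finset.range (P.natDegree + 1),
      P.coeff i * (if i ≤ k then Q.coeff (k - i) else 0) := by
    rw [Polynomial.coeff_mul, Finset.Nat.sum_antidiagonal_eq_sum_range_succ
      (fun i j => P.coeff i * Q.coeff j)]
    rcases le_total k P.natDegree with hk | hk
    · rw [← Finset.sum_subset (Finset.range_subset_range.2 (Nat.succ_le_succ hk))]
      · refine Finset.sum_congr rfl fun i hi => ?_
        rw [if_pos (by have := Finset.mem_range.1 hi; omega)]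
      · intro i _ hi
        rw [if_neg (by intro h; exact hi (Finset.mem_range.2 (by omega))), mul_zero]
    · rw [← Finset.sum_subset (Finset.range_subset_range.2 (Nat.succ_le_succ hk))]
      · refine Finset.sum_congr rfl fun i hi => ?_
        rw [if_pos (by have := Finset.mem_range.1 hi; omega)]
      · intro i _ hi
        rw [Polynomial.coeff_eq_zero_of_natDegree_lt (by
          by_contra h
          exact hi (Finset.mem_range.2 (by omega))), zero_mul]
  rw [e1]
  refine gr_mono (gr_sum (Finset.range (P.natDegree + 1)) _ (fun _ => A * B) hr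
    fun i _ => gr_mul (h1 i) ?_ hr) ?_
  · split_ifs
    · exact h2 _
    · exact gr_mono gr_zero hB
  · rw [Finset.sum_const, Finset.card_range, nsmul_eq_mul]
    push_cast
    exact le_rfl

private theorem ModBy_insub {K : IntermediateField ℚ ℂ} {S S' : Ser} (h : InK K S) (h' : InK K S') :
    InK K (S - S') := by
  intro n
  rw [map_sub]
  push_cast
  exact K.sub_mem (h n) (h' n)

private theorem ModBy_xin {K : IntermediateField ℚ ℂ} {Φs : Polynomial Ser} (hm : Φs.Monic)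
    (h0 : Φs.natDegree ≠ 0) (h1 : ∀ k, InK K (Φs.coeff k)) (j : ℕ) :
    ∀ k, InK K ((((Polynomial.X : Polynomial Ser) ^ j) %ₘ Φs).coeff k) := by
  induction j with
  | zero =>
    intro k
    have e1 : ((Polynomial.X : Polynomial Ser) ^ 0) %ₘ Φs = 1 := by
      rw [pow_zero]
      refine (Polynomial.modByMonic_eq_self_iff hm).2 ?_
      rw [Polynomial.degree_one, Polynomial.degree_eq_natDegree hm.ne_zero]
      exact_mod_cast Nat.pos_of_ne_zero h0
    rw [e1, Polynomial.coeff_one]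
    split_ifs
    · exact InK.one
    · exact InK.zero
  | succ j ih =>
    intro k
    rw [ModBy_step hm h0, Polynomial.coeff_sub, Polynomial.coeff_C_mul]
    have h2 := (ih (Φs.natDegree - 1)).mul (h1 k)
    refine ModBy_insub ?_ h2
    rcases k with _ | k
    · rw [Polynomial.mul_coeff_zero, Polynomial.coeff_X_zero, zero_mul]
      exact InK.zero
    · rw [Polynomial.coeff_X_mul]
      exact ih k

theorem modby_inK {K : IntermediateField ℚ ℂ} {Φs P : Polynomial Ser} (hm : Φs.Monic)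
    (h1 : ∀ k, InK K (Φs.coeff k)) (h2 : ∀ k, InK K (P.coeff k)) (k : ℕ) :
    InK K ((P %ₘ Φs).coeff k) := by
  rcases eq_or_ne Φs.natDegree 0 with h0 | h0
  · rw [hm.natDegree_eq_zero.1 h0, Polynomial.modByMonic_one, Polynomial.coeff_zero]
    exact InK.zero
  · rw [ModBy_sum le_rfl]
    exact InK.sum fun j _ => (h2 j).mul (ModBy_xin hm h0 h1 j k)

/-- the series with some bound for the growth -/
private def ModBy_GS (r : ℝ) (hr : 0 ≤ r) : Subring Ser where
  carrier := {S | ∃ B, Gr r B S}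
  mul_mem' := fun ⟨_, ha⟩ ⟨_, hb⟩ => ⟨_, gr_mul ha hb hr⟩
  one_mem' := ⟨_, gr_one⟩
  add_mem' := fun ⟨_, ha⟩ ⟨_, hb⟩ => ⟨_, gr_add ha hb hr⟩
  zero_mem' := ⟨_, gr_zero⟩
  neg_mem' := fun ⟨_, ha⟩ => ⟨_, gr_neg ha⟩

/-- evaluation of these series -/
private noncomputable def ModBy_ev {r : ℝ} (hr : 0 ≤ r) (s : ℂ ≃+* ℂ) {t : ℂ} (ht : ‖t‖ ≤ r) :
    ModBy_GS r hr →+* ℂ where
  toFun S := evc s S.1 t
  map_one' := evc_one s t
  map_zero' := evc_zero s t
  map_mul' S S' := by
    obtain ⟨S, B, hB⟩ := S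
    obtain ⟨S', B', hB'⟩ := S'
    exact evc_mul hB hB' ht s
  map_add' S S' := by
    obtain ⟨S, B, hB⟩ := S
    obtain ⟨S', B', hB'⟩ := S'
    exact evc_add hB hB' ht s

private theorem ModBy_evP {r : ℝ} (hr : 0 ≤ r) (s : ℂ ≃+* ℂ) {t : ℂ} (ht : ‖t‖ ≤ r) (y : ℂ)
    (P : Polynomial (ModBy_GS r hr)) :
    evP s (P.map (ModBy_GS r hr).subtype) t y = P.eval₂ (ModBy_ev hr s ht) y := by
  unfold evP
  rw [Polynomial.natDegree_map_eq_of_injective (Subtype.val_injective), Polynomial.eval₂_eq_sum_range]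
  refine Finset.sum_congr rfl fun k _ => ?_
  rw [Polynomial.coeff_map]
  rfl

private theorem ModBy_lift {r A : ℝ} (hr : 0 ≤ r) {P : Polynomial Ser} (h : GrP r A P) :
    ∃ P' : Polynomial (ModBy_GS r hr), P'.map (ModBy_GS r hr).subtype = P := by
  rw [← Polynomial.mem_lifts, Polynomial.lifts_iff_coeff_lifts]
  intro k
  exact ⟨⟨P.coeff k, A, h k⟩, rfl⟩

theorem evP_add {r A B : ℝ} (s : ℂ ≃+* ℂ) {P Q : Polynomial Ser} (h1 : GrP r A P)
    (h2 : GrP r B Q) {t : ℂ} (ht : ‖t‖ ≤ r) (y : ℂ) : evP s (P + Q) t y = evP s P t y + evP s Q t y := by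
  have hr : 0 ≤ r := (norm_nonneg t).trans ht
  obtain ⟨P', rfl⟩ := ModBy_lift hr h1
  obtain ⟨Q', rfl⟩ := ModBy_lift hr h2
  rw [← Polynomial.map_add, ModBy_evP hr s ht, ModBy_evP hr s ht, ModBy_evP hr s ht,
    Polynomial.eval₂_add]

theorem evP_mul {r A B : ℝ} (s : ℂ ≃+* ℂ) {P Q : Polynomial Ser} (h1 : GrP r A P)
    (h2 : GrP r B Q) {t : ℂ} (ht : ‖t‖ ≤ r) (y : ℂ) : evP s (P * Q) t y = evP s P t y * evP s Q t y := by
  have hr : 0 ≤ r := (norm_nonneg t).trans ht
  obtain ⟨P', rfl⟩ := ModBy_lift hr h1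
  obtain ⟨Q', rfl⟩ := ModBy_lift hr h2
  rw [← Polynomial.map_mul, ModBy_evP hr s ht, ModBy_evP hr s ht, ModBy_evP hr s ht,
    Polynomial.eval₂_mul]

theorem evP_mod {r A B : ℝ} (s : ℂ ≃+* ℂ) {Φs P : Polynomial Ser} (hm : Φs.Monic) (h1 : GrP r A Φs)
    (h2 : GrP r B P) {t : ℂ} (ht : ‖t‖ ≤ r) {y : ℂ} (hy : evP s Φs t y = 0) :
    evP s (P %ₘ Φs) t y = evP s P t y := by
  have hr : 0 ≤ r := (norm_nonneg t).trans ht
  obtain ⟨P', rfl⟩ := ModBy_lift hr h2
  obtain ⟨F', rfl⟩ := ModBy_lift hr h1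
  have hm' : F'.Monic := Polynomial.monic_of_injective Subtype.val_injective hm
  rw [ModBy_evP hr s ht] at hy
  rw [← Polynomial.map_modByMonic _ hm', ModBy_evP hr s ht, ModBy_evP hr s ht]
  conv_rhs => rw [← Polynomial.modByMonic_add_div P' F']
  rw [Polynomial.eval₂_add, Polynomial.eval₂_mul, hy, zero_mul, add_zero]

private theorem ModBy_phc (Φ : Polynomial (Polynomial ℤ)) (S : Ser) (k : ℕ) :
    (Phs Φ S).coeff k = (Φ.coeff k).eval₂ (Int.castRingHom Ser) S := by
  unfold Phs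
  rw [Polynomial.coeff_map]
  rfl

theorem phs_gr {r B₀ : ℝ} (hr : 0 ≤ r) {S : Ser} (hS : Gr r B₀ S) (h1 : 1 ≤ B₀)
    {Φ : Polynomial (Polynomial ℤ)} {d : ℕ} {B : ℝ} (hd : ∀ k, (Φ.coeff k).natDegree ≤ d)
    (hB : ∀ k m, |(((Φ.coeff k).coeff m : ℤ) : ℝ)| ≤ B) :
    GrP r ((d + 1) * (B * B₀ ^ d)) (Phs Φ S) := by
  have hB0 : 0 ≤ B := (abs_nonneg _).trans (hB 0 0)
  intro k
  rw [ModBy_phc, Polynomial.eval₂_eq_sum_range' _ (Nat.lt_succ_of_le (hd k))]
  refine gr_mono (gr_sum (Finset.range (d + 1)) _ (fun m => B * B₀ ^ m) hr fun m _ => ?_) ?_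
  · refine gr_mul ?_ (gr_pow hS hr m) hr
    have e1 : (Int.castRingHom Ser) ((Φ.coeff k).coeff m) =
        C (((Φ.coeff k).coeff m : ℤ) : OO) := by
      simp
    rw [e1]
    refine gr_C hB0 fun s' => ?_
    have e2 : s' ((((Φ.coeff k).coeff m : ℤ) : OO) : ℂ) = (((Φ.coeff k).coeff m : ℤ) : ℂ) := by
      simp
    rw [e2, Complex.norm_intCast]
    exact hB k m
  · calc ∑ m ∈ Finset.range (d + 1), B * B₀ ^ m
        ≤ ∑ m ∈ Finset.range (d + 1), B * B₀ ^ d := by
          refine Finset.sum_le_sum fun m hm => ?_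
          exact mul_le_mul_of_nonneg_left (pow_le_pow_right₀ h1
            (Nat.lt_succ_iff.1 (Finset.mem_range.1 hm))) hB0
      _ = (d + 1) * (B * B₀ ^ d) := by
          rw [Finset.sum_const, Finset.card_range, nsmul_eq_mul]
          push_cast
          ring

theorem phs_inK {K : IntermediateField ℚ ℂ} {S : Ser} (hS : InK K S)
    (Φ : Polynomial (Polynomial ℤ)) (k : ℕ) : InK K ((Phs Φ S).coeff k) := by
  rw [ModBy_phc, Polynomial.eval₂_eq_sum_range]
  refine InK.sum fun m _ => InK.mul ?_ (hS.pow m)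
  have e1 : (Int.castRingHom Ser) ((Φ.coeff k).coeff m) =
      C (((Φ.coeff k).coeff m : ℤ) : OO) := by
    simp
  rw [e1]
  refine InK.C ?_
  have e2 : ((((Φ.coeff k).coeff m : ℤ) : OO) : ℂ) = (((Φ.coeff k).coeff m : ℤ) : ℂ) := by
    simp
  rw [e2]
  exact K.intCast_mem _

theorem phs_monic {S : Ser} {Φ : Polynomial (Polynomial ℤ)} (h : Φ.Monic) :
    (Phs Φ S).Monic ∧ (Phs Φ S).natDegree = Φ.natDegree :=
  ⟨h.map _, h.natDegree_map _⟩

theorem evP_phs {r B₀ : ℝ} (s : ℂ ≃+* ℂ) {S : Ser} (hS : Gr r B₀ S) (Φ : Polynomial (Polynomial ℤ))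
    {t : ℂ} (ht : ‖t‖ ≤ r) (y : ℂ) :
    evP s (Phs Φ S) t y =
      (Φ.map (Polynomial.eval₂RingHom (Int.castRingHom ℂ) (evc s S t))).eval y := by
  have hr : 0 ≤ r := (norm_nonneg t).trans ht
  set S' : ModBy_GS r hr := ⟨S, B₀, hS⟩ with hS'
  have e1 : Phs Φ S = (Φ.map (Polynomial.eval₂RingHom (Int.castRingHom (ModBy_GS r hr)) S')).map
      (ModBy_GS r hr).subtype := by
    unfold Phs
    rw [Polynomial.map_map]
    congr 1
    refine Polynomial.ringHom_ext (fun a => ?_) ?_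
    · simp
    · simp [hS']
  have e2 : (ModBy_ev hr s ht).comp
      (Polynomial.eval₂RingHom (Int.castRingHom (ModBy_GS r hr)) S') =
      Polynomial.eval₂RingHom (Int.castRingHom ℂ) (evc s S t) := by
    refine Polynomial.ringHom_ext (fun a => ?_) ?_
    · simp
    · simp only [RingHom.comp_apply, Polynomial.coe_eval₂RingHom, Polynomial.eval₂_X]
      rfl
  rw [e1, ModBy_evP hr s ht, Polynomial.eval₂_map, e2, Polynomial.eval_map]

theorem evP_G (s : ℂ ≃+* ℂ) (G : Polynomial OO) (m : ℕ) (t y : ℂ) :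
    evP s ((G.map (C (R := OO))) ^ m) t y = (G.map (sC s)).eval y ^ m := by
  have hinj : Function.Injective (C (R := OO)) := C_injective
  rw [← Polynomial.map_pow]
  unfold evP
  rw [Polynomial.natDegree_map_eq_of_injective hinj, ← Polynomial.eval_pow, ← Polynomial.map_pow,
    Polynomial.eval_map, Polynomial.eval₂_eq_sum_range]
  refine Finset.sum_congr rfl fun k _ => ?_
  rw [Polynomial.coeff_map, evc_C]
  rfl

private theorem ModBy_pfc (N : ℕ) (f : ℕ → Ser) (k : ℕ) :
    (Pf N f).coeff k = if k < N then f k else 0 := by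
  unfold Pf
  rw [Polynomial.finset_sum_coeff]
  simp only [Polynomial.coeff_C_mul, Polynomial.coeff_X_pow, mul_ite, mul_one, mul_zero]
  rw [Finset.sum_ite_eq]
  simp only [Finset.mem_range]

private theorem ModBy_evN (s : ℂ ≃+* ℂ) {P : Polynomial Ser} {N : ℕ} (h : P.natDegree < N) (t y : ℂ) :
    evP s P t y = ∑ k ∈ Finset.range N, evc s (P.coeff k) t * y ^ k := by
  unfold evP
  refine Finset.sum_subset (Finset.range_subset_range.2 h) fun k _ hk => ?_
  rw [Polynomial.coeff_eq_zero_of_natDegree_lt (by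
    by_contra h'
    exact hk (Finset.mem_range.2 (by omega))), evc_zero, zero_mul]

private theorem ModBy_evPf (s : ℂ ≃+* ℂ) (N : ℕ) (f : ℕ → Ser) (t y : ℂ) :
    evP s (Pf N f) t y = ∑ k ∈ Finset.range N, evc s (f k) t * y ^ k := by
  have h1 : (Pf N f).natDegree < N + 1 := by
    rw [Nat.lt_succ_iff, Polynomial.natDegree_le_iff_coeff_eq_zero]
    intro k hk
    rw [ModBy_pfc, if_neg (by omega)]
  rw [ModBy_evN s h1, Finset.sum_range_succ, ModBy_pfc, if_neg (lt_irrefl N), evc_zero, zero_mul,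
    add_zero]
  refine Finset.sum_congr rfl fun k hk => ?_
  rw [ModBy_pfc, if_pos (Finset.mem_range.1 hk)]

theorem vb_c {r A B B' : ℝ} (hr : 0 < r) (s : ℂ ≃+* ℂ) {Φs U : Polynomial Ser} {N R T : ℕ}
    {f : ℕ → Ser} (hm : Φs.Monic) (hR : Φs.natDegree = R) (hR0 : 0 < R) (h1 : GrP r A Φs)
    (h2 : GrP r B' U) (h3 : ∀ k < N, Gr r B (f k)) (hB : 0 ≤ B) (hA : 0 ≤ A) (hB' : 0 ≤ B')
    (hv : VB Φs U N R T f) {t y : ℂ} (ht : ‖t‖ ≤ r) (hy : evP s Φs t y = 0) :
    ‖evP s U t y * ∑ k ∈ Finset.range N, evc s (f k) t * y ^ k‖ ≤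
      (R * ((U.natDegree + 1) * (B' * B) * (U.natDegree + N + 1) *
        (1 + A) ^ (U.natDegree + N + 1))) * max 1 ‖y‖ ^ R * (‖t‖ / r) ^ T := by
  have hpf : GrP r B (Pf N f) := by
    intro k
    rw [ModBy_pfc]
    split_ifs with h
    · exact h3 k h
    · exact gr_mono gr_zero hB
  have hmul := mul_gr hr.le h2 hpf
  have hdeg : (U * Pf N f).natDegree ≤ U.natDegree + N := by
    refine Polynomial.natDegree_mul_le.trans (Nat.add_le_add_left ?_ _)
    rw [Polynomial.natDegree_le_iff_coeff_eq_zero]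
    intro k hk
    rw [ModBy_pfc, if_neg (by omega)]
  have hmod := modby_gr hr.le hm h1 hmul hdeg
  rw [← ModBy_evPf s N f t y, ← evP_mul s h2 hpf ht y, ← evP_mod s hm h1 hmul ht hy]
  have hne : Φs ≠ 1 := ModBy_ne (by omega)
  have hnd : ((U * Pf N f) %ₘ Φs).natDegree < R := by
    rw [← hR]
    exact Polynomial.natDegree_modByMonic_lt _ hm hne
  rw [ModBy_evN s hnd]
  set D : ℝ := (U.natDegree + 1) * (B' * B) * (U.natDegree + N + 1) *
        (1 + A) ^ (U.natDegree + N + 1) with hD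
  have hmod' : GrP r D ((U * Pf N f) %ₘ Φs) := by
    have e : (↑(U.natDegree) + 1) * (B' * B) * (((U.natDegree + N : ℕ) : ℝ) + 1) *
        (1 + A) ^ (U.natDegree + N + 1) = D := by
      rw [hD]
      push_cast
      ring
    rw [e] at hmod
    exact hmod
  have hD0 : 0 ≤ D := ModBy_nn hmod'
  have hq : 0 ≤ (‖t‖ / r) ^ T := by positivity
  have hterm : ∀ k ∈ Finset.range R,
      ‖evc s (((U * Pf N f) %ₘ Φs).coeff k) t * y ^ k‖ ≤ D * (‖t‖ / r) ^ T * max 1 ‖y‖ ^ R := by
    intro k hk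
    rw [norm_mul, norm_pow]
    refine mul_le_mul (evc_order (hmod' k) hr ht s T (hv k (Finset.mem_range.1 hk))) ?_
      (by positivity) (by positivity)
    calc ‖y‖ ^ k ≤ max 1 ‖y‖ ^ k := pow_le_pow_left₀ (norm_nonneg y) (le_max_right _ _) k
      _ ≤ max 1 ‖y‖ ^ R := pow_le_pow_right₀ (le_max_left _ _) (Finset.mem_range.1 hk).le
  calc ‖∑ k ∈ Finset.range R, evc s (((U * Pf N f) %ₘ Φs).coeff k) t * y ^ k‖
      ≤ ∑ k ∈ Finset.range R, D * (‖t‖ / r) ^ T * max 1 ‖y‖ ^ R := norm_sum_le_of_le _ hterm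
    _ = R * D * max 1 ‖y‖ ^ R * (‖t‖ / r) ^ T := by
        rw [Finset.sum_const, Finset.card_range, nsmul_eq_mul]
        ring

end Pool.Agent.LGO.RCM
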