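import Mathlib
import Pool.Agent.LGO.RCM.ModBy
import Pool.Agent.LGO.RU.Sie
import Pool.Agent.LGO.RU.Sys

/-!
# LGO/RCM: the general linear system

Compare `sys` (`LGO/RU/Sys.lean`).  PROOF.  `sie K`.  Equations: the type `a = 1`: `i < L`, `k < R`, `m < T` (`L R T` equations), and the type `a = L`: the elements of `I` (`≤ r`).  The entry for the unknown `u`: the coefficient of `t ^ m` in the `k`-th coefficient of
`(U * Pf N (fun k' => Ar1 N (fun k => Gs u k k') qa a d i)) %ₘ Φs`: in `K` (`modby_inK`, `InK`-calculus; `sp` is integral), conjugates at most `ρ ^ (-T) exp((C B) ^ C)` (`mul_gr`, `modby_gr`; the growth of `Ar1`: compare `Arr_gr` in `Sys.lean` / `ArrB.lean`: `sp (PE R k) d i (qa ^ a)`).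
`VAC` is linear in the unknowns: `Ar1`, `Pf` are additive, `(U * P) %ₘ Φs` is additive and commutes with the multiplication by constants `C (c u)`.
-/

namespace Pool.Agent.LGO.RCM

open PowerSeries Pool.Agent.Hhelper14.ZP Pool.Agent.LGO.RU Pool.Agent.LGO

private theorem SysC_pfc (N : ℕ) (f : ℕ → Ser) (k : ℕ) :
    (Pf N f).coeff k = if k < N then f k else 0 := by
  unfold Pf
  rw [Polynomial.finsetSum_coeff]
  simp only [Polynomial.coeff_C_mul, Polynomial.coeff_X_pow, mul_ite, mul_one, mul_zero]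
  rw [Finset.sum_ite_eq]
  simp only [Finset.mem_range]

/-- the equations are linear -/
private theorem SysC_lin {κ : Type} [Fintype κ] (c : κ → OO) (Gs : κ → ℕ → ℕ → Ser) (N : ℕ)
    (qa : Ser) (a d i : ℕ) (U Φs : Polynomial Ser) (k m : ℕ) :
    coeff m (((U * Pf N (fun k' => Ar1 N (fun k => ∑ u, PowerSeries.C (c u) * Gs u k k') qa a d i)) %ₘ
      Φs).coeff k) =
      ∑ u, coeff m (((U * Pf N (fun k' => Ar1 N (fun k => Gs u k k') qa a d i)) %ₘ Φs).coeff k) *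
        c u := by
  have e1 : U * Pf N (fun k' => Ar1 N (fun k => ∑ u, PowerSeries.C (c u) * Gs u k k') qa a d i) =
      ∑ u, (PowerSeries.C (c u) : Ser) •
        (U * Pf N (fun k' => Ar1 N (fun k => Gs u k k') qa a d i)) := by
    have e0 : Pf N (fun k' => Ar1 N (fun k => ∑ u, PowerSeries.C (c u) * Gs u k k') qa a d i) =
        ∑ u, (PowerSeries.C (c u) : Ser) • Pf N (fun k' => Ar1 N (fun k => Gs u k k') qa a d i) := by
      ext1 l
      rw [SysC_pfc, Polynomial.finsetSum_coeff]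
      simp only [Polynomial.coeff_smul, SysC_pfc, smul_eq_mul]
      split_ifs with h
      · unfold Ar1
        simp only [Finset.sum_mul, Finset.mul_sum]
        rw [Finset.sum_comm]
        exact Finset.sum_congr rfl fun u _ => Finset.sum_congr rfl fun k _ => by ring
      · simp
    rw [e0, Finset.mul_sum]
    refine Finset.sum_congr rfl fun u _ => ?_
    rw [mul_smul_comm]
  have e2 : ∀ P : Polynomial Ser, P %ₘ Φs = Polynomial.modByMonicHom Φs P := fun P => rfl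
  rw [e1, e2, map_sum, Polynomial.finsetSum_coeff, map_sum]
  refine Finset.sum_congr rfl fun u _ => ?_
  rw [map_smul, Polynomial.coeff_smul, smul_eq_mul, coeff_C_mul, mul_comm]
  rfl

private theorem SysC_inK {K : IntermediateField ℚ ℂ} {G : ℕ → ℕ → Ser} {N : ℕ} {qa : Ser}
    (ha : InK K qa) (hG : ∀ k < N, ∀ k' < N, InK K (G k k')) {U Φs : Polynomial Ser} (hm : Φs.Monic)
    (h1 : ∀ k, InK K (Φs.coeff k)) (hU : ∀ k, InK K (U.coeff k)) (a d i k : ℕ) :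
    InK K (((U * Pf N (fun k' => Ar1 N (fun k => G k k') qa a d i)) %ₘ Φs).coeff k) := by
  refine modby_inK hm h1 (fun l => ?_) k
  rw [Polynomial.coeff_mul]
  refine InK.sum fun x _ => (hU x.1).mul ?_
  rw [SysC_pfc]
  by_cases hx : x.2 < N
  · rw [if_pos hx]
    exact InK.sum fun k hk => (hG k (Finset.mem_range.1 hk) x.2 hx).mul (InK.sp _ _ _ (ha.pow a))
  · rw [if_neg hx]
    exact InK.zero

/-- the growth of the equations -/
private theorem SysC_gr : ∃ C₁ : ℕ, 1 ≤ C₁ ∧ ∀ (L N a d i : ℕ) (G : ℕ → ℕ → Ser) (qa : Ser)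
    (ρ B B' : ℝ) (U Φs : Polynomial Ser), 0 ≤ ρ → 0 < L → 0 < a → d ≤ L → i < d → 0 ≤ B' →
    Gr ρ (1 / 2) qa → (∀ k < N, ∀ k' < N, Gr ρ (Real.exp B) (G k k')) → Φs.Monic →
    GrP ρ (Real.exp B) Φs → GrP ρ B' U →
      GrP ρ ((U.natDegree + 1) * (B' * (N * (Real.exp B * Real.exp (C₁ * ((N : ℝ) + 1) ^ 2 * L)))) *
        (U.natDegree + N + 1) * (1 + Real.exp B) ^ (U.natDegree + N + 1))
        ((U * Pf N (fun k' => Ar1 N (fun k => G k k') qa a d i)) %ₘ Φs) := by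
  obtain ⟨C₁, hC₁, hsp⟩ := sp_gr
  refine ⟨C₁, hC₁, ?_⟩
  intro L N a d i G qa ρ B B' U Φs hρ hL ha hd hi hB' ga hG hm h1 hU
  set D : ℝ := N * (Real.exp B * Real.exp (C₁ * ((N : ℝ) + 1) ^ 2 * L)) with hD
  have hD0 : 0 ≤ D := by positivity
  have hq : Gr ρ (1 / 2) (qa ^ a) := by
    refine gr_mono (gr_pow ga hρ a) ?_
    calc (1 / 2 : ℝ) ^ a ≤ (1 / 2) ^ 1 := pow_le_pow_of_le_one (by norm_num) (by norm_num) ha
      _ = 1 / 2 := pow_one _
  have hpf : GrP ρ D (Pf N (fun k' => Ar1 N (fun k => G k k') qa a d i)) := by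
    intro l
    rw [SysC_pfc]
    by_cases hl : l < N
    · rw [if_pos hl]
      refine gr_mono (gr_sum (Finset.range N) _
        (fun _ => Real.exp B * Real.exp (C₁ * ((N : ℝ) + 1) ^ 2 * L)) hρ fun k hk => ?_) ?_
      · rw [Finset.mem_range] at hk
        exact gr_mul (hG k hk l hl) (hsp L N k d i ρ _ hρ hL hk.le hd hi hq) hρ
      · rw [Finset.sum_const, Finset.card_range, nsmul_eq_mul]
    · rw [if_neg hl]
      exact gr_mono gr_zero hD0
  have hmul := mul_gr hρ hU hpf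
  have hdeg : (U * Pf N (fun k' => Ar1 N (fun k => G k k') qa a d i)).natDegree ≤
      U.natDegree + N := by
    refine Polynomial.natDegree_mul_le.trans (Nat.add_le_add_left ?_ _)
    rw [Polynomial.natDegree_le_iff_coeff_eq_zero]
    intro k hk
    rw [SysC_pfc, if_neg (by omega)]
  have hmod := modby_gr hρ hm h1 hmul hdeg
  have e : (↑(U.natDegree) + 1) * (B' * D) * (((U.natDegree + N : ℕ) : ℝ) + 1) *
      (1 + Real.exp B) ^ (U.natDegree + N + 1) =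
      (U.natDegree + 1) * (B' * D) * (U.natDegree + N + 1) *
        (1 + Real.exp B) ^ (U.natDegree + N + 1) := by
    push_cast
    ring
  rw [e] at hmod
  exact hmod

/-- the numbers -/
private theorem SysC_num {C₁ : ℕ} {L N T u : ℕ} {B l : ℝ} (hB : 1 ≤ B) (hl : 0 ≤ l)
    (hL : (L : ℝ) ≤ B) (hN : (N : ℝ) ≤ B) (hT : (T : ℝ) ≤ B) (hu : (u : ℝ) ≤ B) {B' : ℝ}
    (hB'0 : 0 ≤ B') (hB' : B' ≤ Real.exp B) :
    (u + 1) * (B' * (N * (Real.exp B * Real.exp (C₁ * ((N : ℝ) + 1) ^ 2 * L)))) *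
        (u + N + 1) * (1 + Real.exp B) ^ (u + N + 1) * Real.exp (l * T) ≤
      Real.exp ((12 + 4 * C₁ + l) * B ^ 3) := by
  have hB0 : 0 ≤ B := by linarith
  have l0 : (0 : ℝ) ≤ L := Nat.cast_nonneg _
  have n0 : (0 : ℝ) ≤ N := Nat.cast_nonneg _
  have u0 : (0 : ℝ) ≤ u := Nat.cast_nonneg _
  have c0 : (0 : ℝ) ≤ C₁ := Nat.cast_nonneg _
  have nat : ∀ {k : ℕ}, (k : ℝ) ≤ B → ((k : ℝ) + 1) ≤ Real.exp B := fun {k} hk =>
    (Real.add_one_le_exp _).trans (Real.exp_le_exp.2 hk)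
  have f4 : (u : ℝ) + 1 ≤ Real.exp B := nat hu
  have f5 : (N : ℝ) ≤ Real.exp B := by linarith [nat hN]
  have f6 : Real.exp (C₁ * ((N : ℝ) + 1) ^ 2 * L) ≤ Real.exp (4 * C₁ * B ^ 3) := by
    rw [Real.exp_le_exp]
    have h1 : ((N : ℝ) + 1) ^ 2 ≤ (2 * B) ^ 2 := pow_le_pow_left₀ (by linarith) (by linarith) 2
    calc (C₁ : ℝ) * ((N : ℝ) + 1) ^ 2 * L ≤ C₁ * (2 * B) ^ 2 * B := by
          refine mul_le_mul (mul_le_mul_of_nonneg_left h1 c0) hL l0 (by positivity)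
      _ = 4 * C₁ * B ^ 3 := by ring
  have f7 : (u : ℝ) + N + 1 ≤ Real.exp (2 * B) := by
    calc (u : ℝ) + N + 1 ≤ 2 * B + 1 := by linarith
      _ ≤ Real.exp (2 * B) := Real.add_one_le_exp _
  have f8 : (1 + Real.exp B) ^ (u + N + 1) ≤ Real.exp (6 * B ^ 2) := by
    have e1 : 1 + Real.exp B ≤ Real.exp (2 * B) := by
      have h1 : 1 + B ≤ Real.exp B := by linarith [Real.add_one_le_exp B]
      have h2 : Real.exp (2 * B) = Real.exp B * Real.exp B := by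
        rw [← Real.exp_add]; ring_nf
      rw [h2]
      nlinarith
    calc (1 + Real.exp B) ^ (u + N + 1) ≤ Real.exp (2 * B) ^ (u + N + 1) :=
          pow_le_pow_left₀ (by positivity) e1 _
      _ = Real.exp ((u + N + 1 : ℕ) * (2 * B)) := by rw [← Real.exp_nat_mul]
      _ ≤ Real.exp (6 * B ^ 2) := by
          rw [Real.exp_le_exp]
          push_cast
          nlinarith
  have f9 : Real.exp (l * T) ≤ Real.exp (l * B) :=
    Real.exp_le_exp.2 (mul_le_mul_of_nonneg_left hT hl)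
  calc (u + 1) * (B' * (N * (Real.exp B * Real.exp (C₁ * ((N : ℝ) + 1) ^ 2 * L)))) *
        (u + N + 1) * (1 + Real.exp B) ^ (u + N + 1) * Real.exp (l * T)
      ≤ Real.exp B * (Real.exp B * (Real.exp B * (Real.exp B * Real.exp (4 * C₁ * B ^ 3)))) *
        Real.exp (2 * B) * Real.exp (6 * B ^ 2) * Real.exp (l * B) := by gcongr
    _ = Real.exp (6 * B + 6 * B ^ 2 + 4 * C₁ * B ^ 3 + l * B) := by
        simp only [← Real.exp_add]
        ring_nf
    _ ≤ _ := by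
        rw [Real.exp_le_exp]
        have h1 : B ≤ B ^ 3 := le_self_pow₀ hB (by norm_num)
        have h2 : B ^ 2 ≤ B ^ 3 := pow_le_pow_right₀ hB (by norm_num)
        nlinarith [mul_le_mul_of_nonneg_left h1 hl]

/-- the exponents -/
private theorem SysC_exp {q B l : ℝ} {C₁ C₂ C₃ C : ℕ} (hC₁ : 1 ≤ C₁) (hq : 1 ≤ q)
    (hB : 1 ≤ B) (hl : 0 ≤ l) (h3 : (13 : ℝ) + 4 * C₂ + l ≤ C₃) (hC : C = 3 * C₁ * C₃) :
    ((C₁ : ℝ) * q * (1 + (12 + 4 * C₂ + l) * B ^ 3)) ^ C₁ ≤ (C * q * B) ^ C := by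
  have hC₁' : (1 : ℝ) ≤ C₁ := by exact_mod_cast hC₁
  have hc0 : (0 : ℝ) ≤ C₂ := Nat.cast_nonneg _
  have hC₃' : (1 : ℝ) ≤ C₃ := by linarith
  have hC₃n : 1 ≤ C₃ := by exact_mod_cast hC₃'
  have hB3 : (1 : ℝ) ≤ B ^ 3 := one_le_pow₀ hB
  have hCR : (C : ℝ) = 3 * C₁ * C₃ := by rw [hC]; push_cast; ring
  have e1 : 1 + (12 + 4 * (C₂ : ℝ) + l) * B ^ 3 ≤ C₃ * B ^ 3 := by nlinarith
  have e2 : (C₁ : ℝ) * q * (1 + (12 + 4 * C₂ + l) * B ^ 3) ≤ (C₁ * C₃ * q * B) ^ 3 := by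
    calc (C₁ : ℝ) * q * (1 + (12 + 4 * C₂ + l) * B ^ 3) ≤ (C₁ : ℝ) * q * (C₃ * B ^ 3) := by gcongr
      _ = ((C₁ : ℝ) * C₃) * q * B ^ 3 := by ring
      _ ≤ ((C₁ : ℝ) * C₃) ^ 3 * q ^ 3 * B ^ 3 := by
          gcongr
          · exact le_self_pow₀ (one_le_mul_of_one_le_of_one_le hC₁' hC₃') (by norm_num)
          · exact le_self_pow₀ hq (by norm_num)
      _ = _ := by ring
  have e3 : 1 ≤ (C₁ : ℝ) * C₃ * q * B :=
    one_le_mul_of_one_le_of_one_le (one_le_mul_of_one_le_of_one_le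
      (one_le_mul_of_one_le_of_one_le hC₁' hC₃') hq) hB
  have e4 : (C₁ : ℝ) * C₃ * q * B ≤ C * q * B := by
    have : (C₁ : ℝ) * C₃ ≤ C := by
      rw [hCR]
      have : 0 ≤ (C₁ : ℝ) * C₃ := by positivity
      linarith
    gcongr
  calc ((C₁ : ℝ) * q * (1 + (12 + 4 * C₂ + l) * B ^ 3)) ^ C₁ ≤ ((C₁ * C₃ * q * B) ^ 3) ^ C₁ := by
        gcongr
    _ = (C₁ * C₃ * q * B) ^ (3 * C₁) := by rw [← pow_mul]
    _ ≤ (C * q * B) ^ (3 * C₁) := by gcongr
    _ ≤ (C * q * B) ^ C := by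
        refine pow_le_pow_right₀ (e3.trans e4) ?_
        rw [hC]
        exact Nat.le_mul_of_pos_right _ hC₃n

theorem sysC (K : IntermediateField ℚ ℂ) [FiniteDimensional ℚ K] {qa : Ser} {ρ : ℝ}
    (hρ : 0 < ρ) (hρ1 : ρ ≤ 1) (h0 : coeff 0 qa = 0) (ha : InK K qa) (ga : Gr ρ (1 / 2) qa) :
    ∃ C : ℕ, 0 < C ∧
    ∀ (κ : Type) [Fintype κ] (L N R T r : ℕ) (Gs : κ → ℕ → ℕ → Ser) (Φs U : Polynomial Ser) (B : ℝ),
      0 < L → 0 < R → 1 ≤ B → (L : ℝ) ≤ B → (N : ℝ) ≤ B → (R : ℝ) ≤ B → (T : ℝ) ≤ B →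
      Φs.Monic → Φs.natDegree = R → (∀ k, InK K (Φs.coeff k)) → GrP ρ (Real.exp B) Φs →
      (U.natDegree : ℝ) ≤ B → (∀ k, InK K (U.coeff k)) → GrP ρ (Real.exp B) U →
      (∀ u, ∀ k < N, ∀ k' < N, InK K (Gs u k k') ∧ Gr ρ (Real.exp B) (Gs u k k')) →
      (∃ I : Finset (ℕ × ℕ), I.card ≤ r ∧ (∀ x ∈ I, x.1 < R ∧ x.2 < T) ∧ ∀ P : Polynomial Ser,
        (∀ x ∈ I, coeff x.2 (((U * P) %ₘ Φs).coeff x.1) = 0) →
        ∀ i < R, ∀ m < T, coeff m (((U * P) %ₘ Φs).coeff i) = 0) →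
      L * R * T + r < Fintype.card κ →
      ∃ c : κ → OO, (∃ u, c u ≠ 0) ∧ (∀ u, ((c u : OO) : ℂ) ∈ K) ∧
        (∀ u (s : ℂ ≃+* ℂ), ‖s ((c u : OO) : ℂ)‖ ≤
          Real.exp (((C : ℝ) * (Fintype.card κ) * B) ^ C)) ∧
        VAC L N R (fun k k' => ∑ u, PowerSeries.C (c u) * Gs u k k') qa Φs U T := by
  obtain ⟨C₁, hC₁, hsie⟩ := sie K
  obtain ⟨C₂, hC₂, hgr⟩ := SysC_gr
  obtain ⟨l, hl⟩ := exists_nat_ge (Real.log (1 / ρ))
  refine ⟨3 * C₁ * (13 + 4 * C₂ + l), by positivity, ?_⟩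
  intro κ _ L N R T r Gs Φs U B hL hR hB hLB hNB hRB hTB hm hdeg hΦK hΦg hUd hUK hUg hGs hI hcount
  obtain ⟨I, hIr, hIm, hI⟩ := hI
  have hl0 : (0 : ℝ) ≤ l := Nat.cast_nonneg l
  have hB0 : 0 ≤ B := by linarith
  have hpw : ∀ n < T, (1 / ρ) ^ n ≤ Real.exp (l * T) := by
    intro n hn
    have h1 : (1 : ℝ) ≤ 1 / ρ := by
      rw [one_le_div hρ]
      exact hρ1
    have h2 : 1 / ρ ≤ Real.exp l := by
      rw [← Real.log_le_iff_le_exp (by positivity)]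
      exact hl
    calc (1 / ρ) ^ n ≤ (1 / ρ) ^ T := pow_le_pow_right₀ h1 hn.le
      _ ≤ Real.exp l ^ T := pow_le_pow_left₀ (by positivity) h2 T
      _ = Real.exp (l * T) := by
          rw [← Real.exp_nat_mul]
          ring_nf
  have h1K : ∀ k, InK K ((1 : Polynomial Ser).coeff k) := by
    intro k
    rw [Polynomial.coeff_one]
    split_ifs
    · exact InK.one
    · exact InK.zero
  have h1g : GrP ρ 1 (1 : Polynomial Ser) := by
    intro k
    rw [Polynomial.coeff_one]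
    split_ifs
    · exact gr_one
    · exact gr_mono gr_zero zero_le_one
  set B₁ : ℝ := (12 + 4 * C₂ + l) * B ^ 3 with hB₁
  have hB₁0 : 0 ≤ B₁ := by positivity
  -- the conjugates of the entries
  have hcf : ∀ (V : Polynomial Ser) (B' : ℝ), 0 ≤ B' → B' ≤ Real.exp B → (V.natDegree : ℝ) ≤ B →
      GrP ρ B' V → ∀ (u : κ) (a d i k n : ℕ), 0 < a → d ≤ L → i < d → n < T →
      ∀ s : ℂ ≃+* ℂ, ‖s ((coeff n (((V * Pf N (fun k' => Ar1 N (fun k => Gs u k k') qa a d i)) %ₘ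
        Φs).coeff k) : OO) : ℂ)‖ ≤ Real.exp B₁ := by
    intro V B' hB'0 hB' hVd hVg u a d i k n ha0 hd hi hn s
    have h1 := (hgr L N a d i (Gs u) qa ρ B B' V Φs hρ.le hL ha0 hd hi hB'0 ga
      (fun k hk k' hk' => (hGs u k hk k' hk').2) hm hΦg hVg k).coef hρ.le s n
    have h2 : ‖s ((coeff n (((V * Pf N (fun k' => Ar1 N (fun k => Gs u k k') qa a d i)) %ₘ
        Φs).coeff k) : OO) : ℂ)‖ ≤
        ((V.natDegree + 1) * (B' * (N * (Real.exp B * Real.exp (C₂ * ((N : ℝ) + 1) ^ 2 * L)))) *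
        (V.natDegree + N + 1) * (1 + Real.exp B) ^ (V.natDegree + N + 1)) * (1 / ρ) ^ n := by
      rw [one_div, inv_pow, ← div_eq_mul_inv, le_div_iff₀ (pow_pos hρ n)]
      exact h1
    refine h2.trans ((mul_le_mul_of_nonneg_left (hpw n hn) (by positivity)).trans ?_)
    exact SysC_num hB hl0 hLB hNB hTB hVd hB'0 hB'
  -- the equations
  obtain ⟨c, hc, hcK, hc0, hcb⟩ := hsie ((Fin L × Fin R × Fin T) ⊕ {x // x ∈ I}) κ
    (fun q u => Sum.elim
      (fun q => coeff (q.2.2 : ℕ) ((((1 : Polynomial Ser) *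
        Pf N (fun k' => Ar1 N (fun k => Gs u k k') qa 1 L q.1)) %ₘ Φs).coeff (q.2.1 : ℕ)))
      (fun q => coeff q.1.2 (((U * Pf N (fun k' => Ar1 N (fun k => Gs u k k') qa L 1 0)) %ₘ
        Φs).coeff q.1.1)) q) B₁ hB₁0
    (by
      rw [Fintype.card_sum, Fintype.card_prod, Fintype.card_prod, Fintype.card_fin,
        Fintype.card_fin, Fintype.card_fin, Fintype.card_coe, ← mul_assoc]
      omega)
    (by
      rintro (q | q) u
      · exact SysC_inK ha (fun k hk k' hk' => (hGs u k hk k' hk').1) hm hΦK h1K _ _ _ _ _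
      · exact SysC_inK ha (fun k hk k' hk' => (hGs u k hk k' hk').1) hm hΦK hUK _ _ _ _ _)
    (by
      rintro (q | q) u s
      · exact hcf 1 1 zero_le_one (Real.one_le_exp hB0) (by
          rw [Polynomial.natDegree_one]
          simpa using hB0) h1g u 1 L q.1 q.2.1 q.2.2 one_pos le_rfl q.1.2 q.2.2.2 s
      · exact hcf U (Real.exp B) (Real.exp_pos _).le le_rfl hUd hUg u L 1 0 q.1.1 q.1.2 hL hL
          one_pos (hIm q.1 q.2).2 s)
  refine ⟨c, hc, hcK, fun u s => (hcb u s).trans (Real.exp_le_exp.2 ?_), ?_, ?_⟩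
  · have hq : (1 : ℝ) ≤ Fintype.card κ := by
      exact_mod_cast (by omega : 1 ≤ Fintype.card κ)
    refine SysC_exp (C₂ := C₂) (l := l) (C₃ := 13 + 4 * C₂ + l) hC₁ hq hB hl0 ?_ rfl
    push_cast
    exact le_rfl
  · intro i hi k hk m hm'
    rw [SysC_lin]
    exact hc0 (Sum.inl ⟨⟨i, hi⟩, ⟨k, hk⟩, ⟨m, hm'⟩⟩)
  · intro k hk m hm'
    refine hI _ (fun x hx => ?_) k hk m hm'
    rw [SysC_lin]
    exact hc0 (Sum.inr ⟨x, hx⟩)

end Pool.Agent.LGO.RCM
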