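import Mathlib
import Pool.Agent.LGO.RCM.SysC
import Pool.Agent.LGO.RCM.Rank
import Pool.Agent.LGO.RU.Aux1

/-!
# LGO/RCM: the auxiliary function

Compare `aux1_core` (`LGO/RU/Aux1.lean`).  PROOF.  `sysC` with `R = N = L + 1`, `Φs = Phs ld.Φ D.Sb`, `U = (ld.G.map C) ^ ((L + 1) * T)`, unknowns `Fin D.e × Fin (n₂ - 4 L R) × Fin R × Fin R`, `Gs` the monomials (`Gar`), `T` as in the statement, `rank_OO` with `S = R T`, `r = L T`
(`constantCoeff (Phs Φ S) = Φ(β, Y)` by `D.val`; `ld.Gdvd`).  Count: `L R T + L T = (R ^ 2 - 1) T < D.e (n₂ - 4 L R) R ^ 2` for `n₂ = R ^ 2 (4 D.e L R + D.h D.e + D.m L R + D.e) + 1`.  `GrP` of `U`: `mul_gr` iterated, or `G ^ m` has coefficients `≤ ((deg + 1) exp B) ^ m`.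
The final bound is `exp((C B) ^ C)`.
-/

namespace Pool.Agent.LGO.RCM

open PowerSeries Pool.Agent.Hhelper14.ZP Pool.Agent.LGO.RU Pool.Agent.LGO

variable {n : ℕ} {V : Set (Fin n → ℂ)} {a b : Fin n} {β : ℂ}

private theorem Aux1_count {t R e T₀ n₁ n₂ : ℕ} (h : t + 1 = R ^ 2) (hR : 2 ≤ R)
    (he : 0 < e) (hn : n₂ = R ^ 2 * (T₀ + e * n₁) + 1) :
    n₁ ≤ n₂ ∧ t * (e * n₂ + T₀) < e * (n₂ - n₁) * R ^ 2 := by
  have hR4 : 4 ≤ R ^ 2 := by nlinarith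
  have h5 : n₁ + 1 ≤ n₂ := by
    rw [hn]
    have e1 : n₁ ≤ T₀ + e * n₁ := by nlinarith
    nlinarith
  refine ⟨by omega, ?_⟩
  obtain ⟨δ, hδ⟩ := Nat.exists_eq_add_of_le (by omega : n₁ ≤ n₂)
  have e2 : n₂ - n₁ = δ := by omega
  rw [e2, ← h]
  -- `t (T₀ + e n₁) < e δ`
  have e3 : t * (T₀ + e * n₁) + (T₀ + e * n₁) = n₂ - 1 := by
    rw [hn, Nat.add_sub_cancel, ← h]
    ring
  have e4 : n₂ ≤ e * δ + e * n₁ := by
    calc n₂ = 1 * n₂ := (one_mul _).symm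
      _ ≤ e * n₂ := Nat.mul_le_mul_right _ he
      _ = e * δ + e * n₁ := by rw [hδ]; ring
  have e5 : t * (T₀ + e * n₁) < e * δ := by omega
  have e6 : t * (e * n₂ + T₀) = t * (T₀ + e * n₁) + t * (e * δ) := by
    rw [hδ]
    ring
  have e7 : e * δ * (t + 1) = e * δ + t * (e * δ) := by ring
  rw [e6, e7]
  omega

private theorem Aux1_size {L R e h m T₀ n₁ n₂ c₁ c₂ c₃ : ℕ} {B : ℝ} (hB : 1 ≤ B) (hL : (L : ℝ) ≤ B)
    (hR : R = L + 1) (hT₀ : T₀ = h * e + m * L * R + e) (hn₁ : n₁ = 4 * L * R)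
    (hn : n₂ = R ^ 2 * (T₀ + e * n₁) + 1) (hc₁ : c₁ = h * e + 2 * m + e)
    (hc₂ : c₂ = 4 * (c₁ + 8 * e) + 1) (hc₃ : c₃ = e * c₂ + c₁) :
    (R : ℝ) ≤ 2 * B ∧ (n₂ : ℝ) ≤ c₂ * B ^ 4 ∧ ((e * n₂ + T₀ : ℕ) : ℝ) ≤ c₃ * B ^ 4 := by
  have hR2 : (R : ℝ) ≤ 2 * B := by
    rw [hR]
    push_cast
    linarith
  have hB2 : 1 ≤ B ^ 2 := one_le_pow₀ hB
  have hB4 : 1 ≤ B ^ 4 := one_le_pow₀ hB
  have hLR : (L : ℝ) * R ≤ 2 * B ^ 2 := by
    calc (L : ℝ) * R ≤ B * (2 * B) := by gcongr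
      _ = 2 * B ^ 2 := by ring
  have h1 : (T₀ : ℝ) ≤ c₁ * B ^ 2 := by
    rw [hT₀, hc₁]
    push_cast
    calc (h : ℝ) * e + m * L * R + e = h * e + m * (L * R) + e := by ring
      _ ≤ (h * e) * B ^ 2 + m * (2 * B ^ 2) + e * B ^ 2 := by
          have e1 : (h : ℝ) * e ≤ h * e * B ^ 2 := le_mul_of_one_le_right (by positivity) hB2
          have e2 : (e : ℝ) ≤ e * B ^ 2 := le_mul_of_one_le_right (by positivity) hB2
          have e3 : (m : ℝ) * (L * R) ≤ m * (2 * B ^ 2) :=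
            mul_le_mul_of_nonneg_left hLR (by positivity)
          linarith
      _ = (h * e + 2 * m + e) * B ^ 2 := by ring
  have h2 : (e : ℝ) * n₁ ≤ 8 * e * B ^ 2 := by
    rw [hn₁]
    push_cast
    calc (e : ℝ) * (4 * L * R) = 4 * e * (L * R) := by ring
      _ ≤ 4 * e * (2 * B ^ 2) := mul_le_mul_of_nonneg_left hLR (by positivity)
      _ = 8 * e * B ^ 2 := by ring
  have h3 : (n₂ : ℝ) ≤ c₂ * B ^ 4 := by
    rw [hn, hc₂]
    push_cast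
    calc (R : ℝ) ^ 2 * (T₀ + e * n₁) + 1 ≤ (2 * B) ^ 2 * (c₁ * B ^ 2 + 8 * e * B ^ 2) + B ^ 4 := by
          gcongr
      _ = (4 * (c₁ + 8 * e) + 1) * B ^ 4 := by ring
  refine ⟨hR2, h3, ?_⟩
  rw [hc₃]
  push_cast
  have h4 : (T₀ : ℝ) ≤ c₁ * B ^ 4 := h1.trans (mul_le_mul_of_nonneg_left
    (pow_le_pow_right₀ hB (by norm_num)) (by positivity))
  calc (e : ℝ) * n₂ + T₀ ≤ e * (c₂ * B ^ 4) + c₁ * B ^ 4 := by gcongr
    _ = (e * c₂ + c₁) * B ^ 4 := by ring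

private theorem Aux1_gar {e h n₁ n₂ R : ℕ} (hn : n₁ ≤ n₂) (W : Ser)
    (c : Fin e × Fin (n₂ - n₁) × Fin R × Fin R → OO) (c' : ℕ → ℕ → ℕ → ℕ → OO)
    (hu : ∀ u : Fin e × Fin (n₂ - n₁) × Fin R × Fin R,
      c' u.1 (n₁ + u.2.1) u.2.2.1 u.2.2.2 = c u)
    (hs : ∀ i j k k', c' i j k k' ≠ 0 → i < e ∧ n₁ ≤ j ∧ j < n₂ ∧ k < R ∧ k' < R) (k k' : ℕ) :
    Gar e h n₂ W c' k k' = ∑ u : Fin e × Fin (n₂ - n₁) × Fin R × Fin R,
      PowerSeries.C (c u) * (if (k = u.2.2.1 ∧ k' = u.2.2.2) then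
        W ^ (u.1 : ℕ) * X ^ (e * (n₂ - (n₁ + u.2.1)) + h * (e - u.1)) else 0) := by
  unfold Gar
  rw [Fintype.sum_prod_type, Finset.sum_range]
  refine Finset.sum_congr rfl fun i _ => ?_
  rw [Fintype.sum_prod_type]
  have h1 : ∑ j ∈ Finset.range n₂, PowerSeries.C (c' i j k k') * W ^ (i : ℕ) *
      X ^ (e * (n₂ - j) + h * (e - i)) = ∑ j ∈ Finset.range (n₂ - n₁),
      PowerSeries.C (c' i (n₁ + j) k k') * W ^ (i : ℕ) *
      X ^ (e * (n₂ - (n₁ + j)) + h * (e - i)) := by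
    rw [← Finset.sum_Ico_eq_sum_range (fun j => PowerSeries.C (c' i j k k') * W ^ (i : ℕ) *
      X ^ (e * (n₂ - j) + h * (e - i))) n₁ n₂, ← Finset.sum_range_add_sum_Ico _ hn]
    rw [Finset.sum_eq_zero, zero_add]
    intro j hj
    have hz : c' i j k k' = 0 := by
      by_contra hne
      have := (hs _ _ _ _ hne).2.1
      have := Finset.mem_range.1 hj
      omega
    rw [hz, map_zero, zero_mul, zero_mul]
  rw [h1, Finset.sum_range]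
  refine Finset.sum_congr rfl fun j _ => ?_
  rw [Fintype.sum_prod_type]
  by_cases hk : k < R ∧ k' < R
  · rw [Finset.sum_eq_single (⟨k, hk.1⟩ : Fin R), Finset.sum_eq_single (⟨k', hk.2⟩ : Fin R)]
    · rw [if_pos ⟨rfl, rfl⟩, ← hu (i, j, ⟨k, hk.1⟩, ⟨k', hk.2⟩), mul_assoc]
    · intro b _ hb
      rw [if_neg, mul_zero]
      rintro ⟨-, h2⟩
      exact hb (Fin.ext h2.symm)
    · intro h2
      exact absurd (Finset.mem_univ _) h2
    · intro a _ ha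
      refine Finset.sum_eq_zero fun b _ => ?_
      rw [if_neg, mul_zero]
      rintro ⟨h2, -⟩
      exact ha (Fin.ext h2.symm)
    · intro h2
      exact absurd (Finset.mem_univ _) h2
  · have hz : c' i (n₁ + j) k k' = 0 := by
      by_contra hne
      exact hk (hs _ _ _ _ hne).2.2.2
    rw [hz, map_zero, zero_mul, zero_mul]
    symm
    refine Finset.sum_eq_zero fun a _ => Finset.sum_eq_zero fun b _ => ?_
    rw [if_neg, mul_zero]
    rintro ⟨h2, h3⟩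
    exact hk ⟨h2 ▸ a.2, h3 ▸ b.2⟩

private theorem Aux1_powgr {r A : ℝ} (hr : 0 ≤ r) {P : Polynomial Ser} (h : GrP r A P) (m : ℕ) :
    GrP r (((P.natDegree + 1) * A) ^ m) (P ^ m) := by
  induction m with
  | zero =>
    intro k
    rw [pow_zero, pow_zero, Polynomial.coeff_one]
    split_ifs
    · exact gr_one
    · exact gr_mono gr_zero zero_le_one
  | succ m ih =>
    rw [pow_succ' P]
    have h1 := mul_gr hr h ih
    intro k
    refine gr_mono (h1 k) (le_of_eq ?_)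
    rw [pow_succ]
    ring

private theorem Aux1_polyK {K : IntermediateField ℚ ℂ} {P : Polynomial Ser} (h : ∀ k, InK K (P.coeff k))
    (m : ℕ) : ∀ k, InK K ((P ^ m).coeff k) := by
  induction m with
  | zero =>
    intro k
    rw [pow_zero, Polynomial.coeff_one]
    split_ifs
    · exact InK.one
    · exact InK.zero
  | succ m ih =>
    intro k
    rw [pow_succ, Polynomial.coeff_mul]
    exact InK.sum fun x _ => (ih _).mul (h _)

private theorem Aux1_dvd {β : ℂ} {S : Ser} {Φ : Polynomial (Polynomial ℤ)} {G : Polynomial OO}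
    (hS : ((coeff 0 S : OO) : ℂ) = β)
    (h : G.map OO.subtype ∣ Φ.map (Polynomial.eval₂RingHom (Int.castRingHom ℂ) β)) :
    G.map OO.subtype ∣ ((Phs Φ S).map (constantCoeff (R := OO))).map OO.subtype := by
  have e1 : ((Phs Φ S).map (constantCoeff (R := OO))).map OO.subtype =
      Φ.map (Polynomial.eval₂RingHom (Int.castRingHom ℂ) β) := by
    unfold Phs
    rw [Polynomial.map_map, Polynomial.map_map]
    congr 1
    refine Polynomial.ringHom_ext (fun a => ?_) ?_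
    · simp
    · rw [RingHom.comp_apply, RingHom.comp_apply, Polynomial.coe_eval₂RingHom, Polynomial.eval₂_X,
        Polynomial.coe_eval₂RingHom, Polynomial.eval₂_X, ← PowerSeries.coeff_zero_eq_constantCoeff_apply]
      exact hS
  rw [e1]
  exact h

theorem aux1C (D : LocC V a b β) (Q : QDC D) : ∃ C : ℕ, 0 < C ∧ ∀ (L : ℕ) (B : ℝ)
    (ld : LD D.K₀ β L B), L.Prime → 1 ≤ B → (L : ℝ) ≤ B →
    ∃ (n₂ : ℕ) (c : ℕ → ℕ → ℕ → ℕ → OO), (n₂ : ℝ) ≤ ((C : ℝ) * B) ^ C ∧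
      (∃ i j k k', c i j k k' ≠ 0) ∧
      CB D.K₀ c D.e (4 * L * (L + 1)) n₂ (L + 1) (((C : ℝ) * B) ^ C) ∧
      VAC L (L + 1) (L + 1) (Gar D.e D.h n₂ D.W c) Q.qa (Phs ld.Φ D.Sb)
        ((ld.G.map (PowerSeries.C (R := OO))) ^ ((L + 1) * (D.e * n₂ + D.h * D.e + D.m * L * (L + 1) + D.e)))
        (D.e * n₂ + D.h * D.e + D.m * L * (L + 1) + D.e) := by
  classical
  have := D.fd
  obtain ⟨Cs, hCs, hsys⟩ := sysC D.K₀ Q.pos.1 Q.pos.2.1 Q.c0 Q.inK Q.gr.1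
  obtain ⟨c₁, hc₁⟩ : ∃ c₁ : ℕ, c₁ = D.h * D.e + 2 * D.m + D.e := ⟨_, rfl⟩
  obtain ⟨c₂, hc₂⟩ : ∃ c₂ : ℕ, c₂ = 4 * (c₁ + 8 * D.e) + 1 := ⟨_, rfl⟩
  obtain ⟨c₃, hc₃⟩ : ∃ c₃ : ℕ, c₃ = D.e * c₂ + c₁ := ⟨_, rfl⟩
  obtain ⟨c₄, hc₄⟩ : ∃ c₄ : ℕ, c₄ = 4 * c₃ + 4 + Q.C + D.e * Q.C := ⟨_, rfl⟩
  obtain ⟨C, hC⟩ : ∃ C : ℕ, C = 12 * Cs + Cs * (4 * D.e * c₂) * c₄ + c₂ + 4 := ⟨_, rfl⟩
  refine ⟨C, by omega, ?_⟩
  intro L B ld hL hB hLB
  have he : 0 < D.e := D.pos.1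
  obtain ⟨R, hR⟩ : ∃ R : ℕ, R = L + 1 := ⟨_, rfl⟩
  obtain ⟨T₀, hT₀⟩ : ∃ T₀ : ℕ, T₀ = D.h * D.e + D.m * L * R + D.e := ⟨_, rfl⟩
  obtain ⟨n₁, hn₁⟩ : ∃ n₁ : ℕ, n₁ = 4 * L * R := ⟨_, rfl⟩
  obtain ⟨n₂, hn₂⟩ : ∃ n₂ : ℕ, n₂ = R ^ 2 * (T₀ + D.e * n₁) + 1 := ⟨_, rfl⟩
  have hR2 : 2 ≤ R := by have := hL.two_le; omega
  obtain ⟨hn12, hcount⟩ := Aux1_count (t := R ^ 2 - 1) (Nat.sub_add_cancel (by nlinarith)) hR2 he hn₂
  obtain ⟨hRs, hn₂s, hTs⟩ := Aux1_size hB hLB hR hT₀ hn₁ hn₂ hc₁ hc₂ hc₃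
  obtain ⟨T, hTdef⟩ : ∃ T : ℕ, T = D.e * n₂ + T₀ := ⟨_, rfl⟩
  have hT : D.e * n₂ + D.h * D.e + D.m * L * (L + 1) + D.e = T := by
    rw [hTdef, hT₀, hR]
    ring
  rw [← hTdef] at hTs hcount
  obtain ⟨Φs, hΦs⟩ : ∃ Φs : Polynomial Ser, Φs = Phs ld.Φ D.Sb := ⟨_, rfl⟩
  obtain ⟨U, hU⟩ : ∃ U : Polynomial Ser, U = (ld.G.map (PowerSeries.C (R := OO))) ^ (R * T) := ⟨_, rfl⟩
  -- the unknowns
  let κ : Type := Fin D.e × Fin (n₂ - n₁) × Fin R × Fin R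
  have hcard : Fintype.card κ = D.e * (n₂ - n₁) * R ^ 2 := by
    rw [Fintype.card_prod, Fintype.card_prod, Fintype.card_prod, Fintype.card_fin,
      Fintype.card_fin, Fintype.card_fin]
    ring
  let Gs : κ → ℕ → ℕ → Ser := fun u k k' =>
    if (k = u.2.2.1 ∧ k' = u.2.2.2) then
      D.W ^ (u.1 : ℕ) * X ^ (D.e * (n₂ - (n₁ + u.2.1)) + D.h * (D.e - u.1)) else 0
  have hρ := Q.pos.1.le
  have hW : Gr Q.ρ (Real.exp Q.C) D.W := Q.gr.2.1.mono (by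
    have := Real.add_one_le_exp (Q.C : ℝ)
    linarith)
  have hexp : (1 : ℝ) ≤ Real.exp Q.C := Real.one_le_exp (Nat.cast_nonneg _)
  obtain ⟨B', hB'⟩ : ∃ B' : ℝ, B' = c₄ * B ^ 6 := ⟨_, rfl⟩
  have hB0 : 0 ≤ B := zero_le_one.trans hB
  have hB6 : 1 ≤ B ^ 6 := one_le_pow₀ hB
  have hBB6 : B ≤ B ^ 6 := le_self_pow₀ hB (by norm_num)
  have hB46 : B ^ 4 ≤ B ^ 6 := pow_le_pow_right₀ hB (by norm_num)
  have hc₄R : (c₄ : ℝ) = 4 * c₃ + 4 + Q.C + D.e * Q.C := by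
    rw [hc₄]
    push_cast
    ring
  have hBge : ∀ x : ℝ, x ≤ (4 * c₃ : ℝ) * B ^ 6 + 4 * B ^ 6 + Q.C * B ^ 6 + D.e * Q.C * B ^ 6 →
      x ≤ B' := by
    intro x hx
    refine hx.trans (le_of_eq ?_)
    rw [hB', hc₄R]
    ring
  have p1 : (0 : ℝ) ≤ (4 * c₃ : ℝ) * B ^ 6 := by positivity
  have p2 : (0 : ℝ) ≤ (Q.C : ℝ) * B ^ 6 := by positivity
  have p3 : (0 : ℝ) ≤ (D.e : ℝ) * Q.C * B ^ 6 := by positivity
  have hR' : (R : ℝ) ≤ B' := hBge _ (by nlinarith)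
  have hL' : (L : ℝ) ≤ B' := hBge _ (by nlinarith)
  have h1' : (1 : ℝ) ≤ B' := hBge _ (by nlinarith)
  have hT' : (T : ℝ) ≤ B' := hBge _ (by
    have e1 : (c₃ : ℝ) * B ^ 4 ≤ c₃ * B ^ 6 := mul_le_mul_of_nonneg_left hB46 (by positivity)
    have e2 : (0 : ℝ) ≤ c₃ * B ^ 6 := by positivity
    nlinarith)
  have hRT : (R : ℝ) * T ≤ 2 * c₃ * B ^ 5 := by
    calc (R : ℝ) * T ≤ (2 * B) * (c₃ * B ^ 4) := by gcongr
      _ = 2 * c₃ * B ^ 5 := by ring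
  have hGd : ((ld.G.map (PowerSeries.C (R := OO))).natDegree : ℝ) ≤ B := by
    rw [Polynomial.natDegree_map_eq_of_injective C_injective]
    exact ld.Gdeg
  have hUd : (U.natDegree : ℝ) ≤ B' := by
    refine hBge _ ?_
    have e1 : (U.natDegree : ℝ) ≤ (R * T : ℕ) * ((ld.G.map (PowerSeries.C (R := OO))).natDegree : ℝ) := by
      rw [hU]
      exact_mod_cast Polynomial.natDegree_pow_le
    have e2 : ((R * T : ℕ) : ℝ) * ((ld.G.map (PowerSeries.C (R := OO))).natDegree : ℝ) ≤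
        (2 * c₃ * B ^ 5) * B := by
      push_cast
      gcongr
    have e3 : (2 * c₃ * B ^ 5) * B = (2 * c₃ : ℝ) * B ^ 6 := by ring
    have e4 : (0 : ℝ) ≤ c₃ * B ^ 6 := by positivity
    rw [e3] at e2
    nlinarith
  have hGgr : GrP Q.ρ (Real.exp B) (ld.G.map (PowerSeries.C (R := OO))) := by
    intro k
    rw [Polynomial.coeff_map]
    exact gr_C (Real.exp_pos _).le fun s => ld.Gbd s k
  have hUgr : GrP Q.ρ (Real.exp B') U := by
    intro k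
    rw [hU]
    refine gr_mono (Aux1_powgr hρ hGgr (R * T) k) ?_
    have e1 : (((ld.G.map (PowerSeries.C (R := OO))).natDegree : ℝ) + 1) * Real.exp B ≤
        Real.exp (2 * B) := by
      have e2 : ((ld.G.map (PowerSeries.C (R := OO))).natDegree : ℝ) + 1 ≤ Real.exp B := by
        have := Real.add_one_le_exp B
        linarith
      calc (((ld.G.map (PowerSeries.C (R := OO))).natDegree : ℝ) + 1) * Real.exp B
          ≤ Real.exp B * Real.exp B := mul_le_mul_of_nonneg_right e2 (Real.exp_pos _).le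
        _ = Real.exp (2 * B) := by rw [← Real.exp_add]; ring_nf
    calc ((((ld.G.map (PowerSeries.C (R := OO))).natDegree : ℝ) + 1) * Real.exp B) ^ (R * T)
        ≤ Real.exp (2 * B) ^ (R * T) := pow_le_pow_left₀ (by positivity) e1 _
      _ = Real.exp (((R * T : ℕ) : ℝ) * (2 * B)) := (Real.exp_nat_mul _ _).symm
      _ ≤ Real.exp B' := by
          refine Real.exp_le_exp.2 (hBge _ ?_)
          have e2 : ((R * T : ℕ) : ℝ) * (2 * B) ≤ (2 * c₃ * B ^ 5) * (2 * B) := by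
            push_cast
            gcongr
          have e3 : (2 * c₃ * B ^ 5) * (2 * B) = (4 * c₃ : ℝ) * B ^ 6 := by ring
          rw [e3] at e2
          nlinarith
  have hUK : ∀ k, InK D.K₀ (U.coeff k) := by
    intro k
    rw [hU]
    refine Aux1_polyK (fun k => ?_) (R * T) k
    rw [Polynomial.coeff_map]
    exact InK.C (ld.GK k)
  have hΦK : ∀ k, InK D.K₀ (Φs.coeff k) := by
    intro k
    rw [hΦs]
    exact phs_inK D.inK.2.2 _ k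
  have hΦgr : GrP Q.ρ (Real.exp B') Φs := by
    intro k
    rw [hΦs]
    have hfl : ∀ k, (ld.Φ.coeff k).natDegree ≤ ⌊B⌋₊ := fun k => Nat.le_floor (ld.bdd k)
    have hQC : (1 : ℝ) ≤ Q.C := by exact_mod_cast Q.pos.2.2
    refine gr_mono (phs_gr hρ Q.gr.2.2 hQC hfl ld.bdc k) ?_
    have e1 : ((⌊B⌋₊ : ℕ) : ℝ) ≤ B := Nat.floor_le hB0
    have e2 : ((⌊B⌋₊ : ℕ) : ℝ) + 1 ≤ Real.exp B := by
      have := Real.add_one_le_exp B
      linarith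
    have e3 : (Q.C : ℝ) ^ ⌊B⌋₊ ≤ Real.exp (Q.C * B) := by
      calc (Q.C : ℝ) ^ ⌊B⌋₊ ≤ Real.exp Q.C ^ ⌊B⌋₊ := by
            refine pow_le_pow_left₀ (by positivity) ?_ _
            have := Real.add_one_le_exp (Q.C : ℝ)
            linarith
        _ = Real.exp ((⌊B⌋₊ : ℕ) * (Q.C : ℝ)) := (Real.exp_nat_mul _ _).symm
        _ ≤ Real.exp (Q.C * B) := by
            refine Real.exp_le_exp.2 ?_
            rw [mul_comm]
            gcongr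
    calc (((⌊B⌋₊ : ℕ) : ℝ) + 1) * (Real.exp B * (Q.C : ℝ) ^ ⌊B⌋₊)
        ≤ Real.exp B * (Real.exp B * Real.exp (Q.C * B)) := by gcongr
      _ = Real.exp (2 * B + Q.C * B) := by
          rw [← Real.exp_add, ← Real.exp_add]
          ring_nf
      _ ≤ Real.exp B' := by
          refine Real.exp_le_exp.2 (hBge _ ?_)
          have e4 : (Q.C : ℝ) * B ≤ Q.C * B ^ 6 := mul_le_mul_of_nonneg_left hBB6 (by positivity)
          nlinarith
  have hmon := phs_monic (S := D.Sb) ld.monic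
  obtain ⟨I, hI1, hI2, hI3⟩ := rank_OO Φs (by rw [hΦs]; exact hmon.1) (R := R)
    (by rw [hΦs, hmon.2, ld.deg, hR]) ld.G ld.Gpos (by rw [hΦs]; exact Aux1_dvd D.val ld.Gdvd) T
    (R * T) le_rfl
  have hRL : R - 1 = L := by omega
  rw [hRL] at hI1
  obtain ⟨c, ⟨u₀, hu₀⟩, hcK, hcb, hV⟩ := hsys κ L R R T (L * T) Gs Φs U B' hL.pos (by omega) h1' hL'
    hR' hR' hT' (by rw [hΦs]; exact hmon.1) (by rw [hΦs, hmon.2, ld.deg, hR]) hΦK hΦgr hUd hUK hUgr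
    (fun u k _ k' _ => ⟨InK.ite ((D.inK.1.pow _).mul (InK.X.pow _)),
      Gr.ite (((hW.pow hρ (u.1 : ℕ)).mul hρ (Gr.X_pow hρ Q.pos.2.1 _)).mono (by
        rw [mul_one]
        calc Real.exp Q.C ^ (u.1 : ℕ) ≤ Real.exp Q.C ^ D.e := pow_le_pow_right₀ hexp u.1.2.le
          _ = Real.exp (D.e * Q.C) := (Real.exp_nat_mul _ _).symm
          _ ≤ Real.exp B' := by
              refine Real.exp_le_exp.2 (hBge _ ?_)
              have e1 : (D.e : ℝ) * Q.C ≤ D.e * Q.C * B ^ 6 :=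
                le_mul_of_one_le_right (by positivity) hB6
              nlinarith))⟩)
    ⟨I, hI1, hI2, by rw [hU]; exact hI3⟩
    (by
      rw [hcard]
      have e1 : L * R * T + L * T = (R ^ 2 - 1) * T := by
        have e2 : R ^ 2 - 1 = L * R + L := by
          rw [hR]
          have : (L + 1) ^ 2 = L * (L + 1) + L + 1 := by ring
          omega
        rw [e2]
        ring
      rw [e1]
      exact hcount)
  -- the coefficients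
  let c' : ℕ → ℕ → ℕ → ℕ → OO := fun i j k k' =>
    if hh : i < D.e ∧ (n₁ ≤ j ∧ j < n₂) ∧ k < R ∧ k' < R then
      c (⟨i, hh.1⟩, ⟨j - n₁, by omega⟩, ⟨k, hh.2.2.1⟩, ⟨k', hh.2.2.2⟩) else 0
  have hc'u : ∀ u : κ, c' u.1 (n₁ + u.2.1) u.2.2.1 u.2.2.2 = c u := by
    intro u
    have hh : (u.1 : ℕ) < D.e ∧ (n₁ ≤ n₁ + (u.2.1 : ℕ) ∧ n₁ + (u.2.1 : ℕ) < n₂) ∧
        (u.2.2.1 : ℕ) < R ∧ (u.2.2.2 : ℕ) < R :=
      ⟨u.1.2, ⟨by omega, by have := u.2.1.2; omega⟩, u.2.2.1.2, u.2.2.2.2⟩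
    simp only [c', dif_pos hh]
    congr 1
    ext <;> simp
  have hc's : ∀ i j k k', c' i j k k' ≠ 0 → i < D.e ∧ n₁ ≤ j ∧ j < n₂ ∧ k < R ∧ k' < R := by
    intro i j k k' hne
    by_contra hcon
    apply hne
    simp only [c']
    rw [dif_neg]
    rintro ⟨h1, ⟨h2, h3⟩, h4, h5⟩
    exact hcon ⟨h1, h2, h3, h4, h5⟩
  have hcard' : (Fintype.card κ : ℝ) ≤ ((4 * D.e * c₂ : ℕ) : ℝ) * B ^ 6 := by
    rw [hcard]
    push_cast
    have e1 : ((n₂ - n₁ : ℕ) : ℝ) ≤ c₂ * B ^ 4 := by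
      refine le_trans ?_ hn₂s
      exact_mod_cast Nat.sub_le _ _
    calc (D.e : ℝ) * ((n₂ - n₁ : ℕ) : ℝ) * (R : ℝ) ^ 2 ≤ D.e * (c₂ * B ^ 4) * (2 * B) ^ 2 := by
          gcongr
      _ = 4 * D.e * c₂ * B ^ 6 := by ring
  have hCR : (C : ℝ) = 12 * Cs + Cs * (4 * D.e * c₂) * c₄ + c₂ + 4 := by
    rw [hC]
    push_cast
    ring
  have hC4 : (4 : ℝ) ≤ C := by
    rw [hCR]
    have : (0 : ℝ) ≤ 12 * Cs + Cs * (4 * D.e * c₂) * c₄ + c₂ := by positivity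
    linarith
  have hCL : 1 ≤ (C : ℝ) * B := one_le_mul_of_one_le_of_one_le (by linarith) hB
  have hbd : ((Cs : ℝ) * (Fintype.card κ) * B') ^ Cs ≤ ((C : ℝ) * B) ^ C := by
    have h1 : (Cs : ℝ) * (Fintype.card κ) * B' ≤ ((C : ℝ) * B) ^ 12 := by
      calc (Cs : ℝ) * (Fintype.card κ) * B'
          ≤ (Cs : ℝ) * (((4 * D.e * c₂ : ℕ) : ℝ) * B ^ 6) * (c₄ * B ^ 6) := by
            rw [hB']
            gcongr
        _ = (Cs * (4 * D.e * c₂) * c₄ : ℝ) * B ^ 12 := by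
            push_cast
            ring
        _ ≤ (C : ℝ) ^ 12 * B ^ 12 := by
            have e1 : (Cs * (4 * D.e * c₂) * c₄ : ℝ) ≤ C := by
              rw [hCR]
              have : (0 : ℝ) ≤ 12 * Cs + c₂ + 4 := by positivity
              linarith
            have e2 : (C : ℝ) ≤ (C : ℝ) ^ 12 := le_self_pow₀ (by linarith) (by norm_num)
            gcongr
            exact e1.trans e2
        _ = _ := by rw [mul_pow]
    calc _ ≤ (((C : ℝ) * B) ^ 12) ^ Cs := pow_le_pow_left₀ (by positivity) h1 Cs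
      _ = ((C : ℝ) * B) ^ (12 * Cs) := by rw [← pow_mul]
      _ ≤ _ := pow_le_pow_right₀ hCL (by rw [hC]; omega)
  refine ⟨n₂, c', ?_, ⟨_, _, _, _, by rw [hc'u u₀]; exact hu₀⟩, ⟨?_, ?_, ?_⟩, ?_⟩
  · calc (n₂ : ℝ) ≤ (c₂ : ℝ) * B ^ 4 := hn₂s
      _ ≤ (C : ℝ) ^ 4 * B ^ 4 := by
          have e1 : (c₂ : ℝ) ≤ C := by
            rw [hCR]
            have : (0 : ℝ) ≤ 12 * Cs + Cs * (4 * D.e * c₂) * c₄ + 4 := by positivity
            linarith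
          have e2 : (C : ℝ) ≤ (C : ℝ) ^ 4 := le_self_pow₀ (by linarith) (by norm_num)
          gcongr
          exact e1.trans e2
      _ = ((C : ℝ) * B) ^ 4 := by rw [mul_pow]
      _ ≤ _ := pow_le_pow_right₀ hCL (by rw [hC]; omega)
  · rw [← hR, ← hn₁]
    exact hc's
  · intro i j k k'
    simp only [c']
    split_ifs with hh
    · exact hcK _
    · exact D.K₀.zero_mem
  · intro i j k k' s
    simp only [c']
    split_ifs with hh
    · exact (hcb _ s).trans (Real.exp_le_exp.2 hbd)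
    · have : ‖s ((0 : OO) : ℂ)‖ = 0 := by simp
      rw [this]
      exact (Real.exp_pos _).le
  · have hG : (Gar D.e D.h n₂ D.W c') = fun k k' => ∑ u, PowerSeries.C (c u) * Gs u k k' := by
      funext k k'
      exact Aux1_gar hn12 D.W c c' hc'u hc's k k'
    rw [hG, hT, ← hR, ← hΦs, ← hU]
    exact hV

end Pool.Agent.LGO.RCM
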