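import Mathlib
import Pool.Agent.LGO.RCM.ModBy
import Pool.Agent.LGO.RU.Ev
import Pool.Agent.LGO.RU.Bnd

/-!
# LGO/RCM: the value of a function with vanishing conditions near the point at infinity

Compare `arr_c`, `vc_c` (`LGO/RU/Ev.lean`).  `q = exp(2 π i τ)`.
PROOF.  TYPE `a = 1`, `d = L`: `exp(2 π i τ₁) ^ L = q = qa(t)`: `pe_sp` (with `a = 1`, `d = L`): `j(τ₁) ^ k Δ(τ₁) ^ N = ∑_{i < L} A ^ i evc (sp (PE N k) L i (qa ^ 1)) t`, `A = exp(2 π i τ₁)`, `|A| < 1`, so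
`(∑_{k, k' < N} G k k' (t) j(τ₁) ^ k y ^ k') Δ(τ₁) ^ N = ∑_{i < L} A ^ i ∑_{k' < N} evc (Ar1 ...) t y ^ k'`, every inner sum is bounded by `vb_c` with `U = 1`.  TYPE `a = L`, `d = 1`: one sum (`i = 0`), times `evP s U t y`.
`|Δ(τ₁)| ≥ c |A|` (`RU/DelL`), `|A| ^ L = |q|` resp. `|A| = |q| ^ L`, so `|Δ(τ₁)| ^ N ≥ (c |q| ^ L) ^ N` in both cases (`|q| < 1`).  The growth of `Ar1 N ...`: `RU/ArrB`, `RU/Sp`.
-/

namespace Pool.Agent.LGO.RCM

open PowerSeries UpperHalfPlane Pool.Agent.Hhelper14.ZP Pool.Agent.LGO.RU Pool.Agent.LGO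

private theorem BndN_q (τ : ℍ) :
    ‖Complex.exp (2 * Real.pi * Complex.I * τ)‖ = Real.exp (-(2 * Real.pi * τ.im)) := by
  rw [Complex.norm_exp]
  congr 1
  simp [Complex.mul_re, Complex.mul_im]

private theorem BndN_q_le (τ : ℍ) : ‖Complex.exp (2 * Real.pi * Complex.I * τ)‖ ≤ 1 := by
  rw [BndN_q, Real.exp_le_one_iff]
  have := mul_pos (mul_pos two_pos Real.pi_pos) τ.im_pos
  linarith

/-- the sum times the power of the discriminant -/
private theorem BndN_id {qa : Ser} {ρ b : ℝ} (hρ : 0 ≤ ρ) (h0 : coeff 0 qa = 0) (ga : Gr ρ (1 / 2) qa)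
    {N a d : ℕ} (ha : 0 < a) (hd : 0 < d) {G : ℕ → ℕ → Ser} (hG : ∀ k < N, ∀ k' < N, Gr ρ b (G k k'))
    (s : ℂ ≃+* ℂ) {t y : ℂ} (ht : ‖t‖ ≤ ρ) {τ₁ : ℍ}
    (hA : Complex.exp (2 * Real.pi * Complex.I * τ₁) ^ d = evc s qa t ^ a) :
    (∑ k ∈ Finset.range N, ∑ k' ∈ Finset.range N, evc s (G k k') t * jInv τ₁ ^ k * y ^ k') *
        ModularForm.discriminant τ₁ ^ N =
      ∑ i ∈ Finset.range d, Complex.exp (2 * Real.pi * Complex.I * τ₁) ^ i *
        ∑ k' ∈ Finset.range N, evc s (Ar1 N (fun k => G k k') qa a d i) t * y ^ k' := by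
  set A := Complex.exp (2 * Real.pi * Complex.I * τ₁) with hAdef
  set Dt := ModularForm.discriminant τ₁ with hDt
  have e1 : ∀ k < N, jInv τ₁ ^ k * Dt ^ N =
      ∑ i ∈ Finset.range d, A ^ i * evc s (sp (PE N k) d i (qa ^ a)) t := fun k hk =>
    pe_sp h0 ha hd ga ht s hA hk.le
  obtain ⟨C, _, hC⟩ := sp_gr
  have hq : Gr ρ (1 / 2) (qa ^ a) := by
    refine gr_mono (gr_pow ga hρ a) ?_
    calc (1 / 2 : ℝ) ^ a ≤ (1 / 2) ^ 1 := pow_le_pow_of_le_one (by norm_num) (by norm_num) ha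
      _ = 1 / 2 := pow_one _
  have e3 : ∀ i < d, ∀ k' < N, evc s (Ar1 N (fun k => G k k') qa a d i) t =
      ∑ k ∈ Finset.range N, evc s (G k k') t * evc s (sp (PE N k) d i (qa ^ a)) t := by
    intro i hi k' hk'
    have g1 : ∀ k < N, Gr ρ (Real.exp (C * ((N : ℝ) + 1) ^ 2 * d)) (sp (PE N k) d i (qa ^ a)) :=
      fun k hk => hC d N k d i ρ _ hρ (by omega) hk.le le_rfl hi hq
    rw [Ar1, evc_sum _ _ (fun _ => b * Real.exp (C * ((N : ℝ) + 1) ^ 2 * d)) _ ht s]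
    · refine Finset.sum_congr rfl fun k hk => ?_
      rw [Finset.mem_range] at hk
      rw [evc_mul (hG k hk k' hk') (g1 k hk) ht s]
    · intro k hk
      rw [Finset.mem_range] at hk
      exact gr_mul (hG k hk k' hk') (g1 k hk) hρ
  calc (∑ k ∈ Finset.range N, ∑ k' ∈ Finset.range N, evc s (G k k') t * jInv τ₁ ^ k * y ^ k') * Dt ^ N
      = ∑ k ∈ Finset.range N, ∑ k' ∈ Finset.range N, ∑ i ∈ Finset.range d,
          A ^ i * (evc s (G k k') t * evc s (sp (PE N k) d i (qa ^ a)) t * y ^ k') := by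
        rw [Finset.sum_mul]
        refine Finset.sum_congr rfl fun k hk => ?_
        rw [Finset.mem_range] at hk
        rw [Finset.sum_mul]
        refine Finset.sum_congr rfl fun k' _ => ?_
        have e5 : evc s (G k k') t * jInv τ₁ ^ k * y ^ k' * Dt ^ N =
            evc s (G k k') t * y ^ k' * (jInv τ₁ ^ k * Dt ^ N) := by ring
        rw [e5, e1 k hk, Finset.mul_sum]
        exact Finset.sum_congr rfl fun i _ => by ring
    _ = ∑ i ∈ Finset.range d, ∑ k' ∈ Finset.range N, ∑ k ∈ Finset.range N,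
          A ^ i * (evc s (G k k') t * evc s (sp (PE N k) d i (qa ^ a)) t * y ^ k') := by
        have e6 : ∀ k ∈ Finset.range N, ∑ k' ∈ Finset.range N, ∑ i ∈ Finset.range d,
            A ^ i * (evc s (G k k') t * evc s (sp (PE N k) d i (qa ^ a)) t * y ^ k') =
            ∑ i ∈ Finset.range d, ∑ k' ∈ Finset.range N,
            A ^ i * (evc s (G k k') t * evc s (sp (PE N k) d i (qa ^ a)) t * y ^ k') :=
          fun k _ => Finset.sum_comm
        rw [Finset.sum_congr rfl e6, Finset.sum_comm]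
        exact Finset.sum_congr rfl fun i _ => Finset.sum_comm
    _ = _ := by
        refine Finset.sum_congr rfl fun i hi => ?_
        rw [Finset.mem_range] at hi
        rw [Finset.mul_sum]
        refine Finset.sum_congr rfl fun k' hk' => ?_
        rw [Finset.mem_range] at hk'
        rw [e3 i hi k' hk', Finset.sum_mul, Finset.mul_sum]

/-- lower bound for the discriminant -/
private theorem BndN_del {L : ℕ} (hL : 0 < L) {τ : ℍ} {x : ℝ} (hx : x ≤ 1 / 2)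
    (h : ‖Complex.exp (2 * Real.pi * Complex.I * τ)‖ ^ L ≤ x) :
    Real.exp (-(2400 * (L : ℝ) ^ 2)) * ‖Complex.exp (2 * Real.pi * Complex.I * τ)‖ ≤
      ‖ModularForm.discriminant τ‖ := by
  have h1 : 1 ≤ ((10 * L : ℕ) : ℝ) * τ.im := by
    have h2 : Real.exp (-(2 * Real.pi * τ.im)) ^ L ≤ 1 / 2 := by
      rw [← BndN_q]; exact h.trans hx
    rw [← Real.exp_nat_mul] at h2
    have h3 := Real.log_le_log (Real.exp_pos _) h2
    rw [Real.log_exp, one_div, Real.log_inv] at h3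
    have h4 := Real.log_two_gt_d9
    have h5 := Real.pi_lt_d2
    push_cast
    have h6 : 0 < (L : ℝ) * τ.im := mul_pos (by exact_mod_cast hL) τ.im_pos
    have h7 : 0.69 ≤ 2 * Real.pi * ((L : ℝ) * τ.im) := by nlinarith
    have h8 : 2 * Real.pi * ((L : ℝ) * τ.im) ≤ 6.3 * ((L : ℝ) * τ.im) := by
      apply mul_le_mul_of_nonneg_right _ h6.le
      linarith
    nlinarith
  have h2 := delta_lower' (10 * L) τ (by omega) h1
  have h3 : (24 : ℝ) * ((10 * L : ℕ) : ℝ) ^ 2 = 2400 * (L : ℝ) ^ 2 := by push_cast; ring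
  rw [h3] at h2
  exact h2

private theorem BndN_nat_exp (k : ℕ) : ((k : ℝ) + 1) ≤ Real.exp k := Real.add_one_le_exp _

/-- the numbers -/
private theorem BndN_num {C1 : ℕ} {L N R u : ℕ} {B Y : ℝ} (hB : 1 ≤ B) (hL : (L : ℝ) ≤ B)
    (hN : (N : ℝ) ≤ B) (hR : (R : ℝ) ≤ B) (hu : (u : ℝ) ≤ B) (hY0 : 0 ≤ Y) (hY : Y ≤ Real.exp B)
    {B' : ℝ} (hB'0 : 0 ≤ B') (hB' : B' ≤ Real.exp B) :
    Real.exp (2400 * (L : ℝ) ^ 2) ^ N * (L * ((R * ((u + 1) * (B' * (N * (Real.exp B *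
      Real.exp (C1 * ((N : ℝ) + 1) ^ 2 * L)))) * (u + N + 1) *
        (1 + Real.exp B) ^ (u + N + 1))) * max 1 Y ^ R)) ≤
      Real.exp (((2500 + 4 * C1 : ℕ) * B) ^ (2500 + 4 * C1)) := by
  have hB0 : 0 ≤ B := by linarith
  have l0 : (0 : ℝ) ≤ L := Nat.cast_nonneg _
  have n0 : (0 : ℝ) ≤ N := Nat.cast_nonneg _
  have r0 : (0 : ℝ) ≤ R := Nat.cast_nonneg _
  have u0 : (0 : ℝ) ≤ u := Nat.cast_nonneg _
  have c0 : (0 : ℝ) ≤ C1 := Nat.cast_nonneg _
  have nat : ∀ {k : ℕ}, (k : ℝ) ≤ B → ((k : ℝ) + 1) ≤ Real.exp B := fun {k} hk =>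
    (BndN_nat_exp k).trans (Real.exp_le_exp.2 hk)
  have f1 : Real.exp (2400 * (L : ℝ) ^ 2) ^ N ≤ Real.exp (2400 * B ^ 3) := by
    rw [← Real.exp_nat_mul, Real.exp_le_exp]
    have : (N : ℝ) * (2400 * (L : ℝ) ^ 2) ≤ B * (2400 * B ^ 2) := by
      refine mul_le_mul hN ?_ (by positivity) hB0
      refine mul_le_mul_of_nonneg_left (pow_le_pow_left₀ l0 hL 2) (by norm_num)
    calc _ ≤ B * (2400 * B ^ 2) := this
      _ = 2400 * B ^ 3 := by ring
  have f2 : (L : ℝ) ≤ Real.exp B := by linarith [nat hL]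
  have f3 : (R : ℝ) ≤ Real.exp B := by linarith [nat hR]
  have f4 : (u : ℝ) + 1 ≤ Real.exp B := nat hu
  have f5 : (N : ℝ) ≤ Real.exp B := by linarith [nat hN]
  have f6 : Real.exp (C1 * ((N : ℝ) + 1) ^ 2 * L) ≤ Real.exp (4 * C1 * B ^ 3) := by
    rw [Real.exp_le_exp]
    have h1 : ((N : ℝ) + 1) ^ 2 ≤ (2 * B) ^ 2 := pow_le_pow_left₀ (by linarith) (by linarith) 2
    calc (C1 : ℝ) * ((N : ℝ) + 1) ^ 2 * L ≤ C1 * (2 * B) ^ 2 * B := by
          refine mul_le_mul (mul_le_mul_of_nonneg_left h1 c0) hL l0 (by positivity)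
      _ = 4 * C1 * B ^ 3 := by ring
  have f7 : (u : ℝ) + N + 1 ≤ Real.exp (2 * B) := by
    have h1 := Real.add_one_le_exp ((u : ℝ) + N)
    exact h1.trans (Real.exp_le_exp.2 (by linarith))
  have f8 : (1 + Real.exp B) ^ (u + N + 1) ≤ Real.exp ((B + 1) * (3 * B)) := by
    have h1 : 1 + Real.exp B ≤ Real.exp (B + 1) := by
      rw [Real.exp_add]
      have h2 : (2 : ℝ) ≤ Real.exp 1 := by
        have := Real.add_one_le_exp (1 : ℝ)
        linarith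
      have h3 : 1 ≤ Real.exp B := Real.one_le_exp hB0
      nlinarith
    calc (1 + Real.exp B) ^ (u + N + 1) ≤ Real.exp (B + 1) ^ (u + N + 1) :=
          pow_le_pow_left₀ (by positivity) h1 _
      _ = Real.exp (((u + N + 1 : ℕ) : ℝ) * (B + 1)) := (Real.exp_nat_mul _ _).symm
      _ ≤ _ := by
          rw [Real.exp_le_exp]
          push_cast
          nlinarith
  have f9 : max 1 Y ^ R ≤ Real.exp (B ^ 2) := by
    have h1 : max 1 Y ≤ Real.exp B := max_le (Real.one_le_exp hB0) hY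
    calc max 1 Y ^ R ≤ Real.exp B ^ R := pow_le_pow_left₀ (by positivity) h1 _
      _ = Real.exp (R * B) := (Real.exp_nat_mul _ _).symm
      _ ≤ _ := by
          rw [Real.exp_le_exp]
          nlinarith
  calc _ ≤ Real.exp (2400 * B ^ 3) * (Real.exp B * ((Real.exp B * (Real.exp B * (Real.exp B *
        (Real.exp B * (Real.exp B * Real.exp (4 * C1 * B ^ 3)))) * Real.exp (2 * B) *
        Real.exp ((B + 1) * (3 * B)))) * Real.exp (B ^ 2))) := by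
        gcongr
    _ = Real.exp (2400 * B ^ 3 + (B + ((B + ((B + (B + (B + (B + 4 * C1 * B ^ 3)))) + 2 * B +
        (B + 1) * (3 * B))) + B ^ 2))) := by
        simp only [← Real.exp_add]
    _ ≤ _ := by
        rw [Real.exp_le_exp]
        have h1 : B ≤ B ^ 3 := by nlinarith [sq_nonneg (B - 1), mul_nonneg hB0 hB0]
        have h2 : B ^ 2 ≤ B ^ 3 := by nlinarith [mul_nonneg hB0 hB0]
        have h3 : 1 ≤ B ^ 3 := one_le_pow₀ hB
        set K : ℕ := 2500 + 4 * C1 with hK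
        have hK1 : (1 : ℝ) ≤ K := by exact_mod_cast (by omega : 1 ≤ K)
        have hKB : 1 ≤ (K : ℝ) * B := by nlinarith
        have h4 : (K : ℝ) * B ^ 3 ≤ ((K : ℝ) * B) ^ 3 := by
          have : (K : ℝ) ≤ K ^ 3 := by nlinarith [sq_nonneg ((K : ℝ) - 1)]
          rw [mul_pow]
          exact mul_le_mul_of_nonneg_right this (by positivity)
        have h5 : ((K : ℝ) * B) ^ 3 ≤ ((K : ℝ) * B) ^ K := pow_le_pow_right₀ hKB (by omega)
        refine le_trans ?_ (h4.trans h5)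
        rw [hK]
        push_cast
        nlinarith

/-- both types -/
private theorem BndN_core {C1 : ℕ} (hC1 : ∀ (L R k d i : ℕ) (r : ℝ) (Q : Ser), 0 ≤ r → 1 ≤ L → k ≤ R →
      d ≤ L → i < d → Gr r (1 / 2) Q → Gr r (Real.exp (C1 * ((R : ℝ) + 1) ^ 2 * L)) (sp (PE R k) d i Q))
    {qa : Ser} {ρ : ℝ} (hρ : 0 < ρ) (h0 : coeff 0 qa = 0) (ga : Gr ρ (1 / 2) qa)
    {L N R T a d : ℕ} {G : ℕ → ℕ → Ser} {Φs U : Polynomial Ser} {B B' : ℝ} (s : ℂ ≃+* ℂ) {t y : ℂ}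
    {τ₁ : ℍ} (hL : 0 < L) (hR : 0 < R) (hB : 1 ≤ B) (hLB : (L : ℝ) ≤ B) (hNB : (N : ℝ) ≤ B)
    (hRB : (R : ℝ) ≤ B) (hm : Φs.Monic) (hdeg : Φs.natDegree = R) (hΦ : GrP ρ (Real.exp B) Φs)
    (hU : (U.natDegree : ℝ) ≤ B) (hB'0 : 0 ≤ B') (hB' : B' ≤ Real.exp B) (gU : GrP ρ B' U)
    (hG : ∀ k < N, ∀ k' < N, Gr ρ (Real.exp B) (G k k')) (ha : 0 < a) (hd : 0 < d) (hdL : d ≤ L)
    (hv : ∀ i < d, VB Φs U N R T fun k' => Ar1 N (fun k => G k k') qa a d i)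
    (ht : ‖t‖ ≤ ρ) (hy : evP s Φs t y = 0) (hyB : ‖y‖ ≤ Real.exp B)
    (hA : Complex.exp (2 * Real.pi * Complex.I * τ₁) ^ d = evc s qa t ^ a)
    (hA1 : ‖Complex.exp (2 * Real.pi * Complex.I * τ₁)‖ ^ L ≤ 1 / 2)
    (hA2 : ‖evc s qa t‖ ^ (L * N) ≤ ‖Complex.exp (2 * Real.pi * Complex.I * τ₁)‖ ^ N) :
    ‖evP s U t y‖ * ‖∑ k ∈ Finset.range N, ∑ k' ∈ Finset.range N,
          evc s (G k k') t * jInv τ₁ ^ k * y ^ k'‖ *
          ‖evc s qa t‖ ^ (L * N) ≤ Real.exp (((2500 + 4 * C1 : ℕ) * B) ^ (2500 + 4 * C1)) *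
            (‖t‖ / ρ) ^ T := by
  have hid := BndN_id (y := y) hρ.le h0 ga ha hd hG s ht hA
  set S := ∑ k ∈ Finset.range N, ∑ k' ∈ Finset.range N,
          evc s (G k k') t * jInv τ₁ ^ k * y ^ k' with hS
  set A := Complex.exp (2 * Real.pi * Complex.I * τ₁) with hAdef
  have hAle : ‖A‖ ≤ 1 := BndN_q_le τ₁
  have hdel := BndN_del hL le_rfl hA1
  have hq : Gr ρ (1 / 2) (qa ^ a) := by
    refine gr_mono (gr_pow ga hρ.le a) ?_
    calc (1 / 2 : ℝ) ^ a ≤ (1 / 2) ^ 1 := pow_le_pow_of_le_one (by norm_num) (by norm_num) ha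
      _ = 1 / 2 := pow_one _
  set Bf : ℝ := N * (Real.exp B * Real.exp (C1 * ((N : ℝ) + 1) ^ 2 * L)) with hBf
  have gA : ∀ i < d, ∀ k' < N, Gr ρ Bf (Ar1 N (fun k => G k k') qa a d i) := by
    intro i hi k' hk'
    have g1 := gr_sum (r := ρ) (Finset.range N) (fun k => G k k' * sp (PE N k) d i (qa ^ a))
      (fun _ => Real.exp B * Real.exp (C1 * ((N : ℝ) + 1) ^ 2 * L)) hρ.le (by
        intro k hk
        rw [Finset.mem_range] at hk
        exact gr_mul (hG k hk k' hk') (hC1 L N k d i ρ _ hρ.le (by omega) hk.le hdL hi hq) hρ.le)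
    rw [Finset.sum_const, Finset.card_range, nsmul_eq_mul] at g1
    exact g1
  set K : ℝ := (R * ((U.natDegree + 1) * (B' * Bf) * (U.natDegree + N + 1) *
        (1 + Real.exp B) ^ (U.natDegree + N + 1))) * max 1 ‖y‖ ^ R with hK
  have hK0 : 0 ≤ K := by positivity
  have hT0 : 0 ≤ (‖t‖ / ρ) ^ T := by positivity
  have h1 : ∀ i ∈ Finset.range d, ‖evP s U t y * (A ^ i * ∑ k' ∈ Finset.range N,
      evc s (Ar1 N (fun k => G k k') qa a d i) t * y ^ k')‖ ≤ K * (‖t‖ / ρ) ^ T := by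
    intro i hi
    rw [Finset.mem_range] at hi
    have h2 := vb_c hρ s hm hdeg hR hΦ gU (gA i hi) (by positivity) (Real.exp_pos B).le hB'0 (hv i hi) ht hy
    have h3 : evP s U t y * (A ^ i * ∑ k' ∈ Finset.range N,
      evc s (Ar1 N (fun k => G k k') qa a d i) t * y ^ k') = A ^ i * (evP s U t y *
        ∑ k' ∈ Finset.range N, evc s (Ar1 N (fun k => G k k') qa a d i) t * y ^ k') := by ring
    rw [h3, norm_mul, norm_pow]
    calc _ ≤ 1 * (K * (‖t‖ / ρ) ^ T) :=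
          mul_le_mul (pow_le_one₀ (norm_nonneg _) hAle) h2 (norm_nonneg _) zero_le_one
      _ = _ := one_mul _
  have h2 : ‖evP s U t y‖ * ‖S‖ * ‖ModularForm.discriminant τ₁‖ ^ N ≤ L * (K * (‖t‖ / ρ) ^ T) := by
    rw [← norm_pow, ← norm_mul, ← norm_mul, mul_assoc, hid, Finset.mul_sum]
    refine (norm_sum_le _ _).trans ((Finset.sum_le_card_nsmul _ _ _ h1).trans ?_)
    rw [Finset.card_range, nsmul_eq_mul]
    exact mul_le_mul_of_nonneg_right (by exact_mod_cast hdL) (by positivity)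
  have h3 : ‖A‖ ^ N ≤ Real.exp (2400 * (L : ℝ) ^ 2) ^ N * ‖ModularForm.discriminant τ₁‖ ^ N := by
    rw [← mul_pow]
    refine pow_le_pow_left₀ (norm_nonneg _) ?_ N
    have h4 := mul_le_mul_of_nonneg_left hdel (Real.exp_pos (2400 * (L : ℝ) ^ 2)).le
    rw [← mul_assoc, ← Real.exp_add] at h4
    simpa using h4
  have h5 := BndN_num (C1 := C1) hB hLB hNB hRB hU (norm_nonneg y) hyB hB'0 hB'
  calc ‖evP s U t y‖ * ‖S‖ * ‖evc s qa t‖ ^ (L * N)
      ≤ ‖evP s U t y‖ * ‖S‖ * (Real.exp (2400 * (L : ℝ) ^ 2) ^ N *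
          ‖ModularForm.discriminant τ₁‖ ^ N) :=
        mul_le_mul_of_nonneg_left (hA2.trans h3) (by positivity)
    _ = Real.exp (2400 * (L : ℝ) ^ 2) ^ N *
          (‖evP s U t y‖ * ‖S‖ * ‖ModularForm.discriminant τ₁‖ ^ N) := by ring
    _ ≤ Real.exp (2400 * (L : ℝ) ^ 2) ^ N * (L * (K * (‖t‖ / ρ) ^ T)) :=
        mul_le_mul_of_nonneg_left h2 (by positivity)
    _ = Real.exp (2400 * (L : ℝ) ^ 2) ^ N * (L * K) * (‖t‖ / ρ) ^ T := by ring
    _ ≤ _ := mul_le_mul_of_nonneg_right h5 hT0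

private theorem BndN_one {ρ : ℝ} (s : ℂ ≃+* ℂ) (t y : ℂ) : evP s (1 : Polynomial Ser) t y = 1 ∧
    GrP ρ 1 (1 : Polynomial Ser) := by
  constructor
  · rw [evP, Polynomial.natDegree_one, zero_add, Finset.sum_range_one, Polynomial.coeff_one_zero,
      evc_one, pow_zero, mul_one]
  · intro k
    rw [Polynomial.coeff_one]
    split_ifs
    · exact gr_one
    · exact gr_mono gr_zero zero_le_one

theorem vac_c {qa : Ser} {ρ : ℝ} (hρ : 0 < ρ) (hρ1 : ρ ≤ 1) (h0 : coeff 0 qa = 0)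
    (ga : Gr ρ (1 / 2) qa) : ∃ C : ℕ, 0 < C ∧
    ∀ (L N R T : ℕ) (G : ℕ → ℕ → Ser) (Φs U : Polynomial Ser) (B : ℝ) (s : ℂ ≃+* ℂ) (t y : ℂ) (τ₁ : ℍ),
      0 < L → 0 < R → 1 ≤ B → (L : ℝ) ≤ B → (N : ℝ) ≤ B → (R : ℝ) ≤ B →
      Φs.Monic → Φs.natDegree = R → GrP ρ (Real.exp B) Φs →
      (U.natDegree : ℝ) ≤ B → GrP ρ (Real.exp B) U →
      (∀ k < N, ∀ k' < N, Gr ρ (Real.exp B) (G k k')) → VAC L N R G qa Φs U T →
      0 < ‖t‖ → ‖t‖ ≤ ρ → evP s Φs t y = 0 → ‖y‖ ≤ Real.exp B →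
      (Complex.exp (2 * Real.pi * Complex.I * τ₁) ^ L = evc s qa t →
        ‖∑ k ∈ Finset.range N, ∑ k' ∈ Finset.range N, evc s (G k k') t * jInv τ₁ ^ k * y ^ k'‖ *
          ‖evc s qa t‖ ^ (L * N) ≤ Real.exp (((C : ℝ) * B) ^ C) * (‖t‖ / ρ) ^ T) ∧
      (Complex.exp (2 * Real.pi * Complex.I * τ₁) = evc s qa t ^ L →
        ‖evP s U t y‖ * ‖∑ k ∈ Finset.range N, ∑ k' ∈ Finset.range N,
          evc s (G k k') t * jInv τ₁ ^ k * y ^ k'‖ *
          ‖evc s qa t‖ ^ (L * N) ≤ Real.exp (((C : ℝ) * B) ^ C) * (‖t‖ / ρ) ^ T) := by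
  obtain ⟨C1, _, hC1⟩ := sp_gr
  refine ⟨2500 + 4 * C1, by omega, ?_⟩
  intro L N R T G Φs U B s t y τ₁ hL hR hB hLB hNB hRB hm hdeg hΦ hU gU hG hv _ ht hy hyB
  have hB0 : 0 ≤ B := by linarith
  have hq : ‖evc s qa t‖ ≤ 1 / 2 := evc_norm_le ga ht s
  have hAle := BndN_q_le τ₁
  constructor
  · intro hA
    have hA' : ‖Complex.exp (2 * Real.pi * Complex.I * τ₁)‖ ^ L = ‖evc s qa t‖ := by
      rw [← norm_pow, hA]
    obtain ⟨e1, e2⟩ := BndN_one (ρ := ρ) s t y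
    have h := BndN_core (C1 := C1) (T := T) (a := 1) (d := L) (B' := 1) (y := y) (τ₁ := τ₁) hC1 hρ h0 ga s hL hR hB hLB hNB
      hRB hm hdeg hΦ (U := 1) (by rw [Polynomial.natDegree_one]; simpa using hB0) zero_le_one (Real.one_le_exp hB0) e2
      hG one_pos hL le_rfl hv.1 ht hy hyB (by rw [pow_one]; exact hA) (hA'.le.trans hq) (by
        rw [← hA', ← pow_mul]
        exact pow_le_pow_of_le_one (norm_nonneg _) hAle (by nlinarith [Nat.mul_le_mul hL hL]))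
    rw [e1, norm_one, one_mul] at h
    exact h
  · intro hA
    have hA' : ‖Complex.exp (2 * Real.pi * Complex.I * τ₁)‖ = ‖evc s qa t‖ ^ L := by
      rw [← norm_pow, hA]
    exact BndN_core (C1 := C1) (T := T) (a := L) (d := 1) hC1 hρ h0 ga s hL hR hB hLB hNB
      hRB hm hdeg hΦ hU (Real.exp_pos B).le le_rfl gU
      hG hL one_pos (by omega) (fun i hi => by
        have : i = 0 := by omega
        subst this
        exact hv.2) ht hy hyB (by rw [pow_one]; exact hA) (by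
        calc ‖Complex.exp (2 * Real.pi * Complex.I * τ₁)‖ ^ L
            ≤ ‖Complex.exp (2 * Real.pi * Complex.I * τ₁)‖ ^ 1 :=
              pow_le_pow_of_le_one (norm_nonneg _) hAle hL
          _ = ‖evc s qa t‖ ^ L := by rw [pow_one, hA']
          _ ≤ ‖evc s qa t‖ ^ 1 := pow_le_pow_of_le_one (norm_nonneg _) (by linarith) hL
          _ ≤ 1 / 2 := by rw [pow_one]; exact hq) (by rw [hA', ← pow_mul])

end Pool.Agent.LGO.RCM
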