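import Mathlib
import Pool.Agent.LGO.RCM.BndN
import Pool.Agent.LGO.RU.Bnd
import Pool.Agent.LGO.Gal.NCM

/-!
# LGO/RCM: the local bounds for the value of the auxiliary function

Compare `bnd` (`LGO/RU/Bnd.lean`).  PROOF.  `p`-ADIC: always `‖φ ξ‖ ≤ 1`; as in the far case of `bnd_p`: `k = e + 2 L (L + 1)`.  COMPLEX: if `‖s ξ‖ ≤ max Q.C (exp B)`: as in `bnd_cf`, all is bounded by `exp((C B) ^ C)` (`up_c`, the bounds for `ya`, `yb`; the factor `ξ ^ (4 L (L + 1))` kills the poles).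
If `‖s ξ‖ > max Q.C (exp B)`: `Q.near_c`, the type (`TyCC`), `evP_phs` and `ld.root` (`isogDeg_map`): `evP s Φs t (s yb) = 0`; `vac_c` with `N = R = L + 1`, `G = Gar D.e D.h n₂ D.W c`, `U = (ld.G.map C) ^ ((L + 1) T)`, `evP_G`: `‖evP s U t (s yb)‖ ≥ exp(-B (L + 1) T)` at the second type; `‖evc qa t‖ ≥ ‖t‖ ^ m / C`;
`T - (e n₂ + h e) - m L (L + 1) = e`, so `‖s F‖ ≤ exp((C B) ^ C) ‖t‖ ^ e` and `‖t‖ ^ e ‖s ξ‖ = 1`.  `‖s yb‖ ≤ (C₁ max 1 ‖s (x b)‖) ^ (2 L)` and `s (x b)` is bounded near the point.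
-/

namespace Pool.Agent.LGO.RCM

open PowerSeries Pool.Agent.Hhelper14.ZP Pool.Agent.LGO.RU Pool.Agent.LGO Pool.Agent.LGO.PA

variable {n : ℕ} {V : Set (Fin n → ℂ)} {a b : Fin n} {β : ℂ}

private theorem Bnd_e (k : ℕ) : (k : ℝ) ≤ Real.exp k := by
  have := Real.add_one_le_exp (k : ℝ)
  linarith

private theorem Bnd_pe (Z : ℝ) (hZ : 0 ≤ Z) (k : ℕ) : Z ^ k ≤ Real.exp (Z * k) := by
  have h1 : Z ≤ Real.exp Z := by
    have := Real.add_one_le_exp Z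
    linarith
  calc Z ^ k ≤ Real.exp Z ^ k := pow_le_pow_left₀ hZ h1 k
    _ = Real.exp (Z * k) := by rw [← Real.exp_nat_mul, mul_comm]

private theorem Bnd_fin {K a C : ℕ} {B x : ℝ} (hB : 1 ≤ B) (hK : K ≤ C) (ha : a ≤ C)
    (hC : 1 ≤ C) (hx : x ≤ K * B ^ a) : x ≤ ((C : ℝ) * B) ^ C := by
  have hB0 : 0 ≤ B := zero_le_one.trans hB
  have h1 : (K : ℝ) ≤ (C : ℝ) ^ C := by
    have : C ≤ C ^ C := Nat.le_self_pow (by omega) C
    exact_mod_cast hK.trans this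
  calc x ≤ K * B ^ a := hx
    _ ≤ (C : ℝ) ^ C * B ^ C :=
      mul_le_mul h1 (pow_le_pow_right₀ hB ha) (pow_nonneg hB0 _) (by positivity)
    _ = ((C : ℝ) * B) ^ C := (mul_pow _ _ _).symm

/-- the estimate near the point -/
private theorem Bnd_core {t ξ F S q : ℂ} {e T₁ m M : ℕ} {K ρ ν u : ℝ} (hν : 0 ≤ ν) (hu : 0 ≤ u)
    (ht0 : 0 < ‖t‖) (hξ : t ^ e * ξ = 1) (hF : t ^ T₁ * F = S)
    (h5 : u * ‖S‖ * ‖q‖ ^ M ≤ K * (‖t‖ / ρ) ^ (T₁ + m * M + e)) (hq : ‖t‖ ^ m ≤ ν * ‖q‖) :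
    u * (‖F‖ * ‖ξ‖) ≤ ν ^ M * K * (1 / ρ) ^ (T₁ + m * M + e) := by
  have e1 : ‖t‖ ^ e * ‖ξ‖ = 1 := by rw [← norm_pow, ← norm_mul, hξ, norm_one]
  have h6 : ‖t‖ ^ (m * M) ≤ ν ^ M * ‖q‖ ^ M := by
    rw [pow_mul, ← mul_pow]
    exact pow_le_pow_left₀ (by positivity) hq M
  have e2 : ‖S‖ = ‖t‖ ^ T₁ * ‖F‖ := by rw [← hF, norm_mul, norm_pow]
  have h7 : ‖t‖ ^ (T₁ + m * M) * (u * ‖F‖) ≤
      ‖t‖ ^ (T₁ + m * M) * (ν ^ M * K * (1 / ρ) ^ (T₁ + m * M + e) * ‖t‖ ^ e) := by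
    calc ‖t‖ ^ (T₁ + m * M) * (u * ‖F‖) = (u * ‖S‖) * ‖t‖ ^ (m * M) := by
          rw [e2, pow_add]; ring
      _ ≤ (u * ‖S‖) * (ν ^ M * ‖q‖ ^ M) := mul_le_mul_of_nonneg_left h6 (by positivity)
      _ = ν ^ M * (u * ‖S‖ * ‖q‖ ^ M) := by ring
      _ ≤ ν ^ M * (K * (‖t‖ / ρ) ^ (T₁ + m * M + e)) := mul_le_mul_of_nonneg_left h5 (by positivity)
      _ = _ := by
        rw [div_eq_mul_one_div ‖t‖ ρ, mul_pow, pow_add ‖t‖ (T₁ + m * M) e]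
        ring
  have h9 := le_of_mul_le_mul_left h7 (pow_pos ht0 _)
  calc u * (‖F‖ * ‖ξ‖) = u * ‖F‖ * ‖ξ‖ := by ring
    _ ≤ ν ^ M * K * (1 / ρ) ^ (T₁ + m * M + e) * ‖t‖ ^ e * ‖ξ‖ :=
        mul_le_mul_of_nonneg_right h9 (norm_nonneg _)
    _ = _ := by rw [mul_assoc, e1, mul_one]

private theorem Bnd_grPow {r A : ℝ} (hr : 0 ≤ r) {P : Polynomial Ser} (h : GrP r A P) {d : ℝ}
    (hd : (P.natDegree : ℝ) ≤ d) (j : ℕ) : GrP r (((d + 1) * A) ^ j) (P ^ j) := by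
  have hA : 0 ≤ A := gr_nonneg (h 0)
  induction j with
  | zero =>
    intro k
    rw [pow_zero, pow_zero, Polynomial.coeff_one]
    split_ifs
    · exact gr_one
    · exact gr_mono gr_zero zero_le_one
  | succ j ih =>
    have hX : 0 ≤ ((d + 1) * A) ^ j := gr_nonneg (ih 0)
    intro k
    rw [pow_succ' P, pow_succ' ((d + 1) * A)]
    refine gr_mono (mul_gr hr h ih k) ?_
    rw [← mul_assoc]
    refine mul_le_mul_of_nonneg_right ?_ hX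
    exact mul_le_mul_of_nonneg_right (by linarith) hA

private theorem Bnd_T {e h m n₂ L : ℕ} {B : ℝ} (hB : 1 ≤ B) (hL : (L : ℝ) ≤ B) (hn : (n₂ : ℝ) ≤ B) :
    ((e * n₂ + h * e + m * L * (L + 1) + e : ℕ) : ℝ) ≤ ((2 * e + h * e + 2 * m : ℕ) : ℝ) * B ^ 2 := by
  have hB0 : 0 ≤ B := zero_le_one.trans hB
  have a0 : B ≤ B ^ 2 := by nlinarith
  have a1 : (1 : ℝ) ≤ B ^ 2 := hB.trans a0
  have a2 : (e : ℝ) * n₂ ≤ e * B ^ 2 := mul_le_mul_of_nonneg_left (hn.trans a0) (Nat.cast_nonneg _)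
  have a3 : (h : ℝ) * e ≤ h * e * B ^ 2 := le_mul_of_one_le_right (by positivity) a1
  have a4 : (e : ℝ) ≤ e * B ^ 2 := le_mul_of_one_le_right (by positivity) a1
  have a5 : (L : ℝ) * (L + 1) ≤ 2 * B ^ 2 := by
    have h1 : (L : ℝ) + 1 ≤ 2 * B := by linarith
    calc (L : ℝ) * (L + 1) ≤ B * (2 * B) := mul_le_mul hL h1 (by positivity) hB0
      _ = 2 * B ^ 2 := by ring
  have a6 : (m : ℝ) * L * (L + 1) ≤ 2 * m * B ^ 2 := by
    calc (m : ℝ) * L * (L + 1) = m * (L * (L + 1)) := by ring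
      _ ≤ m * (2 * B ^ 2) := mul_le_mul_of_nonneg_left a5 (Nat.cast_nonneg _)
      _ = 2 * m * B ^ 2 := by ring
  push_cast
  nlinarith

/-- far from the point, complex -/
private theorem Bnd_far (D : LocC V a b β) (Q : QDC D) (C₁ : ℕ) : ∃ K : ℕ, ∀ {L : ℕ} {B : ℝ},
    1 ≤ B → (L : ℝ) ≤ B → ∀ {n₂ : ℕ}, (n₂ : ℝ) ≤ B → ∀ {c : ℕ → ℕ → ℕ → ℕ → OO},
    CB D.K₀ c D.e (4 * L * (L + 1)) n₂ (L + 1) B →
    ∀ {x : Fin n → ℂ}, x ∈ V → x ∉ D.E → ∀ {ya yb : ℂ} (s : ℂ ≃+* ℂ),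
    ‖s (D.ξ x)‖ ≤ max (Q.C : ℝ) (Real.exp B) →
    ‖s ya‖ ≤ (C₁ * max 1 ‖s (x a)‖) ^ (2 * L) → ‖s yb‖ ≤ (C₁ * max 1 ‖s (x b)‖) ^ (2 * L) →
    ‖s (vE OO.subtype c D.e n₂ (L + 1) (D.ξ x) (D.η x) ya yb)‖ *
        max 1 ‖s (D.ξ x)‖ ≤ Real.exp (K * B ^ 3) := by
  obtain ⟨Zn, hZn⟩ : ∃ Zn : ℕ, Zn = Q.C + D.C * Q.C ^ D.C + C₁ + 1 := ⟨_, rfl⟩
  refine ⟨(Zn + D.C + 1) * (D.e + 18) + D.e + 6, ?_⟩
  intro L B hB hL n₂ hn c hc x hx hxE ya yb s hs hya hyb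
  have hB0 : 0 ≤ B := zero_le_one.trans hB
  have hQC : (1 : ℝ) ≤ Q.C := by exact_mod_cast Q.pos.2.2
  have hexp : 1 ≤ Real.exp B := Real.one_le_exp hB0
  have hZe : (Zn : ℝ) = Q.C + D.C * (Q.C : ℝ) ^ D.C + C₁ + 1 := by rw [hZn]; push_cast; ring
  have w1 : (0 : ℝ) ≤ D.C * (Q.C : ℝ) ^ D.C := by positivity
  have w2 : (0 : ℝ) ≤ C₁ := Nat.cast_nonneg _
  set E : ℝ := Real.exp (B * (D.C + 1)) with hE
  have hE1 : 1 ≤ E := Real.one_le_exp (by positivity)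
  have hEB : Real.exp B ≤ E := by
    rw [hE, Real.exp_le_exp]
    exact le_mul_of_one_le_right hB0 (by linarith [(Nat.cast_nonneg D.C : (0 : ℝ) ≤ D.C)])
  have hED : Real.exp B ^ D.C ≤ E := by
    rw [hE, ← Real.exp_nat_mul, Real.exp_le_exp]
    nlinarith
  set Z : ℝ := Zn * E with hZ
  have hZn1 : (1 : ℝ) ≤ Zn := by rw [hZe]; linarith
  have hZ1 : 1 ≤ Z := one_le_mul_of_one_le_of_one_le hZn1 hE1
  have hM : max (Q.C : ℝ) (Real.exp B) ≤ Q.C * Real.exp B :=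
    max_le (le_mul_of_one_le_right (by positivity) hexp) (le_mul_of_one_le_left (by positivity) hQC)
  have hm : max 1 ‖s (D.ξ x)‖ ≤ Q.C * Real.exp B :=
    max_le (one_le_mul_of_one_le_of_one_le hQC hexp) (hs.trans hM)
  have hQZ : (Q.C : ℝ) * Real.exp B ≤ Z :=
    mul_le_mul (by rw [hZe]; linarith) hEB (Real.exp_pos _).le (by positivity)
  have hCZ : (C₁ : ℝ) ≤ Z := by
    calc (C₁ : ℝ) ≤ Zn := by rw [hZe]; linarith
      _ ≤ Z := le_mul_of_one_le_right (by positivity) hE1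
  obtain ⟨u1, u2, u3⟩ := D.up_c s x hx hxE
  have hu : (D.C : ℝ) * max 1 ‖s (D.ξ x)‖ ^ D.C ≤ Z := by
    calc (D.C : ℝ) * max 1 ‖s (D.ξ x)‖ ^ D.C ≤ D.C * (Q.C * Real.exp B) ^ D.C :=
          mul_le_mul_of_nonneg_left (pow_le_pow_left₀ (by positivity) hm _) (Nat.cast_nonneg _)
      _ = (D.C * (Q.C : ℝ) ^ D.C) * Real.exp B ^ D.C := by rw [mul_pow]; ring
      _ ≤ Zn * E := mul_le_mul (by rw [hZe]; linarith) hED (by positivity) (by positivity)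
  have hy1 : ‖s ya‖ ≤ (Z * max 1 ‖s (x a)‖) ^ (2 * L) := hya.trans
    (pow_le_pow_left₀ (by positivity) (mul_le_mul_of_nonneg_right hCZ (by positivity)) _)
  have hy2 : ‖s yb‖ ≤ (Z * max 1 ‖s (x b)‖) ^ (2 * L) := hyb.trans
    (pow_le_pow_left₀ (by positivity) (mul_le_mul_of_nonneg_right hCZ (by positivity)) _)
  have h1 := far_c s c hc.supp (fun i j k k' => hc.bd i j k k' s) (Real.exp_pos B).le hZ1
    ((hs.trans hM).trans hQZ) (u1.trans hu) (u2.trans hu) (u3.trans hu) hy1 hy2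
  rw [map_vE_c]
  change ‖vE (sC s) c D.e n₂ (L + 1) (s (D.ξ x)) (s (D.η x)) (s ya) (s yb)‖ * _ ≤ _
  set W₀ : ℝ := Zn + B * (D.C + 1) with hW₀
  have hW0 : 0 ≤ W₀ := by positivity
  have hZW : Z ≤ Real.exp W₀ := by
    rw [hW₀, Real.exp_add]
    exact mul_le_mul_of_nonneg_right (Bnd_e Zn) (Real.exp_pos _).le
  have h2 : ‖vE (sC s) c D.e n₂ (L + 1) (s (D.ξ x)) (s (D.η x)) (s ya) (s yb)‖ *
      max 1 ‖s (D.ξ x)‖ ≤
      Real.exp D.e * Real.exp n₂ * Real.exp ((L + 1 : ℕ) : ℝ) * Real.exp ((L + 1 : ℕ) : ℝ) *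
        (Real.exp B * Real.exp (((D.e + n₂ + 8 * L * (L + 1) : ℕ) : ℝ) * W₀)) *
        Real.exp W₀ := by
    have k1 : Z ^ (D.e + n₂ + 8 * L * (L + 1)) ≤
        Real.exp (((D.e + n₂ + 8 * L * (L + 1) : ℕ) : ℝ) * W₀) := by
      rw [Real.exp_nat_mul]
      exact pow_le_pow_left₀ (by positivity) hZW _
    have k2 : max 1 ‖s (D.ξ x)‖ ≤ Real.exp W₀ := (hm.trans hQZ).trans hZW
    have k3 := Bnd_e D.e
    have k4 := Bnd_e n₂
    have k5 := Bnd_e (L + 1)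
    refine mul_le_mul (h1.trans ?_) k2 (by positivity) (by positivity)
    have : (0 : ℝ) ≤ Real.exp B * Z ^ (D.e + n₂ + 8 * L * (L + 1)) := by positivity
    gcongr
  refine h2.trans ?_
  rw [← Real.exp_add, ← Real.exp_add, ← Real.exp_add, ← Real.exp_add, ← Real.exp_add,
    ← Real.exp_add, Real.exp_le_exp]
  have b1 : B ≤ B ^ 3 := by nlinarith [sq_nonneg B, mul_nonneg hB0 hB0]
  have b0 : (1 : ℝ) ≤ B ^ 3 := hB.trans b1
  have hW₀' : W₀ ≤ (Zn + D.C + 1) * B := by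
    rw [hW₀]
    have : (Zn : ℝ) ≤ Zn * B := le_mul_of_one_le_right (by positivity) hB
    nlinarith
  have hk : (((D.e + n₂ + 8 * L * (L + 1) : ℕ) : ℝ) + 1) ≤ (D.e + 18) * B ^ 2 := by
    push_cast
    have a0 : B ≤ B ^ 2 := by nlinarith
    have a1 : (1 : ℝ) ≤ B ^ 2 := hB.trans a0
    have a5 : (L : ℝ) * (L + 1) ≤ 2 * B ^ 2 := by
      have h1 : (L : ℝ) + 1 ≤ 2 * B := by linarith
      calc (L : ℝ) * (L + 1) ≤ B * (2 * B) := mul_le_mul hL h1 (by positivity) hB0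
        _ = 2 * B ^ 2 := by ring
    have a6 : (D.e : ℝ) ≤ D.e * B ^ 2 := le_mul_of_one_le_right (Nat.cast_nonneg _) a1
    nlinarith
  have hmul : (((D.e + n₂ + 8 * L * (L + 1) : ℕ) : ℝ) + 1) * W₀ ≤
      (Zn + D.C + 1) * (D.e + 18) * B ^ 3 := by
    calc (((D.e + n₂ + 8 * L * (L + 1) : ℕ) : ℝ) + 1) * W₀
        ≤ ((D.e + 18) * B ^ 2) * ((Zn + D.C + 1) * B) :=
          mul_le_mul hk hW₀' hW0 (by positivity)
      _ = _ := by ring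
  have c1 : (D.e : ℝ) ≤ D.e * B ^ 3 := le_mul_of_one_le_right (Nat.cast_nonneg _) b0
  have c2 : (L : ℝ) ≤ B ^ 3 := hL.trans b1
  have c3 : (n₂ : ℝ) ≤ B ^ 3 := hn.trans b1
  push_cast at hmul ⊢
  nlinarith

theorem bndC (D : LocC V a b β) (Q : QDC D) (C₁ : ℕ) : ∃ C : ℕ, 0 < C ∧ ∀ (L : ℕ) (B : ℝ)
    (ld : LD D.K₀ β L B), L.Prime → 1 ≤ B → (L : ℝ) ≤ B →
    ∀ (n₂ : ℕ) (c : ℕ → ℕ → ℕ → ℕ → OO), (n₂ : ℝ) ≤ B →
      CB D.K₀ c D.e (4 * L * (L + 1)) n₂ (L + 1) B →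
      VAC L (L + 1) (L + 1) (Gar D.e D.h n₂ D.W c) Q.qa (Phs ld.Φ D.Sb)
        ((ld.G.map (PowerSeries.C (R := OO))) ^ ((L + 1) * (D.e * n₂ + D.h * D.e + D.m * L * (L + 1) + D.e)))
        (D.e * n₂ + D.h * D.e + D.m * L * (L + 1) + D.e) →
      ∀ x ∈ V, x ∉ D.E → ∀ ya yb : ℂ, IsogDeg L (x b) yb →
        (∀ (p : ℕ) [Fact p.Prime] (φ : ℂ →+* ℂ_[p]), ‖φ (D.ξ x)‖ ≤ 1) →
        (∀ (s : ℂ ≃+* ℂ) (τ : UpperHalfPlane), Real.exp B ≤ ‖s (D.ξ x)‖ → 1 < τ.im →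
          jInv τ = s (x a) →
          TyCC s L ld.G (Real.exp (-B)) (Complex.exp (2 * Real.pi * Complex.I * τ)) ya yb) →
        (∀ (p : ℕ) [Fact p.Prime] (φ : ℂ →+* ℂ_[p]), ‖φ ya‖ ≤ max 1 ‖φ (x a)‖ ^ L ∧
          ‖φ yb‖ ≤ max 1 ‖φ (x b)‖ ^ L) →
        (∀ s : ℂ ≃+* ℂ, ‖s ya‖ ≤ (C₁ * max 1 ‖s (x a)‖) ^ (2 * L) ∧
          ‖s yb‖ ≤ (C₁ * max 1 ‖s (x b)‖) ^ (2 * L)) →
        (∃ k : ℕ, (k : ℝ) ≤ ((C : ℝ) * B) ^ C ∧ ∀ (p : ℕ) [Fact p.Prime] (φ : ℂ →+* ℂ_[p]),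
          ‖(D.n₀ : ℂ_[p])‖ ^ k * (‖φ (vE OO.subtype c D.e n₂ (L + 1) (D.ξ x) (D.η x) ya yb)‖ *
            max 1 ‖φ (D.ξ x)‖) ≤ 1) ∧
        ∀ s : ℂ ≃+* ℂ, ‖s (vE OO.subtype c D.e n₂ (L + 1) (D.ξ x) (D.η x) ya yb)‖ *
          max 1 ‖s (D.ξ x)‖ ≤ Real.exp (((C : ℝ) * B) ^ C) := by
  obtain ⟨K₁, hfar⟩ := Bnd_far D Q C₁
  obtain ⟨C₂, hC₂, hvac⟩ := vac_c Q.pos.1 Q.pos.2.1 Q.c0 Q.gr.1
  obtain ⟨P, hP⟩ := exists_nat_gt (1 / Q.ρ)
  obtain ⟨KT, hKT⟩ : ∃ KT : ℕ, KT = 2 * D.e + D.h * D.e + 2 * D.m := ⟨_, rfl⟩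
  obtain ⟨K', hK'⟩ : ∃ K' : ℕ, K' = 2 + Q.C + 4 * KT + (D.e + 2 + Q.C * D.e) + 2 * C₁ * Q.C + 2 := ⟨_, rfl⟩
  obtain ⟨K₂, hK₂⟩ : ∃ K₂ : ℕ, K₂ = 2 * KT + 2 * Q.C + P * KT + (C₂ * K') ^ C₂ := ⟨_, rfl⟩
  refine ⟨K₂ + (4 * C₂ + 4) + K₁ + (D.e + 4) + 3, by omega, ?_⟩
  intro L B ld hLp hB hLB n₂ c hn₂ hc hV x hx hxE ya yb hIs hint hT hYp hYc
  have hL : 0 < L := hLp.pos
  have hB0 : 0 ≤ B := zero_le_one.trans hB
  have hQC : (1 : ℝ) ≤ Q.C := by exact_mod_cast Q.pos.2.2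
  have hρ := Q.pos.1
  have hLL : (L : ℝ) + 1 ≤ 2 * B := by linarith
  have hLL2 : (L : ℝ) * (L + 1) ≤ 2 * B ^ 2 := by
    calc (L : ℝ) * (L + 1) ≤ B * (2 * B) := mul_le_mul hLB hLL (by positivity) hB0
      _ = 2 * B ^ 2 := by ring
  have bb2 : (1 : ℝ) ≤ B ^ 2 := one_le_pow₀ hB
  have bb4 : B ^ 2 ≤ B ^ 4 := pow_le_pow_right₀ hB (by norm_num)
  have bb1 : B ≤ B ^ 4 := by
    calc B = B ^ 1 := (pow_one B).symm
      _ ≤ B ^ 4 := pow_le_pow_right₀ hB (by norm_num)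
  have bb0 : (1 : ℝ) ≤ B ^ 4 := one_le_pow₀ hB
  refine ⟨⟨D.e + 2 * L * (L + 1), ?_, ?_⟩, ?_⟩
  · refine Bnd_fin (K := D.e + 4) (a := 2) hB (by omega) (by omega) (by omega) ?_
    push_cast
    have : (D.e : ℝ) ≤ D.e * B ^ 2 := le_mul_of_one_le_right (Nat.cast_nonneg _) bb2
    nlinarith
  · intro p _ φ
    have hn1 : ‖(D.n₀ : ℂ_[p])‖ ≤ 1 := Pool.Agent.Hhelper14.ZP.norm_natCast_le _
    have h := hint p φ
    rw [map_vE]
    change ‖(D.n₀ : ℂ_[p])‖ ^ (D.e + 2 * L * (L + 1)) *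
      (‖vE (sO φ) c D.e n₂ (L + 1) (φ (D.ξ x)) (φ (D.η x)) (φ ya) (φ yb)‖ *
        max 1 ‖φ (D.ξ x)‖) ≤ 1
    obtain ⟨u1, u2, u3⟩ := D.up_p p φ x hx hxE
    change _ ≤ max 1 ‖φ (D.ξ x)‖ ^ D.C at u1
    change ‖(D.n₀ : ℂ_[p])‖ * (‖φ (D.ξ x)‖ * _) ≤ max 1 ‖φ (D.ξ x)‖ ^ D.C at u2
    change ‖(D.n₀ : ℂ_[p])‖ * (‖φ (D.ξ x)‖ * _) ≤ max 1 ‖φ (D.ξ x)‖ ^ D.C at u3
    rw [max_eq_left h, one_pow] at u1 u2 u3
    rw [max_eq_left h, mul_one]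
    exact far_p φ c hc.supp hn1 h u1 u2 u3 (hYp p φ).1 (hYp p φ).2
  · intro s
    rcases le_or_gt ‖s (D.ξ x)‖ (max (Q.C : ℝ) (Real.exp B)) with h | h
    · refine (hfar hB hLB hn₂ hc hx hxE s h (hYc s).1 (hYc s).2).trans (Real.exp_le_exp.2 ?_)
      exact Bnd_fin (K := K₁) (a := 3) hB (by omega) (by omega) (by omega) le_rfl
    -- near the point
    obtain ⟨hsQ, hsB⟩ := max_lt_iff.1 h
    obtain ⟨t, ht0, ht1, hξ, hη, hxb, -, hqt, τ, hi, hj, hqa⟩ := Q.near_c s x hx hxE hsQ.le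
    obtain ⟨τ₁, hj₁, hty⟩ := hT s τ hsB.le hi hj
    rw [hqa] at hty
    set T : ℕ := D.e * n₂ + D.h * D.e + D.m * L * (L + 1) + D.e with hTd
    have hTb : (T : ℝ) ≤ KT * B ^ 2 := by rw [hKT]; exact Bnd_T hB hLB hn₂
    have hLT : (((L + 1) * T : ℕ) : ℝ) ≤ 2 * KT * B ^ 3 := by
      push_cast
      calc ((L : ℝ) + 1) * T ≤ (2 * B) * (KT * B ^ 2) := mul_le_mul hLL hTb (by positivity) (by positivity)
        _ = 2 * KT * B ^ 3 := by ring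
    set B' : ℝ := K' * B ^ 4 with hB'
    have hK'le : ∀ {k : ℕ} {z : ℝ}, k ≤ K' → z ≤ k * B ^ 4 → z ≤ B' := by
      intro k z hk hz
      refine hz.trans (mul_le_mul_of_nonneg_right ?_ (by positivity))
      exact_mod_cast hk
    set U : Polynomial Ser := (ld.G.map (PowerSeries.C (R := OO))) ^ ((L + 1) * T) with hU
    -- the growth
    have g0 : GrP Q.ρ (Real.exp B) (ld.G.map (PowerSeries.C (R := OO))) := by
      intro k
      rw [Polynomial.coeff_map]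
      exact gr_C (Real.exp_pos _).le fun s => ld.Gbd s k
    have gd : (((ld.G.map (PowerSeries.C (R := OO))).natDegree : ℕ) : ℝ) ≤ B := by
      refine le_trans ?_ ld.Gdeg
      exact_mod_cast Polynomial.natDegree_map_le
    have g1 : GrP Q.ρ (Real.exp B') U := by
      intro k
      refine gr_mono (Bnd_grPow hρ.le g0 gd ((L + 1) * T) k) ?_
      have h1 : (B + 1) * Real.exp B ≤ Real.exp (2 * B) := by
        rw [two_mul, Real.exp_add]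
        exact mul_le_mul_of_nonneg_right (Real.add_one_le_exp B) (Real.exp_pos _).le
      calc ((B + 1) * Real.exp B) ^ ((L + 1) * T) ≤ Real.exp (2 * B) ^ ((L + 1) * T) :=
            pow_le_pow_left₀ (by positivity) h1 _
        _ = Real.exp (((((L + 1) * T : ℕ) : ℝ)) * (2 * B)) := by rw [Real.exp_nat_mul]
        _ ≤ Real.exp B' := by
            refine Real.exp_le_exp.2 (hK'le (k := 4 * KT) (by omega) ?_)
            push_cast at hLT ⊢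
            calc ((L : ℝ) + 1) * T * (2 * B) ≤ (2 * KT * B ^ 3) * (2 * B) :=
                  mul_le_mul_of_nonneg_right hLT (by positivity)
              _ = 4 * KT * B ^ 4 := by ring
    have gU : (U.natDegree : ℝ) ≤ B' := by
      refine hK'le (k := 2 * KT) (by omega) ?_
      have h1 : U.natDegree ≤ ((L + 1) * T) * (ld.G.map (PowerSeries.C (R := OO))).natDegree :=
        Polynomial.natDegree_pow_le
      calc (U.natDegree : ℝ) ≤ ((((L + 1) * T) * (ld.G.map (PowerSeries.C (R := OO))).natDegree : ℕ) : ℝ) := by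
            exact_mod_cast h1
        _ = (((L + 1) * T : ℕ) : ℝ) * ((ld.G.map (PowerSeries.C (R := OO))).natDegree : ℝ) := by
            push_cast; ring
        _ ≤ (2 * KT * B ^ 3) * B := mul_le_mul hLT gd (by positivity) (by positivity)
        _ = ((2 * KT : ℕ) : ℝ) * B ^ 4 := by push_cast; ring
    have gP : GrP Q.ρ (Real.exp B') (Phs ld.Φ D.Sb) := by
      have h1 := phs_gr hρ.le Q.gr.2.2 hQC (Φ := ld.Φ) (d := ⌊B⌋₊) (B := Real.exp B)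
        (fun k => Nat.le_floor (ld.bdd k)) ld.bdc
      intro k
      refine gr_mono (h1 k) ?_
      have h2 : ((⌊B⌋₊ : ℕ) : ℝ) ≤ B := Nat.floor_le hB0
      have h3 : ((⌊B⌋₊ : ℕ) : ℝ) + 1 ≤ Real.exp B :=
        (Real.add_one_le_exp _).trans (Real.exp_le_exp.2 h2)
      have h4 : (Q.C : ℝ) ^ ⌊B⌋₊ ≤ Real.exp (Q.C * B) :=
        (Bnd_pe _ (by positivity) _).trans
          (Real.exp_le_exp.2 (mul_le_mul_of_nonneg_left h2 (by positivity)))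
      calc (((⌊B⌋₊ : ℕ) : ℝ) + 1) * (Real.exp B * (Q.C : ℝ) ^ ⌊B⌋₊)
          ≤ Real.exp B * (Real.exp B * Real.exp (Q.C * B)) := by gcongr
        _ = Real.exp (B + (B + Q.C * B)) := by rw [Real.exp_add, Real.exp_add]
        _ ≤ Real.exp B' := by
            refine Real.exp_le_exp.2 (hK'le (k := 2 + Q.C) (by omega) ?_)
            push_cast
            calc B + (B + Q.C * B) = (2 + Q.C) * B := by ring
              _ ≤ (2 + Q.C) * B ^ 4 := mul_le_mul_of_nonneg_left bb1 (by positivity)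
    have gG : ∀ k < L + 1, ∀ k' < L + 1, Gr Q.ρ (Real.exp B') (Gar D.e D.h n₂ D.W c k k') := by
      intro k _ k' _
      have h1 := gar_gr (C₀ := Q.C) (B₀ := Real.exp B) hρ.le Q.pos.2.1 hQC (Real.exp_pos B).le
        Q.gr.2.1 D.e D.h n₂ k k' (fun i j s => hc.bd i j k k' s)
      refine gr_mono h1 ?_
      calc (D.e : ℝ) * n₂ * (Real.exp B * (Q.C : ℝ) ^ D.e)
          ≤ Real.exp D.e * Real.exp n₂ * (Real.exp B * Real.exp (Q.C * D.e)) := by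
            gcongr
            · exact Bnd_e _
            · exact Bnd_e _
            · exact Bnd_pe _ (by positivity) _
        _ = Real.exp (D.e + n₂ + B + Q.C * D.e) := by
            rw [← Real.exp_add, ← Real.exp_add, ← Real.exp_add]
            ring_nf
        _ ≤ Real.exp B' := by
            refine Real.exp_le_exp.2 (hK'le (k := D.e + 2 + Q.C * D.e) (by omega) ?_)
            push_cast
            have a1 : (D.e : ℝ) ≤ D.e * B ^ 4 := le_mul_of_one_le_right (by positivity) bb0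
            have a2 : (Q.C : ℝ) * D.e ≤ Q.C * D.e * B ^ 4 := le_mul_of_one_le_right (by positivity) bb0
            nlinarith
    have hsb : ‖s (x b)‖ ≤ Q.C := by
      rw [hxb]
      exact evc_norm_le Q.gr.2.2 ht1 s
    have hyb : ‖s yb‖ ≤ Real.exp B' := by
      refine (hYc s).2.trans ?_
      have h1 : (C₁ : ℝ) * max 1 ‖s (x b)‖ ≤ C₁ * Q.C :=
        mul_le_mul_of_nonneg_left (max_le hQC hsb) (Nat.cast_nonneg _)
      calc ((C₁ : ℝ) * max 1 ‖s (x b)‖) ^ (2 * L) ≤ ((C₁ : ℝ) * Q.C) ^ (2 * L) :=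
            pow_le_pow_left₀ (by positivity) h1 _
        _ ≤ Real.exp ((C₁ : ℝ) * Q.C * (2 * L : ℕ)) := Bnd_pe _ (by positivity) _
        _ ≤ Real.exp B' := by
            refine Real.exp_le_exp.2 (hK'le (k := 2 * C₁ * Q.C) (by omega) ?_)
            push_cast
            calc (C₁ : ℝ) * Q.C * (2 * L) = 2 * C₁ * Q.C * L := by ring
              _ ≤ 2 * C₁ * Q.C * B ^ 4 := mul_le_mul_of_nonneg_left (hLB.trans bb1) (by positivity)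
    have hPy : evP s (Phs ld.Φ D.Sb) t (s yb) = 0 := by
      rw [evP_phs s Q.gr.2.2 ld.Φ ht1, ← hxb]
      exact ld.root _ _ (isogDeg_map s hL hIs)
    have hB1 : 1 ≤ B' := hK'le (k := 1) (by omega) (by push_cast; linarith)
    have hBL : (L : ℝ) ≤ B' := hK'le (k := 1) (by omega) (by push_cast; linarith)
    have hBL1 : ((L + 1 : ℕ) : ℝ) ≤ B' := hK'le (k := 2) (by omega) (by push_cast; linarith)
    have hmon := phs_monic (S := D.Sb) ld.monic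
    obtain ⟨v1, v2⟩ := hvac L (L + 1) (L + 1) T (Gar D.e D.h n₂ D.W c) (Phs ld.Φ D.Sb) U B' s t (s yb) τ₁
      hL (Nat.succ_pos L) hB1 hBL hBL1 hBL1 hmon.1 (hmon.2.trans ld.deg) gP gU g1 gG hV ht0 ht1 hPy hyb
    have hF := vE_gar_c s (Real.exp_pos B).le Q.gr.2.1 c hc.bd D.e D.h n₂ (L + 1) (jInv τ₁) (s yb)
      ht1 hξ hη
    rw [map_vE_c, ← hj₁]
    change ‖vE (sC s) c D.e n₂ (L + 1) (s (D.ξ x)) (s (D.η x)) (jInv τ₁) (s yb)‖ *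
      max 1 ‖s (D.ξ x)‖ ≤ _
    rw [max_eq_right (hQC.trans hsQ.le)]
    set X := ‖vE (sC s) c D.e n₂ (L + 1) (s (D.ξ x)) (s (D.η x)) (jInv τ₁) (s yb)‖ * ‖s (D.ξ x)‖ with hX
    have hX0 : 0 ≤ X := by positivity
    have hTe : T = (D.e * n₂ + D.h * D.e) + D.m * (L * (L + 1)) + D.e := by rw [hTd]; ring
    have hsw : ∀ k k' : ℕ, evc s (Gar D.e D.h n₂ D.W c k k') t * jInv τ₁ ^ k * (s yb) ^ k' =
        evc s (Gar D.e D.h n₂ D.W c k k') t * jInv τ₁ ^ k * (s yb) ^ k' := fun _ _ => rfl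
    have key : Real.exp (-(B * (((L + 1) * T : ℕ) : ℝ))) * X ≤
        (Q.C : ℝ) ^ (L * (L + 1)) * Real.exp (((C₂ : ℝ) * B') ^ C₂) * (1 / Q.ρ) ^ T := by
      rcases hty with h1 | ⟨h1, h2⟩
      · have h3 := v1 h1
        rw [hTe] at h3 ⊢
        have h4 := Bnd_core (u := 1) (M := L * (L + 1)) (Nat.cast_nonneg Q.C) zero_le_one ht0 hξ hF
          (by rw [one_mul]; exact h3) hqt
        rw [one_mul] at h4
        refine le_trans ?_ h4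
        refine mul_le_of_le_one_left hX0 ?_
        rw [Real.exp_le_one_iff]
        have : 0 ≤ B * ((((L + 1) * (D.e * n₂ + D.h * D.e + D.m * (L * (L + 1)) + D.e)) : ℕ) : ℝ) := by
          positivity
        linarith
      · have h3 := v2 h1
        have h5 : Real.exp (-(B * (((L + 1) * T : ℕ) : ℝ))) ≤ ‖evP s U t (s yb)‖ := by
          rw [hU, evP_G, norm_pow]
          refine le_trans (le_of_eq ?_) (pow_le_pow_left₀ (Real.exp_pos _).le h2 ((L + 1) * T))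
          rw [← Real.exp_nat_mul]
          ring_nf
        rw [hTe] at h3 h5 ⊢
        have h4 := Bnd_core (M := L * (L + 1)) (Nat.cast_nonneg Q.C) (norm_nonneg _) ht0 hξ hF h3 hqt
        exact (mul_le_mul_of_nonneg_right h5 hX0).trans h4
    have h7 : X ≤ Real.exp (B * (((L + 1) * T : ℕ) : ℝ)) *
        (Real.exp (Q.C * ((L * (L + 1) : ℕ) : ℝ)) * Real.exp (((C₂ : ℝ) * B') ^ C₂) * Real.exp (P * T)) := by
      have k1 : (1 / Q.ρ) ^ T ≤ Real.exp (P * T) := by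
        calc (1 / Q.ρ) ^ T ≤ (P : ℝ) ^ T := pow_le_pow_left₀ (by positivity) hP.le T
          _ ≤ Real.exp (P * T) := Bnd_pe _ (by positivity) _
      have k2 := Bnd_pe (Q.C : ℝ) (by positivity) (L * (L + 1))
      calc X = Real.exp (B * (((L + 1) * T : ℕ) : ℝ)) *
            (Real.exp (-(B * (((L + 1) * T : ℕ) : ℝ))) * X) := by
            rw [← mul_assoc, ← Real.exp_add, add_neg_cancel, Real.exp_zero, one_mul]
        _ ≤ Real.exp (B * (((L + 1) * T : ℕ) : ℝ)) *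
            ((Q.C : ℝ) ^ (L * (L + 1)) * Real.exp (((C₂ : ℝ) * B') ^ C₂) * (1 / Q.ρ) ^ T) :=
            mul_le_mul_of_nonneg_left key (Real.exp_pos _).le
        _ ≤ _ := by gcongr
    refine h7.trans ?_
    rw [← Real.exp_add, ← Real.exp_add, ← Real.exp_add, Real.exp_le_exp]
    refine Bnd_fin (K := K₂) (a := 4 * C₂ + 4) hB (by omega) (by omega) (by omega) ?_
    have e1 : ((C₂ : ℝ) * B') ^ C₂ = (((C₂ * K') ^ C₂ : ℕ) : ℝ) * B ^ (4 * C₂) := by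
      rw [hB']
      push_cast
      rw [← mul_assoc, mul_pow, ← pow_mul]
    have e2 : B ^ (4 * C₂) ≤ B ^ (4 * C₂ + 4) := pow_le_pow_right₀ hB (by omega)
    have e3 : B ^ 4 ≤ B ^ (4 * C₂ + 4) := pow_le_pow_right₀ hB (by omega)
    have f1 : B * (((L + 1) * T : ℕ) : ℝ) ≤ 2 * KT * B ^ (4 * C₂ + 4) := by
      calc B * (((L + 1) * T : ℕ) : ℝ) ≤ B * (2 * KT * B ^ 3) := mul_le_mul_of_nonneg_left hLT hB0
        _ = 2 * KT * B ^ 4 := by ring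
        _ ≤ _ := mul_le_mul_of_nonneg_left e3 (by positivity)
    have f2 : (Q.C : ℝ) * ((L * (L + 1) : ℕ) : ℝ) ≤ 2 * Q.C * B ^ (4 * C₂ + 4) := by
      push_cast
      calc (Q.C : ℝ) * (L * (L + 1)) ≤ Q.C * (2 * B ^ 2) := mul_le_mul_of_nonneg_left hLL2 (by positivity)
        _ = 2 * Q.C * B ^ 2 := by ring
        _ ≤ _ := mul_le_mul_of_nonneg_left (bb4.trans e3) (by positivity)
    have f3 : (P : ℝ) * T ≤ P * KT * B ^ (4 * C₂ + 4) := by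
      calc (P : ℝ) * T ≤ P * (KT * B ^ 2) := mul_le_mul_of_nonneg_left hTb (by positivity)
        _ = P * KT * B ^ 2 := by ring
        _ ≤ _ := mul_le_mul_of_nonneg_left (bb4.trans e3) (by positivity)
    have f4 : ((C₂ : ℝ) * B') ^ C₂ ≤ (((C₂ * K') ^ C₂ : ℕ) : ℝ) * B ^ (4 * C₂ + 4) := by
      rw [e1]
      exact mul_le_mul_of_nonneg_left e2 (Nat.cast_nonneg _)
    have f5 : ((K₂ : ℕ) : ℝ) * B ^ (4 * C₂ + 4) = 2 * KT * B ^ (4 * C₂ + 4) +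
        2 * Q.C * B ^ (4 * C₂ + 4) + P * KT * B ^ (4 * C₂ + 4) +
        (((C₂ * K') ^ C₂ : ℕ) : ℝ) * B ^ (4 * C₂ + 4) := by
      rw [hK₂]
      push_cast
      ring
    rw [f5]
    linarith

end Pool.Agent.LGO.RCM
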