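import Mathlib
import Pool.Agent.LGO.RCM.Defs
import Pool.Agent.LGO.Gal.Basic
import Pool.Agent.LGO.AX.ChJ

/-!
# LGO/RCM: points near `j(τ₀)` come from points near `τ₀`

PROOF.  `f(z) = j(z) - j(τ₀)` is holomorphic near `τ₀` and not locally constant (`jInv` is not constant; `LGO/AX` has `jF`, `jF_coe`, differentiability): `f(z) = (z - τ₀) ^ k g(z)`, `g(τ₀) ≠ 0`, `k ≥ 1`.  By the open mapping theorem applied to discs `|z - τ₀| ≤ r` (quantitative: `|f| ≥ c r ^ k` on the circle; `DiffContOnCl.ball_subset_image_closedBall`: the image of the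
closed ball of radius `r` contains the ball of radius `c r ^ k / 2` around `f(τ₀) = 0`): for `z` with `‖z - j(τ₀)‖ < c r ^ k / 2` there is `τ` with `|τ - τ₀| ≤ r`, `j(τ) = z`; choose `r` with `c r ^ k / 2 = 2 ‖z - j(τ₀)‖` (or `r` arbitrary small if `z = j(τ₀)`: `τ = τ₀`).  So `|τ - τ₀| ^ k ≤ C ‖z - j(τ₀)‖`, and for `‖τ - τ₀‖ ≤ 1` the exponent `k` may be
replaced by any larger one.  `ball_subset_image_closedBall` is in Mathlib (`Mathlib/Analysis/Complex/OpenMapping.lean`).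
-/

namespace Pool.Agent.LGO.RCM

open UpperHalfPlane Pool.Agent.Hhelper14.ZP Pool.Agent.LGO.RU Pool.Agent.LGO

/-- local inverse of `j` at a given point -/
theorem NearJ_loc (τ₀ : ℍ) : ∃ (q : ℕ) (r K : ℝ) (φ : ℂ → ℂ), 0 < q ∧ 0 < r ∧ 0 < K ∧
    ∀ s ∈ Metric.ball (0 : ℂ) r, 0 < (φ s).im ∧ jF (φ s) = jInv τ₀ + s ^ q ∧
      ‖φ s - τ₀‖ ≤ K * ‖s‖ := by
  have hc : jF (τ₀ : ℂ) = jInv τ₀ := jF_coe τ₀
  have han : AnalyticAt ℂ jF (τ₀ : ℂ) := jF_analytic _ τ₀.im_pos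
  have hnc := jF_not_const τ₀
  have han' : AnalyticAt ℂ (fun z => jF z - jF (τ₀ : ℂ)) (τ₀ : ℂ) := han.sub analyticAt_const
  obtain ⟨q, g, hg, hg0, hfac⟩ := (han'.exists_eventuallyEq_pow_smul_nonzero_iff).mpr (by
    intro h
    exact hnc (h.mono fun z hz => sub_eq_zero.mp hz))
  have hq : 0 < q := by
    rcases Nat.eq_zero_or_pos q with h | h
    · exfalso
      have h1 := hfac.self_of_nhds
      rw [h] at h1
      simp only [sub_self, pow_zero, one_smul] at h1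
      exact hg0 h1.symm
    · exact h
  obtain ⟨h, hh, hh0, hpow⟩ := AX.chJ_root_germ hg hg0 hq
  set f : ℂ → ℂ := fun z => (z - (τ₀ : ℂ)) * h z with hf
  have hfan : AnalyticAt ℂ f (τ₀ : ℂ) := (analyticAt_id.sub analyticAt_const).mul hh
  have hf0 : f (τ₀ : ℂ) = 0 := by simp [hf]
  have hfd : deriv f (τ₀ : ℂ) ≠ 0 := by
    have h1 : HasDerivAt f (1 * h (τ₀ : ℂ) + ((τ₀ : ℂ) - (τ₀ : ℂ)) * deriv h (τ₀ : ℂ)) (τ₀ : ℂ) :=
      ((hasDerivAt_id (τ₀ : ℂ)).sub_const (τ₀ : ℂ)).mul hh.differentiableAt.hasDerivAt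
    rw [h1.deriv, sub_self, zero_mul, add_zero, one_mul]
    exact hh0
  obtain ⟨φ, hφ, hφ0, -, hinv⟩ := AX.chJ_loc_inv hfan hfd
  rw [hf0] at hφ hφ0 hinv
  have hct : Filter.Tendsto φ (nhds 0) (nhds (τ₀ : ℂ)) := by
    have := hφ.continuousAt.tendsto
    rwa [hφ0] at this
  have hall : ∀ᶠ z in nhds (τ₀ : ℂ), 0 < z.im ∧ jF z - jF (τ₀ : ℂ) = f z ^ q := by
    have him : ∀ᶠ z in nhds (τ₀ : ℂ), 0 < z.im := isOpen_uhp.mem_nhds τ₀.im_pos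
    filter_upwards [him, hfac, hpow] with z h1 h2 h3
    refine ⟨h1, ?_⟩
    rw [h2, smul_eq_mul, ← h3]
    simp only [hf]
    rw [mul_pow]
  obtain ⟨K, hK, hO⟩ := hφ.differentiableAt.hasDerivAt.isBigO_sub.exists_pos
  have hO' := hO.bound
  obtain ⟨r, hr, hP⟩ := Metric.eventually_nhds_iff_ball.mp ((hinv.and (hct.eventually hall)).and hO')
  refine ⟨q, r, K, φ, hq, hr, hK, fun s hs => ?_⟩
  obtain ⟨⟨h1, h2, h3⟩, h4⟩ := hP s hs
  refine ⟨h2, ?_, ?_⟩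
  · rw [h1, hc] at h3
    linear_combination h3
  · rw [hφ0, sub_zero] at h4
    exact h4

theorem near_j (τ₀ : ℍ) : ∃ C : ℕ, 0 < C ∧ ∀ z : ℂ, ‖z - jInv τ₀‖ ≤ 1 / C →
    ∃ τ : ℍ, jInv τ = z ∧ ‖(τ : ℂ) - τ₀‖ ≤ 1 ∧ ‖(τ : ℂ) - τ₀‖ ^ C ≤ C * ‖z - jInv τ₀‖ := by
  obtain ⟨q, r, K, φ, hq, hr, hK, hφ⟩ := NearJ_loc τ₀
  set m : ℝ := min (r / 2) (1 / K) with hm
  have hm0 : 0 < m := by positivity
  obtain ⟨C, hC⟩ := exists_nat_gt (max (max (q : ℝ) (K ^ q)) (1 / m ^ q))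
  have hC1 : (q : ℝ) < C := (le_max_left _ _ |>.trans (le_max_left _ _)).trans_lt hC
  have hC2 : K ^ q < C := (le_max_right _ _ |>.trans (le_max_left _ _)).trans_lt hC
  have hC3 : 1 / m ^ q < C := (le_max_right _ _).trans_lt hC
  have hqC : q < C := by exact_mod_cast hC1
  have hC0 : 0 < C := by omega
  have hC0' : (0 : ℝ) < C := by exact_mod_cast hC0
  refine ⟨C, hC0, fun z hz => ?_⟩
  obtain ⟨s, hs⟩ := IsAlgClosed.exists_pow_nat_eq (z - jInv τ₀) hq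
  have hsn : ‖s‖ ^ q = ‖z - jInv τ₀‖ := by rw [← norm_pow, hs]
  have hsm : ‖s‖ < m := by
    have h1 : ‖s‖ ^ q < m ^ q := by
      rw [hsn]
      refine hz.trans_lt ?_
      rw [div_lt_iff₀ hC0']
      rw [div_lt_iff₀ (by positivity)] at hC3
      linarith
    exact lt_of_pow_lt_pow_left₀ q hm0.le h1
  have hsr : s ∈ Metric.ball (0 : ℂ) r := by
    rw [mem_ball_zero_iff]
    have := min_le_left (r / 2) (1 / K)
    linarith
  have hsK : K * ‖s‖ ≤ 1 := by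
    have h1 : ‖s‖ ≤ 1 / K := hsm.le.trans (min_le_right _ _)
    rw [le_div_iff₀ hK] at h1
    linarith
  obtain ⟨h1, h2, h3⟩ := hφ s hsr
  refine ⟨⟨φ s, h1⟩, ?_, ?_, ?_⟩
  · have h4 : jF ((⟨φ s, h1⟩ : ℍ) : ℂ) = jInv ⟨φ s, h1⟩ := jF_coe _
    rw [← h4]
    change jF (φ s) = z
    rw [h2, hs]
    ring
  · change ‖φ s - τ₀‖ ≤ 1
    exact h3.trans hsK
  · change ‖φ s - τ₀‖ ^ C ≤ _
    calc ‖φ s - τ₀‖ ^ C ≤ ‖φ s - τ₀‖ ^ q :=
          pow_le_pow_of_le_one (norm_nonneg _) (h3.trans hsK) hqC.le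
      _ ≤ (K * ‖s‖) ^ q := pow_le_pow_left₀ (norm_nonneg _) h3 q
      _ = K ^ q * ‖z - jInv τ₀‖ := by rw [mul_pow, hsn]
      _ ≤ C * ‖z - jInv τ₀‖ := by
          exact mul_le_mul_of_nonneg_right hC2.le (norm_nonneg _)

end Pool.Agent.LGO.RCM
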