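import Mathlib
import Pool.Agent.LGO.RCM.NearJ
import Pool.Agent.LGO.RU.CSProd

/-!
# LGO/RCM: the isogeny at the complex places near the point at infinity

Compare `CSDef`, `CSProd` (`LGO/RU`).  Let `N = mdeg x y`.  For an automorphism `s` with a `τ`, `Im τ > 1`, `j τ = s x`, and `‖s y - s β‖ ≤ 1 / C`: `near_j (F.t (s β))` gives `τ'` with `j τ' = s y` near `F.t (s β)`, and `g` primitive of determinant `N`, `Maps g τ' τ` (`exists_prim_mdeg`, `mdeg_symm`, `mdeg` of `s x`, `s y` is `N`).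
`τ'`, `g` and the value `Qf F (s β) (g 1 0) (g 1 1)` are CHOSEN as functions of the triple `(s x, s y, s β)` (define by `Classical.choose` a function `Qv : ℂ → ℂ → ℂ → ℕ`, the value `1` if there is no such `τ₁`; two `τ`, `τ₁` with `j τ = j τ₁`, `Im > 1` differ by an integer translation (`cs_unique`), and `T ^ k g` has the same lower row as `g`).
BOUND: `Im τ = N Im τ' / |c τ' + d| ^ 2 > 1`, so `|c τ' + d| ^ 2 ≤ N Im τ'`, `|c| Im τ' ≤ |c τ' + d|`, `|c t + d| ≤ 2 |c τ' + d|` for `‖τ' - t‖ ≤ Im t / 2`, `t = F.t (s β)`; `Qf = al |c t + d| ^ 2` (from `F.quad`), so `Qf ≤ C N`; `Qf ≠ 0` since `(c, d) ≠ (0, 0)` (`det g ≠ 0`).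
`P = ∏_{σ : K → ℂ} Qv(σ x, σ y, σ β)` (`exists_aut`).  The constant: a common one for the finitely many `s β` (`F.im`, `F.bd` give uniform bounds; `near_j` for the finitely many points `F.t (s β)`: the set of the conjugates `s β` is finite, `β` is algebraic).
-/

namespace Pool.Agent.LGO.RCM

open UpperHalfPlane Pool.Agent.Hhelper14.ZP Pool.Agent.LGO.RU Pool.Agent.LGO

private theorem CSQ_im {g : Matrix (Fin 2) (Fin 2) ℤ} {τ τ' : ℂ} (h : Maps g τ τ') :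
    τ'.im * (((g 1 0 : ℝ) * τ.re + g 1 1) ^ 2 + ((g 1 0 : ℝ) * τ.im) ^ 2) =
      (g.det : ℝ) * τ.im := by
  rw [Maps, Complex.ext_iff] at h
  obtain ⟨h1, h2⟩ := h
  simp only [Complex.mul_re, Complex.mul_im, Complex.add_re, Complex.add_im, Complex.intCast_re,
    Complex.intCast_im, zero_mul, sub_zero, add_zero] at h1 h2
  rw [Matrix.det_fin_two]
  push_cast
  linear_combination ((g 1 0 : ℝ) * τ.re + g 1 1) * h2 - ((g 1 0 : ℝ) * τ.im) * h1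

private theorem CSQ_ge {g : Matrix (Fin 2) (Fin 2) ℤ} {τ τ' : ℍ} (h : Maps g (τ : ℂ) (τ' : ℂ))
    (hτ' : 1 < τ'.im) (hτ : 1 < τ.im) (h0 : g 1 0 ≠ 0) :
    ((g 1 0 : ℤ) : ℝ) ^ 2 < (g.det : ℝ) := by
  have h1 := CSQ_im h
  rw [UpperHalfPlane.coe_im, UpperHalfPlane.coe_im, UpperHalfPlane.coe_re] at h1
  have h2 : (0 : ℝ) < ((g 1 0 : ℤ) : ℝ) ^ 2 := by
    have : ((g 1 0 : ℤ) : ℝ) ≠ 0 := by exact_mod_cast h0
    positivity
  have hy : (0 : ℝ) < τ.im := by linarith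
  have h3 : ((g 1 0 : ℤ) : ℝ) ^ 2 * τ.im ^ 2 < (g.det : ℝ) * τ.im := by
    rw [← h1]
    have h4 : ((g 1 0 : ℤ) : ℝ) ^ 2 * τ.im ^ 2 ≤
        ((g 1 0 : ℝ) * τ.re + g 1 1) ^ 2 + ((g 1 0 : ℝ) * τ.im) ^ 2 := by
      rw [mul_pow]
      linarith [sq_nonneg ((g 1 0 : ℝ) * τ.re + g 1 1)]
    have h5 : 0 < ((g 1 0 : ℤ) : ℝ) ^ 2 * τ.im ^ 2 := by positivity
    have h6 : 0 < ((g 1 0 : ℝ) * τ.re + g 1 1) ^ 2 + ((g 1 0 : ℝ) * τ.im) ^ 2 :=
      lt_of_lt_of_le h5 h4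
    nlinarith
  have h4 : ((g 1 0 : ℤ) : ℝ) ^ 2 * τ.im < (g.det : ℝ) := by
    have h5 : (((g 1 0 : ℤ) : ℝ) ^ 2 * τ.im) * τ.im < (g.det : ℝ) * τ.im := by
      calc _ = ((g 1 0 : ℤ) : ℝ) ^ 2 * τ.im ^ 2 := by ring
        _ < _ := h3
    exact lt_of_mul_lt_mul_right h5 hy.le
  nlinarith

private theorem CSQ_shift {τ τ₁ : ℍ} (hτ : 1 < τ.im) (hτ₁ : 1 < τ₁.im) (h : jInv τ = jInv τ₁) :
    ∃ k : ℤ, (τ₁ : ℂ) = τ + k := by
  obtain ⟨γ, hγ⟩ := Pool.Agent.LGO.Gal.j_inj h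
  have hm : Maps γ.1 (τ₁ : ℂ) (τ : ℂ) := by
    rw [hγ]
    exact Pool.Agent.LGO.Gal.maps_sl γ τ₁
  have hdet : γ.1.det = 1 := γ.2
  have hc : γ.1 1 0 = 0 := by
    by_contra hcon
    have h1 := CSQ_ge hm hτ hτ₁ hcon
    rw [hdet, Int.cast_one] at h1
    have h2 : (1 : ℝ) ≤ ((γ.1 1 0 : ℤ) : ℝ) ^ 2 := by
      have h3 : (1 : ℤ) ≤ (γ.1 1 0) ^ 2 := by
        have := sq_pos_of_ne_zero hcon
        omega
      exact_mod_cast h3
    linarith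
  rw [Matrix.det_fin_two, hc, mul_zero, sub_zero] at hdet
  rw [Maps, hc, Int.cast_zero, zero_mul, zero_add] at hm
  rcases Int.mul_eq_one_iff_eq_one_or_neg_one.1 hdet with ⟨h1, h2⟩ | ⟨h1, h2⟩
  · refine ⟨-γ.1 0 1, ?_⟩
    rw [h1, h2] at hm
    push_cast at hm ⊢
    linear_combination -hm
  · refine ⟨γ.1 0 1, ?_⟩
    rw [h1, h2] at hm
    push_cast at hm ⊢
    linear_combination hm

/-- the norm form as a sum of two squares -/
private theorem CSQ_qf {β : ℂ} (F : CMF β) (s : ℂ ≃+* ℂ) (c d : ℤ) :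
    ((Qf F (s β) c d : ℤ) : ℝ) = (F.al (s β) : ℝ) *
      (((c : ℝ) * (F.t (s β) : ℂ).re + d) ^ 2 + ((c : ℝ) * (F.t (s β) : ℂ).im) ^ 2) := by
  have hq := F.quad s
  rw [Complex.ext_iff] at hq
  obtain ⟨h1, h2⟩ := hq
  have hi : (F.t (s β) : ℂ).im ≠ 0 := (F.t (s β)).im_pos.ne'
  simp only [Complex.mul_re, Complex.mul_im, Complex.add_re, Complex.add_im, Complex.intCast_re,
    Complex.intCast_im, zero_mul, sub_zero, add_zero, Complex.zero_re, Complex.zero_im, pow_two] at h1 h2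
  have h3 : (F.be (s β) : ℝ) = - 2 * F.al (s β) * (F.t (s β) : ℂ).re := by
    apply mul_right_cancel₀ hi
    linear_combination h2
  have h4 : (F.ga (s β) : ℝ) = F.al (s β) * ((F.t (s β) : ℂ).re ^ 2 + (F.t (s β) : ℂ).im ^ 2) := by
    rw [h3] at h1
    linear_combination h1
  unfold Qf
  push_cast
  rw [h3, h4]
  ring

/-- the data over the triple `(u, v, b)` -/
private def CSQ_D {β : ℂ} (F : CMF β) (C : ℕ) (N : ℕ) (b u v : ℂ) (q : ℕ) : Prop :=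
  ∃ (τ τ' : ℍ) (g : Matrix (Fin 2) (Fin 2) ℤ), 1 < τ.im ∧ jInv τ = u ∧ jInv τ' = v ∧
    2 * F.B * ‖(τ' : ℂ) - F.t b‖ ≤ 1 ∧ ‖(τ' : ℂ) - F.t b‖ ^ C ≤ C * ‖v - b‖ ∧
    g.det = N ∧ Prim g ∧ Maps g (τ' : ℂ) (τ : ℂ) ∧ q = (Qf F b (g 1 0) (g 1 1)).natAbs

private theorem CSQ_D_bd {β : ℂ} (F : CMF β) {C N : ℕ} (hN : 0 < N) (s : ℂ ≃+* ℂ) {u v : ℂ} {q : ℕ}
    (h : CSQ_D F C N (s β) u v q) : 0 < q ∧ (q : ℝ) ≤ 4 * F.B * (F.B + 1) * N := by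
  obtain ⟨τ, τ', g, hi, -, -, hc, -, hd, -, hm, rfl⟩ := h
  have hB : (1 : ℝ) ≤ F.B := by exact_mod_cast F.B_pos
  have hqf := CSQ_qf F s (g 1 0) (g 1 1)
  have him := CSQ_im hm
  rw [hd] at him
  have hN' : (0 : ℝ) < N := by exact_mod_cast hN
  have hti := (F.im s).1
  have htb := (F.im s).2
  set t : ℂ := (F.t (s β) : ℂ) with ht
  set i : ℝ := t.im with hi'
  have hti' : (F.t (s β)).im = i := rfl
  rw [hti'] at hti
  have hal : (0 : ℝ) < F.al (s β) := by exact_mod_cast F.al_pos s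
  have halB : (F.al (s β) : ℝ) ≤ F.B := by
    have := (F.bd s).1
    have h2 := (le_abs_self _).trans this
    exact_mod_cast h2
  have hi0 : 0 < i := (F.t (s β)).im_pos
  have hτ'0 : 0 < (τ' : ℂ).im := τ'.im_pos
  -- the difference of the imaginary parts
  have hdi : |(τ' : ℂ).im - i| ≤ ‖(τ' : ℂ) - t‖ := by
    have := Complex.abs_im_le_norm ((τ' : ℂ) - t)
    rwa [Complex.sub_im] at this
  have hdi' := abs_le.1 hdi
  have hn0 : 0 ≤ ‖(τ' : ℂ) - t‖ := norm_nonneg _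
  have hδ : ‖(τ' : ℂ) - t‖ ≤ (τ' : ℂ).im := by
    nlinarith
  have hiB : i ≤ F.B := (le_abs_self _).trans ((Complex.abs_im_le_norm t).trans htb)
  have hτ'B : (τ' : ℂ).im ≤ F.B + 1 := by nlinarith
  have hcd : (g 1 0, g 1 1) ≠ (0, 0) := by
    intro h0
    rw [Prod.mk.injEq] at h0
    rw [Matrix.det_fin_two, h0.1, h0.2] at hd
    simp at hd
    omega
  set c : ℤ := g 1 0 with hcdef
  set d : ℤ := g 1 1 with hddef
  have hnsq : ∀ z : ℂ, ((c : ℝ) * z.re + d) ^ 2 + ((c : ℝ) * z.im) ^ 2 = ‖(c : ℂ) * z + d‖ ^ 2 := by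
    intro z
    rw [← Complex.normSq_eq_norm_sq, Complex.normSq_apply]
    simp only [Complex.mul_re, Complex.mul_im, Complex.add_re, Complex.add_im, Complex.intCast_re,
      Complex.intCast_im, zero_mul, sub_zero, add_zero]
    ring
  rw [hnsq] at hqf him
  have hcτ : |(c : ℝ)| * (τ' : ℂ).im ≤ ‖(c : ℂ) * τ' + d‖ := by
    have h1 := Complex.abs_im_le_norm ((c : ℂ) * τ' + d)
    simp only [Complex.mul_im, Complex.add_im, Complex.intCast_re,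
      Complex.intCast_im, zero_mul, add_zero] at h1
    rwa [abs_mul, abs_of_pos hτ'0] at h1
  have htr : ‖(c : ℂ) * t + d‖ ≤ 2 * ‖(c : ℂ) * τ' + d‖ := by
    have h1 : (c : ℂ) * t + d = ((c : ℂ) * τ' + d) - (c : ℂ) * ((τ' : ℂ) - t) := by ring
    have h2 : ‖(c : ℂ) * ((τ' : ℂ) - t)‖ = |(c : ℝ)| * ‖(τ' : ℂ) - t‖ := by
      rw [norm_mul, Complex.norm_intCast]
    have h3 : |(c : ℝ)| * ‖(τ' : ℂ) - t‖ ≤ |(c : ℝ)| * (τ' : ℂ).im :=
      mul_le_mul_of_nonneg_left hδ (abs_nonneg _)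
    rw [h1]
    refine (norm_sub_le _ _).trans ?_
    rw [h2]
    linarith
  have hsq : ‖(c : ℂ) * τ' + d‖ ^ 2 ≤ N * (F.B + 1) := by
    have h0 : 0 ≤ ‖(c : ℂ) * τ' + d‖ ^ 2 := by positivity
    have h1 : (1 : ℝ) ≤ (τ : ℂ).im := hi.le
    have h2 : ‖(c : ℂ) * τ' + d‖ ^ 2 ≤ (τ : ℂ).im * ‖(c : ℂ) * τ' + d‖ ^ 2 := by nlinarith
    refine h2.trans ?_
    rw [him]
    push_cast
    exact mul_le_mul_of_nonneg_left hτ'B hN'.le
  have hqpos : (0 : ℝ) < Qf F (s β) c d := by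
    rw [hqf]
    refine mul_pos hal ?_
    have : (c : ℂ) * t + d ≠ 0 := by
      intro h0
      apply hcd
      rw [Complex.ext_iff] at h0
      simp only [Complex.mul_re, Complex.mul_im, Complex.add_re, Complex.add_im, Complex.intCast_re,
        Complex.intCast_im, zero_mul, sub_zero, add_zero, Complex.zero_re, Complex.zero_im] at h0
      obtain ⟨h1, h2⟩ := h0
      have h3 : (c : ℝ) = 0 := by
        rcases mul_eq_zero.1 h2 with h | h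
        · exact h
        · exact absurd h hi0.ne'
      rw [h3, zero_mul, zero_add] at h1
      rw [Prod.mk.injEq]
      exact ⟨by exact_mod_cast h3, by exact_mod_cast h1⟩
    positivity
  have hqpos' : 0 < Qf F (s β) c d := by exact_mod_cast hqpos
  have hnat : (((Qf F (s β) c d).natAbs : ℕ) : ℝ) = Qf F (s β) c d := by
    have : (((Qf F (s β) c d).natAbs : ℕ) : ℤ) = Qf F (s β) c d := Int.natAbs_of_nonneg hqpos'.le
    rw [← Int.cast_natCast (R := ℝ), this]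
  refine ⟨Int.natAbs_pos.2 hqpos'.ne', ?_⟩
  rw [hnat, hqf]
  have h1 : ‖(c : ℂ) * t + d‖ ^ 2 ≤ 4 * (N * (F.B + 1)) := by
    have h0 : 0 ≤ ‖(c : ℂ) * t + d‖ := norm_nonneg _
    calc ‖(c : ℂ) * t + d‖ ^ 2 ≤ (2 * ‖(c : ℂ) * τ' + d‖) ^ 2 := pow_le_pow_left₀ h0 htr 2
      _ = 4 * ‖(c : ℂ) * τ' + d‖ ^ 2 := by ring
      _ ≤ _ := by linarith
  calc (F.al (s β) : ℝ) * ‖(c : ℂ) * t + d‖ ^ 2 ≤ F.B * (4 * (N * (F.B + 1))) :=
        mul_le_mul halB h1 (by positivity) (by positivity)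
    _ = _ := by ring

open Classical in
private noncomputable def CSQ_f {β : ℂ} (F : CMF β) (C : ℕ) (N : ℕ) (b u v : ℂ) : ℕ :=
  if h : ∃ q : ℕ, CSQ_D F C N b u v q then h.choose else 1

private theorem CSQ_f_bd {β : ℂ} (F : CMF β) {C N : ℕ} (hN : 0 < N)
    (hC : 4 * F.B * (F.B + 1) ≤ C) (s : ℂ ≃+* ℂ) (u v : ℂ) :
    0 < CSQ_f F C N (s β) u v ∧ (CSQ_f F C N (s β) u v : ℝ) ≤ C * N := by
  have hN' : (1 : ℝ) ≤ N := by exact_mod_cast hN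
  have hC' : (4 : ℝ) * F.B * (F.B + 1) ≤ C := by exact_mod_cast hC
  have hB : (1 : ℝ) ≤ F.B := by exact_mod_cast F.B_pos
  unfold CSQ_f
  split_ifs with h
  · obtain ⟨h1, h2⟩ := CSQ_D_bd F hN s h.choose_spec
    exact ⟨h1, h2.trans (mul_le_mul_of_nonneg_right hC' (by positivity))⟩
  · refine ⟨one_pos, ?_⟩
    rw [Nat.cast_one]
    nlinarith

/-- a common constant for the finitely many conjugates -/
private theorem CSQ_C {β : ℂ} (F : CMF β) (hβ : IsAlgebraic ℚ β) : ∃ C : ℕ, 0 < C ∧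
    4 * F.B * (F.B + 1) ≤ C ∧ ∀ (s : ℂ ≃+* ℂ) (z : ℂ), ‖z - s β‖ ≤ 1 / C →
      ∃ τ : ℍ, jInv τ = z ∧ 2 * F.B * ‖(τ : ℂ) - F.t (s β)‖ ≤ 1 ∧
        ‖(τ : ℂ) - F.t (s β)‖ ^ C ≤ C * ‖z - s β‖ := by
  have hfin : (Set.range fun s : ℂ ≃+* ℂ => s β).Finite := by
    obtain ⟨p, hp0, hp⟩ := hβ
    refine ((p.map (algebraMap ℚ ℂ)).roots.toFinset.finite_toSet).subset ?_
    rintro _ ⟨s, rfl⟩
    simp only [Finset.mem_coe, Multiset.mem_toFinset]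
    rw [Polynomial.mem_roots (Polynomial.map_ne_zero hp0), Polynomial.IsRoot.def,
      Polynomial.eval_map]
    have h1 : s (Polynomial.eval₂ (algebraMap ℚ ℂ) β p) = 0 := by
      rw [← Polynomial.aeval_def, hp, map_zero]
    have h2 := Polynomial.hom_eval₂ p (algebraMap ℚ ℂ) (s : ℂ →+* ℂ) β
    have h3 : (s : ℂ →+* ℂ).comp (algebraMap ℚ ℂ) = algebraMap ℚ ℂ := Subsingleton.elim _ _
    rw [h3] at h2
    exact h2.symm.trans h1
  choose Cn hCn0 hCn using near_j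
  have hB : 0 < F.B := F.B_pos
  obtain ⟨C₀, hC₀⟩ := (hfin.image fun b => Cn (F.t b) * (2 * F.B) ^ Cn (F.t b)).bddAbove
  refine ⟨C₀ + 4 * F.B * (F.B + 1), by positivity, by omega, fun s z hz => ?_⟩
  set b : ℂ := s β with hb
  set c : ℕ := Cn (F.t b) with hc
  have hc0 : 0 < c := hCn0 _
  have h1 : c * (2 * F.B) ^ c ≤ C₀ := hC₀ ⟨b, ⟨s, rfl⟩, rfl⟩
  set C : ℕ := C₀ + 4 * F.B * (F.B + 1) with hC
  have h2 : c * (2 * F.B) ^ c ≤ C := h1.trans (by omega)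
  have h3 : c ≤ C := by
    refine le_trans ?_ h2
    exact Nat.le_mul_of_pos_right _ (by positivity)
  have hj : jInv (F.t b) = b := F.j s
  have hC0 : (0 : ℝ) < C := by
    have : 0 < C := by positivity
    exact_mod_cast this
  have hc0' : (0 : ℝ) < c := by exact_mod_cast hc0
  have h3' : (c : ℝ) ≤ C := by exact_mod_cast h3
  have h2' : (c : ℝ) * (2 * F.B) ^ c ≤ C := by exact_mod_cast h2
  obtain ⟨τ, e1, e2, e3⟩ := hCn (F.t b) z (by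
    rw [hj]
    exact hz.trans (one_div_le_one_div_of_le hc0' h3'))
  rw [hj] at e3
  have hn0 : 0 ≤ ‖(τ : ℂ) - F.t b‖ := norm_nonneg _
  refine ⟨τ, e1, ?_, ?_⟩
  · have h4 : (2 * F.B * ‖(τ : ℂ) - F.t b‖) ^ c ≤ 1 ^ c := by
      rw [mul_pow, one_pow]
      have h5 : (C : ℝ) * ‖z - b‖ ≤ 1 := by
        rw [le_div_iff₀ hC0] at hz
        linarith
      calc (2 * (F.B : ℝ)) ^ c * ‖(τ : ℂ) - F.t b‖ ^ c ≤ (2 * F.B) ^ c * (c * ‖z - b‖) :=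
            mul_le_mul_of_nonneg_left e3 (by positivity)
        _ = (c * (2 * F.B) ^ c) * ‖z - b‖ := by ring
        _ ≤ C * ‖z - b‖ := mul_le_mul_of_nonneg_right h2' (norm_nonneg _)
        _ ≤ 1 := h5
    exact le_of_pow_le_pow_left₀ hc0.ne' zero_le_one h4
  · calc ‖(τ : ℂ) - F.t b‖ ^ C ≤ ‖(τ : ℂ) - F.t b‖ ^ c := pow_le_pow_of_le_one hn0 e2 h3
      _ ≤ c * ‖z - b‖ := e3
      _ ≤ C * ‖z - b‖ := mul_le_mul_of_nonneg_right h3' (norm_nonneg _)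

theorem csq {β : ℂ} (F : CMF β) : ∃ C : ℕ, 0 < C ∧ ∀ (K : IntermediateField ℚ ℂ)
    [FiniteDimensional ℚ K] {x y : ℂ}, x ∈ K → y ∈ K → β ∈ K → NCM x → HeckeRel x y →
    ∃ P : ℕ, 0 < P ∧ (P : ℝ) ≤ ((C : ℝ) * mdeg x y) ^ Module.finrank ℚ K ∧
      ∀ (s : ℂ ≃+* ℂ) (τ : ℍ), 1 < τ.im → jInv τ = s x → ‖s y - s β‖ ≤ 1 / C →
        ∃ (τ' : ℍ) (g : Matrix (Fin 2) (Fin 2) ℤ), jInv τ' = s y ∧
          ‖(τ' : ℂ) - F.t (s β)‖ ^ C ≤ C * ‖s y - s β‖ ∧ g.det = mdeg x y ∧ Prim g ∧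
          Maps g (τ' : ℂ) (τ : ℂ) ∧ Qf F (s β) (g 1 0) (g 1 1) ≠ 0 ∧
          (Qf F (s β) (g 1 0) (g 1 1)).natAbs ∣ P := by
  by_cases hβ : IsAlgebraic ℚ β
  swap
  · refine ⟨1, one_pos, fun K _ x y _ _ hb => ?_⟩
    exfalso
    apply hβ
    have h1 : IsAlgebraic ℚ (⟨β, hb⟩ : K) := Algebra.IsAlgebraic.isAlgebraic _
    exact h1.algebraMap (A := ℂ)
  obtain ⟨C, hC0, hCB, hC⟩ := CSQ_C F hβ
  refine ⟨C, hC0, fun K _ x y hx hy hb hn h => ?_⟩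
  have hm : 0 < mdeg x y := mdeg_pos (heckeRel_iff.mp h)
  set N : ℕ := mdeg x y with hN
  have hbd : ∀ σ : K →ₐ[ℚ] ℂ, 0 < CSQ_f F C N (σ ⟨β, hb⟩) (σ ⟨x, hx⟩) (σ ⟨y, hy⟩) ∧
      (CSQ_f F C N (σ ⟨β, hb⟩) (σ ⟨x, hx⟩) (σ ⟨y, hy⟩) : ℝ) ≤ C * N := by
    intro σ
    obtain ⟨s, hs⟩ := exists_aut K (σ : K →+* ℂ)
    have hsb : σ ⟨β, hb⟩ = s β := (hs ⟨β, hb⟩).symm
    rw [hsb]
    exact CSQ_f_bd F hm hCB s _ _
  refine ⟨∏ σ : K →ₐ[ℚ] ℂ, CSQ_f F C N (σ ⟨β, hb⟩) (σ ⟨x, hx⟩) (σ ⟨y, hy⟩),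
    Finset.prod_pos fun σ _ => (hbd σ).1, ?_, ?_⟩
  · push_cast
    have h2 : ∏ σ : K →ₐ[ℚ] ℂ, (CSQ_f F C N (σ ⟨β, hb⟩) (σ ⟨x, hx⟩) (σ ⟨y, hy⟩) : ℝ) ≤
        ∏ _σ : K →ₐ[ℚ] ℂ, ((C : ℝ) * N) :=
      Finset.prod_le_prod (fun σ _ => Nat.cast_nonneg _) fun σ _ => (hbd σ).2
    rwa [Finset.prod_const, Finset.card_univ, AlgHom.card] at h2
  · intro s τ hτ hjτ hs
    set σ : K →ₐ[ℚ] ℂ := RingHom.toRatAlgHom ((s : ℂ →+* ℂ).comp (algebraMap K ℂ)) with hσ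
    have hsx : σ ⟨x, hx⟩ = s x := rfl
    have hsy : σ ⟨y, hy⟩ = s y := rfl
    have hsb : σ ⟨β, hb⟩ = s β := rfl
    obtain ⟨τ₁', e1, e2, e3⟩ := hC s (s y) hs
    have hex : ∃ q : ℕ, CSQ_D F C N (s β) (s x) (s y) q := by
      have h1 : ∃ M, 0 < M ∧ IsogDeg M (jInv τ₁') (jInv τ) := by
        obtain ⟨M, hM, h2⟩ := heckeRel_iff.mp h
        refine ⟨M, hM, ?_⟩
        rw [e1, hjτ]
        exact (isogDeg_map s hM h2).symm
      obtain ⟨g, g1, g2, g3, g4⟩ := exists_prim_mdeg h1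
      refine ⟨_, τ, τ₁', g, hτ, hjτ, e1, e2, e3, ?_, g3, g4, rfl⟩
      rw [g1, e1, hjτ, mdeg_map, mdeg_symm]
    have hval : CSQ_f F C N (s β) (s x) (s y) = hex.choose := by
      unfold CSQ_f
      rw [dif_pos hex]
    have hdvd : CSQ_f F C N (s β) (s x) (s y) ∣
        ∏ σ : K →ₐ[ℚ] ℂ, CSQ_f F C N (σ ⟨β, hb⟩) (σ ⟨x, hx⟩) (σ ⟨y, hy⟩) := by
      have := Finset.dvd_prod_of_mem (fun σ : K →ₐ[ℚ] ℂ =>
        CSQ_f F C N (σ ⟨β, hb⟩) (σ ⟨x, hx⟩) (σ ⟨y, hy⟩)) (Finset.mem_univ σ)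
      simpa only [hsx, hsy, hsb] using this
    have hpos : 0 < CSQ_f F C N (s β) (s x) (s y) := (CSQ_f_bd F hm hCB s _ _).1
    rw [hval] at hdvd hpos
    have hspec := hex.choose_spec
    revert hdvd hpos hspec
    generalize hex.choose = q
    rintro hdvd hpos ⟨τ₁, τ', g, f1, f2, f3, f4, f5, f6, f7, f8, rfl⟩
    obtain ⟨k, hk⟩ := CSQ_shift f1 hτ (f2.trans hjτ.symm)
    let g₂ : Matrix (Fin 2) (Fin 2) ℤ :=
      !![g 0 0 + k * g 1 0, g 0 1 + k * g 1 1; g 1 0, g 1 1]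
    have e00 : g₂ 0 0 = g 0 0 + k * g 1 0 := rfl
    have e01 : g₂ 0 1 = g 0 1 + k * g 1 1 := rfl
    have e10 : g₂ 1 0 = g 1 0 := rfl
    have e11 : g₂ 1 1 = g 1 1 := rfl
    refine ⟨τ', g₂, f3, f5, ?_, ?_, ?_, ?_, ?_⟩
    · rw [← f6, Matrix.det_fin_two, Matrix.det_fin_two, e00, e01, e10, e11]
      ring
    · intro d hd
      have d00 := hd 0 0
      have d01 := hd 0 1
      have d10 := hd 1 0
      have d11 := hd 1 1
      rw [e00] at d00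
      rw [e01] at d01
      rw [e10] at d10
      rw [e11] at d11
      have f00 : (d : ℤ) ∣ g 0 0 := by
        have := dvd_sub d00 (Dvd.dvd.mul_left d10 k)
        rwa [add_sub_cancel_right] at this
      have f01 : (d : ℤ) ∣ g 0 1 := by
        have := dvd_sub d01 (Dvd.dvd.mul_left d11 k)
        rwa [add_sub_cancel_right] at this
      refine f7 d fun i j => ?_
      fin_cases i <;> fin_cases j
      · exact f00
      · exact f01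
      · exact d10
      · exact d11
    · rw [Maps] at f8
      rw [Maps, e00, e01, e10, e11, hk]
      push_cast
      linear_combination f8
    · rw [e10, e11]
      exact Int.natAbs_pos.1 hpos
    · rw [e10, e11]
      exact hdvd

end Pool.Agent.LGO.RCM
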