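import Mathlib
import Pool.Agent.LGO.RCM.Defs
import Pool.Agent.LGO.Gal.CM
import Pool.Agent.LGO.Gal.NCM
import Pool.Agent.LGO.CK.Form

/-!
# LGO/RCM: the CM data of a singular modulus

PROOF.  `¬ NCM β`: `β = j(τ)`, `IsCM τ`; `β ∈ OO` (`jInv_mem_of_isCM`), so it is algebraic and the set of the `s β` is finite (roots of the minimal polynomial); `¬ NCM (s β)` (`ncm_map_iff`).  For every `b = s β` choose `t b` with `j(t b) = b` and `IsCM (t b)` (all `τ` with `j τ = b` are CM), and a primitive form: divide `(a, b, c)` by the gcd,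
change the sign.  `n`: let `(al, be, ga)` be the form of `t β`, `δ = 4 al ga - be ^ 2 > 0` (the discriminant is negative, `τ` not real), `n = δ ^ 2 + δ` (between `δ ^ 2` and `(δ + 1) ^ 2`, not a square); the matrix `(δ - be, -2 ga; 2 al, δ + be)` has determinant `δ ^ 2 + δ` and fixes `t β`: `IsogDeg n β β`.
`B`: `n` times the product over the finite set of the conjugates of `|be ^ 2 - 4 al ga|` and of bounds for the other quantities (for the quantities of the form `|x| ≤ B` multiply by `(⌈x⌉ + 1)`).  For `b` not a conjugate: junk values.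
-/

namespace Pool.Agent.LGO.RCM

open UpperHalfPlane Pool.Agent.Hhelper14.ZP Pool.Agent.LGO.RU Pool.Agent.LGO

private theorem ExF_bound (τ : ℍ) {a b c : ℤ} (h : CK.HasForm (τ : ℂ) a b c) : ∃ B : ℕ, 0 < B ∧
    b ^ 2 - 4 * a * c ∣ (B : ℤ) ∧ (|a| ≤ B ∧ |b| ≤ B ∧ |c| ≤ B) ∧ 1 ≤ (B : ℝ) * τ.im ∧
    ‖(τ : ℂ)‖ ≤ B := by
  have hd : b ^ 2 - 4 * a * c ≠ 0 := h.disc_neg.ne
  set D := (b ^ 2 - 4 * a * c).natAbs with hD
  have hD1 : 1 ≤ D := Int.natAbs_pos.mpr hd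
  set M := a.natAbs + b.natAbs + c.natAbs + ⌈(τ.im)⁻¹⌉₊ + ⌈‖(τ : ℂ)‖⌉₊ + 1 with hM
  have hle : M ≤ D * M := Nat.le_mul_of_pos_left _ hD1
  have hleR : (M : ℝ) ≤ ((D * M : ℕ) : ℝ) := by exact_mod_cast hle
  refine ⟨D * M, by positivity, ?_, ⟨?_, ?_, ?_⟩, ?_, ?_⟩
  · push_cast
    exact Dvd.dvd.mul_right (by rw [hD]; exact Int.dvd_natAbs.mpr dvd_rfl) _
  · rw [Int.abs_eq_natAbs]
    exact_mod_cast (by omega : a.natAbs ≤ M).trans hle
  · rw [Int.abs_eq_natAbs]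
    exact_mod_cast (by omega : b.natAbs ≤ M).trans hle
  · rw [Int.abs_eq_natAbs]
    exact_mod_cast (by omega : c.natAbs ≤ M).trans hle
  · have h1 : (τ.im)⁻¹ ≤ (M : ℝ) :=
      (Nat.le_ceil _).trans (by exact_mod_cast (by omega : ⌈(τ.im)⁻¹⌉₊ ≤ M))
    have h2 : (τ.im)⁻¹ * τ.im = 1 := inv_mul_cancel₀ τ.im_pos.ne'
    rw [← h2]
    exact mul_le_mul_of_nonneg_right (h1.trans hleR) τ.im_pos.le
  · have h1 : ‖(τ : ℂ)‖ ≤ (M : ℝ) :=
      (Nat.le_ceil _).trans (by exact_mod_cast (by omega : ⌈‖(τ : ℂ)‖⌉₊ ≤ M))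
    exact h1.trans hleR

private theorem ExF_orbit {β : ℂ} (h : IsAlgebraic ℚ β) : {b : ℂ | ∃ s : ℂ ≃+* ℂ, b = s β}.Finite := by
  obtain ⟨p, hp, hp0⟩ := h
  refine (Polynomial.rootSet_finite p ℂ).subset ?_
  rintro _ ⟨s, rfl⟩
  rw [Polynomial.mem_rootSet]
  refine ⟨hp, ?_⟩
  have h1 : Polynomial.aeval (s β) p = s (Polynomial.aeval β p) := by
    have h2 := Polynomial.hom_eval₂ p (algebraMap ℚ ℂ) s.toRingHom β
    rw [show (s.toRingHom).comp (algebraMap ℚ ℂ) = algebraMap ℚ ℂ from RingHom.ext_rat _ _] at h2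
    rw [Polynomial.aeval_def, Polynomial.aeval_def]
    exact h2.symm
  rw [h1, hp0, map_zero]

theorem exists_cmf {β : ℂ} (h : ¬ NCM β) : Nonempty (CMF β) := by
  classical
  have hcm : ∀ s : ℂ ≃+* ℂ, IsCMVal (s β) := by
    intro s
    have h1 : ¬ NCM (s β) := fun h2 => h ((ncm_map_iff s).mp h2)
    rw [ncm_iff, not_not] at h1
    exact h1
  have halg : IsAlgebraic ℚ β := by
    obtain ⟨τ, hτ, hβ⟩ := hcm (RingEquiv.refl ℂ)
    have hβ' : β = jInv τ := hβ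
    obtain ⟨a, b, c, hf⟩ := CK.exists_form hτ
    have h1 : IsIntegral ℚ (jInv τ) := hf.integral.tower_top
    rw [hβ']
    exact h1.isAlgebraic
  have key : ∀ b : ℂ, ∃ (τ : ℍ) (al be ga : ℤ) (B : ℕ), (∃ s : ℂ ≃+* ℂ, b = s β) →
      jInv τ = b ∧ CK.HasForm (τ : ℂ) al be ga ∧ 0 < B ∧ be ^ 2 - 4 * al * ga ∣ (B : ℤ) ∧
      (|al| ≤ B ∧ |be| ≤ B ∧ |ga| ≤ B) ∧ 1 ≤ (B : ℝ) * τ.im ∧ ‖(τ : ℂ)‖ ≤ B := by
    intro b
    by_cases hb : ∃ s : ℂ ≃+* ℂ, b = s β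
    · obtain ⟨s, rfl⟩ := hb
      obtain ⟨τ, hτ, hj⟩ := hcm s
      obtain ⟨al, be, ga, hf⟩ := CK.exists_form hτ
      obtain ⟨B, hB⟩ := ExF_bound τ hf
      exact ⟨τ, al, be, ga, B, fun _ => ⟨hj.symm, hf, hB⟩⟩
    · exact ⟨UpperHalfPlane.I, 0, 0, 0, 0, fun h1 => absurd h1 hb⟩
  choose t al be ga Bd hk using key
  have hfin := ExF_orbit halg
  have hs : ∀ s : ℂ ≃+* ℂ, ∃ s' : ℂ ≃+* ℂ, s β = s' β := fun s => ⟨s, rfl⟩
  have h0 := hk β ⟨RingEquiv.refl ℂ, rfl⟩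
  obtain ⟨h1j, h1f, -⟩ := h0
  set δ : ℕ := (4 * al β * ga β - be β ^ 2).toNat with hδ
  have hδ' : (δ : ℤ) = 4 * al β * ga β - be β ^ 2 := by
    have := h1f.disc_neg
    rw [hδ, Int.toNat_of_nonneg (by linarith)]
  have hδ0 : 0 < δ := by
    have := h1f.disc_neg
    omega
  set P : ℕ := ∏ b ∈ hfin.toFinset, Bd b with hP
  have hdvd : ∀ s : ℂ ≃+* ℂ, Bd (s β) ∣ P := fun s =>
    Finset.dvd_prod_of_mem _ (hfin.mem_toFinset.mpr ⟨s, rfl⟩)
  have hPpos : 0 < P := Finset.prod_pos fun b hb => (hk b (hfin.mem_toFinset.mp hb)).2.2.1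
  have hn : 0 < δ ^ 2 + δ := by positivity
  have hle : ∀ s : ℂ ≃+* ℂ, Bd (s β) ≤ (δ ^ 2 + δ) * P := fun s =>
    (Nat.le_of_dvd hPpos (hdvd s)).trans (Nat.le_mul_of_pos_left _ hn)
  have hleZ : ∀ s : ℂ ≃+* ℂ, ((Bd (s β) : ℕ) : ℤ) ≤ (((δ ^ 2 + δ) * P : ℕ) : ℤ) := fun s => by
    exact_mod_cast hle s
  have hleR : ∀ s : ℂ ≃+* ℂ, ((Bd (s β) : ℕ) : ℝ) ≤ (((δ ^ 2 + δ) * P : ℕ) : ℝ) := fun s => by
    exact_mod_cast hle s
  refine ⟨{ t := t, al := al, be := be, ga := ga, n := δ ^ 2 + δ, B := (δ ^ 2 + δ) * P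
            n_pos := hn, nsq := ?_, isog := ?_, B_pos := Nat.mul_pos hn hPpos
            j := fun s => (hk _ (hs s)).1
            al_pos := fun s => (hk _ (hs s)).2.1.pos
            prim := fun s => (hk _ (hs s)).2.1.prim
            quad := fun s => (hk _ (hs s)).2.1.root
            disc := ?_, bd := ?_, im := ?_, nB := dvd_mul_right _ _ }⟩
  · rintro ⟨r, hr⟩
    have h2 : δ < r := by
      by_contra hcon
      push Not at hcon
      have := Nat.mul_le_mul hcon hcon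
      nlinarith
    have h3 : r < δ + 1 := by
      by_contra hcon
      push Not at hcon
      have := Nat.mul_le_mul hcon hcon
      nlinarith
    omega
  · refine ⟨t β, t β, !![(δ : ℤ) - be β, -2 * ga β; 2 * al β, (δ : ℤ) + be β], ?_, ?_, h1j.symm, h1j.symm⟩
    · rw [Matrix.det_fin_two]
      simp only [Matrix.of_apply, Matrix.cons_val', Matrix.cons_val_zero, Matrix.cons_val_one,
        Matrix.cons_val_fin_one]
      push_cast
      linear_combination (-1 : ℤ) * hδ'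
    · have hr := h1f.root
      simp only [Maps, Matrix.of_apply, Matrix.cons_val', Matrix.cons_val_zero, Matrix.cons_val_one,
        Matrix.cons_val_fin_one]
      push_cast
      linear_combination 2 * hr
  · intro s
    refine (hk _ (hs s)).2.2.2.1.trans ?_
    exact_mod_cast (hdvd s).mul_left _
  · intro s
    obtain ⟨h2, h3, h4⟩ := (hk _ (hs s)).2.2.2.2.1
    exact ⟨h2.trans (hleZ s), h3.trans (hleZ s), h4.trans (hleZ s)⟩
  · intro s
    obtain ⟨h2, h3⟩ := (hk _ (hs s)).2.2.2.2.2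
    exact ⟨h2.trans (mul_le_mul_of_nonneg_right (hleR s) (t (s β)).im_pos.le), h3.trans (hleR s)⟩

end Pool.Agent.LGO.RCM
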