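import Mathlib
import Pool.Agent.LGO.ZV.Types
import Pool.Agent.LGO.ZV.Tied

/-!
# LGO/RCM: the curve `V` with the additional coordinate `1 / (x_b - β)`

`adj V b β = {(x, y) | x ∈ V, y (x_b - β) = 1} ⊆ ℂ ^ (n + 1)`: irreducible, Zariski closed over the algebraic numbers if `V` and `β` are, of
dimension `1`.
-/

namespace Pool.Agent.LGO.RCM

open Pool.Agent.Hhelper14.ZPL Pool.Agent.Hhelper14.ZP MvPolynomial Pool.Agent.LGO.ZV

variable {n : ℕ} {V : Set (Fin n → ℂ)} {b : Fin n} {β : ℂ}

/-- the curve with the additional coordinate `1 / (x_b - β)` -/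
def adj (V : Set (Fin n → ℂ)) (b : Fin n) (β : ℂ) : Set (Fin (n + 1) → ℂ) :=
  {y | (fun i : Fin n => y i.castSucc) ∈ V ∧ y (Fin.last n) * (y b.castSucc - β) = 1}

/-- the point with the additional coordinate -/
noncomputable def ext (b : Fin n) (β : ℂ) (x : Fin n → ℂ) : Fin (n + 1) → ℂ :=
  Fin.snoc (α := fun _ => ℂ) x (x b - β)⁻¹

@[simp] theorem ext_cast (x : Fin n → ℂ) (i : Fin n) : ext b β x i.castSucc = x i := by
  simp [ext]

@[simp] theorem ext_last (x : Fin n → ℂ) : ext b β x (Fin.last n) = (x b - β)⁻¹ := by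
  simp [ext]

theorem ext_mem {x : Fin n → ℂ} (hx : x ∈ V) (h : x b ≠ β) : ext b β x ∈ adj V b β := by
  refine ⟨?_, ?_⟩
  · simpa using hx
  · rw [ext_last, ext_cast]
    exact inv_mul_cancel₀ (sub_ne_zero.2 h)

theorem adj_ne {y : Fin (n + 1) → ℂ} (hy : y ∈ adj V b β) : y b.castSucc ≠ β := by
  intro h
  have h1 := hy.2
  rw [h, sub_self, mul_zero] at h1
  exact zero_ne_one h1

theorem adj_ext {y : Fin (n + 1) → ℂ} (hy : y ∈ adj V b β) :
    ext b β (fun i : Fin n => y i.castSucc) = y := by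
  funext i
  refine Fin.lastCases ?_ (fun j => ?_) i
  · rw [ext_last]
    exact (eq_inv_of_mul_eq_one_left hy.2).symm
  · rw [ext_cast]

theorem ext_inj : Function.Injective (ext b β : (Fin n → ℂ) → Fin (n + 1) → ℂ) := by
  intro x x' h
  funext i
  have h1 := congrFun h i.castSucc
  rwa [ext_cast, ext_cast] at h1

private theorem clear (p : MvPolynomial (Fin (n + 1)) ℂ) : ∃ (N : ℕ) (q : MvPolynomial (Fin n) ℂ),
    ∀ x : Fin n → ℂ, x b ≠ β → aeval x q = (x b - β) ^ N * aeval (ext b β x) p := by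
  induction p using MvPolynomial.induction_on with
  | C c => exact ⟨0, C c, fun x _ => by simp⟩
  | add p p' hp hp' =>
    obtain ⟨N, q, h⟩ := hp
    obtain ⟨N', q', h'⟩ := hp'
    refine ⟨N + N', (X b - C β) ^ N' * q + (X b - C β) ^ N * q', fun x hx => ?_⟩
    rw [map_add, map_mul, map_mul, map_pow, map_pow, map_sub, aeval_X, aeval_C, h x hx, h' x hx, map_add]
    simp only [Algebra.algebraMap_self, RingHom.id_apply]
    ring
  | mul_X p i hp =>
    obtain ⟨N, q, h⟩ := hp
    refine Fin.lastCases ?_ (fun j => ?_) i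
    · refine ⟨N + 1, q, fun x hx => ?_⟩
      rw [h x hx, map_mul, aeval_X, ext_last, pow_succ]
      have h1 : x b - β ≠ 0 := sub_ne_zero.2 hx
      field_simp
    · refine ⟨N, q * X j, fun x hx => ?_⟩
      rw [map_mul, h x hx, map_mul, aeval_X, aeval_X, ext_cast]
      ring

theorem adj_irr (hV : Pool.Agent.Hhelper14.ZPL.IsIrredClosed V) (hb : ∃ x ∈ V, x b ≠ β) :
    Pool.Agent.Hhelper14.ZPL.IsIrredClosed (adj V b β) := by
  refine ⟨?_, ?_⟩
  · refine Ideal.isPrime_iff.2 ⟨?_, ?_⟩
    · rw [Ideal.ne_top_iff_one]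
      intro h
      obtain ⟨x, hx, hxb⟩ := hb
      have h1 := (mem_vanishingIdeal_iff.1 h) _ (ext_mem hx hxb)
      rw [map_one] at h1
      exact one_ne_zero h1
    · intro p p' hpp
      obtain ⟨N, q, h⟩ := clear (b := b) (β := β) p
      obtain ⟨N', q', h'⟩ := clear (b := b) (β := β) p'
      have hp := hV.1
      have key : ∀ (p : MvPolynomial (Fin (n + 1)) ℂ) (N : ℕ) (q : MvPolynomial (Fin n) ℂ),
          (∀ x : Fin n → ℂ, x b ≠ β → aeval x q = (x b - β) ^ N * aeval (ext b β x) p) →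
          q ∈ (vanishingIdeal ℂ V : Ideal (MvPolynomial (Fin n) ℂ)) →
          p ∈ (vanishingIdeal ℂ (adj V b β) : Ideal (MvPolynomial (Fin (n + 1)) ℂ)) := by
        intro p N q h hq
        rw [mem_vanishingIdeal_iff]
        intro y hy
        have h1 := h (fun i : Fin n => y i.castSucc) (adj_ne hy)
        rw [adj_ext hy, (mem_vanishingIdeal_iff.1 hq) _ hy.1] at h1
        have h2 := (mul_eq_zero.1 h1.symm).resolve_left
          (pow_ne_zero _ (sub_ne_zero.2 (adj_ne hy)))
        exact h2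
      have h1 : (X b - C β) * (q * q') ∈ (vanishingIdeal ℂ V : Ideal (MvPolynomial (Fin n) ℂ)) := by
        rw [mem_vanishingIdeal_iff]
        intro x hx
        by_cases hxb : x b = β
        · rw [map_mul, map_sub, aeval_X, aeval_C, hxb]
          simp
        · rw [map_mul, map_mul, h x hxb, h' x hxb]
          have h2 := (mem_vanishingIdeal_iff.1 hpp) _ (ext_mem hx hxb)
          rw [map_mul] at h2
          calc _ = aeval x (X b - C β : MvPolynomial (Fin n) ℂ) * ((x b - β) ^ N * (x b - β) ^ N' *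
                (aeval (ext b β x) p * aeval (ext b β x) p')) := by ring
            _ = 0 := by rw [h2, mul_zero, mul_zero]
      rcases hp.mem_or_mem h1 with h2 | h2
      · exfalso
        obtain ⟨x, hx, hxb⟩ := hb
        have h3 := (mem_vanishingIdeal_iff.1 h2) _ hx
        rw [map_sub, aeval_X, aeval_C] at h3
        exact hxb (sub_eq_zero.1 h3)
      · rcases hp.mem_or_mem h2 with h3 | h3
        · exact Or.inl (key p N q h h3)
        · exact Or.inr (key p' N' q' h' h3)
  · refine Set.Subset.antisymm ?_ (subset_closure' _)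
    intro y hy
    rw [mem_zeroLocus_iff] at hy
    refine ⟨?_, ?_⟩
    · rw [← hV.2, mem_zeroLocus_iff]
      intro p hp
      have h1 := hy (rename Fin.castSucc p) (by
        rw [mem_vanishingIdeal_iff]
        intro z hz
        rw [aeval_rename]
        exact (mem_vanishingIdeal_iff.1 hp) _ hz.1)
      rwa [aeval_rename] at h1
    · have h1 := hy (X (Fin.last n) * (X b.castSucc - C β) - 1) (by
        rw [mem_vanishingIdeal_iff]
        intro z hz
        simp only [map_sub, map_mul, aeval_X, aeval_C, map_one, Algebra.algebraMap_self, RingHom.id_apply]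
        rw [hz.2, sub_self])
      simp only [map_sub, map_mul, aeval_X, aeval_C, map_one, Algebra.algebraMap_self, RingHom.id_apply] at h1
      exact sub_eq_zero.1 h1

theorem adj_kcl (hVk : KClosed V) (hβ : IsAlgebraic ℚ β) : KClosed (adj V b β) := by
  rw [kclosed_iff]
  intro y hy
  refine ⟨?_, ?_⟩
  · rw [kclosed_iff] at hVk
    apply hVk
    intro p hp
    have h1 := hy (rename Fin.castSucc p) (by
      rw [mem_vanishingIdeal_iff]
      intro z hz
      rw [aeval_rename]
      exact (mem_vanishingIdeal_iff.1 hp) _ hz.1)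
    rwa [aeval_rename] at h1
  · have hβ' : β ∈ Qb := mem_algebraicClosure_iff.2 hβ
    have h1 := hy (X (Fin.last n) * (X b.castSucc - C ⟨β, hβ'⟩) - 1) (by
      rw [mem_vanishingIdeal_iff]
      intro z hz
      simp only [map_sub, map_mul, aeval_X, aeval_C, map_one]
      change z (Fin.last n) * (z b.castSucc - β) - 1 = 0
      rw [hz.2, sub_self])
    simp only [map_sub, map_mul, aeval_X, aeval_C, map_one] at h1
    change y (Fin.last n) * (y b.castSucc - β) - 1 = 0 at h1
    exact sub_eq_zero.1 h1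

private theorem dim_fin {ι : Type} [Fintype ι] {Y : Set (ι → ℂ)} (hY : Pool.Agent.Hhelper14.ZPL.IsIrredClosed Y)
    (hf : Y.Finite) : Pool.Agent.Hhelper14.ZPL.dim Y ≤ 0 := by
  classical
  obtain ⟨y, hy⟩ := irred_nonempty hY
  have h1 : Y = {y} := by
    obtain ⟨D, hD, hYD⟩ := irred_cover hY (hf.toFinset.image fun z => ({z} : Set (ι → ℂ))) (by
      intro D hD
      rw [Finset.mem_image] at hD
      obtain ⟨z, -, rfl⟩ := hD
      exact (irredClosed_singleton z).2) (by
      intro z hz
      simp only [Finset.mem_image]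
      exact ⟨{z}, ⟨z, hf.mem_toFinset.2 hz, rfl⟩, Set.mem_singleton z⟩)
    rw [Finset.mem_image] at hD
    obtain ⟨z, -, rfl⟩ := hD
    have h2 : y = z := hYD hy
    subst h2
    exact Set.Subset.antisymm hYD (Set.singleton_subset_iff.2 hy)
  rw [h1]
  have hm : (vanishingIdeal ℂ ({y} : Set (ι → ℂ)) : Ideal (MvPolynomial ι ℂ)).IsMaximal :=
    isMaximal_iff_eq_vanishingIdeal_singleton.mpr ⟨y, rfl⟩
  exact (ringKrullDim_eq_zero_of_isField ((Ideal.Quotient.maximal_ideal_iff_isField_quotient _).1 hm)).le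

theorem adj_dim (hV : Pool.Agent.Hhelper14.ZPL.IsIrredClosed V) (hdim : Pool.Agent.Hhelper14.ZPL.dim V = 1)
    (hb : ∀ c : ℂ, ∃ x ∈ V, x b ≠ c) : Pool.Agent.Hhelper14.ZPL.dim (adj V b β) = 1 := by
  have hA := adj_irr hV (hb β)
  have hfib : ∀ c : ℂ, {x ∈ V | x b = c}.Finite := by
    intro c
    have hZ : IsZClosed {x : Fin n → ℂ | x b = c} := by
      have h1 : {x : Fin n → ℂ | x b = c} = zeroLocus ℂ (Ideal.span {(X b - C c : MvPolynomial (Fin n) ℂ)}) := by
        ext x
        rw [zeroLocus_span]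
        simp [sub_eq_zero]
      rw [h1]
      exact closed_zeroLocus _
    exact finite_inter hV hdim hZ (fun hsub => by
      obtain ⟨x, hx, hne⟩ := hb c
      exact hne (hsub hx))
  obtain ⟨x₀, hx₀, hx₀b⟩ := hb β
  have hy₀ := ext_mem (β := β) hx₀ hx₀b
  apply le_antisymm
  · have hcl := closed_inter hA.2 (closed_zeroLocus (Ideal.span (Set.range
      fun _ : Unit => (X b.castSucc - C (x₀ b) : MvPolynomial (Fin (n + 1)) ℂ))))
    have hval : ∀ y : Fin (n + 1) → ℂ, y ∈ zeroLocus ℂ (Ideal.span (Set.range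
        fun _ : Unit => (X b.castSucc - C (x₀ b) : MvPolynomial (Fin (n + 1)) ℂ))) ↔
        y b.castSucc = x₀ b := by
      intro y
      rw [zeroLocus_span]
      simp [sub_eq_zero]
    obtain ⟨Y, hY, hyY⟩ := exists_comp_ge hcl (irredClosed_singleton (ext b β x₀)) (by
      rw [Set.singleton_subset_iff]
      exact ⟨hy₀, (hval _).2 (ext_cast _ _)⟩)
    have h1 := krull_cut' hA _ hY
    have h2 : Y.Finite := by
      refine ((hfib (x₀ b)).image (ext b β)).subset fun y hy => ?_
      obtain ⟨h3, h4⟩ := hY.2.1 hy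
      exact ⟨fun i : Fin n => y i.castSucc, ⟨h3.1, (hval _).1 h4⟩, adj_ext h3⟩
    have h3 := dim_fin hY.1 h2
    calc Pool.Agent.Hhelper14.ZPL.dim (adj V b β) ≤ Pool.Agent.Hhelper14.ZPL.dim Y + (Fintype.card Unit : ℕ) := h1
      _ ≤ 0 + (Fintype.card Unit : ℕ) := by gcongr
      _ = 1 := by simp
  · obtain ⟨x₁, hx₁, hx₁b⟩ : ∃ x ∈ V, x b ≠ β ∧ x b ≠ x₀ b := by
      by_contra hcon
      push Not at hcon
      have hfin : V.Finite := by
        refine ((hfib β).union (hfib (x₀ b))).subset fun x hx => ?_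
        by_cases h : x b = β
        · exact Or.inl ⟨hx, h⟩
        · exact Or.inr ⟨hx, hcon x hx h⟩
      have h1 := dim_fin hV hfin
      rw [hdim] at h1
      exact absurd h1 (by decide)
    exact one_le_dim hA hy₀ (ext_mem hx₁ hx₁b.1) fun h => hx₁b.2 (by
      have := congrFun (ext_inj h) b
      exact this.symm)

end Pool.Agent.LGO.RCM
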