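import Mathlib
import Pool.Agent.LGO.RCM.Adj
import Pool.Agent.LGO.ZV.RatAll

/-!
# LGO/RCM: the conditions on the curve, for `V` and for `adj V b β`

`CrvM V a b`: an irreducible curve over the algebraic numbers with nonconstant coordinates, whose coordinates `a`, `b` satisfy no modular relation.
`pairHt_adj`: the pair theorem for the coordinates `a`, `b` of `adj V b β` gives that of `V`.
-/

namespace Pool.Agent.LGO.RCM

open Pool.Agent.Hhelper14.ZPL Pool.Agent.Hhelper14.ZP MvPolynomial Pool.Agent.LGO.ZV Pool.Agent.LGO Pool.Agent.ZPE Pool.Agent.LGO.ZF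
  UpperHalfPlane

variable {n : ℕ}

/-- an irreducible curve over the algebraic numbers with nonconstant coordinates; no modular relation between the coordinates `a`, `b` -/
structure CrvM (V : Set (Fin n → ℂ)) (a b : Fin n) : Prop where
  irr : Pool.Agent.Hhelper14.ZPL.IsIrredClosed V
  kcl : KClosed V
  dim : Pool.Agent.Hhelper14.ZPL.dim V = 1
  nc : ∀ (i : Fin n) (c : ℂ), ∃ x ∈ V, x i ≠ c
  ne : a ≠ b
  nomod : ∀ g : GL (Fin 2) ℚ, 0 < g.det.val → ∃ x ∈ V, ¬ ∃ τ : ℍ, x a = jInv τ ∧ x b = jInv (gact g τ)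
  nomod' : ∀ g : GL (Fin 2) ℚ, 0 < g.det.val → ∃ x ∈ V, ¬ ∃ τ : ℍ, x b = jInv τ ∧ x a = jInv (gact g τ)

variable {V : Set (Fin n → ℂ)} {a b : Fin n} {β : ℂ}

theorem crvM_of (h : Pool.Agent.LGO.ZV.Crv V) (hab : a ≠ b) : CrvM V a b :=
  ⟨h.irr, h.kcl, h.dim, h.nc, hab, h.nomod a b hab, h.nomod b a hab.symm⟩

theorem CrvM.fib (h : CrvM V a b) (i : Fin n) (c : ℂ) : {x ∈ V | x i = c}.Finite := by
  have hZ : IsZClosed {x : Fin n → ℂ | x i = c} := by
    have h1 : {x : Fin n → ℂ | x i = c} = zeroLocus ℂ (Ideal.span {(X i - C c : MvPolynomial (Fin n) ℂ)}) := by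
      ext x
      rw [zeroLocus_span]
      simp [sub_eq_zero]
    rw [h1]
    exact closed_zeroLocus _
  exact finite_inter h.irr h.dim hZ (fun hsub => by
    obtain ⟨x, hx, hne⟩ := h.nc i c
    exact hne (hsub hx))

theorem CrvM.inf (h : CrvM V a b) : V.Infinite := by
  intro hfin
  obtain ⟨K, hK, hA, π, -, h0, -⟩ := Pool.Agent.ZPB.exists_fun h.irr h.dim
  have h1 : ∀ x ∈ V, MvPolynomial.eval x (∏ y ∈ hfin.toFinset,
      (MvPolynomial.X a - MvPolynomial.C (y a))) = 0 := by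
    intro x hx
    rw [map_prod]
    refine Finset.prod_eq_zero (hfin.mem_toFinset.2 hx) ?_
    rw [map_sub, MvPolynomial.eval_X, MvPolynomial.eval_C, sub_self]
  have h2 := (h0 _).2 h1
  rw [map_prod, Finset.prod_eq_zero_iff] at h2
  obtain ⟨y, -, hy⟩ := h2
  obtain ⟨x, hx, hne⟩ := h.nc a (y a)
  have h3 := (h0 _).1 hy x hx
  rw [map_sub, MvPolynomial.eval_X, MvPolynomial.eval_C, sub_eq_zero] at h3
  exact hne h3

private theorem mr (h : CrvM V a b) {c d : Fin n} (hcd : c ≠ d) {g : GL (Fin 2) ℚ} (hg : 0 < g.det.val)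
    (hn : ∃ x ∈ V, ¬ ∃ τ : ℍ, x c = jInv τ ∧ x d = jInv (gact g τ)) :
    ∃ x ∈ adj V b β, ¬ ∃ τ : ℍ, x c.castSucc = jInv τ ∧ x d.castSucc = jInv (gact g τ) := by
  have h1 : {x ∈ V | ∃ τ : ℍ, x c = jInv τ ∧ x d = jInv (gact g τ)}.Finite := by
    refine finite_inter h.irr h.dim (special_closed (mr_special hcd hg)) fun hsub => ?_
    obtain ⟨x, hx, hnot⟩ := hn
    exact hnot (hsub hx)
  obtain ⟨x, hx, hx2⟩ := (h.inf.diff (h1.union (h.fib b β))).nonempty
  rw [Set.mem_union, not_or] at hx2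
  refine ⟨ext b β x, ext_mem hx fun hb => hx2.2 ⟨hx, hb⟩, fun hcon => hx2.1 ⟨hx, ?_⟩⟩
  simpa only [ext_cast] using hcon

theorem CrvM.adj (h : CrvM V a b) (hβ : IsAlgebraic ℚ β) : CrvM (adj V b β) a.castSucc b.castSucc := by
  refine ⟨adj_irr h.irr (h.nc b β), adj_kcl h.kcl hβ, adj_dim h.irr h.dim (h.nc b), ?_,
    fun he => h.ne (Fin.castSucc_injective _ he),
    fun g hg => mr h h.ne hg (h.nomod g hg), fun g hg => mr h h.ne.symm hg (h.nomod' g hg)⟩
  intro i c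
  refine Fin.lastCases ?_ (fun j => ?_) i
  · obtain ⟨x, hx, hx2⟩ := (h.inf.diff ((h.fib b β).union (h.fib b (β + c⁻¹)))).nonempty
    rw [Set.mem_union, not_or] at hx2
    refine ⟨ext b β x, ext_mem hx fun hb => hx2.1 ⟨hx, hb⟩, ?_⟩
    rw [ext_last]
    intro hc
    apply hx2.2
    refine ⟨hx, ?_⟩
    rw [← hc, inv_inv]
    ring
  · obtain ⟨x, hx, hx2⟩ := (h.inf.diff ((h.fib b β).union (h.fib j c))).nonempty
    rw [Set.mem_union, not_or] at hx2
    refine ⟨ext b β x, ext_mem hx fun hb => hx2.1 ⟨hx, hb⟩, ?_⟩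
    rw [ext_cast]
    exact fun hc => hx2.2 ⟨hx, hc⟩

theorem pairHt_adj (h : CrvM V a b) {c d : Fin n} (hP : PairHt (RCM.adj V b β) c.castSucc d.castSucc) :
    PairHt V c d := by
  obtain ⟨C, E, hE, h1⟩ := hP
  refine ⟨C, {x ∈ V | x b = β} ∪ ext b β ⁻¹' E, (h.fib b β).union (hE.preimage ext_inj.injOn), ?_⟩
  intro x hx hxE hc hd hcd K _ hcK hdK
  rw [Set.mem_union, not_or] at hxE
  have h2 := h1 (ext b β x) (ext_mem hx fun hb => hxE.1 ⟨hx, hb⟩) hxE.2
  simp only [ext_cast] at h2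
  exact h2 hc hd hcd K hcK hdK

end Pool.Agent.LGO.RCM
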