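import Mathlib
import Pool.Agent.LGO.RU.GexLoc
import Pool.Agent.LGO.RU.GeoCur
import Pool.Agent.LGO.RU.GrC
import Pool.Agent.LGO.RU.GrK
import Pool.Agent.LGO.RCM.CrvM

/-!
# LGO/RCM: the local data at a point at infinity where `x_a = ∞`, `x_b = β` (an algebraic integer)

`LocM V a b β`: `ξ`, `η` have their only pole at this point, of the coprime orders `e`, `h`; `t ^ e = 1 / ξ`, `x_a = t ^ (- m) / Wa(t)`,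
`x_b = β + t ^ l Wl(t) = Wb(t)`.  At a finite place with `1 < ‖ξ‖`: `1 < ‖x_a‖`, `‖x_b‖ ≤ 1`.
-/

namespace Pool.Agent.LGO.RCM

open PowerSeries Pool.Agent.Hhelper14.ZP Pool.Agent.Hhelper14.ZPL Pool.Agent.LGO
  Pool.Agent.LGO.PA UpperHalfPlane Pool.Agent.LGO.RU

/-- the local data at a point at infinity where `x_a = ∞`, `x_b = β` -/
structure LocM {n : ℕ} (V : Set (Fin n → ℂ)) (a b : Fin n) (β : ℂ) where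
  e : ℕ
  h : ℕ
  m : ℕ
  l : ℕ
  n₀ : ℕ
  C : ℕ
  K₀ : IntermediateField ℚ ℂ
  E : Set (Fin n → ℂ)
  Xi : MvPolynomial (Fin n) Qb
  Et : MvPolynomial (Fin n) Qb
  W : Ser
  Wa : Ser
  Wb : Ser
  Wl : Ser
  r : ℝ
  fd : FiniteDimensional ℚ K₀
  fin : E.Finite
  pos : 0 < e ∧ 0 < m ∧ 0 < l ∧ 0 < n₀ ∧ 0 < C ∧ 0 < r ∧ r ≤ 1
  βK : β ∈ K₀
  inK : InK K₀ W ∧ InK K₀ Wa ∧ InK K₀ Wb ∧ InK K₀ Wl
  val : ((coeff 0 Wb : OO) : ℂ) = β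
  gr : Gr r C W ∧ Gr r C Wa ∧ Gr r C Wb ∧ Gr r C Wl
  /-- near the point, at a finite place -/
  near_p : ∀ (p : ℕ) [Fact p.Prime] (φ : ℂ →+* ℂ_[p]), ∀ x ∈ V, x ∉ E →
    1 < ‖φ (MvPolynomial.aeval x Xi : ℂ)‖ → 1 < ‖φ (x a)‖ ∧ ‖φ (x b)‖ ≤ 1
  /-- near the point, at the complex places -/
  near_c : ∀ (s : ℂ ≃+* ℂ), ∀ x ∈ V, x ∉ E → (C : ℝ) ≤ ‖s (MvPolynomial.aeval x Xi : ℂ)‖ →
    ∃ t : ℂ, 0 < ‖t‖ ∧ ‖t‖ ≤ r ∧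
      t ^ e * s (MvPolynomial.aeval x Xi : ℂ) = 1 ∧
      t ^ h * s (MvPolynomial.aeval x Et : ℂ) = evc s W t ∧
      s (x a) * (t ^ m * evc s Wa t) = 1 ∧ 1 ≤ C * ‖evc s Wa t‖ ∧
      s (x b) = evc s Wb t ∧ s (x b) = s β + t ^ l * evc s Wl t ∧ 1 ≤ C * ‖evc s Wl t‖
  /-- upper bounds in terms of `ξ` -/
  up_p : ∀ (p : ℕ) [Fact p.Prime] (φ : ℂ →+* ℂ_[p]), ∀ x ∈ V, x ∉ E →
    ‖(n₀ : ℂ_[p])‖ * ‖φ (MvPolynomial.aeval x Et : ℂ)‖ ≤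
      max 1 ‖φ (MvPolynomial.aeval x Xi : ℂ)‖ ^ C ∧
    ‖(n₀ : ℂ_[p])‖ * (‖φ (MvPolynomial.aeval x Xi : ℂ)‖ * ‖φ (x a)‖) ≤
      max 1 ‖φ (MvPolynomial.aeval x Xi : ℂ)‖ ^ C ∧
    ‖(n₀ : ℂ_[p])‖ * (‖φ (MvPolynomial.aeval x Xi : ℂ)‖ * ‖φ (x b)‖) ≤
      max 1 ‖φ (MvPolynomial.aeval x Xi : ℂ)‖ ^ C
  up_c : ∀ (s : ℂ ≃+* ℂ), ∀ x ∈ V, x ∉ E →
    ‖s (MvPolynomial.aeval x Et : ℂ)‖ ≤ C * max 1 ‖s (MvPolynomial.aeval x Xi : ℂ)‖ ^ C ∧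
    ‖s (MvPolynomial.aeval x Xi : ℂ)‖ * ‖s (x a)‖ ≤
      C * max 1 ‖s (MvPolynomial.aeval x Xi : ℂ)‖ ^ C ∧
    ‖s (MvPolynomial.aeval x Xi : ℂ)‖ * ‖s (x b)‖ ≤
      C * max 1 ‖s (MvPolynomial.aeval x Xi : ℂ)‖ ^ C
  /-- linear independence of the `η ^ i ξ ^ j`, `i < e` -/
  indep : ∀ (N : ℕ) (c : ℕ → ℕ → ℂ), (∀ i j, IsAlgebraic ℚ (c i j)) →
    {x ∈ V | x ∉ E ∧ ∑ i ∈ Finset.range e, ∑ j ∈ Finset.range N, c i j *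
      (MvPolynomial.aeval x Et : ℂ) ^ i * (MvPolynomial.aeval x Xi : ℂ) ^ j = 0}.Infinite →
    ∀ i < e, ∀ j < N, c i j = 0
  /-- `ξ` is not constant -/
  nc : ∀ c : ℂ, ∃ x ∈ V, (MvPolynomial.aeval x Xi : ℂ) ≠ c

variable {n : ℕ} {V : Set (Fin n → ℂ)} {a b : Fin n} {β : ℂ}

/-- the function `ξ` -/
noncomputable def LocM.ξ (D : LocM V a b β) (x : Fin n → ℂ) : ℂ := MvPolynomial.aeval x D.Xi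

/-- the function `η` -/
noncomputable def LocM.η (D : LocM V a b β) (x : Fin n → ℂ) : ℂ := MvPolynomial.aeval x D.Et

/-- the complex model: the points of `V` are the points `(ξ, η)` of a plane curve -/
structure MdlM (D : LocM V a b β) where
  S : AXG.Cur 2
  A : AXG.Atl S
  ET : Finset ℂ
  nco : S.NCo
  nomod : S.NoMod
  to_ : ∀ x ∈ V, x ∉ D.E → (D.ξ x, D.η x) ∈ S.pt ∧ S.x 0 (D.ξ x, D.η x) = x a ∧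
    S.x 1 (D.ξ x, D.η x) = x b
  from_ : ∀ q ∈ S.pt, q.1 ∉ ET → ∃ x ∈ V, x ∉ D.E ∧ D.ξ x = q.1 ∧ D.η x = q.2
  cusp : ∃ β₀ : AXG.Br S, 0 < β₀.e 0 ∧ β₀.e 1 = 0

end Pool.Agent.LGO.RCM
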