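import Mathlib
import Pool.Agent.LGO.RCM.LocM

/-!
# LGO/RCM: the local data `LocM` from `Geo`

`G : Geo V a c` with `x_c (x_b - β) = 1` on `V`.
-/

namespace Pool.Agent.LGO.RCM

open Polynomial Pool.Agent.LGO Pool.Agent.Hhelper14.ZPL Pool.Agent.Hhelper14.ZP Pool.Agent.LGO.PA Pool.Agent.LGO.RU

variable {n : ℕ} {V : Set (Fin n → ℂ)} {a b c : Fin n} {β : ℂ}

private theorem conj_bd {β : ℂ} (hβ : IsAlgebraic ℚ β) : ∃ B : ℝ, 0 < B ∧ ∀ s : ℂ →+* ℂ, ‖s β‖ ≤ B := by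
  haveI : FiniteDimensional ℚ (IntermediateField.adjoin ℚ {β}) :=
    IntermediateField.adjoin.finiteDimensional hβ.isIntegral
  exact (alg_bd (K := IntermediateField.adjoin ℚ {β}) (IntermediateField.mem_adjoin_simple_self ℚ β)).2

theorem exists_locMG (G : Geo V a c) (hV : Pool.Agent.Hhelper14.ZPL.IsIrredClosed V)
    (hdim : Pool.Agent.Hhelper14.ZPL.dim V = 1) (hβ : IsIntegral ℤ β)
    (hc : ∀ x ∈ V, x c * (x b - β) = 1) {E : Set (Fin n → ℂ)} (hE : E.Finite) :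
    ∃ D : LocM V a b β, D.E = E ∧ D.Xi = G.Fx ∧ D.Et = G.Fy := by
  classical
  have hβa : IsAlgebraic ℚ β := (hβ.tower_top (A := ℚ)).isAlgebraic
  obtain ⟨Bβ, hBβ, hBs⟩ := conj_bd hβa
  have algC1 : ∀ (q : Polynomial Qb) k, IsAlgebraic ℚ ((toC1 q).coeff k) := by
    intro q k
    rw [toC1, coeff_map]
    exact mem_algebraicClosure_iff.1 (q.coeff k).2
  obtain ⟨nP, CP, hnP, hCP, hP⟩ := gex_up G.e0 (fun l => G.P.coeff l) (fun l k =>
    (G.Pint l k).tower_top (A := ℚ) |>.isAlgebraic)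
  obtain ⟨ra, qa, hra, hqa⟩ := G.int a
  obtain ⟨rb, qb, hrb, hqb⟩ := G.int b
  obtain ⟨na, Ca, hna, hCa, hA⟩ := gex_up hra (fun j => toC1 (qa j)) (fun j k => algC1 _ k)
  obtain ⟨nb, Cb, hnb, hCb, hB⟩ := gex_up hrb (fun j => toC1 (qb j)) (fun j k => algC1 _ k)
  have hG1 := G.C1
  have hr0 : 0 < 1 / (2 * G.C) := by positivity
  have hr1 : 1 / (2 * G.C) ≤ 1 := by
    rw [div_le_one (by positivity)]
    linarith
  obtain ⟨C₁, hC₁, hnc⟩ := gex_nearc G hr0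
  obtain ⟨C, hC⟩ := exists_nat_ge (C₁ + 2 * G.C + CP + Ca + Cb + Bβ)
  have cP : (0 : ℝ) ≤ CP := Nat.cast_nonneg _
  have cA : (0 : ℝ) ≤ Ca := Nat.cast_nonneg _
  have cB : (0 : ℝ) ≤ Cb := Nat.cast_nonneg _
  have k1 : C₁ ≤ C := by linarith
  have k2 : 2 * G.C ≤ C := by linarith
  have k3 : CP ≤ C := by
    have : (CP : ℝ) ≤ C := by linarith
    exact_mod_cast this
  have k4 : Ca ≤ C := by
    have : (Ca : ℝ) ≤ C := by linarith
    exact_mod_cast this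
  have k5 : Cb ≤ C := by
    have : (Cb : ℝ) ≤ C := by linarith
    exact_mod_cast this
  have hC0 : 0 < C := by omega
  have hn0 : 0 < G.n0 := G.n00
  set n₀ : ℕ := G.n0 * nP * na * nb with hn₀
  have d1 : nP ∣ n₀ := ⟨G.n0 * na * nb, by rw [hn₀]; ring⟩
  have d2 : na ∣ n₀ := ⟨G.n0 * nP * nb, by rw [hn₀]; ring⟩
  have d3 : nb ∣ n₀ := ⟨G.n0 * nP * na, by rw [hn₀]; ring⟩
  have hgr : ∀ {S : Ser}, SrK G.K G.C S → Gr (1 / (2 * G.C)) C S := fun h s k =>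
    (gex_gr G.C1 h s k).trans k2
  have pw : ∀ {u : ℝ} {k : ℕ}, k ≤ C → max 1 u ^ k ≤ max 1 u ^ C := fun h =>
    pow_le_pow_right₀ (le_max_left _ _) h
  have upp : ∀ (p : ℕ) [Fact p.Prime] (φ : ℂ →+* ℂ_[p]) (k D : ℕ) (y z : ℂ), k ∣ n₀ → D ≤ C →
      ‖(k : ℂ_[p])‖ * ‖φ y‖ ≤ max 1 ‖φ z‖ ^ D → ‖(n₀ : ℂ_[p])‖ * ‖φ y‖ ≤ max 1 ‖φ z‖ ^ C := by
    intro p _ φ k D y z hk hD h
    exact (mul_le_mul_of_nonneg_right (gex_nle hk) (norm_nonneg _)).trans (h.trans (pw hD))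
  have upc : ∀ (s : ℂ ≃+* ℂ) (D : ℕ) (y z : ℂ), D ≤ C →
      ‖s y‖ ≤ D * max 1 ‖s z‖ ^ D → ‖s y‖ ≤ C * max 1 ‖s z‖ ^ C := by
    intro s D y z hD h
    refine h.trans (mul_le_mul (by exact_mod_cast hD) (pw hD) (by positivity) (by positivity))
  -- the series of `x_b`
  let B0 : OO := ⟨β, hβ⟩
  let Wb : Ser := PowerSeries.C B0 + PowerSeries.X ^ G.mb * G.ob
  have hfd := G.fin
  haveI : FiniteDimensional ℚ (IntermediateField.adjoin ℚ {β}) :=
    IntermediateField.adjoin.finiteDimensional hβa.isIntegral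
  have hK1 : G.K ≤ G.K ⊔ IntermediateField.adjoin ℚ {β} := le_sup_left
  have hK2 : β ∈ G.K ⊔ IntermediateField.adjoin ℚ {β} :=
    (le_sup_right : IntermediateField.adjoin ℚ {β} ≤ _) (IntermediateField.mem_adjoin_simple_self ℚ β)
  have hin : ∀ {S : Ser}, SrK G.K G.C S → InK (G.K ⊔ IntermediateField.adjoin ℚ {β}) S :=
    fun h n => hK1 (h.fld n)
  have hb' : ∀ x ∈ V, x b - β ≠ 0 := fun x hx h0 => by
    have := hc x hx
    rw [h0, mul_zero] at this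
    exact zero_ne_one this
  have grX : Gr (1 / (2 * G.C)) 1 ((PowerSeries.X : Ser) ^ G.mb) := Gr.X_pow hr0.le hr1 G.mb
  have gro : Gr (1 / (2 * G.C)) (2 * G.C) G.ob := gex_gr G.C1 G.Sb
  have grC : Gr (1 / (2 * G.C)) Bβ (PowerSeries.C B0 : Ser) :=
    gr_C hBβ.le fun s => hBs (s : ℂ →+* ℂ)
  have grX2 : Gr (1 / (2 * G.C)) (1 * (2 * G.C)) ((PowerSeries.X : Ser) ^ G.mb * G.ob) := gr_mul grX gro hr0.le
  have grWb : Gr (1 / (2 * G.C)) C Wb := by
    refine gr_mono (gr_add grC grX2 hr0.le) ?_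
    linarith
  refine ⟨{ e := G.e, h := G.h, m := G.ma, l := G.mb, n₀ := n₀, C := C,
            K₀ := G.K ⊔ IntermediateField.adjoin ℚ {β}, E := E,
            Xi := G.Fx, Et := G.Fy, W := G.W, Wa := G.oa, Wb := Wb, Wl := G.ob, r := 1 / (2 * G.C),
            fd := inferInstance, fin := hE,
            pos := ⟨G.e0, G.ma0, G.mb0, by positivity, hC0, hr0, hr1⟩,
            βK := hK2,
            inK := ⟨hin G.SW, hin G.Sa, ?_, hin G.Sb⟩,
            val := ?_,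
            gr := ⟨hgr G.SW, hgr G.Sa, grWb, hgr G.Sb⟩,
            near_p := ?_, near_c := ?_, up_p := ?_, up_c := ?_, indep := ?_, nc := G.ncx },
          rfl, rfl, rfl⟩
  · exact (InK.C hK2).add ((InK.X.pow G.mb).mul (hin G.Sb))
  · show ((PowerSeries.coeff 0 (PowerSeries.C B0 + PowerSeries.X ^ G.mb * G.ob) : OO) : ℂ) = β
    have h1 : PowerSeries.coeff 0 (PowerSeries.C B0 + PowerSeries.X ^ G.mb * G.ob : Ser) = B0 := by
      rw [map_add, PowerSeries.coeff_zero_C, PowerSeries.coeff_zero_eq_constantCoeff, map_mul, map_pow,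
        PowerSeries.constantCoeff_X, zero_pow G.mb0.ne', zero_mul, add_zero]
    rw [h1]
  · intro p _ φ x hx _ h
    obtain ⟨t, h1, h2, h3, h4, h5, h6, h7, h8⟩ := gex_nearp G p φ hx h
    have hf : ∀ r : OO, ‖sO φ r‖ ≤ 1 := fun r => PA.norm_le_one_of_integral φ r.2
    have h9 := ev_norm_le hf h2 G.oa
    have h10 := ev_norm_le hf h2 G.ob
    refine ⟨?_, ?_⟩
    · have h11 : ‖φ (x a)‖ * (‖t‖ ^ G.ma * ‖ev (sO φ) G.oa t‖) = 1 := by
        rw [← norm_pow, ← norm_mul, ← norm_mul, h5, norm_one]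
      have h12 : ‖t‖ ^ G.ma < 1 := pow_lt_one₀ h1.le h2 G.ma0.ne'
      have h13 : ‖t‖ ^ G.ma * ‖ev (sO φ) G.oa t‖ < 1 :=
        (mul_le_of_le_one_right (by positivity) h9).trans_lt h12
      by_contra hcon
      rw [not_lt] at hcon
      have h14 : ‖φ (x a)‖ * (‖t‖ ^ G.ma * ‖ev (sO φ) G.oa t‖) ≤
          1 * (‖t‖ ^ G.ma * ‖ev (sO φ) G.oa t‖) := mul_le_mul_of_nonneg_right hcon (by positivity)
      rw [h11, one_mul] at h14
      exact absurd h14 (not_le.2 h13)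
    · have h11 : φ (x c) * φ (x b - β) = 1 := by rw [← map_mul, hc x hx, map_one]
      have h12 : φ (x b - β) = t ^ G.mb * ev (sO φ) G.ob t := by
        have h13 : φ (x c) ≠ 0 := fun h0 => by
          rw [h0, zero_mul] at h11
          exact zero_ne_one h11
        exact mul_left_cancel₀ h13 (h11.trans h6.symm)
      have h13 : ‖φ (x b - β)‖ ≤ 1 := by
        rw [h12, norm_mul, norm_pow]
        exact mul_le_one₀ (pow_le_one₀ h1.le h2.le) (norm_nonneg _) h10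
      have h14 : ‖φ β‖ ≤ 1 := PA.norm_le_one_of_integral φ hβ
      have h15 : φ (x b) = φ (x b - β) + φ β := by rw [map_sub, sub_add_cancel]
      rw [h15]
      exact (IsUltrametricDist.norm_add_le_max _ _).trans (max_le h13 h14)
  · intro s x hx _ h
    obtain ⟨t, h1, h2, h3, h4, h5, h6, h7, h8⟩ := hnc s x hx (k1.trans h)
    have h11 : s (x c) * s (x b - β) = 1 := by rw [← map_mul, hc x hx, map_one]
    have h12 : s (x b - β) = t ^ G.mb * evc s G.ob t := by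
      have h13 : s (x c) ≠ 0 := fun h0 => by
        rw [h0, zero_mul] at h11
        exact zero_ne_one h11
      exact mul_left_cancel₀ h13 (h11.trans h6.symm)
    have h13 : s (x b) = s β + t ^ G.mb * evc s G.ob t := by
      rw [← h12, map_sub, add_sub_cancel]
    have h14 : evc s Wb t = s β + t ^ G.mb * evc s G.ob t := by
      show evc s (PowerSeries.C B0 + PowerSeries.X ^ G.mb * G.ob) t = _
      rw [evc_add grC grX2 h2 s, evc_C, evc_mul grX gro h2 s, evc_Xpow]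
    exact ⟨t, h1, h2, h3, h4, h5, h7.trans (mul_le_mul_of_nonneg_right k1 (norm_nonneg _)),
      by rw [h13, h14], h13, h8.trans (mul_le_mul_of_nonneg_right k1 (norm_nonneg _))⟩
  · intro p _ φ x hx _
    refine ⟨upp p φ nP CP _ _ d1 k3 ((hP _ _ (gex_eqP G hx)).1 p φ), ?_, ?_⟩
    · rw [← norm_mul, ← map_mul]
      exact upp p φ na Ca _ _ d2 k4 ((hA _ _ (hqa x hx)).1 p φ)
    · rw [← norm_mul, ← map_mul]
      exact upp p φ nb Cb _ _ d3 k5 ((hB _ _ (hqb x hx)).1 p φ)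
  · intro s x hx _
    refine ⟨upc s CP _ _ k3 ((hP _ _ (gex_eqP G hx)).2 s), ?_, ?_⟩
    · rw [← norm_mul, ← map_mul]
      exact upc s Ca _ _ k4 ((hA _ _ (hqa x hx)).2 s)
    · rw [← norm_mul, ← map_mul]
      exact upc s Cb _ _ k5 ((hB _ _ (hqb x hx)).2 s)
  · intro N c _ hinf
    exact gex_indep G hV hdim N c (hinf.mono fun x hx => ⟨hx.1, hx.2.2⟩)

end Pool.Agent.LGO.RCM
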