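import Mathlib
import Pool.Agent.LGO.RCM.LocM
import Pool.Agent.LGO.RU.GexMdl
import Pool.Agent.LGO.RU.GexBig

/-!
# LGO/RCM: the complex model `MdlM` from `Geo`

`G : Geo V a c` with `x_c (x_b - β) = 1` on `V`; the branches over `ξ = ∞`: `x_a` is infinite, `x_b` is bounded.
-/

namespace Pool.Agent.LGO.RCM

open Polynomial Pool.Agent.LGO Pool.Agent.LGO.AX Pool.Agent.Hhelper14.ZPL Pool.Agent.Hhelper14.ZP Metric Pool.Agent.LGO.RU

variable {n : ℕ} {V : Set (Fin n → ℂ)} {a b c : Fin n} {β : ℂ}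

private theorem jF_ge : ∃ Y : ℝ, ∀ z : ℂ, 0 < z.im → Y ≤ z.im →
    1 / 2 * Real.exp (2 * Real.pi * z.im) ≤ ‖jF z‖ := by
  obtain ⟨J, hJ, hJ0, hj⟩ := Pool.Agent.Hhelper14.ZP.exists_J
  obtain ⟨δ, hδ, hb⟩ := Metric.continuousAt_iff.1 hJ.continuousAt_zero (1 / 2) (by norm_num)
  have hpi := Real.pi_pos
  refine ⟨(-Real.log δ + 1) / (2 * Real.pi), fun z hz hY => ?_⟩
  have h1 := hj ⟨z, hz⟩
  have hz1 : jF z = Pool.Agent.Hhelper14.ZP.jInv ⟨z, hz⟩ := jF_coe ⟨z, hz⟩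
  have hn : ‖Function.Periodic.qParam 1 z‖ = Real.exp (-(2 * Real.pi * z.im)) := by
    rw [Function.Periodic.norm_qParam]
    congr 1
    rw [div_one]
    ring
  have hlt : ‖Function.Periodic.qParam 1 z‖ < δ := by
    rw [hn, ← Real.lt_log_iff_exp_lt hδ]
    rw [div_le_iff₀ (by positivity)] at hY
    nlinarith
  have h3 : dist (J (Function.Periodic.qParam 1 z)) (J 0) < 1 / 2 := by
    apply hb
    rwa [dist_zero_right]
  rw [hJ0, dist_eq_norm] at h3
  have h4 : 1 / 2 ≤ ‖J (Function.Periodic.qParam 1 z)‖ := by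
    have h5 : ‖(1 : ℂ)‖ ≤ ‖J (Function.Periodic.qParam 1 z)‖ +
        ‖J (Function.Periodic.qParam 1 z) - 1‖ := by
      have h6 := norm_sub_le (J (Function.Periodic.qParam 1 z)) (J (Function.Periodic.qParam 1 z) - 1)
      rwa [sub_sub_cancel] at h6
    rw [norm_one] at h5
    linarith
  have h1' : Pool.Agent.Hhelper14.ZP.jInv ⟨z, hz⟩ * Function.Periodic.qParam 1 z =
    J (Function.Periodic.qParam 1 z) := h1
  rw [← h1', norm_mul, hn, ← hz1] at h4
  have h2 : Real.exp (-(2 * Real.pi * z.im)) * Real.exp (2 * Real.pi * z.im) = 1 := by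
    rw [← Real.exp_add, neg_add_cancel, Real.exp_zero]
  have h8 := mul_le_mul_of_nonneg_right h4 (Real.exp_pos (2 * Real.pi * z.im)).le
  rw [mul_assoc ‖jF z‖, h2, mul_one] at h8
  exact h8

private theorem lt_r {d : ℕ} {S : AXG.Cur d} (β : AXG.Br S) : β.r * Real.exp (-5) < β.r := by
  have hr := β.r_pos
  have he5 : Real.exp (-5 : ℝ) < 1 := by
    rw [Real.exp_lt_one_iff]
    norm_num
  nlinarith

private theorem pole_w {d : ℕ} {S : AXG.Cur d} (β : AXG.Br S) {c : Fin d} (h : 0 < β.e c) (B : ℝ) :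
    ∃ δ : ℝ, 0 < δ ∧ ∀ w : ℂ, Real.exp w.re ≤ β.r * Real.exp (-5) → Real.exp w.re ≤ δ →
      B < ‖S.x c (β.pt w)‖ := by
  obtain ⟨Y, hY⟩ := jF_ge
  obtain ⟨M, hM⟩ := (isCompact_closedBall (0 : ℂ) (β.r * Real.exp (-5))).exists_bound_of_continuousOn
    ((β.dψ c).continuousOn.mono (closedBall_subset_ball (lt_r β)))
  have hpi := Real.pi_pos
  set Z : ℝ := |Y| + |Real.log (2 * (|B| + 1))| / (2 * Real.pi) + |M| with hZ
  have hZ0 : 0 ≤ Z := by positivity
  refine ⟨Real.exp (-(2 * Real.pi * Z)), Real.exp_pos _, fun w hw hwδ => ?_⟩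
  rw [Real.exp_le_exp] at hwδ
  have h1 : ‖β.ψ c (Complex.exp w)‖ ≤ M := by
    apply hM
    rw [mem_closedBall_zero_iff, Complex.norm_exp]
    exact hw
  have h2 : -M ≤ (β.ψ c (Complex.exp w)).im := by
    have h3 := Complex.abs_im_le_norm (β.ψ c (Complex.exp w))
    have h4 := neg_abs_le (β.ψ c (Complex.exp w)).im
    linarith
  have h3 : (zz (β.e c) (β.ψ c) w).im = -((β.e c : ℝ) * w.re) / (2 * Real.pi) + (β.ψ c (Complex.exp w)).im := by
    have h4 : (β.e c : ℂ) * w / (2 * Real.pi * Complex.I) =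
        ((((β.e c : ℝ) / (2 * Real.pi) : ℝ)) : ℂ) * (-Complex.I * w) := by
      have h5 : (Real.pi : ℂ) ≠ 0 := Complex.ofReal_ne_zero.2 hpi.ne'
      push_cast
      field_simp
      rw [Complex.I_sq]
      ring
    rw [zz, Complex.add_im, h4, Complex.im_ofReal_mul]
    have h5 : (-Complex.I * w).im = -w.re := by simp
    rw [h5]
    ring
  have he : (1 : ℝ) ≤ β.e c := by exact_mod_cast h
  have h4 : Z ≤ -((β.e c : ℝ) * w.re) / (2 * Real.pi) := by
    rw [le_div_iff₀ (by positivity)]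
    have h5 : w.re ≤ 0 := by nlinarith
    nlinarith
  have h5 : |Y| + |Real.log (2 * (|B| + 1))| / (2 * Real.pi) ≤ (zz (β.e c) (β.ψ c) w).im := by
    rw [h3]
    have := le_abs_self M
    linarith
  have h6 : 0 < (zz (β.e c) (β.ψ c) w).im := β.im_pos c w (hw.trans_lt (lt_r β))
  have h7 : Y ≤ (zz (β.e c) (β.ψ c) w).im := by
    have h8 : 0 ≤ |Real.log (2 * (|B| + 1))| / (2 * Real.pi) := by positivity
    have := le_abs_self Y
    linarith
  have h8 := hY _ h6 h7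
  rw [β.jz c w (hw.trans_lt (lt_r β))] at h8
  have h9 : Real.log (2 * (|B| + 1)) ≤ 2 * Real.pi * (zz (β.e c) (β.ψ c) w).im := by
    have h10 : |Real.log (2 * (|B| + 1))| / (2 * Real.pi) ≤ (zz (β.e c) (β.ψ c) w).im := by
      have := abs_nonneg Y
      linarith
    rw [div_le_iff₀ (by positivity)] at h10
    have := le_abs_self (Real.log (2 * (|B| + 1)))
    linarith
  have h10 : 2 * (|B| + 1) ≤ Real.exp (2 * Real.pi * (zz (β.e c) (β.ψ c) w).im) := by
    rw [← Real.log_le_iff_le_exp (by positivity)]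
    exact h9
  have h11 := le_abs_self B
  show B < ‖S.x c (Tp β.o (Complex.exp w ^ β.m), β.Y (Complex.exp w))‖
  linarith

private theorem pole_big {d : ℕ} {S : AXG.Cur d} (β : AXG.Br S) {c : Fin d} (h : 0 < β.e c) (B : ℝ) :
    ∃ R : ℝ, 0 ≤ R ∧ ∀ w : ℂ, Real.exp w.re ≤ β.r * Real.exp (-5) → R < ‖(β.pt w).1‖ →
      B < ‖S.x c (β.pt w)‖ := by
  obtain ⟨δ, hδ, hδB⟩ := pole_w β h B
  have hpt : ∀ w, (β.pt w).1 = Tp β.o (Complex.exp w ^ β.m) := fun w => rfl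
  rcases ho : β.o with _ | o
  · refine ⟨(δ ^ β.m)⁻¹, by positivity, fun w hw hR => ?_⟩
    apply hδB w hw
    by_contra hcon
    rw [not_le] at hcon
    rw [hpt, ho] at hR
    have h1 : Tp none (Complex.exp w ^ β.m) = (Complex.exp w ^ β.m)⁻¹ := rfl
    rw [h1, norm_inv, norm_pow, Complex.norm_exp] at hR
    have h2 : δ ^ β.m < Real.exp w.re ^ β.m := pow_lt_pow_left₀ hcon hδ.le β.m_pos.ne'
    have h3 : (Real.exp w.re ^ β.m)⁻¹ < (δ ^ β.m)⁻¹ := inv_strictAnti₀ (by positivity) h2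
    exact absurd hR (not_lt.2 h3.le)
  · refine ⟨‖o‖ + β.r ^ β.m, by have := β.r_pos; positivity, fun w hw hR => ?_⟩
    exfalso
    rw [hpt, ho] at hR
    have h1 : Tp (some o) (Complex.exp w ^ β.m) = o + Complex.exp w ^ β.m := rfl
    rw [h1] at hR
    have h2 := norm_add_le o (Complex.exp w ^ β.m)
    rw [norm_pow, Complex.norm_exp] at h2
    have h3 : Real.exp w.re ^ β.m ≤ β.r ^ β.m :=
      pow_le_pow_left₀ (Real.exp_pos _).le (hw.trans (lt_r β).le) _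
    linarith

private theorem bd_w {d : ℕ} {S : AXG.Cur d} (β : AXG.Br S) {c : Fin d} (h : β.e c = 0) :
    ∃ B : ℝ, ∀ w : ℂ, Real.exp w.re ≤ β.r * Real.exp (-5) → ‖S.x c (β.pt w)‖ ≤ B := by
  have hlt := lt_r β
  have hzz : ∀ w, zz (β.e c) (β.ψ c) w = β.ψ c (Complex.exp w) := fun w => by
    rw [zz, h, Nat.cast_zero, zero_mul, zero_div, zero_add]
  have him : ∀ t ∈ closedBall (0 : ℂ) (β.r * Real.exp (-5)), 0 < (β.ψ c t).im := by
    intro t ht
    rw [mem_closedBall_zero_iff] at ht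
    by_cases h0 : t = 0
    · rw [h0]
      exact β.cen c h
    · have h1 := β.im_pos c (Complex.log t) (by
        rw [Complex.log_re, Real.exp_log (norm_pos_iff.2 h0)]
        exact ht.trans_lt hlt)
      rw [hzz, Complex.exp_log h0] at h1
      exact h1
  have hcont : ContinuousOn (fun t => jF (β.ψ c t)) (closedBall (0 : ℂ) (β.r * Real.exp (-5))) := by
    refine ContinuousOn.comp (g := jF) (f := β.ψ c) (t := {z : ℂ | 0 < z.im}) ?_ ?_ ?_
    · exact jF_analytic.continuousOn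
    · exact (β.dψ c).continuousOn.mono (closedBall_subset_ball hlt)
    · exact fun t ht => him t ht
  obtain ⟨B, hB⟩ := (isCompact_closedBall (0 : ℂ) (β.r * Real.exp (-5))).exists_bound_of_continuousOn
    hcont
  refine ⟨B, fun w hw => ?_⟩
  have h1 := β.jz c w (hw.trans_lt hlt)
  rw [hzz] at h1
  have h2 := hB (Complex.exp w) (by
    rw [mem_closedBall_zero_iff, Complex.norm_exp]
    exact hw)
  rw [h1] at h2
  exact h2

private theorem pt_big {d : ℕ} (S : AXG.Cur d) (R : ℝ) {ρ : ℝ} (hρ : 0 < ρ) :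
    ∃ s y : ℂ, 0 < ‖s‖ ∧ ‖s‖ < ρ ∧ (Tp none s, y) ∈ S.pt ∧ R < ‖Tp none s‖ := by
  have hinf : (Set.univ \ (((S.D.roots.toFinset : Set ℂ)) ∪
      closedBall (0 : ℂ) (max R ρ⁻¹))).Nonempty := by
    by_contra hcon
    rw [Set.not_nonempty_iff_eq_empty, Set.sdiff_eq_empty] at hcon
    have h1 : Bornology.IsBounded (Set.univ : Set ℂ) :=
      ((S.D.roots.toFinset.finite_toSet.isBounded).union isBounded_closedBall).subset hcon
    exact NormedSpace.unbounded_univ ℝ ℂ h1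
  obtain ⟨T, -, hT⟩ := hinf
  rw [Set.mem_union, not_or] at hT
  obtain ⟨hT1, hT2⟩ := hT
  have hD : S.D.eval T ≠ 0 := by
    intro h
    apply hT1
    rw [Finset.mem_coe, Multiset.mem_toFinset, mem_roots S.D_ne]
    exact h
  rw [mem_closedBall_zero_iff, not_le, max_lt_iff] at hT2
  obtain ⟨hT3, hT4⟩ := hT2
  have hT0 : T ≠ 0 := by
    rintro rfl
    rw [norm_zero] at hT4
    exact absurd hT4 (not_lt.2 (inv_pos.2 hρ).le)
  obtain ⟨y, hy⟩ : ∃ y : ℂ, (S.F.map (evalRingHom T)).IsRoot y := by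
    refine IsAlgClosed.exists_root _ fun h0 => ?_
    have h1 : (S.F.map (evalRingHom T)).natDegree = S.F.natDegree :=
      natDegree_map_of_leadingCoeff_ne_zero _ (S.lead T hD)
    have h2 := S.deg
    rw [← h1, natDegree_eq_of_degree_eq_some h0] at h2
    exact lt_irrefl _ h2
  have hTp : Tp none T⁻¹ = T := by
    show (T⁻¹)⁻¹ = T
    exact inv_inv T
  refine ⟨T⁻¹, y, ?_, ?_, ?_, ?_⟩
  · rw [norm_inv]
    exact inv_pos.2 (norm_pos_iff.2 hT0)
  · rw [norm_inv]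
    exact inv_lt_of_inv_lt₀ hρ hT4
  · rw [hTp]
    refine ⟨hD, ?_⟩
    rw [IsRoot.def, eval_map] at hy
    rw [← eval₂_evalRingHom]
    exact hy
  · rw [hTp]
    exact hT3

/-- a branch where `x_0` is infinite and `x_1` finite -/
private theorem cuspM (S : AXG.Cur 2) (B₁ : ℝ) (h : ∀ B : ℝ, ∃ R : ℝ, ∀ p ∈ S.pt, R < ‖p.1‖ →
    B < ‖S.x 0 p‖ ∧ ‖S.x 1 p‖ ≤ B₁) : ∃ β₀ : AXG.Br S, 0 < β₀.e 0 ∧ β₀.e 1 = 0 := by
  classical
  obtain ⟨ρ, k, br, hρ, hbr⟩ := AXG.exists_br S none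
  have hbd : ∀ i : Fin k, ∃ B : ℝ, (br i).e 0 = 0 →
      ∀ w : ℂ, Real.exp w.re ≤ (br i).r * Real.exp (-5) → ‖S.x 0 ((br i).pt w)‖ ≤ B := by
    intro i
    by_cases h0 : (br i).e 0 = 0
    · obtain ⟨B, hB⟩ := bd_w (br i) h0
      exact ⟨B, fun _ => hB⟩
    · exact ⟨0, fun h1 => absurd h1 h0⟩
  have hpl : ∀ i : Fin k, ∃ R : ℝ, 0 ≤ R ∧ (0 < (br i).e 1 →
      ∀ w : ℂ, Real.exp w.re ≤ (br i).r * Real.exp (-5) → R < ‖((br i).pt w).1‖ →
        B₁ < ‖S.x 1 ((br i).pt w)‖) := by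
    intro i
    by_cases h0 : 0 < (br i).e 1
    · obtain ⟨R, hR0, hR⟩ := pole_big (br i) h0 B₁
      exact ⟨R, hR0, fun _ => hR⟩
    · exact ⟨0, le_rfl, fun h1 => absurd h1 h0⟩
  choose B hB using hbd
  choose R' hR0 hR' using hpl
  obtain ⟨R, hR⟩ := h (∑ i, |B i|)
  obtain ⟨s, y, hs0, hs1, hp, hsR⟩ := pt_big S (max R (∑ i, R' i)) hρ
  obtain ⟨i, w, hw, -, hiw⟩ := hbr s y hs0 hs1 hp
  obtain ⟨h2, h3⟩ := hR _ hp ((le_max_left _ _).trans_lt hsR)
  refine ⟨br i, ?_, ?_⟩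
  · rw [Nat.pos_iff_ne_zero]
    intro h0
    have h1 := hB i h0 w hw
    rw [hiw] at h1
    have h4 : |B i| ≤ ∑ i, |B i| :=
      Finset.single_le_sum (f := fun i => |B i|) (fun _ _ => abs_nonneg _) (Finset.mem_univ i)
    have h5 := le_abs_self (B i)
    linarith
  · by_contra h0
    have h1 := hR' i (Nat.pos_of_ne_zero h0) w hw (by
      rw [hiw]
      refine lt_of_le_of_lt ?_ hsR
      refine le_trans ?_ (le_max_right _ _)
      exact Finset.single_le_sum (f := fun i => R' i) (fun i _ => hR0 i) (Finset.mem_univ i))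
    rw [hiw] at h1
    exact absurd h3 (not_le.2 h1)

theorem exists_mdlMG (G : Geo V a c) (h : CrvM V a b) (hc : ∀ x ∈ V, x c * (x b - β) = 1) :
    ∃ E₀ : Set (Fin n → ℂ), E₀.Finite ∧ ∀ D : LocM V a b β, D.Xi = G.Fx → D.Et = G.Fy → E₀ ⊆ D.E →
      Nonempty (MdlM D) := by
  classical
  obtain ⟨S, hF, hN, hM, hcov, hpt, hpt2⟩ := exists_cur G h.irr h.dim
  refine ⟨{x ∈ V | S.D.eval (vl G.Fx x) = 0}, gex_root G h.irr h.dim S.D_ne, ?_⟩
  intro D hX hY hE
  have hξ : ∀ x, D.ξ x = vl G.Fx x := fun x => by rw [LocM.ξ, hX, vl]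
  have hη : ∀ x, D.η x = vl G.Fy x := fun x => by rw [LocM.η, hY, vl]
  have hcov2 : ZV.Cov (S.res ![a, b]) V ![a, b] := by
    obtain ⟨E, hE, hc⟩ := hcov
    refine ⟨E, hE, fun x hx hxE => ?_⟩
    obtain ⟨p, hp, hpx⟩ := hc x hx hxE
    exact ⟨p, hp, fun c => hpx _⟩
  obtain ⟨A⟩ := AXG.exists_atl (S.res ![a, b])
  refine ⟨{ S := S.res ![a, b]
            A := A
            ET := (D.fin.toFinset).image D.ξ
            nco := ZV.model_NCo_v h.irr h.dim (fun c => h.nc _) hcov2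
            nomod := ZV.model_NoMod_v h.irr h.dim 0 (h.nc _) ?_ hcov2
            to_ := ?_
            from_ := ?_
            cusp := ?_ }⟩
  · intro c c' hcc
    fin_cases c <;> fin_cases c'
    · exact absurd rfl hcc
    · exact h.nomod
    · exact h.nomod'
    · exact absurd rfl hcc
  · intro x hx hxE
    have h1 : S.D.eval (vl G.Fx x) ≠ 0 := fun h0 => hxE (hE ⟨hx, h0⟩)
    obtain ⟨h2, h3⟩ := hpt2 x hx h1
    rw [hξ, hη]
    exact ⟨h2, h3 a, h3 b⟩
  · intro q hq hqE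
    obtain ⟨h1, h2, h3⟩ := hpt q hq
    refine ⟨_, h1, fun hmem => hqE ?_, ?_, ?_⟩
    · rw [Finset.mem_image]
      exact ⟨_, D.fin.mem_toFinset.2 hmem, by rw [hξ, h2]⟩
    · rw [hξ, h2]
    · rw [hη, h3]
  · refine cuspM _ (‖β‖ + 1) fun B => ?_
    obtain ⟨R, hR⟩ := gex_big G (max (|B| + 1) 1)
    refine ⟨R, fun p hp hpR => ?_⟩
    obtain ⟨h1, h2, -⟩ := hpt p hp
    obtain ⟨h3, h4⟩ := hR _ h1 (by rw [h2]; exact hpR.le)
    have h5 := hc _ h1
    have h6 := (le_max_left (|B| + 1) 1).trans h3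
    have h7 := (le_max_right (|B| + 1) 1).trans h4
    refine ⟨?_, ?_⟩
    · have h8 : B < ‖S.x a p‖ := by
        have := le_abs_self B
        linarith
      exact h8
    · have h8 : ‖S.x c p‖ * ‖S.x b p - β‖ = 1 := by rw [← norm_mul, h5, norm_one]
      have h9 : ‖S.x b p - β‖ ≤ 1 := by
        by_contra hcon
        rw [not_le] at hcon
        nlinarith
      have h10 : ‖S.x b p‖ ≤ ‖β‖ + 1 := by
        have h11 := norm_add_le (S.x b p - β) β
        rw [sub_add_cancel] at h11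
        linarith
      exact h10

end Pool.Agent.LGO.RCM
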