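import Mathlib
import Pool.Agent.LGO.RCM.LocG
import Pool.Agent.LGO.RCM.MdlG
import Pool.Agent.LGO.RU.GeoSc
import Pool.Agent.LGO.RU.GeoTr

/-!
# LGO/RCM: existence of the local data and of the complex model at a point at infinity where `x_a = ∞`, `x_b = β`
-/

namespace Pool.Agent.LGO.RCM

open Filter Topology Pool.Agent.LGO.ZV Pool.Agent.LGO.RU Pool.Agent.Hhelper14.ZPL Pool.Agent.Hhelper14.ZP

variable {n : ℕ} {V : Set (Fin n → ℂ)} {a b : Fin n} {β : ℂ}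

theorem exists_locM (h : CrvM V a b) (hβ : IsIntegral ℤ β) (P : ℕ → Fin n → ℂ) (hP : ∀ k, P k ∈ V)
    (ha : Tendsto (fun k => ‖P k a‖) atTop atTop) (hb : Tendsto (fun k => P k b) atTop (𝓝 β)) :
    ∃ D : LocM (adj V b β) a.castSucc b.castSucc β, Nonempty (MdlM D) := by
  have hβa : IsAlgebraic ℚ β := (hβ.tower_top (A := ℚ)).isAlgebraic
  have hA := h.adj hβa
  -- the points with `x_b ≠ β`
  obtain ⟨R, hR⟩ := ((h.fib b β).image fun x => ‖x a‖).bddAbove
  obtain ⟨k₀, hk₀⟩ := eventually_atTop.1 (ha.eventually (eventually_gt_atTop R))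
  have hne : ∀ k, P (k + k₀) b ≠ β := by
    intro k hk
    have h1 : ‖P (k + k₀) a‖ ≤ R := hR ⟨P (k + k₀), ⟨hP _, hk⟩, rfl⟩
    exact absurd (hk₀ (k + k₀) (Nat.le_add_left _ _)) (not_lt.2 h1)
  have ha2 : Tendsto (fun k => ‖ext b β (P (k + k₀)) a.castSucc‖) atTop atTop := by
    simp only [ext_cast]
    exact (tendsto_add_atTop_iff_nat (f := fun k => ‖P k a‖) k₀).2 ha
  have hb2 : Tendsto (fun k => ‖ext b β (P (k + k₀)) (Fin.last n)‖) atTop atTop := by
    simp only [ext_last]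
    have h1 : Tendsto (fun k => P (k + k₀) b - β) atTop (𝓝 0) := by
      have h2 := ((tendsto_add_atTop_iff_nat (f := fun k => P k b) k₀).2 hb).sub_const β
      rwa [sub_self] at h2
    have h2 : Tendsto (fun k => P (k + k₀) b - β) atTop (𝓝[≠] 0) :=
      tendsto_nhdsWithin_iff.2 ⟨h1, Eventually.of_forall fun k => sub_ne_zero.2 (hne k)⟩
    exact (tendsto_norm_inv_nhdsNE_zero_atTop.comp h2)
  obtain ⟨Fx, Fy, e, h', P', M, N, hPl, ha', hb'⟩ := exists_planeV hA.irr hA.kcl hA.dim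
    (fun k => ext b β (P (k + k₀))) (fun k => ext_mem (hP _) (hne k)) a.castSucc (Fin.last n) ha2 hb2
  obtain ⟨G⟩ := geo_of_plane hPl ha' hb'
  have hc : ∀ x ∈ adj V b β, x (Fin.last n) * (x b.castSucc - β) = 1 := fun x hx => hx.2
  obtain ⟨E₀, hE₀, hM⟩ := exists_mdlMG G hA hc
  obtain ⟨D, hDE, hX, hY⟩ := exists_locMG G hA.irr hA.dim hβ hc hE₀
  exact ⟨D, hM D hX hY (by rw [hDE])⟩

end Pool.Agent.LGO.RCM
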