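import Mathlib
import Pool.Agent.LGO.RU.MainA
import Pool.Agent.LGO.RU.MainN

/-!
# LGO/RCM: the constants
-/

namespace Pool.Agent.LGO.RCM

open Pool.Agent.LGO.RU

/-- the parameter `B` -/
noncomputable def Bf (CA CL CT CQ QC e : ℕ) (L : ℝ) : ℝ :=
  ((CA : ℝ) * (((CL : ℝ) * L) ^ CL + L + 1)) ^ CA + (L + 1) * ((CT : ℝ) * L) ^ CT +
    e * ((QC : ℝ) * CQ + CQ * ((CT : ℝ) * L) ^ CT) + QC + (((CL : ℝ) * L) ^ CL + L + 1)

/-- the parameters -/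
structure CtxC (CP CQ d₀ c₁ : ℕ) where
  D : ℝ
  l : ℝ
  L : ℝ
  P : ℝ
  D₃ : ℝ
  hD : 1 ≤ D
  hl : 0 ≤ l
  hL1 : 1 ≤ L
  hP0 : 0 ≤ P
  hP : P ≤ (d₀ * D + 1) * (l + CQ) + c₁
  hL : L ≤ CP * (1 + P) ^ CP
  hD0 : 0 ≤ D₃
  hD₃ : D₃ ≤ 4 * L ^ 4 * (d₀ * D)

theorem main_numC (CA CB CZ CL CT CP CQ QC e n₀ d₀ c₁ : ℕ) : ∃ C : ℕ, 1 ≤ C ∧
    ∀ X : CtxC CP CQ d₀ c₁,
    X.D₃ * (((CB : ℝ) * Bf CA CL CT CQ QC e X.L) ^ CB +
      ((CB : ℝ) * Bf CA CL CT CQ QC e X.L) ^ CB * n₀) ≤ ((C : ℝ) * (X.D * (1 + X.l))) ^ C ∧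
    ((CZ : ℝ) * Bf CA CL CT CQ QC e X.L) ^ CZ *
      (1 + (1 + 2 * X.D₃) * ((CZ : ℝ) * Bf CA CL CT CQ QC e X.L) ^ CZ) ≤
        ((C : ℝ) * (X.D * (1 + X.l))) ^ C := by
  set Z : CtxC CP CQ d₀ c₁ → ℝ := fun X => X.D * (1 + X.l) with hZdef
  have hZ : ∀ X, 1 ≤ Z X := fun X =>
    one_le_mul_of_one_le_of_one_le X.hD (by linarith [X.hl])
  have hDD : PZU Z (fun X => X.D) := (PZU.self hZ).of_le (fun X => by linarith [X.hD]) fun X => by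
    have h1 := X.hD
    have h2 := X.hl
    simp only [hZdef]
    nlinarith
  have hll : PZU Z (fun X => X.l) := (PZU.self hZ).of_le (fun X => X.hl) fun X => by
    have h1 := X.hD
    have h2 := X.hl
    simp only [hZdef]
    nlinarith
  have hone : PZU Z (fun _ => (1 : ℝ)) := by
    have := PZU.nat hZ 1
    simpa using this
  have hP : PZU Z (fun X => X.P) := by
    refine PZU.of_le (((((PZU.nat hZ d₀).mul hZ hDD).add hZ hone).mul hZ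
      (hll.add hZ (PZU.nat hZ CQ))).add hZ (PZU.nat hZ c₁)) (fun X => X.hP0) fun X => X.hP
  have hL : PZU Z (fun X => X.L) :=
    ((PZU.nat hZ CP).mul hZ ((hone.add hZ hP).pow hZ CP)).of_le (fun X => by linarith [X.hL1])
      fun X => X.hL
  have hcl : PZU Z (fun X => ((CL : ℝ) * X.L) ^ CL + X.L + 1) :=
    ((((PZU.nat hZ CL).mul hZ hL).pow hZ CL).add hZ hL).add hZ hone
  have hct : PZU Z (fun X => ((CT : ℝ) * X.L) ^ CT) := ((PZU.nat hZ CT).mul hZ hL).pow hZ CT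
  have hB : PZU Z (fun X => Bf CA CL CT CQ QC e X.L) := by
    unfold Bf
    exact (((((((PZU.nat hZ CA).mul hZ hcl).pow hZ CA).add hZ ((hL.add hZ hone).mul hZ hct)).add hZ
      ((PZU.nat hZ e).mul hZ (((PZU.nat hZ QC).mul hZ (PZU.nat hZ CQ)).add hZ
        ((PZU.nat hZ CQ).mul hZ hct)))).add hZ (PZU.nat hZ QC)).add hZ hcl)
  have hD₃ : PZU Z (fun X => X.D₃) := by
    refine PZU.of_le (((PZU.nat hZ 4).mul hZ (hL.pow hZ 4)).mul hZ ((PZU.nat hZ d₀).mul hZ hDD))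
      (fun X => X.hD0) fun X => ?_
    exact_mod_cast X.hD₃
  have hS : ∀ c : ℕ, PZU Z (fun X => ((c : ℝ) * Bf CA CL CT CQ QC e X.L) ^ c) :=
    fun c => ((PZU.nat hZ c).mul hZ hB).pow hZ c
  obtain ⟨u, hu⟩ := hD₃.mul hZ ((hS CB).add hZ ((hS CB).mul hZ (PZU.nat hZ n₀)))
  have h2 : PZU Z (fun X => (1 : ℝ) + (1 + 2 * X.D₃) *
      ((CZ : ℝ) * Bf CA CL CT CQ QC e X.L) ^ CZ) := by
    have h3 := (PZU.nat hZ 1).add hZ (((PZU.nat hZ 1).add hZ ((PZU.nat hZ 2).mul hZ hD₃)).mul hZ (hS CZ))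
    simpa using h3
  obtain ⟨v, hv⟩ := (hS CZ).mul hZ h2
  refine ⟨u + v + 1, by omega, fun X => ⟨?_, ?_⟩⟩
  · exact ((hu X).mono' (hZ X) (by omega)).le
  · exact ((hv X).mono' (hZ X) (by omega)).le

end Pool.Agent.LGO.RCM
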