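import Mathlib
import Pool.Agent.LGO.RCM.Defs
import Pool.Agent.LGO.RU.MonF

/-!
# LGO/RCM: the monodromy at a branch where only the coordinate `0` is infinite

Compare `LGO/RU/MonF.lean`, `LGO/RU/Mon.lean` (two infinite coordinates).  PROOF.  `shift_MG β₀` and `β₀.e 1 = 0`: `(T ^ m, 1) ∈ MG2 β₀ 0 1`, `m = β₀.e 0`; `eq_c A β₀ h0`: an element `g` of `MG β₀` with `c = (g 0).1 1 0 ≠ 0`.
FIRST FACTOR: for `L` prime to `m c` the image of `MG2` in `SL₂(ℤ/L) × SL₂(ℤ/L)` contains `(T ^ k, 1)` for all `k`, and `(g T ^ k g⁻¹, 1)`, conjugated by `(T ^ x, 1)`, `x = -a / c` modulo `L`: the lower unipotent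
`(1, 0; -c² k, 1)` for all `k`; the elementary matrices generate `SL₂(ℤ/L)` (`RU/MonF` uses this), so it contains `SL₂(ℤ/L) × 1`.
SECOND FACTOR: there is a branch `β'` of the atlas (or any branch) with `0 < β'.e 1` (otherwise the function `x 1` is bounded on the curve, so constant: Liouville, `LGO/AX`, `LGO/AXG`, compare the proofs of `eq_c`, `rr_c`;
contradiction to `hN`).  There `shift_MG β'` gives an element of `MG β'` with second coordinate `T ^ l`, `l > 0`, and `eq_c A β'` one with `c ≠ 0`, so for `L` prime to `l c'` the second coordinates of `MG β'` are all of `SL₂(ℤ/L)`;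
`eq_transport` (`RU/MonA`): `EQ β₀ 1 β' γ'` for some `γ'`, and `MG β₀` is the conjugate of `MG β'` by `γ'` (`mem_MG_of`, `EQ.left`, `EQ.trans`), so the same holds for `MG β₀`.
For `g₁`, `g₂` take `δ ∈ MG β₀` with second coordinate `≡ g₂` and multiply with an element of the first kind.
-/

namespace Pool.Agent.LGO.RCM

open Pool.Agent.LGO.AXG Pool.Agent.LGO.RU
open scoped MatrixGroups

private theorem MonC_T_up (n : ℕ) : (ModularGroup.T ^ n : SL(2, ℤ)) = Up (n : ℤ) := by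
  apply Subtype.ext
  have h := ModularGroup.coe_T_zpow (n : ℤ)
  rwa [zpow_natCast] at h

/-- a subgroup of `SL₂(R)` with an upper elementary matrix of unit entry and an element with a unit at the lower left -/
private theorem MonC_gen {H : Subgroup SL(2, ℤ)} {m : ℤ} (hT : Up m ∈ H) {g : SL(2, ℤ)} (hg : g ∈ H)
    {L : ℕ} (h1 : IsUnit ((m : ℤ) : ZMod L)) (h2 : IsUnit ((g.1 1 0 : ℤ) : ZMod L)) (x : SL(2, ℤ)) :
    ∃ γ ∈ H, red L γ = red L x := by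
  set H' : Subgroup (Matrix.SpecialLinearGroup (Fin 2) (ZMod L)) := H.map (red L) with hH'
  have hU : ∀ k : ZMod L, Up k ∈ H' := by
    intro k
    obtain ⟨mi, hmi⟩ := h1.exists_right_inv
    obtain ⟨j, hj⟩ := ZMod.intCast_surjective (mi * k)
    refine ⟨Up m ^ j, H.zpow_mem hT j, ?_⟩
    rw [up_zpow, red_up]
    congr 1
    push_cast
    rw [hj]
    linear_combination k * hmi
  have hL : ∀ k : ZMod L, Lo k ∈ H' := by
    obtain ⟨ci, hci⟩ := h2.exists_right_inv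
    exact lo_mem hU (h := red L g) ⟨g, hg, rfl⟩ (u := ci) (by rw [red_apply]; exact hci)
  have h3 : x ∈ H'.comap (red L) := by
    refine mem_of_elem ?_ ?_ x
    · rw [Subgroup.mem_comap, red_up]
      exact hU _
    · rw [Subgroup.mem_comap, red_lo]
      exact hL _
  exact h3

/-- the first factor -/
private theorem MonC_fst {G : Subgroup (SL(2, ℤ) × SL(2, ℤ))} {m : ℤ} (hT : (Up m, 1) ∈ G)
    {g : SL(2, ℤ) × SL(2, ℤ)} (hg : g ∈ G)
    {L : ℕ} (h1 : IsUnit ((m : ℤ) : ZMod L)) (h2 : IsUnit ((g.1.1 1 0 : ℤ) : ZMod L)) (x : SL(2, ℤ)) :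
    ∃ γ ∈ G, red L γ.1 = red L x ∧ red L γ.2 = 1 := by
  -- the elements `(h, 1)` of `G`
  set H : Subgroup SL(2, ℤ) := G.comap (MonoidHom.inl _ _) with hH
  have hT' : Up m ∈ H := hT
  have hc : g.1 * Up m * g.1⁻¹ ∈ H := by
    have h3 : g * (Up m, 1) * g⁻¹ ∈ G := G.mul_mem (G.mul_mem hg hT) (G.inv_mem hg)
    have h4 : g * (Up m, 1) * g⁻¹ = (g.1 * Up m * g.1⁻¹, 1) := by
      refine Prod.ext rfl ?_
      show g.2 * 1 * g.2⁻¹ = 1
      rw [mul_one, mul_inv_cancel]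
    rw [h4] at h3
    exact h3
  have h5 : IsUnit (((g.1 * Up m * g.1⁻¹).1 1 0 : ℤ) : ZMod L) := by
    have h6 : (g.1 * Up m * g.1⁻¹).1 1 0 = -(m * g.1.1 1 0 * g.1.1 1 0) := by
      simp only [mul10, mul11, up00, up01, up10, up11, inv00, inv10]
      ring
    rw [h6]
    push_cast
    exact ((h1.mul h2).mul h2).neg
  obtain ⟨γ, hγ, h7⟩ := MonC_gen hT' hc h1 h5 x
  exact ⟨(γ, 1), hγ, h7, map_one _⟩

/-- the elements of the monodromy of another branch -/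
private theorem MonC_conj {d : ℕ} {S : Cur d} {β β' : Br S} {γ δ : Fin d → SL(2, ℤ)}
    (h : EQ β 1 β' γ) (hδ : δ ∈ MG β') : γ * δ * γ⁻¹ ∈ MG β := by
  refine mem_MG_of h ?_
  rw [inv_mul_cancel_right]
  have h1 : EQ β' (γ * 1) β' (γ * δ) := EQ.left hδ γ
  rw [mul_one] at h1
  exact h.trans h1

private theorem MonC_unit {n : ℤ} {L : ℕ} (h : IsCoprime n (L : ℤ)) : IsUnit ((n : ℤ) : ZMod L) := by
  obtain ⟨a, b, hab⟩ := h
  have h1 := congrArg (fun z : ℤ => (z : ZMod L)) hab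
  simp only [Int.cast_add, Int.cast_mul, Int.cast_natCast, ZMod.natCast_self, mul_zero, add_zero,
    Int.cast_one] at h1
  exact IsUnit.of_mul_eq_one _ (by rw [mul_comm]; exact h1)

theorem monC {S : Cur 2} (hN : S.NCo) (A : Atl S) (β₀ : Br S) (h0 : 0 < β₀.e 0)
    (h1 : β₀.e 1 = 0) : ∃ c₀ : ℕ, 0 < c₀ ∧ MonP S β₀ c₀ := by
  obtain ⟨g, hg, hgc⟩ := eq_c A β₀ h0
  obtain ⟨i, hi⟩ := AX.exists_cusp (S := S.ax 1) (fun a c => hN 1 c) (A.ax 1) 0
  have hi' : 0 < (A.br i).e 1 := hi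
  obtain ⟨β', hβ'⟩ : ∃ β', β' = A.br i := ⟨_, rfl⟩
  rw [← hβ'] at hi'
  obtain ⟨g', hg', hgc'⟩ := eq_c A β' hi'
  obtain ⟨κ, hκ⟩ := eq_transport 0 A β₀ β' 1
  obtain ⟨n, hn⟩ : ∃ n : ℤ, n = (β₀.e 0 : ℤ) * (g 0).1 1 0 * ((β'.e 1 : ℤ) * (g' 1).1 1 0) := ⟨_, rfl⟩
  have hn0 : n ≠ 0 := by
    rw [hn]
    have ha' : (β₀.e 0 : ℤ) ≠ 0 := by exact_mod_cast h0.ne'
    have hb' : (β'.e 1 : ℤ) ≠ 0 := by exact_mod_cast hi'.ne'
    exact mul_ne_zero (mul_ne_zero ha' hgc) (mul_ne_zero hb' hgc')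
  refine ⟨n.natAbs, Int.natAbs_pos.mpr hn0, ?_⟩
  intro L hL g₁ g₂
  have hco : IsCoprime n (L : ℤ) := by
    rw [Int.isCoprime_iff_gcd_eq_one, Int.gcd_comm]
    exact hL
  rw [hn] at hco
  have u12 := IsCoprime.of_mul_left_left hco
  have u34 := IsCoprime.of_mul_left_right hco
  have u1 := MonC_unit (IsCoprime.of_mul_left_left u12)
  have u2 := MonC_unit (IsCoprime.of_mul_left_right u12)
  have u3 := MonC_unit (IsCoprime.of_mul_left_left u34)
  have u4 := MonC_unit (IsCoprime.of_mul_left_right u34)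
  -- the second factor
  obtain ⟨γ, ⟨δ, hδ, hδγ⟩, hγ⟩ := MonC_gen (H := (MG β').map (Pi.evalMonoidHom _ 1)) (m := (β'.e 1 : ℤ))
    (g := g' 1) ⟨_, shift_MG β', MonC_T_up _⟩ ⟨g', hg', rfl⟩ u3 u4 ((κ 1)⁻¹ * g₂ * κ 1)
  have hδ1 : δ 1 = γ := hδγ
  obtain ⟨ε, hε⟩ : ∃ ε, ε = κ * δ * κ⁻¹ := ⟨_, rfl⟩
  have hεM : ε ∈ MG β₀ := by rw [hε]; exact MonC_conj hκ hδ
  have hε1 : red L (ε 1) = red L g₂ := by
    rw [hε]
    show red L (κ 1 * δ 1 * (κ 1)⁻¹) = _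
    rw [map_mul, map_mul, hδ1, hγ, map_mul, map_mul, map_inv]
    group
  -- the first factor
  obtain ⟨⟨x, y⟩, hxy, hx, hy⟩ := MonC_fst (G := MG2 β₀ 0 1) (m := (β₀.e 0 : ℤ)) (g := (g 0, g 1)) (by
      rw [mem_MG2]
      refine ⟨_, shift_MG β₀, MonC_T_up _, ?_⟩
      show ModularGroup.T ^ β₀.e 1 = 1
      rw [h1, pow_zero]) (mem_MG2.mpr ⟨g, hg, rfl, rfl⟩) u1 u2 (g₁ * (ε 0)⁻¹)
  obtain ⟨θ, hθ, e1, e2⟩ := mem_MG2.mp hxy
  have e1' : red L (θ 0) = red L (g₁ * (ε 0)⁻¹) := by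
    rw [e1]
    exact hx
  have e2' : red L (θ 1) = 1 := by
    rw [e2]
    exact hy
  have f1 : red L ((θ * ε) 0) = red L g₁ := by
    rw [Pi.mul_apply, map_mul, e1', ← map_mul, inv_mul_cancel_right]
  have f2 : red L ((θ * ε) 1) = red L g₂ := by
    rw [Pi.mul_apply, map_mul, e2', one_mul, hε1]
  refine ⟨θ * ε, fun i j => ?_, fun i j => ?_, (MG β₀).mul_mem hθ hεM⟩
  · rw [← red_apply, f1, red_apply]
  · rw [← red_apply, f2, red_apply]

end Pool.Agent.LGO.RCM
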