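import Mathlib
import Pool.Agent.LGO.RCM.MonC
import Pool.Agent.LGO.RU.NV

/-!
# LGO/RCM: the auxiliary function does not vanish on any branch

Copy of `LGO/RU/NV.lean` and of `nv_grid` (`LGO/RU/NVGrid.lean`: there `D : Loc`, `Md : Mdl D` are used only through `indep`, `to_`, `from_`, ...; here `D : LocC`, `Md : MdlC D`), with `L` prime instead of `M₀ * M` and `monC` instead of
`monP`; `L + 1 ≤ Nat.card (QQ L)`: `sum_divisors_le` (`RU/NVCard`).
-/

namespace Pool.Agent.LGO.RCM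

open Pool.Agent.Hhelper14.ZP Pool.Agent.LGO.RU Pool.Agent.LGO Pool.Agent.LGO.AX UpperHalfPlane Filter
  Topology
open scoped MatrixGroups

private theorem NV_s4 (e J R : ℕ) (f : ℕ → ℕ → ℕ → ℕ → ℂ) :
    ∑ i ∈ Finset.range e, ∑ j ∈ Finset.range J, ∑ k ∈ Finset.range R, ∑ k' ∈ Finset.range R, f i j k k' =
      ∑ k ∈ Finset.range R, ∑ k' ∈ Finset.range R, ∑ i ∈ Finset.range e, ∑ j ∈ Finset.range J, f i j k k' := by
  have h1 : ∀ i, ∑ j ∈ Finset.range J, ∑ k ∈ Finset.range R, ∑ k' ∈ Finset.range R, f i j k k' =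
      ∑ k ∈ Finset.range R, ∑ j ∈ Finset.range J, ∑ k' ∈ Finset.range R, f i j k k' := fun i =>
    Finset.sum_comm
  simp only [h1]
  rw [Finset.sum_comm]
  refine Finset.sum_congr rfl fun k _ => ?_
  have h2 : ∀ i, ∑ j ∈ Finset.range J, ∑ k' ∈ Finset.range R, f i j k k' =
      ∑ k' ∈ Finset.range R, ∑ j ∈ Finset.range J, f i j k k' := fun i => Finset.sum_comm
  simp only [h2]
  rw [Finset.sum_comm]

private theorem NV_fin {f : ℂ → ℂ} {K : Set ℂ} (hK : IsCompact K) (hf : ∀ v ∈ K, AnalyticAt ℂ f v) {s : ℂ}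
    (hne : ∀ v ∈ K, ¬ ∀ᶠ w in 𝓝 v, f w = s) : {v | v ∈ K ∧ f v = s}.Finite := by
  by_contra hinf
  have hinf' : {v | v ∈ K ∧ f v = s}.Infinite := hinf
  obtain ⟨x, hx, hacc⟩ := hinf'.exists_accPt_of_subset_isCompact hK (fun v hv => hv.1)
  rw [accPt_iff_frequently_nhdsNE] at hacc
  have h1 : ∃ᶠ w in 𝓝[≠] x, f w = s := hacc.mono fun w hw => hw.2
  exact hne x hx (((hf x hx).frequently_eq_iff_eventually_eq analyticAt_const).mp h1)

private theorem NV_T {S : AXG.Cur 2} (β : AXG.Br S) (s : ℂ) : {v : ℂ | (β.pt v).1 = s}.Countable := by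
  by_cases hne : ∃ v₀, (β.pt v₀).1 = s
  · obtain ⟨v₀, hv₀⟩ := hne
    refine (Set.countable_range fun k : ℤ => v₀ + k * (2 * Real.pi * Complex.I) / β.m).mono ?_
    intro v hv
    have h1 : Tp β.o (Complex.exp v ^ β.m) = Tp β.o (Complex.exp v₀ ^ β.m) := by
      have h2 : (β.pt v).1 = (β.pt v₀).1 := by rw [hv₀]; exact hv
      exact h2
    have h3 : Complex.exp v ^ β.m = Complex.exp v₀ ^ β.m := by
      cases ho : β.o with
      | none =>
        rw [ho] at h1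
        simpa [Tp] using h1
      | some c =>
        rw [ho] at h1
        simpa [Tp] using h1
    rw [← Complex.exp_nat_mul, ← Complex.exp_nat_mul, Complex.exp_eq_exp_iff_exists_int] at h3
    obtain ⟨k, hk⟩ := h3
    have hm : (β.m : ℂ) ≠ 0 := by exact_mod_cast β.m_pos.ne'
    refine ⟨k, ?_⟩
    change v₀ + k * (2 * Real.pi * Complex.I) / β.m = v
    field_simp
    linear_combination -hk
  · refine Set.countable_empty.mono ?_
    intro v hv
    exact absurd ⟨v, hv⟩ hne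

private theorem NV_grid {n : ℕ} {V : Set (Fin n → ℂ)} {a b : Fin n} {β₁ : ℂ} (D : LocC V a b β₁) (Md : MdlC D) {L : ℕ} (hL : 0 < L) {c : ℕ → ℕ → ℕ → ℕ → OO} {J R : ℕ}
    (hR : R ≤ Nat.card (QQ L))
    (hc : ∀ i j k k', c i j k k' ≠ 0 → i < D.e ∧ j < J ∧ k < R ∧ k' < R) (β : AXG.Br Md.S)
    (h : ∀ κa κb, AXG.RR (Fl hL c D.e J R κa κb) β 1) : ∀ i j k k', c i j k k' = 0 := by
  have := finite_QQ hL
  have : Fintype (QQ L) := Fintype.ofFinite _
  rw [Nat.card_eq_fintype_card] at hR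
  -- a closed disc in `U`
  obtain ⟨w₀, hw₀, -⟩ := AX.br_avoid (β.ax 0) ∅
  change w₀ ∈ β.U at hw₀
  obtain ⟨ρ, hρ, hball⟩ := Metric.nhds_basis_closedBall.mem_iff.mp (β.isOpen.mem_nhds hw₀)
  -- the quadratic numbers
  have hcount : ∀ a : Fin 2, {v | v ∈ Metric.closedBall w₀ ρ ∧ IsAlgebraic ℚ (β.z a v)}.Countable := by
    intro a
    have h1 : {v | v ∈ Metric.closedBall w₀ ρ ∧ IsAlgebraic ℚ (β.z a v)} ⊆
        ⋃ s ∈ {s : ℂ | IsAlgebraic ℚ s}, {v | v ∈ Metric.closedBall w₀ ρ ∧ β.z a v = s} := by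
      rintro v ⟨hv, hal⟩
      exact Set.mem_biUnion (x := β.z a v) hal ⟨hv, rfl⟩
    refine Set.Countable.mono h1 (Set.Countable.biUnion (Algebraic.countable ℚ ℂ) fun s _ => ?_)
    refine (NV_fin (isCompact_closedBall w₀ ρ) (fun v hv => ?_) fun v hv hev => ?_).countable
    · exact ((β.zdiff a).analyticOnNhd β.isOpen) v (hball hv)
    · exact AXG.z_nc Md.nco Md.A β a (hball hv) hev
  set Bad : Set ℂ := {v | v ∈ Metric.closedBall w₀ ρ ∧ IsAlgebraic ℚ (β.z 0 v)} ∪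
    {v | v ∈ Metric.closedBall w₀ ρ ∧ IsAlgebraic ℚ (β.z 1 v)} ∪ ⋃ s ∈ Md.ET, {v | (β.pt v).1 = s} with hBad
  have hBadc : Bad.Countable := by
    refine ((hcount 0).union (hcount 1)).union ?_
    exact Set.Countable.biUnion Md.ET.countable_toSet fun s _ => NV_T β s
  set G : Set ℂ := Metric.closedBall w₀ ρ \ Bad with hG
  have hGunc : ¬ G.Countable := by
    intro hGc
    have h1 : (Metric.closedBall w₀ ρ).Countable :=
      (hGc.union hBadc).mono fun v hv => by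
        by_cases hb : v ∈ Bad
        · exact Or.inr hb
        · exact Or.inl ⟨hv, hb⟩
    have h2 : ¬ (Metric.ball w₀ ρ).Countable := by
      intro h3
      obtain ⟨v, hv1, hv2⟩ := (h3.dense_compl ℝ).inter_open_nonempty _ Metric.isOpen_ball
        ⟨w₀, Metric.mem_ball_self hρ⟩
      exact hv2 hv1
    exact h2 (h1.mono Metric.ball_subset_closedBall)
  have halg : ∀ {z : ℂ}, ¬ IsAlgebraic ℚ z → NonCM z := by
    intro z hz p q r hpqr
    by_contra hne
    apply hz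
    refine ⟨Polynomial.C (p : ℚ) * Polynomial.X ^ 2 + Polynomial.C (q : ℚ) * Polynomial.X +
      Polynomial.C (r : ℚ), ?_, ?_⟩
    · intro h0
      apply hne
      have e2 := congrArg (fun P => Polynomial.coeff P 2) h0
      have e1 := congrArg (fun P => Polynomial.coeff P 1) h0
      have e0 := congrArg (fun P => Polynomial.coeff P 0) h0
      simp only [Polynomial.coeff_add, Polynomial.coeff_C_mul, Polynomial.coeff_X_pow, Polynomial.coeff_X,
        Polynomial.coeff_C, Polynomial.coeff_zero] at e2 e1 e0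
      norm_num at e2 e1 e0
      exact ⟨e2, e1, e0⟩
    · simp only [map_add, map_mul, map_pow, Polynomial.aeval_C, Polynomial.aeval_X]
      simpa using hpqr
  -- the sums vanish at the points of `G`
  have hsum : ∀ v ∈ G, ∀ k < R, ∀ k' < R, ∑ i ∈ Finset.range D.e, ∑ j ∈ Finset.range J,
      ((c i j k k' : OO) : ℂ) * (β.pt v).2 ^ i * (β.pt v).1 ^ j = 0 := by
    intro v hv k hk k' hk'
    have hvU : v ∈ β.U := hball hv.1
    have hn : ∀ a : Fin 2, NonCM ((ofComplex (β.z a v) : ℍ) : ℂ) := by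
      intro a
      have h1 : ¬ IsAlgebraic ℚ (β.z a v) := by
        intro hal
        apply hv.2
        rw [hBad]
        fin_cases a
        · exact Or.inl (Or.inl ⟨hv.1, hal⟩)
        · exact Or.inl (Or.inr ⟨hv.1, hal⟩)
      have h2 : ((ofComplex (β.z a v) : ℍ) : ℂ) = β.z a v := by
        rw [ofComplex_apply_of_im_pos (β.zim a hvU)]
      rw [h2]
      exact halg h1
    refine grid (jq_inj hL (hn 0)) (jq_inj hL (hn 1)) hR hR (fun k k' => ∑ i ∈ Finset.range D.e,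
      ∑ j ∈ Finset.range J, ((c i j k k' : OO) : ℂ) * (β.pt v).2 ^ i * (β.pt v).1 ^ j) ?_ k hk k' hk'
    intro κa κb
    have h1 := h κa κb v hvU
    simp only [Fl, Pi.one_apply, mz_one, vE] at h1
    rw [NV_s4] at h1
    rw [← h1]
    refine Finset.sum_congr rfl fun k _ => Finset.sum_congr rfl fun k' _ => ?_
    simp only [Finset.sum_mul]
    rfl
  -- infinitely many points of `V`
  intro i j k k'
  by_contra hne
  obtain ⟨hi, hj, hk, hk'⟩ := hc i j k k' hne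
  have hinf : {x | x ∈ V ∧ x ∉ D.E ∧ ∑ i ∈ Finset.range D.e, ∑ j ∈ Finset.range J,
      ((c i j k k' : OO) : ℂ) * (MvPolynomial.aeval x D.Et : ℂ) ^ i *
        (MvPolynomial.aeval x D.Xi : ℂ) ^ j = 0}.Infinite := by
    intro hfin
    apply hGunc
    have h1 : G ⊆ ⋃ s ∈ D.ξ '' {x | x ∈ V ∧ x ∉ D.E ∧ ∑ i ∈ Finset.range D.e, ∑ j ∈ Finset.range J,
        ((c i j k k' : OO) : ℂ) * (MvPolynomial.aeval x D.Et : ℂ) ^ i *
          (MvPolynomial.aeval x D.Xi : ℂ) ^ j = 0}, {v | (β.pt v).1 = s} := by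
      intro v hv
      have hET : (β.pt v).1 ∉ Md.ET := by
        intro hET
        apply hv.2
        rw [hBad]
        exact Or.inr (Set.mem_biUnion (x := (β.pt v).1) hET rfl)
      obtain ⟨x, hx, hxE, h2, h3⟩ := Md.from_ _ (β.ptm (hball hv.1)) hET
      refine Set.mem_biUnion (x := (β.pt v).1) ⟨x, ⟨hx, hxE, ?_⟩, h2⟩ rfl
      have h4 := hsum v hv k hk k' hk'
      rw [← h2, ← h3] at h4
      exact h4
    exact (Set.Countable.biUnion (hfin.image _).countable fun s _ => NV_T β s).mono h1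
  have h5 := D.indep J (fun i j => ((c i j k k' : OO) : ℂ)) (fun i j => ?_) hinf i hi j hj
  · exact hne (Subtype.ext h5)
  · have h6 : IsIntegral ℤ ((c i j k k' : OO) : ℂ) := (c i j k k').2
    exact (h6.tower_top (A := ℚ)).isAlgebraic

private theorem NV_card {L : ℕ} (h : L.Prime) : L + 1 ≤ Nat.card (QQ L) := by
  refine le_trans (le_of_eq ?_) (sum_divisors_le h.pos)
  rw [h.sum_divisors, add_comm]

variable {n : ℕ} {V : Set (Fin n → ℂ)} {a b : Fin n} {β : ℂ}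

theorem nvC (D : LocC V a b β) (Md : MdlC D) : ∃ c₀ : ℕ, 0 < c₀ ∧ ∀ (L : ℕ) (hL : 0 < L),
    L.Prime → L.Coprime c₀ →
    ∀ (n₂ : ℕ) (c : ℕ → ℕ → ℕ → ℕ → OO), (∃ i j k k', c i j k k' ≠ 0) →
      (∀ i j k k', c i j k k' ≠ 0 → i < D.e ∧ j < n₂ ∧ k < L + 1 ∧ k' < L + 1) →
      ∀ (β : AXG.Br Md.S) (κa κb : QQ L),
        ¬ AXG.RR (Fl hL c D.e n₂ (L + 1) κa κb) β 1 := by
  obtain ⟨β₀, h0, h1⟩ := Md.cusp
  obtain ⟨c₀, hc₀, hmon⟩ := monC Md.nco Md.A β₀ h0 h1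
  refine ⟨c₀, hc₀, fun L hL hp hcop n₂ c hc hsupp β κa κb hRR => ?_⟩
  obtain ⟨γ', hγ'⟩ := AXG.rr_transport (fl_an hL Md.S c D.e n₂ (L + 1) κa κb) 0 Md.A β β₀ hRR
  rw [fl_rr] at hγ'
  have hsq : Squarefree L := hp.prime.squarefree
  have hall : ∀ κ κ' : QQ L, AXG.RR (Fl hL c D.e n₂ (L + 1) κ κ') β₀ 1 := by
    intro κ κ'
    obtain ⟨g₁, hg₁⟩ := rQ_trans hL hsq (rQ (γ' 0) κa) κ
    obtain ⟨g₂, hg₂⟩ := rQ_trans hL hsq (rQ (γ' 1) κb) κ'
    obtain ⟨g, hg0, hg1, hg⟩ := hmon L hcop g₁ g₂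
    have h2 := (hg _ (fl_an hL Md.S c D.e n₂ (L + 1) (rQ (γ' 0) κa) (rQ (γ' 1) κb))).mp hγ'
    rw [fl_rr, rQ_congr hL hg0, rQ_congr hL hg1, hg₁, hg₂] at h2
    exact h2
  have hz := NV_grid D Md hL (R := L + 1) (NV_card hp) hsupp β₀ hall
  obtain ⟨i, j, k, k', hne'⟩ := hc
  exact hne' (hz i j k k')

end Pool.Agent.LGO.RCM
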