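import Mathlib

/-!
# LGO/RCM: small primes which divide some `n ^ 2 + d` and do not divide a given number

`spl_prime`: for `d ≥ 1` there is a constant `C` such that for every `P ≥ 1` there is a prime `L`, `L ∤ 2 d P`, which divides `n ^ 2 + d` for some `n`,
`L ≤ C (1 + log P) ^ C`.

PROOF.  `g(m) = 4 d m ^ 2 + 1`, `T = ∏_{m ≤ X} g(m) ≥ (4 d) ^ X (X!) ^ 2`.  For an odd prime `p`, `p ∤ d`, the congruence `g(m) = 0 mod p ^ j` has at most two
solutions `mod p ^ j`, so `v_p(T) ≤ 2 v_p(X!) + 2 log_p(g(X))`.  If all primes dividing `T` divide `P` then `T ≤ (X!) ^ 2 g(X) ^ (2 k)`, `k` the number of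
primes dividing `P`; so `(4 d) ^ X ≤ g(X) ^ (2 k)`, a contradiction for `X` of the size of `(k + 1) ^ 2`.
-/

namespace Pool.Agent.LGO.RCM

open Finset

/-- `4 d m ^ 2 + 1` -/
private def g (d m : ℕ) : ℕ := 4 * d * m ^ 2 + 1

private theorem g_pos (d m : ℕ) : 0 < g d m := Nat.succ_pos _

private theorem g_cop {d m p : ℕ} (hp : p ∣ g d m) (hp2 : p.Prime) : ¬ p ∣ 4 * d := by
  intro h
  have h1 : p ∣ 4 * d * m ^ 2 := h.mul_right _
  have h2 : p ∣ 1 := (Nat.dvd_add_right h1).1 hp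
  exact hp2.one_lt.ne' (Nat.dvd_one.1 h2)

private theorem roots_le {d p j : ℕ} (hp : p.Prime) (hpd : ¬ p ∣ 4 * d) (hj : 0 < j) :
    ((range (p ^ j)).filter fun r => p ^ j ∣ g d r).card ≤ 2 := by
  classical
  by_cases hne : ((range (p ^ j)).filter fun r => p ^ j ∣ g d r).Nonempty
  · obtain ⟨r₀, hr₀⟩ := hne
    rw [mem_filter, mem_range] at hr₀
    have hpj : p ∣ p ^ j := dvd_pow_self p hj.ne'
    have hsub : ((range (p ^ j)).filter fun r => p ^ j ∣ g d r) ⊆ {r₀, p ^ j - r₀} := by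
      intro r hr
      rw [mem_filter, mem_range] at hr
      rw [mem_insert, mem_singleton]
      have h1 : ((p ^ j : ℕ) : ℤ) ∣ (4 * d) * (((r : ℤ) - r₀) * (r + r₀)) := by
        have h2 : ((p ^ j : ℕ) : ℤ) ∣ ((g d r : ℕ) : ℤ) - ((g d r₀ : ℕ) : ℤ) :=
          dvd_sub (Int.natCast_dvd_natCast.2 hr.2) (Int.natCast_dvd_natCast.2 hr₀.2)
        have h3 : ((g d r : ℕ) : ℤ) - ((g d r₀ : ℕ) : ℤ) = (4 * d) * (((r : ℤ) - r₀) * (r + r₀)) := by
          unfold g
          push_cast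
          ring
        rwa [h3] at h2
      have hcop : IsCoprime ((p ^ j : ℕ) : ℤ) (4 * d : ℤ) := by
        have h2 : Nat.Coprime (p ^ j) (4 * d) := Nat.Coprime.pow_left j ((Nat.Prime.coprime_iff_not_dvd hp).2 hpd)
        have h3 := Nat.isCoprime_iff_coprime.2 h2
        push_cast at h3 ⊢
        exact h3
      have h2 : ((p ^ j : ℕ) : ℤ) ∣ ((r : ℤ) - r₀) * (r + r₀) := hcop.dvd_of_dvd_mul_left h1
      have hpr : ¬ ((p : ℤ) ∣ (r : ℤ) - r₀ ∧ (p : ℤ) ∣ (r : ℤ) + r₀) := by
        rintro ⟨h3, h4⟩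
        have h5 : (p : ℤ) ∣ 2 * r₀ := by
          have h6 := dvd_sub h4 h3
          have h7 : ((r : ℤ) + r₀) - (r - r₀) = 2 * r₀ := by ring
          rwa [h7] at h6
        have h6 : p ∣ 2 * r₀ := by exact_mod_cast h5
        have h7 : p ∣ 4 * d * r₀ ^ 2 := by
          have h8 : 4 * d * r₀ ^ 2 = 2 * r₀ * (2 * d * r₀) := by ring
          rw [h8]
          exact h6.mul_right _
        have h8 : p ∣ 1 := (Nat.dvd_add_right h7).1 (hpj.trans hr₀.2)
        exact hp.one_lt.ne' (Nat.dvd_one.1 h8)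
      have hpi : Prime (p : ℤ) := Nat.prime_iff_prime_int.1 hp
      rcases not_and_or.1 hpr with h3 | h3
      · right
        have h4 : IsCoprime ((p ^ j : ℕ) : ℤ) ((r : ℤ) - r₀) := by
          push_cast
          exact IsCoprime.pow_left ((Prime.coprime_iff_not_dvd hpi).2 h3)
        have h5 : ((p ^ j : ℕ) : ℤ) ∣ (r : ℤ) + r₀ := h4.dvd_of_dvd_mul_left h2
        have h6 : p ^ j ∣ r + r₀ := by exact_mod_cast h5
        have h7 : r + r₀ ≠ 0 := by
          intro h0
          have h8 : r₀ = 0 := by omega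
          have h9 := hr₀.2
          rw [h8] at h9
          have h10 : g d 0 = 1 := by simp [g]
          rw [h10] at h9
          exact hp.one_lt.ne' (Nat.dvd_one.1 (hpj.trans h9))
        obtain ⟨c, hc⟩ := h6
        have h8 : c < 2 := by
          by_contra hcon
          have h9 : p ^ j * 2 ≤ p ^ j * c := Nat.mul_le_mul_left _ (by omega)
          omega
        have h9 : c ≠ 0 := by
          rintro rfl
          exact h7 (by simpa using hc)
        have h10 : c = 1 := by omega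
        rw [h10] at hc
        omega
      · left
        have h4 : IsCoprime ((p ^ j : ℕ) : ℤ) ((r : ℤ) + r₀) := by
          push_cast
          exact IsCoprime.pow_left ((Prime.coprime_iff_not_dvd hpi).2 h3)
        have h5 : ((p ^ j : ℕ) : ℤ) ∣ (r : ℤ) - r₀ := h4.dvd_of_dvd_mul_right h2
        have h6 : (r : ℤ) - r₀ = 0 := by
          apply Int.eq_zero_of_abs_lt_dvd h5
          rw [abs_lt]
          have := hr.1
          have := hr₀.1
          constructor <;> omega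
        omega
    exact (card_le_card hsub).trans card_le_two
  · rw [not_nonempty_iff_eq_empty] at hne
    rw [hne]
    simp

private theorem count_le {d p j : ℕ} (hp : p.Prime) (hpd : ¬ p ∣ 4 * d) (hj : 0 < j) (N : ℕ) :
    ((Icc 1 N).filter fun m => p ^ j ∣ g d m).card ≤ 2 * (N / p ^ j + 1) := by
  classical
  have hq : 0 < p ^ j := pow_pos hp.pos j
  have h1 : ((Icc 1 N).filter fun m => p ^ j ∣ g d m).card ≤
      ((range (N / p ^ j + 1)) ×ˢ ((range (p ^ j)).filter fun r => p ^ j ∣ g d r)).card := by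
    refine card_le_card_of_injOn (fun m => (m / p ^ j, m % p ^ j)) ?_ ?_
    · intro m hm
      rw [mem_coe, mem_filter, mem_Icc] at hm
      rw [mem_coe, mem_product, mem_filter, mem_range, mem_range]
      refine ⟨Nat.lt_succ_of_le (Nat.div_le_div_right hm.1.2), Nat.mod_lt _ hq, ?_⟩
      have h2 : g d (m % p ^ j) ≡ g d m [MOD p ^ j] := by
        unfold g
        exact ((Nat.ModEq.refl (4 * d)).mul ((Nat.mod_modEq m (p ^ j)).pow 2)).add_right 1
      exact (Nat.modEq_zero_iff_dvd.1 (h2.trans (Nat.modEq_zero_iff_dvd.2 hm.2)))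
    · intro m _ m' _ h
      have h2 := congrArg Prod.fst h
      have h3 := congrArg Prod.snd h
      simp only at h2 h3
      rw [← Nat.div_add_mod m (p ^ j), ← Nat.div_add_mod m' (p ^ j), h2, h3]
  rw [card_product, card_range] at h1
  refine h1.trans ?_
  rw [mul_comm]
  exact Nat.mul_le_mul_right _ (roots_le hp hpd hj)

private theorem g_mono {d m N : ℕ} (h : m ≤ N) : g d m ≤ g d N := by
  unfold g
  gcongr

private theorem le_g {d : ℕ} (hd : 0 < d) (N : ℕ) : N < g d N := by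
  unfold g
  have h1 : N ≤ 4 * d * N ^ 2 := by
    rcases Nat.eq_zero_or_pos N with rfl | hN
    · exact Nat.zero_le _
    · have h2 : 1 ≤ 4 * d * N := Nat.mul_pos (by omega) hN
      calc N = 1 * N := (one_mul N).symm
        _ ≤ 4 * d * N * N := Nat.mul_le_mul_right _ h2
        _ = 4 * d * N ^ 2 := by ring
  omega

private theorem val_le {d p : ℕ} (hd : 0 < d) (hp : p.Prime) (hpd : ¬ p ∣ 4 * d) (N : ℕ) :
    (∏ m ∈ Icc 1 N, g d m).factorization p ≤ 2 * (N.factorial).factorization p + 2 * Nat.log p (g d N) := by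
  classical
  set b := Nat.log p (g d N) + 1 with hb
  have h1 : (∏ m ∈ Icc 1 N, g d m).factorization p = ∑ m ∈ Icc 1 N, (g d m).factorization p := by
    rw [Nat.factorization_prod fun m _ => (g_pos d m).ne', Finsupp.finset_sum_apply]
  have h2 : ∀ m ∈ Icc 1 N, (g d m).factorization p =
      ∑ j ∈ Ico 1 b, if p ^ j ∣ g d m then 1 else 0 := by
    intro m hm
    rw [mem_Icc] at hm
    rw [Nat.factorization_eq_card_pow_dvd_of_lt hp (g_pos d m)
      ((g_mono hm.2).trans_lt (Nat.lt_pow_succ_log_self hp.one_lt _)), card_filter]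
  rw [h1, sum_congr rfl h2, sum_comm]
  have h3 : (N.factorial).factorization p = ∑ i ∈ Ico 1 b, N / p ^ i :=
    Nat.factorization_factorial hp (Nat.lt_succ_of_le (Nat.log_mono_right (le_g hd N).le))
  have h4 : ∀ j ∈ Ico 1 b, (∑ m ∈ Icc 1 N, if p ^ j ∣ g d m then 1 else 0) ≤ 2 * (N / p ^ j + 1) := by
    intro j hj
    rw [mem_Ico] at hj
    rw [← card_filter]
    exact count_le hp hpd hj.1 N
  refine (sum_le_sum h4).trans (le_of_eq ?_)
  rw [h3, ← mul_sum, sum_add_distrib, sum_const, Nat.card_Ico]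
  simp only [smul_eq_mul, mul_one, hb, Nat.add_sub_cancel]
  ring

private theorem T_ge {d : ℕ} (N : ℕ) : (4 * d) ^ N * (N.factorial) ^ 2 ≤ ∏ m ∈ Icc 1 N, g d m := by
  have h0 : ∏ m ∈ Icc 1 N, m = N.factorial := by
    rw [← Finset.prod_Ico_id_eq_factorial]
    rfl
  have h1 : (4 * d) ^ N * (N.factorial) ^ 2 = ∏ m ∈ Icc 1 N, (4 * d * m ^ 2) := by
    rw [prod_mul_distrib, prod_const, Nat.card_Icc, Nat.add_sub_cancel, prod_pow, h0]
  rw [h1]
  exact prod_le_prod' fun m _ => Nat.le_succ _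

private theorem T_le {d : ℕ} (hd : 0 < d) (N P : ℕ) (hP : 0 < P)
    (h : ∀ p : ℕ, p.Prime → ∀ m ∈ Icc 1 N, p ∣ g d m → p ∣ P) :
    ∏ m ∈ Icc 1 N, g d m ≤ (N.factorial) ^ 2 * (g d N) ^ (2 * P.primeFactors.card) := by
  classical
  set T := ∏ m ∈ Icc 1 N, g d m with hT
  have hT0 : T ≠ 0 := prod_ne_zero_iff.2 fun m _ => (g_pos d m).ne'
  have hsub : T.primeFactors ⊆ P.primeFactors := by
    intro p hp
    rw [Nat.mem_primeFactors] at hp ⊢
    obtain ⟨m, hm, hpm⟩ := (Prime.dvd_finset_prod_iff hp.1.prime _).1 hp.2.1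
    exact ⟨hp.1, h p hp.1 m hm hpm, hP.ne'⟩
  have h1 : T = ∏ p ∈ T.primeFactors, p ^ T.factorization p := by
    conv_lhs => rw [← Nat.prod_factorization_pow_eq_self hT0]
    rfl
  have h2 : ∀ p ∈ T.primeFactors, p ^ T.factorization p ≤
      (p ^ (N.factorial).factorization p) ^ 2 * (g d N) ^ 2 := by
    intro p hp
    rw [Nat.mem_primeFactors] at hp
    obtain ⟨m, hm, hpm⟩ := (Prime.dvd_finset_prod_iff hp.1.prime _).1 hp.2.1
    calc p ^ T.factorization p ≤ p ^ (2 * (N.factorial).factorization p + 2 * Nat.log p (g d N)) :=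
          Nat.pow_le_pow_right hp.1.pos (val_le hd hp.1 (g_cop hpm hp.1) N)
      _ = (p ^ (N.factorial).factorization p) ^ 2 * (p ^ Nat.log p (g d N)) ^ 2 := by
          rw [← pow_mul, ← pow_mul, ← pow_add]
          congr 1
          ring
      _ ≤ _ := Nat.mul_le_mul_left _ (Nat.pow_le_pow_left (Nat.pow_log_le_self p (g_pos d N).ne') 2)
  have h3 : ∏ p ∈ T.primeFactors, p ^ (N.factorial).factorization p ≤ N.factorial := by
    apply Nat.le_of_dvd (Nat.factorial_pos N)
    have h4 : ∏ p ∈ T.primeFactors, p ^ (N.factorial).factorization p ∣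
        ∏ p ∈ T.primeFactors ∪ (N.factorial).primeFactors, p ^ (N.factorial).factorization p :=
      prod_dvd_prod_of_subset _ _ _ subset_union_left
    refine h4.trans (dvd_of_eq ?_)
    rw [← prod_subset subset_union_right (fun p _ hp => by
      rw [← Nat.support_factorization, Finsupp.notMem_support_iff] at hp
      rw [hp, pow_zero])]
    exact Nat.prod_factorization_pow_eq_self (Nat.factorial_pos N).ne'
  calc T = ∏ p ∈ T.primeFactors, p ^ T.factorization p := h1
    _ ≤ ∏ p ∈ T.primeFactors, ((p ^ (N.factorial).factorization p) ^ 2 * (g d N) ^ 2) :=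
        prod_le_prod' h2
    _ = (∏ p ∈ T.primeFactors, p ^ (N.factorial).factorization p) ^ 2 *
        (g d N) ^ (2 * T.primeFactors.card) := by
        rw [prod_mul_distrib, prod_pow, prod_const, ← pow_mul]
    _ ≤ (N.factorial) ^ 2 * (g d N) ^ (2 * P.primeFactors.card) := by
        apply Nat.mul_le_mul (Nat.pow_le_pow_left h3 2)
        exact Nat.pow_le_pow_right (g_pos d N) (Nat.mul_le_mul_left _ (card_le_card hsub))

private theorem omega_le {P : ℕ} (hP : 0 < P) :
    (P.primeFactors.card : ℝ) * Real.log 2 ≤ Real.log P := by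
  have h1 : 2 ^ P.primeFactors.card ≤ P := by
    refine le_trans ?_ (Nat.le_of_dvd hP (Nat.prod_primeFactors_dvd P))
    have h := Finset.prod_le_prod' (s := P.primeFactors) (f := fun _ : ℕ => 2) (g := fun p => p)
      fun p hp => (Nat.prime_of_mem_primeFactors hp).two_le
    rwa [Finset.prod_const] at h
  rw [← Real.log_pow]
  exact Real.log_le_log (by positivity) (by exact_mod_cast h1)

/-- the main step: some `m ≤ 64 d (k + 1) ^ 2` works -/
private theorem step {d : ℕ} (hd : 0 < d) {P : ℕ} (hP : 0 < P) :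
    ∃ p m : ℕ, p.Prime ∧ m ≤ 64 * d * (P.primeFactors.card + 1) ^ 2 ∧ p ∣ g d m ∧ ¬ p ∣ P := by
  by_contra hcon
  push Not at hcon
  set k := P.primeFactors.card with hk
  set N := 64 * d * (k + 1) ^ 2 with hN
  have h1 := T_le hd N P hP fun p hp m hm hpm => hcon p m hp (mem_Icc.1 hm).2 hpm
  have h2 := (T_ge (d := d) N).trans h1
  have h3 : (4 * d) ^ N ≤ (g d N) ^ (2 * k) := by
    rw [mul_comm ((N.factorial) ^ 2)] at h2
    exact Nat.le_of_mul_le_mul_right h2 (pow_pos (Nat.factorial_pos N) 2)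
  have h4 : g d N ≤ 2 ^ (15 + 3 * d + 4 * k) := by
    have h5 : d ≤ 2 ^ d := Nat.lt_two_pow_self.le
    have h6 : k + 1 ≤ 2 ^ k := Nat.lt_two_pow_self
    have h7 : 1 ≤ d * N ^ 2 := by
      rw [hN]
      exact Nat.one_le_iff_ne_zero.2 (by positivity)
    calc g d N ≤ 8 * (d * N ^ 2) := by
          unfold g
          linarith
      _ = 2 ^ 15 * d ^ 3 * (k + 1) ^ 4 := by
          rw [hN]
          ring
      _ ≤ 2 ^ 15 * (2 ^ d) ^ 3 * (2 ^ k) ^ 4 := by gcongr
      _ = 2 ^ (15 + 3 * d + 4 * k) := by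
          rw [← pow_mul, ← pow_mul, ← pow_add, ← pow_add]
          congr 1
          ring
  have h5 : (4 * d) ^ N ≤ 2 ^ ((15 + 3 * d + 4 * k) * (2 * k)) := by
    rw [pow_mul 2]
    exact h3.trans (Nat.pow_le_pow_left h4 _)
  have h6 : 2 ^ (2 * N) ≤ (4 * d) ^ N := by
    rw [pow_mul 2]
    exact Nat.pow_le_pow_left (by omega) N
  have h7 := (Nat.pow_le_pow_iff_right (by norm_num : 1 < 2)).1 (h6.trans h5)
  have h8 : (15 + 3 * d + 4 * k) * (2 * k) < 2 * N := by
    rw [hN]
    have h9 : 1 ≤ d := hd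
    nlinarith [Nat.zero_le k, Nat.mul_le_mul_right k h9, Nat.mul_le_mul_right (k * k) h9]
  omega

theorem spl_prime (d : ℕ) (hd : 0 < d) : ∃ C : ℕ, 0 < C ∧ ∀ P : ℕ, 0 < P → ∃ L n : ℕ, L.Prime ∧ ¬ L ∣ P ∧
    ¬ L ∣ 2 * d ∧ L ∣ n ^ 2 + d ∧ (L : ℝ) ≤ C * (1 + Real.log P) ^ C := by
  refine ⟨2 ^ 20 * d ^ 3, by positivity, fun P hP => ?_⟩
  obtain ⟨p, m, hp, hm, hpm, hpP⟩ := step hd hP
  have hx : 0 ≤ Real.log P := Real.log_natCast_nonneg P
  have hd1 : (1 : ℝ) ≤ d := by exact_mod_cast hd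
  refine ⟨p, 2 * d * m, hp, hpP, fun h => g_cop hpm hp ?_, ?_, ?_⟩
  · have h1 : 4 * d = 2 * d * 2 := by ring
    rw [h1]
    exact h.mul_right _
  · have h1 : (2 * d * m) ^ 2 + d = d * g d m := by
      unfold g
      ring
    rw [h1]
    exact hpm.mul_left _
  · have h1 : p ≤ g d m := Nat.le_of_dvd (g_pos d m) hpm
    have h2 : (p : ℝ) ≤ 8 * d * (64 * d * ((P.primeFactors.card : ℝ) + 1) ^ 2) ^ 2 := by
      have h3 : g d m ≤ g d (64 * d * (P.primeFactors.card + 1) ^ 2) := g_mono hm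
      have h4 : g d (64 * d * (P.primeFactors.card + 1) ^ 2) ≤
          8 * d * (64 * d * (P.primeFactors.card + 1) ^ 2) ^ 2 := by
        unfold g
        have h5 : 1 ≤ d * (64 * d * (P.primeFactors.card + 1) ^ 2) ^ 2 :=
          Nat.one_le_iff_ne_zero.2 (by positivity)
        linarith
      exact_mod_cast h1.trans (h3.trans h4)
    have h3 : (P.primeFactors.card : ℝ) + 1 ≤ 2 * (1 + Real.log P) := by
      have h4 := omega_le hP
      have h5 := Real.log_two_gt_d9
      have h6 : (0 : ℝ) ≤ P.primeFactors.card := Nat.cast_nonneg _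
      nlinarith
    have h4 : (0 : ℝ) ≤ (P.primeFactors.card : ℝ) + 1 := by positivity
    have h5 : (4 : ℕ) ≤ 2 ^ 20 * d ^ 3 := by
      have : 1 ≤ d ^ 3 := Nat.one_le_pow _ _ hd
      omega
    have h6 : (1 + Real.log P) ^ 4 ≤ (1 + Real.log P) ^ (2 ^ 20 * d ^ 3) :=
      pow_le_pow_right₀ (by linarith) h5
    calc (p : ℝ) ≤ 8 * d * (64 * d * ((P.primeFactors.card : ℝ) + 1) ^ 2) ^ 2 := h2
      _ ≤ 8 * d * (64 * d * (2 * (1 + Real.log P)) ^ 2) ^ 2 := by gcongr
      _ = 2 ^ 19 * d ^ 3 * (1 + Real.log P) ^ 4 := by ring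
      _ ≤ 2 ^ 20 * d ^ 3 * (1 + Real.log P) ^ (2 ^ 20 * d ^ 3) := by
          apply mul_le_mul _ h6 (by positivity) (by positivity)
          have : (0 : ℝ) ≤ (d : ℝ) ^ 3 := by positivity
          nlinarith
      _ = _ := by push_cast; ring

end Pool.Agent.LGO.RCM
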