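import Mathlib
import Pool.Agent.LGO.RCM.SplP

/-!
# LGO/RCM: small primes which divide a value of a definite quadratic polynomial and do not divide a given number

`spl_prime` with `d = 4 al ga - be ^ 2`: `4 al (al v ^ 2 - be v + ga) = (2 al v - be) ^ 2 + d`.
-/

namespace Pool.Agent.LGO.RCM

theorem prim_s (al be ga : ℤ) (h1 : 0 < al) (h2 : be ^ 2 - 4 * al * ga < 0) : ∃ C : ℕ, 0 < C ∧
    ∀ P : ℕ, 0 < P → ∃ L : ℕ, L.Prime ∧ ¬ L ∣ P ∧ (∃ v : ℤ, (L : ℤ) ∣ al * v ^ 2 - be * v + ga) ∧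
      (L : ℝ) ≤ C * (1 + Real.log P) ^ C := by
  obtain ⟨d, hd⟩ : ∃ d : ℕ, (d : ℤ) = 4 * al * ga - be ^ 2 :=
    ⟨(4 * al * ga - be ^ 2).toNat, Int.toNat_of_nonneg (by linarith)⟩
  obtain ⟨a, ha⟩ : ∃ a : ℕ, (a : ℤ) = al := ⟨al.toNat, Int.toNat_of_nonneg h1.le⟩
  have hd0 : 0 < d := by
    have : (0 : ℤ) < d := by rw [hd]; linarith
    exact_mod_cast this
  have ha0 : 0 < a := by
    have : (0 : ℤ) < a := by rw [ha]; exact h1
    exact_mod_cast this
  obtain ⟨C, hC, h⟩ := spl_prime d hd0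
  have hla : 0 ≤ Real.log a := Real.log_natCast_nonneg a
  obtain ⟨A, hA⟩ := exists_nat_ge (1 + Real.log a)
  have hA1 : (1 : ℝ) ≤ A := by linarith
  have hA0 : 0 < A := by
    have : (0 : ℝ) < A := by linarith
    exact_mod_cast this
  refine ⟨C * A ^ C, by positivity, fun P hP => ?_⟩
  have hlP : 0 ≤ Real.log P := Real.log_natCast_nonneg P
  obtain ⟨L, n, hL, hLP, hLd, hn, hb⟩ := h (P * a) (Nat.mul_pos hP ha0)
  have hLa : ¬ L ∣ a := fun h => hLP (h.mul_left P)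
  refine ⟨L, hL, fun h => hLP (h.mul_right a), ?_, ?_⟩
  · have hL2 : ¬ L ∣ 2 := fun h => hLd (h.mul_right d)
    have hL2a : ¬ L ∣ 2 * a := fun h => (hL.dvd_mul.1 h).elim hL2 hLa
    have hco : IsCoprime ((2 * a : ℕ) : ℤ) (L : ℤ) :=
      Nat.isCoprime_iff_coprime.2 ((Nat.Prime.coprime_iff_not_dvd hL).2 hL2a).symm
    obtain ⟨u, w, huw⟩ := hco
    refine ⟨u * (be + n), ?_⟩
    have hco2 : IsCoprime (L : ℤ) (4 * al) := by
      have h3 : IsCoprime (L : ℤ) ((4 * a : ℕ) : ℤ) := by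
        refine Nat.isCoprime_iff_coprime.2 ((Nat.Prime.coprime_iff_not_dvd hL).2 fun h4 => ?_)
        have h5 : 4 * a = 2 * (2 * a) := by ring
        rw [h5] at h4
        exact (hL.dvd_mul.1 h4).elim hL2 hL2a
      push_cast at h3
      rwa [ha] at h3
    apply hco2.dvd_of_dvd_mul_left
    have h3 : 2 * al * u = 1 - w * L := by
      have h4 : u * (2 * al) + w * L = 1 := by
        rw [← ha]
        exact_mod_cast huw
      linarith
    have h4 : 4 * al * (al * (u * (be + n)) ^ 2 - be * (u * (be + n)) + ga) =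
        (2 * al * u * (be + n) - be) ^ 2 + d := by
      rw [hd]
      ring
    rw [h4, h3]
    have h5 : ((1 - w * (L : ℤ)) * (be + n) - be) ^ 2 + (d : ℤ) =
        ((n : ℤ) ^ 2 + d) + L * (-2 * n * w * (be + n) + L * w ^ 2 * (be + n) ^ 2) := by ring
    rw [h5]
    refine dvd_add ?_ (dvd_mul_right _ _)
    exact_mod_cast hn
  · have h3 : Real.log ((P * a : ℕ) : ℝ) = Real.log P + Real.log a := by
      push_cast
      exact Real.log_mul (by exact_mod_cast hP.ne') (by exact_mod_cast ha0.ne')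
    have h4 : 1 + Real.log ((P * a : ℕ) : ℝ) ≤ A * (1 + Real.log P) := by
      rw [h3]
      nlinarith
    have h5 : C ≤ C * A ^ C := Nat.le_mul_of_pos_right C (by positivity)
    calc (L : ℝ) ≤ C * (1 + Real.log ((P * a : ℕ) : ℝ)) ^ C := hb
      _ ≤ C * (A * (1 + Real.log P)) ^ C := by
          have h6 : 0 ≤ 1 + Real.log ((P * a : ℕ) : ℝ) := by rw [h3]; linarith
          gcongr
      _ = (C * A ^ C : ℕ) * (1 + Real.log P) ^ C := by
          rw [Nat.cast_mul, Nat.cast_pow, mul_pow, mul_assoc]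
      _ ≤ (C * A ^ C : ℕ) * (1 + Real.log P) ^ (C * A ^ C) := by
          apply mul_le_mul_of_nonneg_left _ (Nat.cast_nonneg _)
          exact pow_le_pow_right₀ (by linarith) h5

end Pool.Agent.LGO.RCM
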