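import Mathlib
import Pool.Agent.LGO.RCM.Defs
import Pool.Agent.LGO.RU.LevB
import Pool.Agent.LGO.RU.NVCard
import Pool.Agent.LGO.RU.NVGrid
import Pool.Agent.Hhelper14.ZP.Integral
import Pool.Agent.Hhelper14.ZP.Rat
import Pool.Agent.AHC.Abs

/-!
# LGO/RCM: the modular polynomial of prime level, with bounds

PROOF.  `charP`, `charP_map`, `charP_coeff` (`ZP/Integral.lean`): the coefficients `e_k(τ)` of `∏_{q ∈ QQ L} (X - jQ q τ)` are `P_k(j τ)` with `P_k` a polynomial over `OO`.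
BOUND: for `|x| ≤ r`, `r ≥ 1`, all roots `y` (`Gal.isogDeg_iff_jQ`) satisfy `|y| ≤ (C r) ^ (2 L)` (`lev_c` with `s = 1`), and `card (QQ L) ≤ 2 L ^ 2` (`card_QQ_le` or `sum_divisors`-type; for `L` prime it is `L + 1`), so `|P_k(x)| ≤ 2 ^ card ((C r) ^ (2 L)) ^ card`: `P_k` has degree at most
`2 L card` (growth, `r → ∞`) and (Cauchy estimate for polynomials, `r = 1`) coefficients of absolute value `≤ 2 ^ card C ^ (2 L card)`.
INTEGRAL: for an automorphism `s` of `ℂ` and `x` with `NCM x` (all but countably many `x`) the numbers `jQ q τ`, `j τ = x`, are pairwise different (`jq_inj`, `NVGrid`), they are exactly the `y` with `IsogDeg L x y`, and `s` maps the `y` for `x` to those for `s x`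
(`isogDeg_map`): so `s(P_k)(s x) = P_k(s x)` for infinitely many `x`, `s(P_k) = P_k`, the coefficients of `P_k` are fixed by all automorphisms of `ℂ`, so rational (`LGO/Gal`, `LGO/F`: a complex number fixed by all automorphisms is rational; or: orbit of one element, so it is algebraic of degree one),
and algebraic integers: rational integers.  So `Φ = Y ^ (L+1) + ∑ P_k Y ^ k` has integral coefficients.  DEGREE: `Nat.card (QQ L) = L + 1` for `L` prime: `≥` is `sum_divisors_le`; `≤`: representatives `FixedDetMatrices.reps` (`rep_shape'`, `Gal`), i.e. `(a, b; 0, d)`, `a d = L`, `0 ≤ b < d`.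
`root`: `Gal.isogDeg_iff_jQ` (`j_surj`).
-/

namespace Pool.Agent.LGO.RCM

open Pool.Agent.Hhelper14.ZP Pool.Agent.Hhelper14.ZPL Pool.Agent.LGO.RU Pool.Agent.LGO UpperHalfPlane
open scoped MatrixGroups

private theorem Phi_reps {N : ℕ} (hN : 0 < N) :
    Nat.card (QQ N) ≤ ∑ d ∈ N.divisors, d := by
  classical
  have hsurj : Function.Surjective (fun B : FixedDetMatrices.reps (N : ℤ) =>
      (Quotient.mk'' B.1 : QQ N)) := by
    intro q
    induction q using Quotient.inductionOn' with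
    | h A =>
      obtain ⟨B, hB, γ, rfl⟩ := exists_rep hN A
      refine ⟨⟨B, hB⟩, ?_⟩
      exact Quotient.sound' ⟨γ⁻¹, by simp⟩
  have h1 : Nat.card (QQ N) ≤ Nat.card (FixedDetMatrices.reps (N : ℤ)) :=
    Nat.card_le_card_of_surjective _ hsurj
  refine h1.trans ?_
  set S : Finset ((_ : ℕ) × ℕ) := N.divisors.sigma fun d => Finset.range d with hS
  have hSc : S.card = ∑ d ∈ N.divisors, d := by
    rw [hS, Finset.card_sigma]
    simp
  rw [← hSc]
  have key : ∀ B : FixedDetMatrices.reps (N : ℤ), B.1.1 1 0 = 0 ∧ 0 < B.1.1 0 0 ∧ 0 ≤ B.1.1 0 1 ∧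
      B.1.1 0 1 < B.1.1 1 1 ∧ B.1.1 0 0 * B.1.1 1 1 = N := by
    intro B
    obtain ⟨B, h10, h00, h01, hlt⟩ := B
    have hdet := B.2
    change B.1 1 0 = 0 at h10
    change 0 < B.1 0 0 at h00
    change 0 ≤ B.1 0 1 at h01
    change |B.1 0 1| < |B.1 1 1| at hlt
    have h2 : B.1 0 0 * B.1 1 1 = N := by
      rw [Matrix.det_fin_two, h10] at hdet
      linarith
    have hNZ : (0 : ℤ) < N := by exact_mod_cast hN
    have h3 : 0 < B.1 1 1 := by
      by_contra h
      push Not at h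
      have := mul_nonpos_of_nonneg_of_nonpos h00.le h
      omega
    refine ⟨h10, h00, h01, ?_, h2⟩
    rwa [abs_of_nonneg h01, abs_of_pos h3] at hlt
  let f : FixedDetMatrices.reps (N : ℤ) → S := fun B =>
    ⟨⟨(B.1.1 1 1).natAbs, (B.1.1 0 1).natAbs⟩, by
      obtain ⟨h1, h2, h3, h4, h5⟩ := key B
      rw [hS, Finset.mem_sigma]
      refine ⟨?_, ?_⟩
      · rw [Nat.mem_divisors]
        refine ⟨?_, hN.ne'⟩
        have : B.1.1 1 1 ∣ (N : ℤ) := ⟨B.1.1 0 0, by rw [mul_comm]; exact h5.symm⟩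
        simpa using Int.natAbs_dvd_natAbs.2 this
      · rw [Finset.mem_range]
        simp only
        omega⟩
  have hf : Function.Injective f := by
    intro B B' h
    obtain ⟨h1, h2, h3, h4, h5⟩ := key B
    obtain ⟨g1, g2, g3, g4, g5⟩ := key B'
    have e : (⟨(B.1.1 1 1).natAbs, (B.1.1 0 1).natAbs⟩ : (_ : ℕ) × ℕ) =
        ⟨(B'.1.1 1 1).natAbs, (B'.1.1 0 1).natAbs⟩ := congrArg Subtype.val h
    simp only [Sigma.mk.injEq, heq_eq_eq] at e
    have e1 : B.1.1 1 1 = B'.1.1 1 1 := by omega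
    have e2 : B.1.1 0 1 = B'.1.1 0 1 := by omega
    have e3 : B.1.1 0 0 = B'.1.1 0 0 := by
      have : B.1.1 0 0 * B.1.1 1 1 = B'.1.1 0 0 * B.1.1 1 1 := by
        refine h5.trans ?_
        rw [e1]
        exact g5.symm
      exact mul_right_cancel₀ (by omega) this
    apply Subtype.ext
    apply FixedDetMatrices.ext
    intro i j
    fin_cases i <;> fin_cases j
    · exact e3
    · exact e2
    · exact h1.trans g1.symm
    · exact e1
  have := Nat.card_le_card_of_injective f hf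
  simpa using this

/-- the number of classes at a prime level -/
theorem Phi_card {L : ℕ} (hL : L.Prime) : Nat.card (QQ L) = L + 1 := by
  have h1 := sum_divisors_le hL.pos
  have h2 := Phi_reps hL.pos
  have h3 : ∑ d ∈ L.divisors, d = L + 1 := hL.sum_divisors
  omega

/-- coefficients of a product of linear factors -/
private theorem Phi_prod {ι : Type*} (s : Finset ι) (y : ι → ℂ) {B : ℝ} (hB : 1 ≤ B)
    (hy : ∀ i ∈ s, ‖y i‖ ≤ B) (k : ℕ) :
    ‖(∏ i ∈ s, (Polynomial.X - Polynomial.C (y i))).coeff k‖ ≤ (2 * B) ^ s.card := by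
  classical
  induction s using Finset.induction_on generalizing k with
  | empty =>
    rw [Finset.prod_empty, Polynomial.coeff_one, Finset.card_empty, pow_zero]
    split_ifs <;> simp
  | insert a s ha ih =>
    have ih' := fun k => ih (fun i hi => hy i (Finset.mem_insert_of_mem hi)) k
    rw [Finset.prod_insert ha, Finset.card_insert_of_notMem ha, sub_mul, Polynomial.coeff_sub, Polynomial.coeff_C_mul]
    have h1 : ‖(Polynomial.X * ∏ i ∈ s, (Polynomial.X - Polynomial.C (y i))).coeff k‖ ≤ (2 * B) ^ s.card := by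
      cases k with
      | zero =>
        rw [Polynomial.coeff_X_mul_zero, norm_zero]
        positivity
      | succ k =>
        rw [Polynomial.coeff_X_mul]
        exact ih' k
    have h2 : ‖y a * (∏ i ∈ s, (Polynomial.X - Polynomial.C (y i))).coeff k‖ ≤ B * (2 * B) ^ s.card := by
      rw [norm_mul]
      exact mul_le_mul (hy a (Finset.mem_insert_self a s)) (ih' k) (norm_nonneg _) (by linarith)
    have h3 : 0 ≤ (2 * B) ^ s.card := by positivity
    calc _ ≤ ‖(Polynomial.X * ∏ i ∈ s, (Polynomial.X - Polynomial.C (y i))).coeff k‖ +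
          ‖y a * (∏ i ∈ s, (Polynomial.X - Polynomial.C (y i))).coeff k‖ := norm_sub_le _ _
      _ ≤ (2 * B) ^ s.card + B * (2 * B) ^ s.card := add_le_add h1 h2
      _ ≤ (2 * B) ^ (s.card + 1) := by rw [pow_succ]; nlinarith

private theorem Phi_der (P : Polynomial ℂ) (m : ℕ) :
    iteratedDeriv m (fun x : ℂ => P.eval x) = fun x => (Polynomial.derivative^[m] P).eval x := by
  induction m with
  | zero => simp
  | succ m ih =>
    rw [iteratedDeriv_succ, ih, Function.iterate_succ_apply']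
    funext x
    exact Polynomial.deriv _

/-- Cauchy estimates for polynomials -/
private theorem Phi_cauchy (P : Polynomial ℂ) {A : ℝ} {M : ℕ} (hA : 0 ≤ A)
    (h : ∀ r : ℝ, 1 ≤ r → ∀ x : ℂ, ‖x‖ ≤ r → ‖P.eval x‖ ≤ A * r ^ M) (m : ℕ) :
    ‖P.coeff m‖ ≤ A ∧ (M < m → P.coeff m = 0) := by
  have key : ∀ r : ℝ, 1 ≤ r → ‖P.coeff m‖ ≤ A * r ^ M / r ^ m := by
    intro r hr
    have hr0 : 0 < r := by linarith
    have h1 := Complex.norm_iteratedDeriv_le_of_forall_mem_sphere_norm_le (c := (0 : ℂ)) (R := r) (C := A * r ^ M) m hr0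
      (f := fun x => P.eval x) (P.differentiable.diffContOnCl) (fun z hz => by
        refine h r hr z ?_
        rw [mem_sphere_zero_iff_norm] at hz
        exact hz.le)
    rw [Phi_der] at h1
    simp only at h1
    rw [← Polynomial.coeff_zero_eq_eval_zero, Polynomial.coeff_iterate_derivative, zero_add, nsmul_eq_mul, norm_mul,
      Nat.descFactorial_self, Complex.norm_natCast] at h1
    have hf : (0 : ℝ) < m.factorial := by exact_mod_cast m.factorial_pos
    have h2 : (m.factorial : ℝ) * ‖P.coeff m‖ ≤ m.factorial * (A * r ^ M / r ^ m) := by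
      rw [← mul_div_assoc]
      exact h1
    exact le_of_mul_le_mul_left h2 hf
  refine ⟨by simpa using key 1 le_rfl, fun hm => ?_⟩
  by_contra hne
  have hpos : 0 < ‖P.coeff m‖ := norm_pos_iff.2 hne
  set r : ℝ := A / ‖P.coeff m‖ + 1 with hr
  have hr1 : 1 ≤ r := by
    have : 0 ≤ A / ‖P.coeff m‖ := by positivity
    linarith
  have h1 := key r hr1
  have hr0 : 0 < r := by linarith
  rw [le_div_iff₀ (by positivity)] at h1
  obtain ⟨j, rfl⟩ : ∃ j, m = M + 1 + j := ⟨m - (M + 1), by omega⟩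
  have h2 : r ^ M * r ≤ r ^ (M + 1 + j) := by
    rw [← pow_succ]
    exact pow_le_pow_right₀ hr1 (by omega)
  have h3 : ‖P.coeff (M + 1 + j)‖ * (r ^ M * r) ≤ A * r ^ M := (mul_le_mul_of_nonneg_left h2 hpos.le).trans h1
  have h4 : ‖P.coeff (M + 1 + j)‖ * r ≤ A := by
    have hM : 0 < r ^ M := by positivity
    have h5 : (‖P.coeff (M + 1 + j)‖ * r) * r ^ M ≤ A * r ^ M := by
      calc _ = ‖P.coeff (M + 1 + j)‖ * (r ^ M * r) := by ring
        _ ≤ _ := h3
    exact le_of_mul_le_mul_right h5 hM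
  rw [hr, mul_add, mul_one, mul_div_cancel₀ _ hpos.ne'] at h4
  linarith

/-- an algebraic integer which is fixed by all automorphisms is a rational integer -/
private theorem Phi_rat {c : ℂ} (hc : IsIntegral ℤ c) (h : ∀ s : ℂ ≃+* ℂ, s c = c) : ∃ n : ℤ, (n : ℂ) = c := by
  have hcQ : IsIntegral ℚ c := hc.tower_top
  have hdeg : (minpoly ℚ c).natDegree = 1 := by
    by_contra hne
    have hpos : 0 < (minpoly ℚ c).natDegree := minpoly.natDegree_pos hcQ
    have hsep : (minpoly ℚ c).Separable := (minpoly.irreducible hcQ).separable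
    have hcard : 1 < Fintype.card ((minpoly ℚ c).rootSet ℂ) := by
      rw [Polynomial.card_rootSet_eq_natDegree hsep (IsAlgClosed.splits _)]
      omega
    have hzr : c ∈ (minpoly ℚ c).rootSet ℂ := by
      rw [Polynomial.mem_rootSet]
      exact ⟨minpoly.ne_zero hcQ, minpoly.aeval ℚ c⟩
    obtain ⟨⟨w, hw⟩, hwz⟩ := Fintype.exists_ne_of_one_lt_card hcard (⟨c, hzr⟩ : (minpoly ℚ c).rootSet ℂ)
    have hwz' : w ≠ c := fun h => hwz (Subtype.ext h)
    rw [Polynomial.mem_rootSet] at hw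
    obtain ⟨s, hs⟩ := Pool.Agent.AHC.exists_aut_root hcQ.isAlgebraic hw.2
    exact hwz' (by rw [← hs, h s])
  rw [minpoly.natDegree_eq_one_iff] at hdeg
  obtain ⟨q, hq⟩ := hdeg
  have h1 : IsIntegral ℤ q := by
    have h2 : IsIntegral ℤ (algebraMap ℚ ℂ q) := by rw [hq]; exact hc
    exact (isIntegral_algebraMap_iff (algebraMap ℚ ℂ).injective).1 h2
  obtain ⟨n, hn⟩ := IsIntegrallyClosed.isIntegral_iff.1 h1
  refine ⟨n, ?_⟩
  rw [← hq, ← hn]
  simp

private theorem Phi_desc (P : Polynomial ℂ) (hi : ∀ m, IsIntegral ℤ (P.coeff m))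
    (h : ∀ s : ℂ ≃+* ℂ, ∀ m, s (P.coeff m) = P.coeff m) :
    ∃ Q : Polynomial ℤ, Q.map (Int.castRingHom ℂ) = P := by
  have h1 : P ∈ Polynomial.lifts (Int.castRingHom ℂ) := by
    rw [Polynomial.lifts_iff_coeff_lifts]
    intro m
    obtain ⟨n, hn⟩ := Phi_rat (hi m) (fun s => h s m)
    exact ⟨n, by simpa using hn⟩
  exact (Polynomial.mem_lifts P).1 h1

/-- the numbers `m + 1 / 2` are not singular moduli -/
private theorem Phi_half (m : ℕ) {τ : ℍ} (h : jInv τ = (m : ℂ) + 1 / 2) : NonCM (τ : ℂ) := by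
  rw [nonCM_iff]
  intro hcm
  have h1 : IsIntegral ℤ (jInv τ) := jInv_mem_of_isCM hcm
  rw [h] at h1
  have h2 : IsIntegral ℤ (algebraMap ℚ ℂ ((m : ℚ) + 1 / 2)) := by
    have e : algebraMap ℚ ℂ ((m : ℚ) + 1 / 2) = (m : ℂ) + 1 / 2 := by simp
    rw [e]; exact h1
  have h3 : IsIntegral ℤ ((m : ℚ) + 1 / 2) := (isIntegral_algebraMap_iff (algebraMap ℚ ℂ).injective).1 h2
  obtain ⟨n, hn⟩ := IsIntegrallyClosed.isIntegral_iff.1 h3
  have h4 : (n : ℚ) = (m : ℚ) + 1 / 2 := by simpa using hn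
  have h5 : (2 * n : ℚ) = 2 * m + 1 := by linarith
  have h6 : 2 * n = 2 * (m : ℤ) + 1 := by exact_mod_cast h5
  omega

theorem exists_phi : ∃ C : ℕ, 0 < C ∧ ∀ L : ℕ, L.Prime → ∃ Φ : Polynomial (Polynomial ℤ),
    Φ.Monic ∧ Φ.natDegree = L + 1 ∧
    (∀ x y : ℂ, IsogDeg L x y →
      (Φ.map (Polynomial.eval₂RingHom (Int.castRingHom ℂ) x)).eval y = 0) ∧
    (∀ k, ((Φ.coeff k).natDegree : ℝ) ≤ ((C : ℝ) * L) ^ C) ∧
    ∀ k m, |(((Φ.coeff k).coeff m : ℤ) : ℝ)| ≤ Real.exp (((C : ℝ) * L) ^ C) := by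
  classical
  obtain ⟨C0, hC0, hlev⟩ := lev_c
  refine ⟨4 * C0 + 4, by omega, fun L hL => ?_⟩
  have hLp := hL.pos
  have := finite_QQ hLp
  have : Fintype (QQ L) := Fintype.ofFinite _
  have hcard : Fintype.card (QQ L) = L + 1 := by rw [← Nat.card_eq_fintype_card]; exact Phi_card hL
  choose P hP using charP_coeff hLp
  -- the polynomial at a point
  let F : ℍ → Polynomial ℂ := fun τ => ∏ q : QQ L, (Polynomial.X - Polynomial.C (jQ hLp q τ))
  have hF : ∀ (τ : ℍ) (k : ℕ), (F τ).coeff k = ((P k).map OO.subtype).eval (jInv τ) := by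
    intro τ k
    rw [Polynomial.eval_map, ← hP k τ, ← Polynomial.coeff_map, charP_map]
  have hFmon : ∀ τ, (F τ).Monic := fun τ => Polynomial.monic_prod_of_monic _ _ fun q _ => Polynomial.monic_X_sub_C _
  have hFdeg : ∀ τ, (F τ).natDegree = L + 1 := by
    intro τ
    rw [← hcard]
    simp only [F]
    rw [Polynomial.natDegree_prod_of_monic _ _ fun q _ => Polynomial.monic_X_sub_C _]
    simp
  -- bounds
  have hbd : ∀ (k : ℕ) (r : ℝ), 1 ≤ r → ∀ x : ℂ, ‖x‖ ≤ r → ‖((P k).map OO.subtype).eval x‖ ≤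
      (2 ^ (L + 1) * (C0 : ℝ) ^ (2 * L * (L + 1))) * r ^ (2 * L * (L + 1)) := by
    intro k r hr x hx
    obtain ⟨τ, rfl⟩ := j_surj x
    rw [← hF]
    have hCr : 1 ≤ (C0 : ℝ) * r := by
      have : (1 : ℝ) ≤ C0 := by exact_mod_cast hC0
      nlinarith
    have h1 := Phi_prod (Finset.univ : Finset (QQ L)) (fun q => jQ hLp q τ) (B := ((C0 : ℝ) * r) ^ (2 * L))
      (one_le_pow₀ hCr) (fun q _ => by
        have h2 := hlev (RingEquiv.refl ℂ) (jInv τ) (jQ hLp q τ) L hLp ((Gal.isogDeg_iff_jQ hLp τ _).2 ⟨q, rfl⟩)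
        refine h2.trans ?_
        have h3 : max 1 ‖(RingEquiv.refl ℂ) (jInv τ)‖ ≤ r := max_le hr hx
        gcongr) k
    rw [Finset.card_univ, hcard] at h1
    refine h1.trans (le_of_eq ?_)
    rw [mul_pow, ← pow_mul, mul_pow]
    ring
  -- integrality
  have hfix : ∀ (s : ℂ ≃+* ℂ) (k m : ℕ), s (((P k).map OO.subtype).eval ((m : ℂ) + 1 / 2)) =
      ((P k).map OO.subtype).eval ((m : ℂ) + 1 / 2) := by
    intro s k m
    obtain ⟨τ, hτ⟩ := j_surj ((m : ℂ) + 1 / 2)
    have hn := Phi_half m hτ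
    have hinj := jq_inj hLp hn
    have hs : s (jInv τ) = jInv τ := by
      rw [hτ]
      have h2 : s 2 = 2 := map_ofNat s 2
      simp [h2]
    have h1 : ∀ q : QQ L, ∃ q' : QQ L, s (jQ hLp q τ) = jQ hLp q' τ := by
      intro q
      have h2 := isogDeg_map s hLp ((Gal.isogDeg_iff_jQ hLp τ _).2 ⟨q, rfl⟩)
      rw [hs] at h2
      exact (Gal.isogDeg_iff_jQ hLp τ _).1 h2
    choose f hf using h1
    have hfi : Function.Injective f := by
      intro q q' h
      apply hinj
      have h2 := hf q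
      rw [h, ← hf q'] at h2
      exact s.injective h2
    have hfb : Function.Bijective f := Finite.injective_iff_bijective.1 hfi
    have h3 : (F τ).map (s : ℂ →+* ℂ) = F τ := by
      simp only [F]
      rw [Polynomial.map_prod, ← Function.Bijective.prod_comp hfb (fun q => Polynomial.X - Polynomial.C (jQ hLp q τ))]
      refine Finset.prod_congr rfl fun q _ => ?_
      rw [Polynomial.map_sub, Polynomial.map_X, Polynomial.map_C, ← hf q]
      rfl
    rw [← hτ, ← hF]
    conv_rhs => rw [← h3]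
    rw [Polynomial.coeff_map]
    rfl
  have hfixP : ∀ (s : ℂ ≃+* ℂ) (k : ℕ), ((P k).map OO.subtype).map (s : ℂ →+* ℂ) = (P k).map OO.subtype := by
    intro s k
    refine Polynomial.eq_of_infinite_eval_eq _ _ ?_
    refine (Set.infinite_range_of_injective (f := fun m : ℕ => (m : ℂ) + 1 / 2) ?_).mono ?_
    · intro a b hab
      simpa using hab
    · rintro _ ⟨m, rfl⟩
      show Polynomial.eval ((m : ℂ) + 1 / 2) (((P k).map OO.subtype).map (s : ℂ →+* ℂ)) = _
      have e : (s : ℂ →+* ℂ) ((m : ℂ) + 1 / 2) = (m : ℂ) + 1 / 2 := by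
        have h2 : s 2 = 2 := map_ofNat s 2
        simp [h2]
      have h4 : Polynomial.eval ((m : ℂ) + 1 / 2) (((P k).map OO.subtype).map (s : ℂ →+* ℂ)) =
          s (((P k).map OO.subtype).eval ((m : ℂ) + 1 / 2)) := by
        conv_lhs => rw [← e]
        rw [Polynomial.eval_map, Polynomial.eval₂_at_apply]
        rfl
      rw [h4, hfix]
  have hdesc : ∀ k, ∃ Q : Polynomial ℤ, Q.map (Int.castRingHom ℂ) = (P k).map OO.subtype := by
    intro k
    refine Phi_desc _ (fun m => ?_) (fun s m => ?_)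
    · rw [Polynomial.coeff_map]
      exact ((P k).coeff m).2
    · have h4 := congrArg (fun p => Polynomial.coeff p m) (hfixP s k)
      rw [Polynomial.coeff_map] at h4
      exact h4
  choose Q hQ using hdesc
  -- the bounds for `Q`
  have hQb : ∀ k m, |(((Q k).coeff m : ℤ) : ℝ)| ≤ 2 ^ (L + 1) * (C0 : ℝ) ^ (2 * L * (L + 1)) ∧
      (2 * L * (L + 1) < m → (Q k).coeff m = 0) := by
    intro k m
    have h1 := Phi_cauchy ((P k).map OO.subtype) (by positivity) (hbd k) m
    have e : ((P k).map OO.subtype).coeff m = (((Q k).coeff m : ℤ) : ℂ) := by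
      rw [← hQ k, Polynomial.coeff_map]
      simp
    rw [e, Complex.norm_intCast] at h1
    refine ⟨h1.1, fun hm => ?_⟩
    have := h1.2 hm
    exact_mod_cast this
  let Φ : Polynomial (Polynomial ℤ) := Polynomial.X ^ (L + 1) + ∑ k ∈ Finset.range (L + 1), Polynomial.C (Q k) * Polynomial.X ^ k
  have hlow : (∑ k ∈ Finset.range (L + 1), Polynomial.C (Q k) * Polynomial.X ^ k : Polynomial (Polynomial ℤ)).degree <
      ((L + 1 : ℕ) : WithBot ℕ) := by
    rw [Polynomial.degree_lt_iff_coeff_zero]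
    intro m hm
    rw [Polynomial.finsetSum_coeff]
    refine Finset.sum_eq_zero fun k hk => ?_
    rw [Polynomial.coeff_C_mul_X_pow, if_neg]
    have := Finset.mem_range.mp hk
    omega
  have hmon : Φ.Monic := Polynomial.monic_X_pow_add hlow
  have hcoef : ∀ k, Φ.coeff k = if k = L + 1 then 1 else if k < L + 1 then Q k else 0 := by
    intro k
    simp only [Φ]
    rw [Polynomial.coeff_add, Polynomial.coeff_X_pow, Polynomial.finsetSum_coeff]
    simp only [Polynomial.coeff_C_mul_X_pow]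
    rw [Finset.sum_ite_eq (Finset.range (L + 1)) k Q]
    simp only [Finset.mem_range]
    split_ifs <;> first | omega | simp
  have hL1 : (1 : ℝ) ≤ L := by exact_mod_cast hLp
  have hC1 : (1 : ℝ) ≤ C0 := by exact_mod_cast hC0
  have hpw : (4 * (C0 : ℝ) + 4) ^ 2 * (L : ℝ) ^ 2 ≤ ((((4 * C0 + 4 : ℕ) : ℝ)) * L) ^ (4 * C0 + 4) := by
    have h1 : (1 : ℝ) ≤ (((4 * C0 + 4 : ℕ) : ℝ)) * L := by
      push_cast
      nlinarith
    calc (4 * (C0 : ℝ) + 4) ^ 2 * (L : ℝ) ^ 2 = ((((4 * C0 + 4 : ℕ) : ℝ)) * L) ^ 2 := by push_cast; ring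
      _ ≤ _ := pow_le_pow_right₀ h1 (by omega)
  have hnum1 : (2 * L * (L + 1) : ℝ) ≤ ((((4 * C0 + 4 : ℕ) : ℝ)) * L) ^ (4 * C0 + 4) := by
    refine le_trans ?_ hpw
    nlinarith [sq_nonneg ((C0 : ℝ) * L), mul_nonneg (by linarith : (0 : ℝ) ≤ C0) (sq_nonneg (L : ℝ))]
  have hnum2 : (2 : ℝ) ^ (L + 1) * (C0 : ℝ) ^ (2 * L * (L + 1)) ≤ Real.exp (((((4 * C0 + 4 : ℕ) : ℝ)) * L) ^ (4 * C0 + 4)) := by
    have h1 : (2 : ℝ) ≤ Real.exp 1 := by linarith [Real.add_one_le_exp (1 : ℝ)]
    have h2 : (C0 : ℝ) ≤ Real.exp C0 := by linarith [Real.add_one_le_exp (C0 : ℝ)]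
    calc (2 : ℝ) ^ (L + 1) * (C0 : ℝ) ^ (2 * L * (L + 1)) ≤ Real.exp 1 ^ (L + 1) * Real.exp C0 ^ (2 * L * (L + 1)) := by
          gcongr
      _ = Real.exp (((L + 1 : ℕ) : ℝ) * 1 + ((2 * L * (L + 1) : ℕ) : ℝ) * C0) := by
          rw [Real.exp_add, Real.exp_nat_mul, Real.exp_nat_mul]
      _ ≤ Real.exp ((4 * (C0 : ℝ) + 4) ^ 2 * (L : ℝ) ^ 2) := by
          refine Real.exp_le_exp.2 ?_
          push_cast
          have h3 : (L : ℝ) ≤ (L : ℝ) ^ 2 := by nlinarith
          have h4 : (C0 : ℝ) * L ≤ C0 * (L : ℝ) ^ 2 := mul_le_mul_of_nonneg_left h3 (by linarith)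
          have h5 : 0 ≤ (C0 : ℝ) ^ 2 * (L : ℝ) ^ 2 := by positivity
          have h6 : 0 ≤ (C0 : ℝ) * (L : ℝ) ^ 2 := by positivity
          nlinarith
      _ ≤ _ := Real.exp_le_exp.2 hpw
  refine ⟨Φ, hmon, ?_, ?_, ?_, ?_⟩
  · refine Polynomial.natDegree_eq_of_degree_eq_some ?_
    simp only [Φ]
    rw [Polynomial.degree_add_eq_left_of_degree_lt (by rw [Polynomial.degree_X_pow]; exact hlow), Polynomial.degree_X_pow]
  · intro x y hxy
    obtain ⟨τ, rfl⟩ := j_surj x
    obtain ⟨q, rfl⟩ := (Gal.isogDeg_iff_jQ hLp τ _).1 hxy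
    have h1 : Φ.map (Polynomial.eval₂RingHom (Int.castRingHom ℂ) (jInv τ)) = F τ := by
      ext k
      rw [Polynomial.coeff_map, hcoef]
      split_ifs with h2 h3
      · rw [map_one, h2, ← hFdeg τ]
        exact (hFmon τ).coeff_natDegree.symm
      · rw [hF, ← hQ k, Polynomial.eval_map]
        rfl
      · rw [map_zero, Polynomial.coeff_eq_zero_of_natDegree_lt]
        rw [hFdeg]
        omega
    rw [h1]
    simp only [F]
    rw [Polynomial.eval_prod]
    refine Finset.prod_eq_zero (Finset.mem_univ q) ?_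
    simp
  · intro k
    refine le_trans ?_ hnum1
    have h1 : (Φ.coeff k).natDegree ≤ 2 * L * (L + 1) := by
      rw [hcoef]
      split_ifs with h2 h3
      · simp
      · rw [Polynomial.natDegree_le_iff_coeff_eq_zero]
        intro m hm
        exact (hQb k m).2 hm
      · simp
    exact_mod_cast h1
  · intro k m
    refine le_trans ?_ hnum2
    have h0 : (1 : ℝ) ≤ 2 ^ (L + 1) * (C0 : ℝ) ^ (2 * L * (L + 1)) := by
      have h1 : (1 : ℝ) ≤ C0 := by exact_mod_cast hC0
      have h2 : (1 : ℝ) ≤ 2 ^ (L + 1) := one_le_pow₀ (by norm_num)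
      have h3 : (1 : ℝ) ≤ (C0 : ℝ) ^ (2 * L * (L + 1)) := one_le_pow₀ h1
      nlinarith
    rw [hcoef]
    split_ifs with h2 h3
    · refine le_trans ?_ h0
      rw [Polynomial.coeff_one]
      split_ifs <;> simp
    · exact (hQb k m).1
    · refine le_trans ?_ h0
      simp

end Pool.Agent.LGO.RCM
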