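import Mathlib
import Pool.Agent.LGO.RCM.Defs
import Pool.Agent.LGO.Gal.Basic

/-!
# LGO/RCM: there is an eigenline

PROOF.  `τ = F.t β` (`F.j` for the identity), form `(al, be, ga)`; `F.isog`: an integral matrix `M = (p, q; r, s)` of determinant `F.n` which fixes `τ` (`isogDeg_maps`), `(r, s - p, -q) = y (al, be, ga)` with an integer `y` (the form is primitive; `τ` not real).  `L ∣ al v ^ 2 - be v + ga`: the determinant of the rows
`(1, v)` and `(1, v) M = (p + v r, q + v s)` is `- y (al v ^ 2 - be v + ga) ≡ 0`, so `(1, v) M = λ (1, v) + (0, L w)`, `λ = p + v r`.  `h = (1, v; 0, L)`, `M' = (λ, w; L r, s - r v)`: `h M = M' h`, `det M' = F.n`, so `M'` fixes `h τ`; `y = j(h τ)`: `IsogDeg L β y`, `IsogDeg F.n y y`.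
-/

namespace Pool.Agent.LGO.RCM

open UpperHalfPlane Pool.Agent.Hhelper14.ZP Pool.Agent.LGO.RU Pool.Agent.LGO

/-- an integer which kills a primitive triple modulo `al` is a multiple of `al` -/
theorem SigNe_dvd {al be ga r : ℤ} (hp : ∀ d : ℤ, d ∣ al → d ∣ be → d ∣ ga → IsUnit d)
    (h1 : al ∣ r * be) (h2 : al ∣ r * ga) : al ∣ r := by
  have hu : IsUnit ((Int.gcd al (Int.gcd be ga) : ℕ) : ℤ) := by
    refine hp _ (Int.gcd_dvd_left ..) ?_ ?_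
    · exact (Int.gcd_dvd_right al (Int.gcd be ga)).trans (Int.gcd_dvd_left ..)
    · exact (Int.gcd_dvd_right al (Int.gcd be ga)).trans (Int.gcd_dvd_right ..)
  have h3 : al ∣ r * (Int.gcd be ga : ℤ) := by
    rw [Int.gcd_eq_gcd_ab be ga, mul_add, ← mul_assoc, ← mul_assoc]
    exact dvd_add (h1.mul_right _) (h2.mul_right _)
  have h4 : al ∣ r * ((Int.gcd al (Int.gcd be ga) : ℕ) : ℤ) := by
    rw [Int.gcd_eq_gcd_ab al (Int.gcd be ga), mul_add, ← mul_assoc, ← mul_assoc]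
    exact dvd_add ((Dvd.intro_left r rfl).mul_right _) (h3.mul_right _)
  exact (IsUnit.dvd_mul_right hu).1 h4

/-- an integral matrix which fixes `τ` is `(p, - y ga; y al, p + y be)` -/
theorem SigNe_fix {τ : ℍ} {al be ga : ℤ} (ha : 0 < al)
    (hp : ∀ d : ℤ, d ∣ al → d ∣ be → d ∣ ga → IsUnit d)
    (hq : (al : ℂ) * (τ : ℂ) ^ 2 + be * (τ : ℂ) + ga = 0) {g : Matrix (Fin 2) (Fin 2) ℤ}
    (hg : Maps g (τ : ℂ) (τ : ℂ)) :
    ∃ y : ℤ, g 1 0 = y * al ∧ g 1 1 - g 0 0 = y * be ∧ - g 0 1 = y * ga := by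
  rw [Maps] at hg
  have h0 : (((al * (g 1 1 - g 0 0) - g 1 0 * be : ℤ) : ℝ) : ℂ) * τ +
      ((- al * g 0 1 - g 1 0 * ga : ℤ) : ℝ) = 0 := by
    push_cast
    linear_combination (al : ℂ) * hg - (g 1 0 : ℂ) * hq
  obtain ⟨h1, h2⟩ := Gal.lin_indep h0
  have h1' : al * (g 1 1 - g 0 0) - g 1 0 * be = 0 := by exact_mod_cast h1
  have h2' : - al * g 0 1 - g 1 0 * ga = 0 := by exact_mod_cast h2
  obtain ⟨y, hy⟩ : al ∣ g 1 0 := by
    refine SigNe_dvd hp ⟨g 1 1 - g 0 0, by linarith⟩ ⟨- g 0 1, by linarith⟩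
  refine ⟨y, by rw [hy, mul_comm], ?_, ?_⟩
  · apply mul_left_cancel₀ ha.ne'
    rw [hy] at h1'
    linear_combination h1'
  · apply mul_left_cancel₀ ha.ne'
    rw [hy] at h2'
    linear_combination h2'

theorem sig_ne {β : ℂ} (F : CMF β) {L : ℕ} (hL : 0 < L) {v : ℤ}
    (hv : (L : ℤ) ∣ F.al β * v ^ 2 - F.be β * v + F.ga β) : ∃ y, y ∈ SG F.n L β := by
  have hj : jInv (F.t β) = β := by simpa using F.j (RingEquiv.refl ℂ)
  have hal : 0 < F.al β := by simpa using F.al_pos (RingEquiv.refl ℂ)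
  have hpr : ∀ d : ℤ, d ∣ F.al β → d ∣ F.be β → d ∣ F.ga β → IsUnit d := by
    simpa using F.prim (RingEquiv.refl ℂ)
  have hqu : (F.al β : ℂ) * (F.t β : ℂ) ^ 2 + F.be β * (F.t β : ℂ) + F.ga β = 0 := by
    simpa using F.quad (RingEquiv.refl ℂ)
  have his : IsogDeg F.n (jInv (F.t β)) (jInv (F.t β)) := by
    rw [hj]; exact F.isog
  obtain ⟨g, hdet, hg⟩ := (Gal.isogDeg_iff_maps F.n_pos (F.t β) (F.t β)).1 his
  obtain ⟨y, hy1, hy2, hy3⟩ := SigNe_fix hal hpr hqu hg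
  obtain ⟨k, hk⟩ := hv
  -- the matrix `h`
  set hm : Matrix (Fin 2) (Fin 2) ℤ := !![1, v; 0, (L : ℤ)] with hhm
  have hdh : hm.det = (L : ℤ) := by rw [hhm, Matrix.det_fin_two_of]; ring
  have hmp := Gal.maps_act hL (mkDD hm hdh) (F.t β)
  set τ' : ℍ := act hL (mkDD hm hdh) (F.t β) with hτ'
  have hmp' : (τ' : ℂ) * ((hm 1 0 : ℂ) * (F.t β : ℂ) + (hm 1 1 : ℂ)) =
      (hm 0 0 : ℂ) * (F.t β : ℂ) + (hm 0 1 : ℂ) := hmp
  have hmp2 : (τ' : ℂ) * (L : ℂ) = (F.t β : ℂ) + (v : ℂ) := by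
    rw [hhm] at hmp'
    simpa using hmp'
  have hL0 : (L : ℂ) ≠ 0 := by exact_mod_cast hL.ne'
  rw [Gal.isogDeg_iff_maps F.n_pos] at his
  refine ⟨jInv τ', ⟨F.t β, τ', hm, hdh, hmp, hj.symm, rfl⟩,
    ⟨τ', τ', !![g 0 0 + v * g 1 0, - (y * k); (L : ℤ) * g 1 0, g 1 1 - g 1 0 * v], ?_, ?_, rfl, rfl⟩⟩
  · rw [Matrix.det_fin_two_of]
    rw [Matrix.det_fin_two] at hdet
    rw [← hdet]
    linear_combination (g 1 0) * (- y * hk + (v ^ 2) * hy1 * (-1) + v * hy2 - hy3)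
  · rw [Maps] at hg ⊢
    simp only [Matrix.of_apply, Matrix.cons_val', Matrix.cons_val_zero, Matrix.cons_val_one,
      Matrix.cons_val_fin_one]
    push_cast
    apply mul_left_cancel₀ hL0
    have hy1' : (g 1 0 : ℂ) = y * F.al β := by exact_mod_cast hy1
    have hy2' : (g 1 1 : ℂ) - g 0 0 = y * F.be β := by exact_mod_cast hy2
    have hy3' : - (g 0 1 : ℂ) = y * F.ga β := by exact_mod_cast hy3
    have hk' : (F.al β : ℂ) * v ^ 2 - F.be β * v + F.ga β = L * k := by exact_mod_cast hk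
    linear_combination ((g 1 0 : ℂ) * ((τ' : ℂ) * L + (F.t β : ℂ) + v) + g 1 1 - 2 * g 1 0 * v - g 0 0) * hmp2 -
      (y : ℂ) * hk' - (v : ℂ) ^ 2 * hy1' + (v : ℂ) * hy2' - hy3' + hg

end Pool.Agent.LGO.RCM
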