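import Mathlib
import Pool.Agent.LGO.RCM.SigNe
import Pool.Agent.LGO.RCM.Phi

/-!
# LGO/RCM: the level data

PROOF.  `Φ` from `exists_phi`.  `SG F.n L β` is a finite set (it is contained in the values `jQ q τ`, `j τ = β`: `Gal.isogDeg_iff_jQ`; also in the roots of `Φ(β, Y)`, so at most `L + 1` elements), not empty (`sig_ne`).  `G = ∏_{y ∈ SG} (X - y)`; the `y` are algebraic integers: `β` is one (`F.quad`: `IsCM`, `jInv_mem_of_isCM`), and `y` is CM too, or it is
a root of the monic `Φ(β, Y)`; so `G` has coefficients in `OO`.  `s` an automorphism of `ℂ` with `s β = β`: `s` permutes `SG` (`isogDeg_map`), so the coefficients of `G` are fixed by all automorphisms which fix `K ∋ β`: they are in `K` (`LGO/FC`, `LGO/Gal`, `LGO/F`: `mem_of_orbit`, elements of `ℂ` fixed by all automorphisms over `K`).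
Bounds: `|s y| ≤ (C max(1, |s β|)) ^ (2 L)` (`lev_c`; `s β` takes finitely many values), so the conjugates of the coefficients are at most `(1 + (C ..) ^ (2 L)) ^ (L + 1)`.  `G ∣ Φ(β, Y)` over `ℂ`: different roots.  Last statement: `(G.map (sC s)).eval z = ∏_{y ∈ SG} (z - s y)`.
-/

namespace Pool.Agent.LGO.RCM

open UpperHalfPlane Pool.Agent.Hhelper14.ZP Pool.Agent.LGO.RU Pool.Agent.LGO

private theorem SigG_int {x : ℂ} (h : IsIntegral OO x) : x ∈ OO := by
  have h1 : Algebra.IsIntegral ℤ OO := by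
    refine ⟨fun x => ?_⟩
    have hx : IsIntegral ℤ (x : ℂ) := x.2
    exact (isIntegral_algHom_iff (RingHom.toIntAlgHom OO.subtype)
      (fun a b h => Subtype.ext h)).mp hx
  exact isIntegral_trans _ h

private theorem SigG_aut_root (K : IntermediateField ℚ ℂ) {z w : ℂ} (hint : IsIntegral K z)
    (hw : Polynomial.aeval w (minpoly K z) = 0) :
    ∃ τ : ℂ ≃+* ℂ, τ z = w ∧ ∀ x : K, τ x = x := by
  have hirr : Fact (Irreducible (minpoly K z)) := ⟨minpoly.irreducible hint⟩
  let S := AdjoinRoot (minpoly K z)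
  let φ : S →ₐ[K] ℂ := AdjoinRoot.liftAlgHom (minpoly K z) (Algebra.ofId K ℂ) z (by
    have := minpoly.aeval K z
    exact this)
  let ψ : S →ₐ[K] ℂ := AdjoinRoot.liftAlgHom (minpoly K z) (Algebra.ofId K ℂ) w hw
  have hfin : Algebra.FiniteType K S := by
    have : Module.Finite K S := (AdjoinRoot.powerBasis (minpoly.ne_zero hint)).finite
    infer_instance
  obtain ⟨α, hα⟩ := Pool.Agent.AHC.exists_aut (R := K) (S := S) (algebraMap K S).injective
    trdeg_lt_aleph0_of_finiteType φ.toRingHom ψ.toRingHom φ.toRingHom.injective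
    ψ.toRingHom.injective (by
      apply RingHom.ext
      intro x
      change φ (algebraMap K S x) = ψ (algebraMap K S x)
      rw [AlgHom.commutes, AlgHom.commutes])
  refine ⟨α, ?_, fun x => ?_⟩
  · have h1 := hα (AdjoinRoot.root _)
    have h2 : φ (AdjoinRoot.root _) = z := AdjoinRoot.liftAlgHom_root _ _ _ _
    have h3 : ψ (AdjoinRoot.root _) = w := AdjoinRoot.liftAlgHom_root _ _ _ _
    change α (φ _) = ψ _ at h1
    rw [h2, h3] at h1
    exact h1
  · have h1 := hα (algebraMap K S x)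
    change α (φ _) = ψ _ at h1
    rw [AlgHom.commutes, AlgHom.commutes] at h1
    exact h1

private theorem SigG_mem (K : IntermediateField ℚ ℂ) {c : ℂ} (hc : IsIntegral ℤ c)
    (h : ∀ s : ℂ ≃+* ℂ, (∀ x ∈ K, s x = x) → s c = c) : c ∈ K := by
  have hcK : IsIntegral K c := hc.tower_top
  have hdeg : (minpoly K c).natDegree = 1 := by
    by_contra hne
    have hpos : 0 < (minpoly K c).natDegree := minpoly.natDegree_pos hcK
    have hsep : (minpoly K c).Separable := (minpoly.irreducible hcK).separable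
    have hcard : 1 < Fintype.card ((minpoly K c).rootSet ℂ) := by
      rw [Polynomial.card_rootSet_eq_natDegree hsep (IsAlgClosed.splits _)]
      omega
    have hzr : c ∈ (minpoly K c).rootSet ℂ := by
      rw [Polynomial.mem_rootSet]
      exact ⟨minpoly.ne_zero hcK, minpoly.aeval K c⟩
    obtain ⟨⟨w, hw⟩, hwz⟩ := Fintype.exists_ne_of_one_lt_card hcard (⟨c, hzr⟩ : (minpoly K c).rootSet ℂ)
    have hwz' : w ≠ c := fun h => hwz (Subtype.ext h)
    rw [Polynomial.mem_rootSet] at hw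
    obtain ⟨s, hs, hsK⟩ := SigG_aut_root K hcK hw.2
    exact hwz' (by rw [← hs, h s (fun x hx => hsK ⟨x, hx⟩)])
  rw [minpoly.natDegree_eq_one_iff] at hdeg
  obtain ⟨q, hq⟩ := hdeg
  rw [← hq]
  exact q.2

/-- coefficients of a product of linear factors -/
private theorem SigG_prod {ι : Type*} (s : Finset ι) (y : ι → ℂ) {B : ℝ} (hB : 1 ≤ B)
    (hy : ∀ i ∈ s, ‖y i‖ ≤ B) (k : ℕ) :
    ‖(∏ i ∈ s, (Polynomial.X - Polynomial.C (y i))).coeff k‖ ≤ (2 * B) ^ s.card := by
  classical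
  induction s using Finset.induction_on generalizing k with
  | empty =>
    rw [Finset.prod_empty, Polynomial.coeff_one, Finset.card_empty, pow_zero]
    split_ifs <;> simp
  | insert a s ha ih =>
    have ih' := fun k => ih (fun i hi => hy i (Finset.mem_insert_of_mem hi)) k
    rw [Finset.prod_insert ha, Finset.card_insert_of_notMem ha, sub_mul, Polynomial.coeff_sub, Polynomial.coeff_C_mul]
    have h1 : ‖(Polynomial.X * ∏ i ∈ s, (Polynomial.X - Polynomial.C (y i))).coeff k‖ ≤ (2 * B) ^ s.card := by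
      cases k with
      | zero =>
        rw [Polynomial.coeff_X_mul_zero, norm_zero]
        positivity
      | succ k =>
        rw [Polynomial.coeff_X_mul]
        exact ih' k
    have h2 : ‖y a * (∏ i ∈ s, (Polynomial.X - Polynomial.C (y i))).coeff k‖ ≤ B * (2 * B) ^ s.card := by
      rw [norm_mul]
      exact mul_le_mul (hy a (Finset.mem_insert_self a s)) (ih' k) (norm_nonneg _) (by linarith)
    have h3 : 0 ≤ (2 * B) ^ s.card := by positivity
    calc _ ≤ ‖(Polynomial.X * ∏ i ∈ s, (Polynomial.X - Polynomial.C (y i))).coeff k‖ +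
          ‖y a * (∏ i ∈ s, (Polynomial.X - Polynomial.C (y i))).coeff k‖ := norm_sub_le _ _
      _ ≤ (2 * B) ^ s.card + B * (2 * B) ^ s.card := add_le_add h1 h2
      _ ≤ (2 * B) ^ (s.card + 1) := by rw [pow_succ]; nlinarith

/-- the conjugates of an algebraic number are bounded -/
private theorem SigG_bd {β : ℂ} (hβ : IsIntegral ℤ β) : ∃ M : ℕ, 1 ≤ M ∧ ∀ s : ℂ ≃+* ℂ, ‖s β‖ ≤ M := by
  have hQ : IsIntegral ℚ β := hβ.tower_top
  have hfin : (norm '' ((minpoly ℚ β).rootSet ℂ)).Finite := (Polynomial.rootSet_finite _ _).image _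
  obtain ⟨M, hM⟩ := hfin.bddAbove
  obtain ⟨m, hm⟩ := exists_nat_ge M
  refine ⟨m + 1, by omega, fun s => ?_⟩
  have h1 : s β ∈ (minpoly ℚ β).rootSet ℂ := by
    rw [Polynomial.mem_rootSet]
    refine ⟨minpoly.ne_zero hQ, ?_⟩
    have h2 : Polynomial.aeval (s β) (minpoly ℚ β) = s (Polynomial.aeval β (minpoly ℚ β)) := by
      rw [Polynomial.aeval_def, Polynomial.aeval_def]
      have h3 := Polynomial.hom_eval₂ (minpoly ℚ β) (algebraMap ℚ ℂ) (s : ℂ →+* ℂ) β
      have h4 : (s : ℂ →+* ℂ).comp (algebraMap ℚ ℂ) = algebraMap ℚ ℂ := RingHom.ext fun q => by simp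
      rw [h4] at h3
      exact h3.symm
    rw [h2, minpoly.aeval, map_zero]
  have h2 := hM ⟨s β, h1, rfl⟩
  push_cast
  linarith

theorem exists_ld {β : ℂ} (F : CMF β) : ∃ C : ℕ, 0 < C ∧ ∀ (K : IntermediateField ℚ ℂ), β ∈ K →
    ∀ (L : ℕ) (v : ℤ), L.Prime → (L : ℤ) ∣ F.al β * v ^ 2 - F.be β * v + F.ga β →
    ∀ B : ℝ, ((C : ℝ) * L) ^ C ≤ B →
    ∃ ld : LD K β L B, ∀ (s : ℂ ≃+* ℂ) (z : ℂ) (δ : ℝ), 0 < δ → δ ≤ 1 →
      (∀ y ∈ SG F.n L β, δ ≤ ‖z - s y‖) → δ ^ (L + 1) ≤ ‖(ld.G.map (sC s)).eval z‖ := by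
  classical
  obtain ⟨C1, hC1, hphi⟩ := exists_phi
  obtain ⟨C0, hC0, hlev⟩ := lev_c
  have hj : jInv (F.t β) = β := by simpa using F.j (RingEquiv.refl ℂ)
  have hal : 0 < F.al β := by simpa using F.al_pos (RingEquiv.refl ℂ)
  have hqu : (F.al β : ℂ) * (F.t β : ℂ) ^ 2 + F.be β * (F.t β : ℂ) + F.ga β = 0 := by
    simpa using F.quad (RingEquiv.refl ℂ)
  have hβOO : β ∈ OO := by
    rw [← hj]
    exact jInv_mem_of_isCM ⟨F.al β, F.be β, F.ga β, hal.ne', hqu⟩
  obtain ⟨M, hM1, hM⟩ := SigG_bd (β := β) hβOO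
  -- the constant
  refine ⟨C1 + 8 * (C0 * M) + 8, by omega, fun K hK L v hL hv B hB => ?_⟩
  have hLp : 0 < L := hL.pos
  have hL1 : (1 : ℝ) ≤ L := by exact_mod_cast hLp
  obtain ⟨Φ, hmon, hdeg, hroot, hbdd, hbdc⟩ := hphi L hL
  have hCB1 : ((C1 : ℝ) * L) ^ C1 ≤ B := by
    refine le_trans ?_ hB
    have h1 : (1 : ℝ) ≤ ((C1 + 8 * (C0 * M) + 8 : ℕ) : ℝ) * L := by
      push_cast
      have : (0 : ℝ) ≤ C1 := Nat.cast_nonneg _
      have : (0 : ℝ) ≤ (C0 : ℝ) * M := by positivity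
      nlinarith
    calc ((C1 : ℝ) * L) ^ C1 ≤ (((C1 + 8 * (C0 * M) + 8 : ℕ) : ℝ) * L) ^ C1 := by
          gcongr
          omega
      _ ≤ _ := pow_le_pow_right₀ h1 (by omega)
  -- the polynomial at `β`
  set Pb : Polynomial ℂ := Φ.map (Polynomial.eval₂RingHom (Int.castRingHom ℂ) β) with hPb
  have hPbm : Pb.Monic := hmon.map _
  have hPbd : Pb.natDegree = L + 1 := by rw [hPb, hmon.natDegree_map, hdeg]
  have hrt : ∀ y ∈ SG F.n L β, Pb.IsRoot y := fun y hy => hroot β y hy.1
  have hint : ∀ y ∈ SG F.n L β, y ∈ OO := by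
    intro y hy
    apply SigG_int
    refine ⟨Φ.map (Polynomial.eval₂RingHom (Int.castRingHom OO) ⟨β, hβOO⟩), hmon.map _, ?_⟩
    have h1 := hroot β y hy.1
    rw [Polynomial.eval_map] at h1
    rw [Polynomial.eval₂_map]
    have h2 : (algebraMap OO ℂ).comp (Polynomial.eval₂RingHom (Int.castRingHom OO) ⟨β, hβOO⟩) =
        Polynomial.eval₂RingHom (Int.castRingHom ℂ) β := by
      apply Polynomial.ringHom_ext
      · intro a
        simp
      · simp
        rfl
    rw [h2]
    exact h1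
  -- the finite set of the roots
  have hfin : {y : OO | (y : ℂ) ∈ SG F.n L β}.Finite := by
    refine Set.Finite.of_finite_image (f := fun y : OO => (y : ℂ)) ?_ Subtype.val_injective.injOn
    refine (Pb.roots.toFinset.finite_toSet).subset ?_
    rintro _ ⟨y, hy, rfl⟩
    rw [Finset.mem_coe, Multiset.mem_toFinset, Polynomial.mem_roots hPbm.ne_zero]
    exact hrt _ hy
  set T : Finset OO := hfin.toFinset with hT
  have hTm : ∀ y : OO, y ∈ T ↔ (y : ℂ) ∈ SG F.n L β := fun y => by rw [hT, Set.Finite.mem_toFinset]; rfl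
  have hTc : T.card ≤ L + 1 := by
    have h1 : (T.map ⟨fun y : OO => (y : ℂ), Subtype.val_injective⟩) ⊆ Pb.roots.toFinset := by
      intro x hx
      rw [Finset.mem_map] at hx
      obtain ⟨y, hy, rfl⟩ := hx
      rw [Multiset.mem_toFinset, Polynomial.mem_roots hPbm.ne_zero]
      exact hrt _ ((hTm y).1 hy)
    have h2 := Finset.card_le_card h1
    rw [Finset.card_map] at h2
    refine h2.trans ((Multiset.toFinset_card_le _).trans ?_)
    rw [← hPbd]
    exact Polynomial.card_roots' _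
  have hTne : T.Nonempty := by
    obtain ⟨y, hy⟩ := sig_ne F hLp hv
    exact ⟨⟨y, hint y hy⟩, (hTm _).2 hy⟩
  set G : Polynomial OO := ∏ y ∈ T, (Polynomial.X - Polynomial.C y) with hG
  have hGm : ∀ {R : Type} [CommRing R] (f : OO →+* R), G.map f = ∏ y ∈ T, (Polynomial.X - Polynomial.C (f y)) := by
    intro R _ f
    rw [hG, Polynomial.map_prod]
    simp
  have hGdeg : G.natDegree = T.card := by
    rw [hG, Polynomial.natDegree_prod_of_monic _ _ fun q _ => Polynomial.monic_X_sub_C _]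
    simp
  -- the bound for the conjugates
  have hMb : (1 : ℝ) ≤ ((C0 : ℝ) * M) ^ (2 * L) := by
    apply one_le_pow₀
    have h1 : (1 : ℝ) ≤ C0 := by exact_mod_cast hC0
    have h2 : (1 : ℝ) ≤ M := by exact_mod_cast hM1
    nlinarith
  have hsy : ∀ (s : ℂ ≃+* ℂ), ∀ y ∈ SG F.n L β, ‖s y‖ ≤ ((C0 : ℝ) * M) ^ (2 * L) := by
    intro s y hy
    refine (hlev s β y L hLp hy.1).trans ?_
    have h1 : max 1 ‖s β‖ ≤ (M : ℝ) := max_le (by exact_mod_cast hM1) (hM s)
    gcongr
  have hGb : ∀ (s : ℂ ≃+* ℂ) (k : ℕ), ‖s ((G.coeff k : OO) : ℂ)‖ ≤ Real.exp B := by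
    intro s k
    have h1 : s ((G.coeff k : OO) : ℂ) = (G.map (sC s)).coeff k := by
      rw [Polynomial.coeff_map]; rfl
    rw [h1, hGm]
    have h2 := SigG_prod T (fun y : OO => sC s y) hMb (fun y hy => hsy s y ((hTm y).1 hy)) k
    refine h2.trans ?_
    have h0 : (1 : ℝ) ≤ 2 * ((C0 : ℝ) * M) ^ (2 * L) := by linarith
    calc (2 * ((C0 : ℝ) * M) ^ (2 * L)) ^ T.card ≤ (2 * ((C0 : ℝ) * M) ^ (2 * L)) ^ (L + 1) :=
          pow_le_pow_right₀ h0 hTc
      _ ≤ (Real.exp 1 * Real.exp ((C0 : ℝ) * M) ^ (2 * L)) ^ (L + 1) := by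
          have h2 : (2 : ℝ) ≤ Real.exp 1 := by linarith [Real.add_one_le_exp (1 : ℝ)]
          have h3 : (C0 : ℝ) * M ≤ Real.exp ((C0 : ℝ) * M) := by linarith [Real.add_one_le_exp ((C0 : ℝ) * M)]
          gcongr
      _ = Real.exp ((1 + ((2 * L : ℕ) : ℝ) * ((C0 : ℝ) * M)) * ((L + 1 : ℕ) : ℝ)) := by
          rw [← Real.exp_nat_mul, ← Real.exp_add, ← Real.exp_nat_mul]
          ring_nf
      _ ≤ Real.exp B := by
          refine Real.exp_le_exp.2 (le_trans ?_ hB)
          have h4 : (1 : ℝ) ≤ ((C1 + 8 * (C0 * M) + 8 : ℕ) : ℝ) * L := by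
            push_cast
            have : (0 : ℝ) ≤ C1 := Nat.cast_nonneg _
            have : (0 : ℝ) ≤ (C0 : ℝ) * M := by positivity
            nlinarith
          calc (1 + ((2 * L : ℕ) : ℝ) * ((C0 : ℝ) * M)) * ((L + 1 : ℕ) : ℝ)
              ≤ ((8 * ((C0 : ℝ) * M) + 8) * L) ^ 2 := by
                push_cast
                have h5 : (0 : ℝ) ≤ (C0 : ℝ) * M := by positivity
                have h6 : (L : ℝ) + 1 ≤ 2 * L := by linarith
                have h7 : 1 + 2 * (L : ℝ) * ((C0 : ℝ) * M) ≤ (8 * ((C0 : ℝ) * M) + 8) * L := by nlinarith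
                have h8 : 0 ≤ 1 + 2 * (L : ℝ) * ((C0 : ℝ) * M) := by positivity
                have h9 : (L : ℝ) + 1 ≤ (8 * ((C0 : ℝ) * M) + 8) * L := by nlinarith
                calc (1 + 2 * (L : ℝ) * ((C0 : ℝ) * M)) * (L + 1) ≤ ((8 * ((C0 : ℝ) * M) + 8) * L) * ((8 * ((C0 : ℝ) * M) + 8) * L) := by
                      gcongr
                  _ = _ := by ring
            _ ≤ (((C1 + 8 * (C0 * M) + 8 : ℕ) : ℝ) * L) ^ 2 := by
                push_cast
                have : (0 : ℝ) ≤ C1 := Nat.cast_nonneg _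
                gcongr
                linarith
            _ ≤ _ := pow_le_pow_right₀ h4 (by omega)
  -- the coefficients are in `K`
  have hGK : ∀ k, ((G.coeff k : OO) : ℂ) ∈ K := by
    intro k
    refine SigG_mem K (G.coeff k).2 (fun s hs => ?_)
    have hsb : s β = β := hs β hK
    have h1 : s ((G.coeff k : OO) : ℂ) = (G.map (sC s)).coeff k := by
      rw [Polynomial.coeff_map]; rfl
    have h2 : ((G.coeff k : OO) : ℂ) = (G.map OO.subtype).coeff k := by
      rw [Polynomial.coeff_map]; rfl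
    have hmap : ∀ y ∈ T, ∃ y' ∈ T, (y' : ℂ) = s (y : ℂ) := by
      intro y hy
      have h3 := (hTm y).1 hy
      have h4 : s (y : ℂ) ∈ SG F.n L β := by
        refine ⟨?_, ?_⟩
        · have := isogDeg_map s hLp h3.1
          rwa [hsb] at this
        · exact isogDeg_map s F.n_pos h3.2
      exact ⟨⟨s y, hint _ h4⟩, (hTm _).2 h4, rfl⟩
    choose! f hfT hf using hmap
    rw [h1, h2, hGm, hGm]
    congr 1
    have hinj : Set.InjOn f T := by
      intro a ha b hb hab
      have h3 := hf a ha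
      have h4 := hf b hb
      rw [hab] at h3
      exact Subtype.ext (s.injective (h3.symm.trans h4))
    have himg : T.image f = T := by
      refine Finset.eq_of_subset_of_card_le ?_ ?_
      · intro x hx
        obtain ⟨y, hy, rfl⟩ := Finset.mem_image.1 hx
        exact hfT y hy
      · rw [Finset.card_image_of_injOn hinj]
    calc ∏ y ∈ T, (Polynomial.X - Polynomial.C (sC s y))
        = ∏ y ∈ T, (Polynomial.X - Polynomial.C (OO.subtype (f y))) := by
          refine Finset.prod_congr rfl fun y hy => ?_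
          have h3 : sC s y = OO.subtype (f y) := (hf y hy).symm
          rw [h3]
      _ = ∏ y ∈ T.image f, (Polynomial.X - Polynomial.C (OO.subtype y)) := by
          rw [Finset.prod_image hinj]
      _ = _ := by rw [himg]
  -- divisibility
  have hGdvd : G.map OO.subtype ∣ Pb := by
    rw [hGm]
    refine Finset.prod_dvd_of_coprime ?_ ?_
    · intro a _ b _ hab
      refine Polynomial.pairwise_coprime_X_sub_C (s := fun y : OO => OO.subtype y) Subtype.val_injective hab
    · intro y hy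
      rw [Polynomial.dvd_iff_isRoot]
      exact hrt _ ((hTm y).1 hy)
  refine ⟨{ Φ := Φ, G := G, monic := hmon, deg := hdeg, root := hroot,
            bdd := fun k => (hbdd k).trans hCB1,
            bdc := fun k m => (hbdc k m).trans (Real.exp_le_exp.2 hCB1),
            Gpos := ?_, Gdeg := ?_, GK := hGK, Gbd := hGb, Gdvd := hGdvd }, ?_⟩
  · rw [hGdeg]; exact Finset.card_pos.2 hTne
  · rw [hGdeg]
    refine le_trans ?_ hB
    have h4 : (1 : ℝ) ≤ ((C1 + 8 * (C0 * M) + 8 : ℕ) : ℝ) * L := by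
      push_cast
      have : (0 : ℝ) ≤ C1 := Nat.cast_nonneg _
      have : (0 : ℝ) ≤ (C0 : ℝ) * M := by positivity
      nlinarith
    calc ((T.card : ℕ) : ℝ) ≤ ((L + 1 : ℕ) : ℝ) := by exact_mod_cast hTc
      _ ≤ (((C1 + 8 * (C0 * M) + 8 : ℕ) : ℝ) * L) ^ 1 := by
          push_cast
          have : (0 : ℝ) ≤ C1 := Nat.cast_nonneg _
          have : (0 : ℝ) ≤ (C0 : ℝ) * M := by positivity
          nlinarith
      _ ≤ _ := pow_le_pow_right₀ h4 (by omega)
  · intro s z δ hδ0 hδ1 hδ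
    show δ ^ (L + 1) ≤ ‖(G.map (sC s)).eval z‖
    rw [hGm, Polynomial.eval_prod, norm_prod]
    calc δ ^ (L + 1) ≤ δ ^ T.card := pow_le_pow_of_le_one hδ0.le hδ1 hTc
      _ = ∏ y ∈ T, δ := by rw [Finset.prod_const]
      _ ≤ _ := by
          refine Finset.prod_le_prod (fun _ _ => hδ0.le) (fun y hy => ?_)
          rw [Polynomial.eval_sub, Polynomial.eval_X, Polynomial.eval_C]
          exact hδ y ((hTm y).1 hy)

end Pool.Agent.LGO.RCM
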