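import Mathlib
import Pool.Agent.LGO.RCM.Defs
import Pool.Agent.LGO.Gal.Basic
import Pool.Agent.LGO.H.JSize

/-!
# LGO/RCM: `j(h τ)` is Lipschitz near a fixed point

PROOF.  `h = γ A`, `A = (a, b; 0, d)`, `a d = L`, `0 ≤ b < d`, `γ ∈ SL₂(ℤ)` (`exists_rep`, `rep_shape'`), `j(h τ) = j(A τ)`.  The segment from `τ₀` to `τ` lies in `Im ≥ 1 / (2 B)`, `|z| ≤ B + 1`, its image under `A` in `Im ≥ 1 / (2 B L)`, `|z| ≤ L (B + 1) + 1`.
`|j(z)| ≤ C exp(2 π max(Im z, 1 / Im z))` or any explicit bound of `j` in terms of `Im z` and `1 / Im z` (`LGO/H/JSize.lean`, `norm_j_le`, `exp_im_le` in `RU/LevB`), so `|j| ≤ exp(C L)` there; Cauchy's estimate on discs of radius `1 / (4 B L)`: `|j'| ≤ 4 B L exp(C L)`; mean value inequality on the segment; `|A τ - A τ₀| ≤ L |τ - τ₀|`.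
-/

namespace Pool.Agent.LGO.RCM

open UpperHalfPlane Pool.Agent.Hhelper14.ZP Pool.Agent.LGO.RU Pool.Agent.LGO

private noncomputable def Lip_j (z : ℂ) : ℂ := jInv (ofComplex z)

private theorem Lip_diff : DifferentiableOn ℂ Lip_j {z : ℂ | 0 < z.im} :=
  UpperHalfPlane.mdifferentiable_iff.mp jInv_mdiff

private theorem Lip_coe (τ : ℍ) : Lip_j (τ : ℂ) = jInv τ := by
  rw [Lip_j, ofComplex_apply]

private theorem Lip_im (γ : Matrix.SpecialLinearGroup (Fin 2) ℤ) (τ : ℍ) : (γ • τ).im ≤ τ.im + 1 / τ.im := by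
  have hτ := τ.im_pos
  rw [ModularGroup.im_smul_eq_div_normSq, ModularGroup.denom_apply]
  by_cases hc : γ.1 1 0 = 0
  · have hd : γ.1 0 0 * γ.1 1 1 = 1 := by
      have h := γ.2
      rw [Matrix.det_fin_two, hc, mul_zero, sub_zero] at h
      exact h
    have hd2 : (1 : ℝ) ≤ (γ.1 1 1 : ℝ) ^ 2 := by
      have h1 : γ.1 1 1 ≠ 0 := by
        intro h0
        rw [h0, mul_zero] at hd
        exact zero_ne_one hd
      have h5 : 1 ≤ (γ.1 1 1) ^ 2 := by
        have := sq_pos_of_ne_zero h1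
        omega
      exact_mod_cast h5
    have h2 : Complex.normSq ((γ.1 1 0 : ℂ) * τ + (γ.1 1 1 : ℂ)) = (γ.1 1 1 : ℝ) ^ 2 := by
      rw [hc, Int.cast_zero, zero_mul, zero_add, Complex.normSq_apply]
      simp
      ring
    rw [h2]
    have h3 : τ.im / (γ.1 1 1 : ℝ) ^ 2 ≤ τ.im := div_le_self hτ.le hd2
    have h4 : 0 < 1 / τ.im := one_div_pos.2 hτ
    linarith
  · have hc2 : (1 : ℝ) ≤ (γ.1 1 0 : ℝ) ^ 2 := by
      have h5 : 1 ≤ (γ.1 1 0) ^ 2 := by
        have := sq_pos_of_ne_zero hc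
        omega
      exact_mod_cast h5
    have h2 : τ.im ^ 2 ≤ Complex.normSq ((γ.1 1 0 : ℂ) * τ + (γ.1 1 1 : ℂ)) := by
      rw [Complex.normSq_apply]
      simp only [Complex.add_re, Complex.mul_re, Complex.intCast_re, Complex.intCast_im, zero_mul, sub_zero,
        Complex.add_im, Complex.mul_im, add_zero, coe_im, coe_re]
      nlinarith [sq_nonneg ((γ.1 1 0 : ℝ) * τ.re + γ.1 1 1), mul_le_mul_of_nonneg_right hc2 (sq_nonneg τ.im)]
    have h3 : τ.im / Complex.normSq ((γ.1 1 0 : ℂ) * τ + (γ.1 1 1 : ℂ)) ≤ τ.im / τ.im ^ 2 :=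
      div_le_div_of_nonneg_left hτ.le (by positivity) h2
    have h4 : τ.im / τ.im ^ 2 = 1 / τ.im := by
      field_simp
    rw [h4] at h3
    linarith

private theorem Lip_size : ∃ C : ℝ, 0 < C ∧ ∀ τ : ℍ, ‖jInv τ‖ ≤ C * Real.exp (2 * Real.pi * (τ.im + 1 / τ.im)) := by
  obtain ⟨C, hC, h⟩ := norm_j_le
  refine ⟨C, hC, fun τ => ?_⟩
  obtain ⟨γ, hγ⟩ := ModularGroup.exists_smul_mem_fd τ
  have hred : Red ((γ • τ : ℍ) : ℂ) := by
    refine ⟨(γ • τ).im_pos, hγ.2, ?_⟩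
    have h1 := hγ.1
    rw [Complex.normSq_eq_norm_sq] at h1
    have h2 := norm_nonneg ((γ • τ : ℍ) : ℂ)
    nlinarith
  have h1 := h _ hred
  rw [jInv_smul] at h1
  refine h1.trans (mul_le_mul_of_nonneg_left (Real.exp_le_exp.2 ?_) hC.le)
  exact mul_le_mul_of_nonneg_left (Lip_im γ τ) (by positivity)

/-- the derivative bound for `z ↦ j((a z + b) / d)` -/
private theorem Lip_main {C : ℝ} (hC : 0 < C) (hs : ∀ τ : ℍ, ‖jInv τ‖ ≤ C * Real.exp (2 * Real.pi * (τ.im + 1 / τ.im)))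
    {B L a d : ℕ} {b : ℤ} (hB : 0 < B) (ha : 0 < a) (hd : 0 < d) (had : a * d = L) {z₀ z : ℂ}
    (h0 : 1 ≤ B * z₀.im) (h1 : ‖z₀‖ ≤ B) (hz : ‖z - z₀‖ ≤ 1 / (2 * B)) :
    ‖Lip_j ((a * z + b) / d) - Lip_j ((a * z₀ + b) / d)‖ ≤
      4 * B * C * Real.exp (2 * Real.pi * ((5 * B + 1) * L)) * ‖z - z₀‖ := by
  have hBr : (0 : ℝ) < B := by exact_mod_cast hB
  have hBr1 : (1 : ℝ) ≤ B := by exact_mod_cast hB
  have har : (1 : ℝ) ≤ a := by exact_mod_cast ha
  have hdr : (1 : ℝ) ≤ d := by exact_mod_cast hd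
  have hadr : (a : ℝ) * d = L := by exact_mod_cast had
  have hLr : (1 : ℝ) ≤ L := by rw [← hadr]; nlinarith
  have him0 : 1 / (B : ℝ) ≤ z₀.im := by
    rw [div_le_iff₀ hBr]
    linarith
  have him : ∀ w : ℂ, ((a * w + b) / d : ℂ).im = a * w.im / d := by
    intro w
    have e : ((a * w + b) / d : ℂ) = (a * w + b) * (((d : ℝ)⁻¹ : ℝ) : ℂ) := by
      push_cast
      rw [div_eq_mul_inv]
    rw [e, Complex.im_mul_ofReal]
    simp [div_eq_mul_inv]
  -- size near the segment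
  have hsz : ∀ w : ℂ, ‖w - z₀‖ ≤ 3 / (4 * B) → 0 < ((a * w + b) / d : ℂ).im ∧
      ‖Lip_j ((a * w + b) / d)‖ ≤ C * Real.exp (2 * Real.pi * ((5 * B + 1) * L)) := by
    intro w hw
    have h2 : |w.im - z₀.im| ≤ 3 / (4 * B) := by
      rw [← Complex.sub_im]
      exact (Complex.abs_im_le_norm _).trans hw
    have h3 : 1 / (4 * (B : ℝ)) ≤ w.im := by
      have h4 := (abs_le.1 h2).1
      have e : 1 / (B : ℝ) - 3 / (4 * B) = 1 / (4 * B) := by
        field_simp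
        norm_num
      linarith
    have h4 : w.im ≤ B + 1 := by
      have h5 : ‖w‖ ≤ ‖z₀‖ + ‖w - z₀‖ := by
        have := norm_add_le z₀ (w - z₀)
        rwa [add_sub_cancel] at this
      have h6 : 3 / (4 * (B : ℝ)) ≤ 1 := by
        rw [div_le_one (by positivity)]
        linarith
      have h7 := (le_abs_self _).trans (Complex.abs_im_le_norm w)
      linarith
    have hw0 : 0 < w.im := lt_of_lt_of_le (by positivity) h3
    have hd0 : (0 : ℝ) < d := by linarith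
    have ha0 : (0 : ℝ) < a := by linarith
    have h8 : 0 < (a * w.im / d : ℝ) := by positivity
    have h9 : (a * w.im / d : ℝ) ≤ (B + 1) * L := by
      rw [div_le_iff₀ hd0, ← hadr]
      have h10 : (a : ℝ) * w.im ≤ a * (B + 1) := mul_le_mul_of_nonneg_left h4 ha0.le
      have h11 : (1 : ℝ) ≤ d * d := by nlinarith
      have h12 : (0 : ℝ) ≤ a * (B + 1) := by positivity
      nlinarith
    have h10 : 1 / (a * w.im / d : ℝ) ≤ 4 * B * L := by
      rw [div_le_iff₀ h8, ← hadr]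
      have e : 4 * B * (a * d) * (a * w.im / d) = (4 * B * w.im) * (a * a) := by
        field_simp
      rw [e]
      have h11 : 1 ≤ 4 * B * w.im := by
        rw [div_le_iff₀ (by positivity)] at h3
        linarith
      have h12 : (1 : ℝ) ≤ a * a := by nlinarith
      nlinarith
    rw [him w]
    refine ⟨h8, ?_⟩
    have hpos : 0 < ((a * w + b) / d : ℂ).im := by rw [him w]; exact h8
    have h13 := hs ⟨_, hpos⟩
    have h14 : (⟨(a * w + b) / d, hpos⟩ : ℍ).im = a * w.im / d := him w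
    rw [h14] at h13
    have h15 : Lip_j ((a * w + b) / d) = jInv ⟨(a * w + b) / d, hpos⟩ := Lip_coe ⟨(a * w + b) / d, hpos⟩
    rw [h15]
    refine h13.trans (mul_le_mul_of_nonneg_left (Real.exp_le_exp.2 (mul_le_mul_of_nonneg_left ?_ (by positivity))) hC.le)
    calc (a * w.im / d : ℝ) + 1 / (a * w.im / d : ℝ) ≤ (B + 1) * L + 4 * B * L := add_le_add h9 h10
      _ = (5 * B + 1) * L := by ring
  have hdf : ∀ w : ℂ, ‖w - z₀‖ ≤ 3 / (4 * B) → DifferentiableAt ℂ (fun w : ℂ => Lip_j ((a * w + b) / d)) w := by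
    intro w hw
    have h2 := (hsz w hw).1
    have h3 : DifferentiableAt ℂ Lip_j ((a * w + b) / d) :=
      Lip_diff.differentiableAt ((Complex.continuous_im.isOpen_preimage _ isOpen_Ioi).mem_nhds h2)
    have h4 : DifferentiableAt ℂ (fun w : ℂ => (a * w + b) / d) w :=
      (((differentiableAt_id.const_mul (a : ℂ)).add_const (b : ℂ)).div_const (d : ℂ))
    exact DifferentiableAt.comp (g := Lip_j) (f := fun w : ℂ => ((a * w + b) / d : ℂ)) w h3 h4
  have hr : (0 : ℝ) < 1 / (4 * B) := by positivity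
  have hder : ∀ w ∈ Metric.closedBall z₀ (1 / (2 * B) : ℝ), ‖deriv (fun w : ℂ => Lip_j ((a * w + b) / d)) w‖ ≤
      4 * B * C * Real.exp (2 * Real.pi * ((5 * B + 1) * L)) := by
    intro w hw
    rw [Metric.mem_closedBall, dist_eq_norm] at hw
    have hsum : ∀ u : ℂ, ‖u - w‖ ≤ 1 / (4 * B) → ‖u - z₀‖ ≤ 3 / (4 * B) := by
      intro u hu
      have h2 : ‖u - z₀‖ ≤ ‖u - w‖ + ‖w - z₀‖ := by
        have := norm_add_le (u - w) (w - z₀)
        rwa [sub_add_sub_cancel] at this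
      have e : 1 / (4 * (B : ℝ)) + 1 / (2 * B) = 3 / (4 * B) := by
        field_simp
        norm_num
      linarith
    have h2 := Complex.norm_deriv_le_of_forall_mem_sphere_norm_le (c := w) (f := fun w : ℂ => Lip_j ((a * w + b) / d))
      (C := C * Real.exp (2 * Real.pi * ((5 * B + 1) * L))) hr ?_ ?_
    · refine h2.trans (le_of_eq ?_)
      field_simp
    · refine DifferentiableOn.diffContOnCl ?_
      rw [closure_ball _ hr.ne']
      intro u hu
      rw [Metric.mem_closedBall, dist_eq_norm] at hu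
      exact (hdf u (hsum u hu)).differentiableWithinAt
    · intro u hu
      rw [mem_sphere_iff_norm] at hu
      exact (hsz u (hsum u hu.le)).2
  have hcv := (convex_closedBall z₀ (1 / (2 * B) : ℝ)).norm_image_sub_le_of_norm_deriv_le
    (f := fun w : ℂ => Lip_j ((a * w + b) / d)) (x := z₀) (y := z) (fun w hw => ?_) hder ?_ ?_
  · exact hcv
  · rw [Metric.mem_closedBall, dist_eq_norm] at hw
    apply hdf w
    refine hw.trans ?_
    rw [div_le_div_iff₀ (by positivity) (by positivity)]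
    nlinarith
  · exact Metric.mem_closedBall_self (by positivity)
  · rw [Metric.mem_closedBall, dist_eq_norm]
    exact hz

theorem lip (B : ℕ) (hB : 0 < B) : ∃ C : ℕ, 0 < C ∧ ∀ (L : ℕ) (τ₀ τ τ₀' τ' : ℍ)
    (h : Matrix (Fin 2) (Fin 2) ℤ), 0 < L → 1 ≤ B * τ₀.im → ‖(τ₀ : ℂ)‖ ≤ B →
    ‖(τ : ℂ) - τ₀‖ ≤ 1 / (2 * B) → h.det = L → Maps h (τ₀ : ℂ) (τ₀' : ℂ) → Maps h (τ : ℂ) (τ' : ℂ) →
    ‖jInv τ' - jInv τ₀'‖ ≤ Real.exp (((C : ℝ) * L) ^ C) * ‖(τ : ℂ) - τ₀‖ := by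
  obtain ⟨C, hC, hs⟩ := Lip_size
  obtain ⟨K, hK⟩ := exists_nat_ge (4 * B * C + 2 * Real.pi * (5 * B + 1))
  refine ⟨K + 1, Nat.succ_pos K, ?_⟩
  intro L τ₀ τ τ₀' τ' h hL h1 h2 h3 hdet hm0 hm
  have e0 : τ₀' = act hL (mkDD h hdet) τ₀ := Gal.eq_act_of_maps hL hdet hm0
  have e1 : τ' = act hL (mkDD h hdet) τ := Gal.eq_act_of_maps hL hdet hm
  obtain ⟨A, hA, γ, hγ⟩ := exists_rep hL (mkDD h hdet)
  rw [hγ, act_smul] at e0 e1
  obtain ⟨a, d, b, ha, hd, had, h00, h11, hact⟩ := Pool.Agent.Hhelper14.ZPL.rep_shape' hL hA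
  have hLr : (1 : ℝ) ≤ L := by exact_mod_cast hL
  rw [e0, e1, jInv_smul, jInv_smul, ← Lip_coe (act hL A τ), ← Lip_coe (act hL A τ₀), hact, hact]
  refine (Lip_main hC hs hB ha hd had h1 h2 h3).trans (mul_le_mul_of_nonneg_right ?_ (norm_nonneg _))
  have h4 : 4 * B * C ≤ Real.exp (4 * B * C) := by
    have := Real.add_one_le_exp (4 * B * C : ℝ)
    linarith
  calc 4 * B * C * Real.exp (2 * Real.pi * ((5 * B + 1) * L))
      ≤ Real.exp (4 * B * C) * Real.exp (2 * Real.pi * ((5 * B + 1) * L)) :=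
        mul_le_mul_of_nonneg_right h4 (Real.exp_pos _).le
    _ = Real.exp (4 * B * C + 2 * Real.pi * ((5 * B + 1) * L)) := (Real.exp_add _ _).symm
    _ ≤ Real.exp ((((K + 1 : ℕ) : ℝ) * L) ^ (K + 1)) := by
        apply Real.exp_le_exp.2
        have h5 : 4 * B * C + 2 * Real.pi * ((5 * B + 1) * L) ≤ (4 * B * C + 2 * Real.pi * (5 * B + 1)) * L := by
          have h6 : (0 : ℝ) ≤ 4 * B * C := by positivity
          nlinarith
        have h6 : (4 * B * C + 2 * Real.pi * (5 * B + 1)) * L ≤ ((K + 1 : ℕ) : ℝ) * L := by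
          apply mul_le_mul_of_nonneg_right _ (by linarith)
          push_cast
          linarith
        have h7 : (1 : ℝ) ≤ ((K + 1 : ℕ) : ℝ) * L := by
          have h8 : (1 : ℝ) ≤ ((K + 1 : ℕ) : ℝ) := by exact_mod_cast Nat.succ_pos K
          nlinarith
        have h8 : ((K + 1 : ℕ) : ℝ) * L ≤ (((K + 1 : ℕ) : ℝ) * L) ^ (K + 1) := le_self_pow₀ h7 (Nat.succ_ne_zero K)
        linarith

end Pool.Agent.LGO.RCM
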