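import Mathlib
import Pool.Agent.LGO.RCM.Defs
import Pool.Agent.LGO.RU.LevB
import Pool.Agent.LGO.RU.GeoCls
import Pool.Agent.LGO.PA.FldI
import Pool.Agent.LGO.PA.QCard
import Pool.Agent.LGO.PA.Crit
import Pool.Agent.LGO.PA.Dom

/-!
# LGO/RCM: separation of the neighbours of an algebraic integer

PROOF.  `y`, `y'` are algebraic integers (`isog_norm`, `integral_of_norm_le`) in a field `K'` of degree at most `card (QQ L) ^ 2 [ℚ(β) : ℚ] ≤ (C L) ^ C` (`fld_isog` twice, `card_QQ`), all conjugates of `y - y'` are at most `2 (C max(1, |s β|)) ^ (2 L)`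
(`lev_c`; `s β` takes finitely many values); `y - y' ≠ 0`: `Bd.lower`.
-/

namespace Pool.Agent.LGO.RCM

open UpperHalfPlane Pool.Agent.Hhelper14.ZP Pool.Agent.LGO.RU Pool.Agent.LGO

private theorem Sep_int {β y : ℂ} {L : ℕ} (hL : 0 < L) (hβ : IsIntegral ℤ β) (h : IsogDeg L β y) :
    IsIntegral ℤ y := by
  have hβQ : IsAlgebraic ℚ β := (hβ.tower_top (A := ℚ)).isAlgebraic
  refine PA.integral_of_norm_le (PA.alg_isog hL h hβQ) fun p _ φ => ?_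
  exact (PA.isog_norm φ ⟨L, hL, h⟩).1 (PA.norm_le_one_of_integral φ hβ)

theorem sep {β : ℂ} (hβ : β ∈ OO) : ∃ C : ℕ, 0 < C ∧ ∀ L : ℕ, 0 < L → ∀ y y' : ℂ,
    IsogDeg L β y → IsogDeg L β y' → y ≠ y' → ∀ s : ℂ ≃+* ℂ,
      Real.exp (-(((C : ℝ) * L) ^ C)) ≤ ‖s y - s y'‖ := by
  have hi : IsIntegral ℤ β := hβ
  have hiQ : IsIntegral ℚ β := hi.tower_top
  set K₀ : IntermediateField ℚ ℂ := IntermediateField.adjoin ℚ {β} with hK₀
  have hfd : FiniteDimensional ℚ K₀ := IntermediateField.adjoin.finiteDimensional hiQ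
  have hβK : β ∈ K₀ := IntermediateField.mem_adjoin_simple_self ℚ β
  obtain ⟨-, B, hB, hBσ⟩ := alg_bd hβK
  obtain ⟨C₁, hC₁, hlev⟩ := lev_c
  obtain ⟨B₀, hB₀⟩ := exists_nat_ge (max B 1)
  have hB1 : (1 : ℝ) ≤ B₀ := (le_max_right _ _).trans hB₀
  set A : ℕ := C₁ * B₀ with hA
  set D₀ : ℕ := Module.finrank ℚ K₀ with hD₀
  have hD1 : 1 ≤ D₀ := Module.finrank_pos
  have hA1 : 1 ≤ A := by
    have : 1 ≤ B₀ := by exact_mod_cast hB1
    exact Nat.mul_pos hC₁ this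
  refine ⟨24 * D₀ * A, by positivity, fun L hL y y' hy hy' hne s => ?_⟩
  have hL1 : (1 : ℝ) ≤ L := by exact_mod_cast hL
  have hA1' : (1 : ℝ) ≤ A := by exact_mod_cast hA1
  have hD1' : (1 : ℝ) ≤ D₀ := by exact_mod_cast hD1
  -- the size
  have hsz : ∀ z : ℂ, IsogDeg L β z → ∀ s : ℂ ≃+* ℂ, ‖s z‖ ≤ Real.exp (2 * L * A) := by
    intro z hz s
    have h1 := hlev s β z L hL hz
    have h2 : (C₁ : ℝ) * max 1 ‖s β‖ ≤ A := by
      rw [hA]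
      push_cast
      refine mul_le_mul_of_nonneg_left ?_ (Nat.cast_nonneg _)
      refine max_le hB1 ?_
      exact (hBσ (s : ℂ →+* ℂ)).trans ((le_max_left _ _).trans hB₀)
    have h3 : (A : ℝ) ≤ Real.exp A := by linarith [Real.add_one_le_exp (A : ℝ)]
    calc ‖s z‖ ≤ ((C₁ : ℝ) * max 1 ‖s β‖) ^ (2 * L) := h1
      _ ≤ (Real.exp A) ^ (2 * L) := pow_le_pow_left₀ (by positivity) (h2.trans h3) _
      _ = Real.exp (2 * L * A) := by
          rw [← Real.exp_nat_mul]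
          push_cast
          rfl
  -- the field
  obtain ⟨K₁, hK₁, hfd₁, hy₁, hfr₁⟩ := PA.fld_isog K₀ hL hβK hy
  obtain ⟨K₂, hK₂, hfd₂, hy₂, hfr₂⟩ := PA.fld_isog K₁ hL (hK₁ hβK) hy'
  have hcard := PA.card_QQ hL
  have hdeg : (Module.finrank ℚ K₂ : ℝ) ≤ 4 * (L : ℝ) ^ 3 * D₀ := by
    have h1 : Module.finrank ℚ K₂ ≤ Nat.card (QQ L) * (Nat.card (QQ L) * D₀) :=
      hfr₂.trans (Nat.mul_le_mul_left _ hfr₁)
    have h2 : (Module.finrank ℚ K₂ : ℝ) ≤ (Nat.card (QQ L) : ℝ) * ((Nat.card (QQ L) : ℝ) * D₀) := by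
      exact_mod_cast h1
    calc (Module.finrank ℚ K₂ : ℝ) ≤ (Nat.card (QQ L) : ℝ) ^ 2 * D₀ := by
          rw [sq, mul_assoc]
          exact h2
      _ ≤ 4 * (L : ℝ) ^ 3 * D₀ := mul_le_mul_of_nonneg_right hcard (Nat.cast_nonneg _)
  have hmem : y - y' ∈ K₂ := K₂.sub_mem (hK₂ hy₁) hy₂
  have hint : IsIntegral ℤ (y - y') := (Sep_int hL hi hy).sub (Sep_int hL hi hy')
  have hh : (0 : ℝ) ≤ 1 + 2 * L * A := by positivity
  have hbd : Bd K₂ (1 + 2 * L * A) (y - y') := by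
    refine bd_of_aut hmem hint hh fun t => ?_
    rw [map_sub]
    have h1 := hsz y hy t
    have h2 := hsz y' hy' t
    have h3 : (2 : ℝ) ≤ Real.exp 1 := by linarith [Real.add_one_le_exp (1 : ℝ)]
    rw [Real.exp_add]
    have h4 : 0 < Real.exp (2 * L * A) := Real.exp_pos _
    have h5 := norm_sub_le (t y) (t y')
    nlinarith
  have hlow := hbd.lower hdeg hh (sub_ne_zero.mpr hne) ((s : ℂ →+* ℂ).comp (algebraMap K₂ ℂ))
  have e1 : ((s : ℂ →+* ℂ).comp (algebraMap K₂ ℂ)) ⟨y - y', hbd.mem⟩ = s y - s y' := by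
    rw [← map_sub]
    rfl
  rw [e1] at hlow
  refine le_trans (Real.exp_le_exp.2 (neg_le_neg ?_)) hlow
  have h6 : 2 * (4 * (L : ℝ) ^ 3 * D₀) * (1 + 2 * L * A) ≤ 24 * D₀ * A * L ^ 4 := by
    have h7 : (1 : ℝ) + 2 * L * A ≤ 3 * (L * A) := by nlinarith
    have h8 : (0 : ℝ) ≤ 2 * (4 * (L : ℝ) ^ 3 * D₀) := by positivity
    calc 2 * (4 * (L : ℝ) ^ 3 * D₀) * (1 + 2 * L * A) ≤ 2 * (4 * (L : ℝ) ^ 3 * D₀) * (3 * (L * A)) :=
          mul_le_mul_of_nonneg_left h7 h8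
      _ = _ := by ring
  refine h6.trans ?_
  have h9 : (4 : ℕ) ≤ 24 * D₀ * A := by nlinarith
  have h10 : (1 : ℝ) ≤ ((24 * D₀ * A : ℕ) : ℝ) := by exact_mod_cast (by omega : 1 ≤ 24 * D₀ * A)
  have h11 : (1 : ℝ) ≤ ((24 * D₀ * A : ℕ) : ℝ) * L := one_le_mul_of_one_le_of_one_le h10 hL1
  calc 24 * (D₀ : ℝ) * A * L ^ 4 = ((24 * D₀ * A : ℕ) : ℝ) ^ 1 * (L : ℝ) ^ 4 := by push_cast; ring
    _ ≤ ((24 * D₀ * A : ℕ) : ℝ) ^ 4 * (L : ℝ) ^ 4 :=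
        mul_le_mul_of_nonneg_right (pow_le_pow_right₀ h10 (by norm_num)) (by positivity)
    _ = (((24 * D₀ * A : ℕ) : ℝ) * L) ^ 4 := by rw [mul_pow]
    _ ≤ (((24 * D₀ * A : ℕ) : ℝ) * L) ^ (24 * D₀ * A) := pow_le_pow_right₀ h11 h9

end Pool.Agent.LGO.RCM
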