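import Mathlib
import Pool.Agent.LGO.RCM.Defs
import Pool.Agent.LGO.Gal.Basic

/-!
# LGO/RCM: a neighbour of a CM point with an endomorphism of small degree comes from an eigenline

`τ` is a CM point with the primitive form `(al, be, ga)`, `h` an integral matrix of determinant `L` (a large prime) mapping `τ` to `τ'`, and `τ'` is fixed by an integral matrix `M'` of determinant `n`, not a square, `4 n < L ^ 2`.  Then `L` divides `al d ^ 2 - be c d + ga c ^ 2` for every `(c, d)` in the row lattice of `h`.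
PROOF.  (1) an integral matrix `(p, q; r, s)` fixes `τ` iff `(r, s - p, -q) = y (al, be, ga)` with an integer `y` (the form is primitive, `al ≠ 0`, `τ` is not real), and then `4 det = x ^ 2 - y ^ 2 Δ`, `x = p + s`, `Δ = be ^ 2 - 4 al ga < 0`.
(2) `M'' = adj(h) M' h` fixes `τ`, `det M'' = L ^ 2 n`, its trace is `L tr M'`: `4 L ^ 2 n = (L x') ^ 2 - y'' ^ 2 Δ`, so `L ^ 2 ∣ y'' ^ 2 Δ`, `L ∣ y''` (`L` does not divide `Δ`); so `q'' ≡ r'' ≡ 0`, `p'' ≡ s''`, `p'' + s'' ≡ 0` modulo `L`, `L` odd: `M'' = L M₃`, `M₃` integral, `h M₃ = M' h` (`h adj(h) = L`), `M₃` fixes `τ`, `det M₃ = n`.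
(3) `(c, d) = w h`; `(c, d) M₃ = w M' h`: the determinant of the two rows `(c, d)`, `(c, d) M₃` is divisible by `det h = L`; it is `- y₃ (al d ^ 2 - be c d + ga c ^ 2)`.  `4 n = x₃ ^ 2 - y₃ ^ 2 Δ`: `y₃ ≠ 0` since `n` is not a square, `y₃ ^ 2 ≤ 4 n < L ^ 2`, so `L` does not divide `y₃`.
-/

namespace Pool.Agent.LGO.RCM

open UpperHalfPlane Pool.Agent.Hhelper14.ZP Pool.Agent.LGO.RU Pool.Agent.LGO

private theorem SigX_indep (τ : ℍ) {u v : ℤ} (h : (u : ℂ) * (τ : ℂ) + v = 0) : u = 0 ∧ v = 0 := by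
  have him := congrArg Complex.im h
  have hre := congrArg Complex.re h
  simp at him hre
  have hu : u = 0 := by
    rcases him with h1 | h1
    · exact h1
    · exact absurd h1 τ.im_ne_zero
  subst hu
  simp at hre
  exact ⟨rfl, hre⟩

private theorem SigX_fix {τ : ℍ} {al be ga : ℤ} (ha : 0 < al)
    (hp : ∀ d : ℤ, d ∣ al → d ∣ be → d ∣ ga → IsUnit d)
    (hq : (al : ℂ) * (τ : ℂ) ^ 2 + be * (τ : ℂ) + ga = 0)
    (M : Matrix (Fin 2) (Fin 2) ℤ) (hM : Maps M (τ : ℂ) (τ : ℂ)) :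
    ∃ y : ℤ, M 1 0 = y * al ∧ M 1 1 - M 0 0 = y * be ∧ - M 0 1 = y * ga := by
  rw [Maps] at hM
  have h1 := SigX_indep τ (u := al * (M 1 1 - M 0 0) - M 1 0 * be) (v := - (al * M 0 1) - M 1 0 * ga) (by
    push_cast
    linear_combination (al : ℂ) * hM - (M 1 0 : ℂ) * hq)
  obtain ⟨h2, h3⟩ := h1
  -- Bezout
  have hg : IsUnit ((Int.gcd (Int.gcd al be) ga : ℕ) : ℤ) := by
    refine hp _ ?_ ?_ ?_
    · exact (Int.gcd_dvd_left _ _).trans (Int.gcd_dvd_left _ _)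
    · exact (Int.gcd_dvd_left _ _).trans (Int.gcd_dvd_right _ _)
    · exact Int.gcd_dvd_right _ _
  have hg1 : Int.gcd (Int.gcd al be) ga = 1 := by
    have h4 := Int.isUnit_iff.1 hg
    omega
  have hb1 := Int.gcd_eq_gcd_ab (Int.gcd al be : ℤ) ga
  have hb2 := Int.gcd_eq_gcd_ab al be
  rw [hg1] at hb1
  rw [hb2] at hb1
  push_cast at hb1
  set u1 := Int.gcdA al be
  set v1 := Int.gcdB al be
  generalize Int.gcdA (al * u1 + be * v1) ga = u2 at hb1
  generalize Int.gcdB (al * u1 + be * v1) ga = v2 at hb1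
  have hdvd : al ∣ M 1 0 := by
    have h5 : M 1 0 = al * (M 1 0 * u1 * u2 + (M 1 1 - M 0 0) * v1 * u2 - M 0 1 * v2) := by
      linear_combination (M 1 0) * hb1 - v1 * u2 * h2 - v2 * h3
    exact Dvd.intro _ h5.symm
  obtain ⟨y, hy⟩ := hdvd
  refine ⟨y, by rw [hy]; ring, ?_, ?_⟩
  · apply mul_left_cancel₀ ha.ne'
    rw [hy] at h2
    linear_combination h2
  · apply mul_left_cancel₀ ha.ne'
    rw [hy] at h3
    linear_combination h3

private theorem SigX_neg {τ : ℍ} {al be ga : ℤ} (ha : 0 < al)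
    (hq : (al : ℂ) * (τ : ℂ) ^ 2 + be * (τ : ℂ) + ga = 0) : be ^ 2 - 4 * al * ga < 0 := by
  have him := congrArg Complex.im hq
  have hre := congrArg Complex.re hq
  simp [pow_two] at him hre
  have hy : 0 < τ.im := τ.im_pos
  have h1 : 2 * (al : ℝ) * τ.re + be = 0 := by
    apply mul_right_cancel₀ hy.ne'
    linear_combination him
  have h2 : ((be : ℝ) ^ 2 - 4 * al * ga) = - (4 * (al : ℝ) ^ 2 * τ.im ^ 2) := by
    linear_combination (-4 * (al : ℝ)) * hre + (be + 2 * (al : ℝ) * τ.re) * h1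
  have h3 : ((be : ℝ) ^ 2 - 4 * al * ga) < 0 := by
    rw [h2]
    have : (0 : ℝ) < al := by exact_mod_cast ha
    have : 0 < 4 * (al : ℝ) ^ 2 * τ.im ^ 2 := by positivity
    linarith
  exact_mod_cast h3

theorem sig_x {L n : ℕ} (hL : L.Prime) (h2 : L ≠ 2) (hLn : 4 * n < L ^ 2) (hn : ¬ IsSquare n)
    {τ τ' : ℍ} {al be ga : ℤ} (ha : 0 < al)
    (hp : ∀ d : ℤ, d ∣ al → d ∣ be → d ∣ ga → IsUnit d)
    (hq : (al : ℂ) * (τ : ℂ) ^ 2 + be * (τ : ℂ) + ga = 0)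
    (hD : ¬ (L : ℤ) ∣ be ^ 2 - 4 * al * ga) (h : Matrix (Fin 2) (Fin 2) ℤ) (hh : h.det = L)
    (hm : Maps h (τ : ℂ) (τ' : ℂ)) (hy : IsogDeg n (jInv τ') (jInv τ')) (w : Fin 2 → ℤ) (c d : ℤ)
    (hc : c = w 0 * h 0 0 + w 1 * h 1 0) (hd : d = w 0 * h 0 1 + w 1 * h 1 1) :
    (L : ℤ) ∣ al * d ^ 2 - be * c * d + ga * c ^ 2 := by
  have hn0 : 0 < n := by
    rcases Nat.eq_zero_or_pos n with h0 | h0
    · subst h0
      exact absurd (IsSquare.zero) hn
    · exact h0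
  have hLi : Prime (L : ℤ) := Nat.prime_iff_prime_int.1 hL
  have hL0 : (L : ℤ) ≠ 0 := hLi.ne_zero
  obtain ⟨M', hM'd, hM'⟩ := (Gal.isogDeg_iff_maps hn0 τ' τ').1 hy
  have hM2 : Maps (h.adjugate * (M' * h)) (τ : ℂ) (τ : ℂ) := Maps.mul (Maps.mul hm hM') hm.adj
  obtain ⟨y2, hy1, hy2, hy3⟩ := SigX_fix ha hp hq _ hM2
  set M2 := h.adjugate * (M' * h) with hM2def
  have hdet2 : M2.det = L ^ 2 * n := by
    rw [hM2def, Matrix.det_mul, Matrix.det_mul, det_adjugate_eq, hh, hM'd]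
    ring
  have htr : M2 0 0 + M2 1 1 = L * (M' 0 0 + M' 1 1) := by
    have h5 : M2.trace = (L : ℤ) * M'.trace := by
      rw [hM2def, Matrix.trace_mul_comm, Matrix.mul_assoc, Matrix.mul_adjugate, hh]
      rw [Matrix.mul_smul, Matrix.mul_one, Matrix.trace_smul, smul_eq_mul]
    rw [Matrix.trace_fin_two, Matrix.trace_fin_two] at h5
    exact h5
  rw [Matrix.det_fin_two] at hdet2
  -- `L ∣ y2`
  have hLy : (L : ℤ) ∣ y2 := by
    have h5 : y2 ^ 2 * (be ^ 2 - 4 * al * ga) = L * (L * ((M' 0 0 + M' 1 1) ^ 2 - 4 * n)) := by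
      have e1 : (M2 1 1 - M2 0 0) ^ 2 = (y2 * be) ^ 2 := by rw [hy2]
      have e2 : (M2 0 0 + M2 1 1) ^ 2 = (L * (M' 0 0 + M' 1 1)) ^ 2 := by rw [htr]
      have e3 : M2 0 1 * M2 1 0 = - (y2 * ga) * (y2 * al) := by rw [hy1, ← hy3]; ring
      linear_combination (-1 : ℤ) * e1 + e2 - 4 * hdet2 - 4 * e3
    have h6 : (L : ℤ) ∣ y2 ^ 2 * (be ^ 2 - 4 * al * ga) := by
      rw [h5]
      exact Dvd.intro _ rfl
    rcases hLi.dvd_or_dvd h6 with h7 | h7
    · exact hLi.dvd_of_dvd_pow h7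
    · exact absurd h7 hD
  obtain ⟨y3, hy3'⟩ := hLy
  subst hy3'
  -- `L` divides the entries
  have h00 : (L : ℤ) ∣ M2 0 0 := by
    have h5 : (2 : ℤ) * M2 0 0 = L * ((M' 0 0 + M' 1 1) - y3 * be) := by
      linear_combination htr - hy2
    have h6 : (L : ℤ) ∣ 2 * M2 0 0 := Dvd.intro _ h5.symm
    rcases hLi.dvd_or_dvd h6 with h7 | h7
    · exfalso
      have h8 : L ∣ 2 := by exact_mod_cast h7
      exact h2 ((Nat.prime_dvd_prime_iff_eq hL Nat.prime_two).1 h8)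
    · exact h7
  obtain ⟨p3, hp3⟩ := h00
  have hq3 : M2 0 1 = L * (- (y3 * ga)) := by linear_combination -hy3
  have hr3 : M2 1 0 = L * (y3 * al) := by linear_combination hy1
  have hs3 : M2 1 1 = L * (p3 + y3 * be) := by linear_combination hy2 + hp3
  -- `h M3 = M' h`
  have hcomm : h * M2 = (L : ℤ) • (M' * h) := by
    rw [hM2def, ← Matrix.mul_assoc, Matrix.mul_adjugate, hh]
    rw [Matrix.smul_mul, Matrix.one_mul]
  have hc00 := congrFun (congrFun hcomm 0) 0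
  have hc01 := congrFun (congrFun hcomm 0) 1
  have hc10 := congrFun (congrFun hcomm 1) 0
  have hc11 := congrFun (congrFun hcomm 1) 1
  simp only [Matrix.mul_apply, Fin.sum_univ_two, Matrix.smul_apply, smul_eq_mul, hp3, hq3, hr3, hs3] at hc00 hc01 hc10 hc11
  have hd00 : h 0 0 * p3 + h 0 1 * (y3 * al) = M' 0 0 * h 0 0 + M' 0 1 * h 1 0 := by
    apply mul_left_cancel₀ hL0
    linear_combination hc00
  have hd01 : h 0 0 * (- (y3 * ga)) + h 0 1 * (p3 + y3 * be) = M' 0 0 * h 0 1 + M' 0 1 * h 1 1 := by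
    apply mul_left_cancel₀ hL0
    linear_combination hc01
  have hd10 : h 1 0 * p3 + h 1 1 * (y3 * al) = M' 1 0 * h 0 0 + M' 1 1 * h 1 0 := by
    apply mul_left_cancel₀ hL0
    linear_combination hc10
  have hd11 : h 1 0 * (- (y3 * ga)) + h 1 1 * (p3 + y3 * be) = M' 1 0 * h 0 1 + M' 1 1 * h 1 1 := by
    apply mul_left_cancel₀ hL0
    linear_combination hc11
  -- determinant of `M3`
  have hdet3 : p3 * (p3 + y3 * be) + y3 ^ 2 * (al * ga) = n := by
    have h5 : (L : ℤ) ^ 2 ≠ 0 := pow_ne_zero _ hL0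
    apply mul_left_cancel₀ h5
    rw [hp3, hq3, hr3, hs3] at hdet2
    linear_combination hdet2
  have hx3 : (2 * p3 + y3 * be) ^ 2 - y3 ^ 2 * (be ^ 2 - 4 * al * ga) = 4 * n := by
    linear_combination 4 * hdet3
  have hy30 : y3 ≠ 0 := by
    rintro rfl
    apply hn
    have h5 : p3 * p3 = n := by linear_combination hdet3
    refine ⟨p3.natAbs, ?_⟩
    have h6 : ((p3.natAbs * p3.natAbs : ℕ) : ℤ) = p3 * p3 := Int.natAbs_mul_self
    have h7 : ((n : ℕ) : ℤ) = ((p3.natAbs * p3.natAbs : ℕ) : ℤ) := by rw [h6, h5]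
    exact_mod_cast h7
  have hΔ := SigX_neg ha hq
  have hyb : y3 ^ 2 ≤ 4 * n := by nlinarith [sq_nonneg (2 * p3 + y3 * be), sq_nonneg y3]
  have hndvd : ¬ (L : ℤ) ∣ y3 := by
    rintro ⟨k, hk⟩
    have hk0 : k ≠ 0 := by
      rintro rfl
      exact hy30 (by rw [hk, mul_zero])
    have h5 : (4 : ℤ) * n < L ^ 2 := by exact_mod_cast hLn
    have h6 : (1 : ℤ) ≤ k ^ 2 := by
      have : 0 < k ^ 2 := by positivity
      omega
    have h7 : (L : ℤ) ^ 2 ≤ y3 ^ 2 := by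
      rw [hk, mul_pow]
      nlinarith [sq_nonneg (L : ℤ)]
    linarith
  have hkey : (L : ℤ) ∣ y3 * (al * d ^ 2 - be * c * d + ga * c ^ 2) := by
    rw [Matrix.det_fin_two] at hh
    have h5 : y3 * (al * d ^ 2 - be * c * d + ga * c ^ 2) =
        L * (- (w 0 * (w 0 * M' 0 1 + w 1 * M' 1 1) - w 1 * (w 0 * M' 0 0 + w 1 * M' 1 0))) := by
      -- the rows `(c, d)` and `(c, d) M3`
      have e1 : c * p3 + d * (y3 * al) = (w 0 * M' 0 0 + w 1 * M' 1 0) * h 0 0 + (w 0 * M' 0 1 + w 1 * M' 1 1) * h 1 0 := by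
        rw [hc, hd]
        linear_combination (w 0) * hd00 + (w 1) * hd10
      have e2 : c * (- (y3 * ga)) + d * (p3 + y3 * be) = (w 0 * M' 0 0 + w 1 * M' 1 0) * h 0 1 + (w 0 * M' 0 1 + w 1 * M' 1 1) * h 1 1 := by
        rw [hc, hd]
        linear_combination (w 0) * hd01 + (w 1) * hd11
      have e3 : c * (c * (- (y3 * ga)) + d * (p3 + y3 * be)) - d * (c * p3 + d * (y3 * al)) =
          (h 0 0 * h 1 1 - h 0 1 * h 1 0) * (w 0 * (w 0 * M' 0 1 + w 1 * M' 1 1) - w 1 * (w 0 * M' 0 0 + w 1 * M' 1 0)) := by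
        rw [e1, e2, hc, hd]
        ring
      rw [hh] at e3
      linear_combination (-1 : ℤ) * e3
    rw [h5]
    exact Dvd.intro _ rfl
  rcases hLi.dvd_or_dvd hkey with h5 | h5
  · exact absurd h5 hndvd
  · exact h5

end Pool.Agent.LGO.RCM
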