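import Mathlib
import Pool.Agent.LGO.RCM.SigX
import Pool.Agent.LGO.RCM.Sep
import Pool.Agent.LGO.RCM.Lip
import Pool.Agent.LGO.RU.TypC

/-!
# LGO/RCM: the type at a complex place near the point at infinity

Compare `typ_c` (`LGO/RU/TypC.lean`).  PROOF.  `TypC_rep`-like: a representative `(a, b; 0, d)`, `a d = L`, `τ₁`, `j τ₁ = s ya`, `exp(2 π i τ₁) ^ d = exp(2 π i τ) ^ a`; `L` prime: `a = 1`, `d = L`: first case.  Or `a = L`, `d = 1`: `A = (L, b; 0, 1)` maps `τ` to `τ₁`.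
`s yb = j(τ₁')`, `h` integral of determinant `L`, `Maps h τ' τ₁'` (`Gal.isogDeg_iff_act`), `g'` integral of determinant `N`, `Maps g' τ₁' τ₁` (`mdeg (s ya) (s yb) = N`, `exists_prim_mdeg`).  `A g` and `g' h` map `τ'` to `τ₁`, `τ'` is not CM, both have determinant `L N > 0`: `A g = ± g' h` (`NonCM.prop`).
Lower rows: `(c, d) = (g 1 0, g 1 1) = ± (g' 1 0, g' 1 1) h`, so it is in the row lattice of `h`.  Let `t = F.t (s β)`, `t' = h t` (`Maps h t t'`), `y' = j(t')`: `IsogDeg L (s β) y'`.  If `IsogDeg F.n y' y'` then `sig_x` (`F.al_pos`, `F.prim`, `F.quad`, `F.disc`: `L` does not divide the discriminant because it does not divide `F.B`): `L ∣ Qf`, excluded.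
So for `w ∈ SG F.n L β`: `y' ≠ s w` (`isogDeg_map`), `sep` for `s⁻¹ y'` and `w` (`β ∈ OO` by `F.quad`, `jInv_mem_of_isCM`): `‖y' - s w‖ ≥ exp(-(C L) ^ C)`, and `lip`: `‖s yb - y'‖ ≤ exp((C L) ^ C) ‖τ' - t‖` is at most half of it.
-/

namespace Pool.Agent.LGO.RCM

open UpperHalfPlane Pool.Agent.Hhelper14.ZP Pool.Agent.Hhelper14.ZPL Pool.Agent.LGO.RU
  Pool.Agent.LGO

private theorem TypCC_rep {L : ℕ} (hL : 0 < L) {z w : ℂ} {τ : ℍ} (hz : jInv τ = z)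
    (h : IsogDeg L z w) :
    ∃ (a d : ℕ) (b : ℤ) (τ₁ : ℍ), 0 < a ∧ 0 < d ∧ a * d = L ∧ jInv τ₁ = w ∧
      Complex.exp (2 * Real.pi * Complex.I * τ₁) ^ d = Complex.exp (2 * Real.pi * Complex.I * τ) ^ a ∧
      Maps !![(a : ℤ), b; 0, (d : ℤ)] (τ : ℂ) (τ₁ : ℂ) := by
  subst hz
  obtain ⟨A, hA⟩ := (Gal.isogDeg_iff_act hL τ w).mp h
  obtain ⟨B, hB, γ, rfl⟩ := exists_rep hL A
  rw [act_smul, jInv_smul] at hA
  obtain ⟨a, d, b, ha, hd, had, h00, h11, hact⟩ := rep_shape' hL hB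
  have hd' : (d : ℂ) ≠ 0 := by exact_mod_cast hd.ne'
  refine ⟨a, d, b, act hL B τ, ha, hd, had, hA.symm, ?_, ?_⟩
  · rw [← Complex.exp_nat_mul, ← Complex.exp_nat_mul, Complex.exp_eq_exp_iff_exists_int]
    refine ⟨b, ?_⟩
    rw [hact τ]
    field_simp
  · rw [Maps, hact τ]
    simp only [Matrix.of_apply, Matrix.cons_val', Matrix.cons_val_zero, Matrix.cons_val_one,
      Matrix.cons_val_fin_one, Int.cast_zero, zero_mul, zero_add, Int.cast_natCast]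
    field_simp

/-- the exponents -/
private theorem TypCC_pow {C₁ C₂ B L : ℕ} (h1 : 0 < C₁) (h2 : 0 < C₂) (hB : 0 < B) (hL : 0 < L) :
    ((C₁ : ℝ) * L) ^ C₁ + ((C₂ : ℝ) * L) ^ C₂ + 2 * B ≤
      (((C₁ + C₂ + 2 * B + 1 : ℕ) : ℝ) * L) ^ (C₁ + C₂ + 2 * B + 1) := by
  set C : ℕ := C₁ + C₂ + 2 * B + 1 with hC
  set u : ℝ := (C : ℝ) * L with hu
  have hL1 : (1 : ℝ) ≤ L := by exact_mod_cast hL
  have hC5 : (5 : ℝ) ≤ C := by
    have : 5 ≤ C := by omega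
    exact_mod_cast this
  have hu5 : 5 ≤ u := by nlinarith
  have hu1 : (1 : ℝ) ≤ u := by linarith
  have e1 : (C₁ : ℝ) * L ≤ u := by
    apply mul_le_mul_of_nonneg_right _ (by positivity)
    have : C₁ ≤ C := by omega
    exact_mod_cast this
  have e2 : (C₂ : ℝ) * L ≤ u := by
    apply mul_le_mul_of_nonneg_right _ (by positivity)
    have : C₂ ≤ C := by omega
    exact_mod_cast this
  have e3 : (2 : ℝ) * B ≤ u := by
    have h3 : (2 : ℝ) * B ≤ C := by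
      have : 2 * B ≤ C := by omega
      exact_mod_cast this
    nlinarith
  have f1 : ((C₁ : ℝ) * L) ^ C₁ ≤ u ^ (C - 1) :=
    (pow_le_pow_left₀ (by positivity) e1 _).trans (pow_le_pow_right₀ hu1 (by omega))
  have f2 : ((C₂ : ℝ) * L) ^ C₂ ≤ u ^ (C - 1) :=
    (pow_le_pow_left₀ (by positivity) e2 _).trans (pow_le_pow_right₀ hu1 (by omega))
  have f3 : (2 : ℝ) * B ≤ u ^ (C - 1) := e3.trans (le_self_pow₀ hu1 (by omega))
  have f4 : u ^ C = u ^ (C - 1) * u := by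
    rw [← pow_succ]
    congr 1
  rw [f4]
  have f5 : 0 ≤ u ^ (C - 1) := by positivity
  nlinarith

/-- the final estimate -/
private theorem TypCC_est {A B E δ ε : ℝ} (hB : 0 ≤ B) (hE : A + B + 1 ≤ E)
    (hδ : Real.exp (-A) ≤ δ) (hε : ε ≤ Real.exp B * Real.exp (-E)) :
    Real.exp (-E) ≤ δ - ε := by
  have h1 : Real.exp B * Real.exp (-E) ≤ Real.exp (-A) * Real.exp (-1) := by
    rw [← Real.exp_add, ← Real.exp_add]
    exact Real.exp_le_exp.mpr (by linarith)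
  have h2 : Real.exp (-E) ≤ Real.exp (-A) * Real.exp (-1) := by
    rw [← Real.exp_add]
    exact Real.exp_le_exp.mpr (by linarith)
  have h3 : Real.exp (-1) ≤ 1 / 2 := by
    have h4 : (2 : ℝ) ≤ Real.exp 1 := by
      have := Real.add_one_le_exp (1 : ℝ)
      linarith
    rw [Real.exp_neg, inv_eq_one_div]
    exact one_div_le_one_div_of_le (by norm_num) h4
  have h5 : 0 < Real.exp (-A) := Real.exp_pos _
  nlinarith

/-- the neighbours with an endomorphism of degree `F.n` are far away -/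
private theorem TypCC_far {β : ℂ} (F : CMF β) {L : ℕ} (hL : L.Prime) (h2 : L ≠ 2)
    (hn : 4 * F.n < L ^ 2) (hB : ¬ L ∣ F.B) (s : ℂ ≃+* ℂ) {t' : ℍ}
    (h : Matrix (Fin 2) (Fin 2) ℤ) (hh : h.det = L) (hm : Maps h (F.t (s β) : ℂ) (t' : ℂ))
    (w : Fin 2 → ℤ) (c d : ℤ)
    (hc : c = w 0 * h 0 0 + w 1 * h 1 0) (hd : d = w 0 * h 0 1 + w 1 * h 1 1)
    (hQ : ¬ (L : ℤ) ∣ Qf F (s β) c d) :
    ¬ IsogDeg F.n (jInv t') (jInv t') := by
  intro hy
  apply hQ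
  refine sig_x hL h2 hn F.nsq (F.al_pos s) (F.prim s) (F.quad s) ?_ h hh hm hy w c d hc hd
  intro h3
  exact hB (Int.natCast_dvd_natCast.mp (h3.trans (F.disc s)))

private theorem TypCC_mem {β : ℂ} (F : CMF β) : β ∈ OO := by
  have h1 : jInv (F.t (RingEquiv.refl ℂ β)) = RingEquiv.refl ℂ β := F.j (RingEquiv.refl ℂ)
  have h2 : IsCM (F.t (RingEquiv.refl ℂ β)) :=
    ⟨_, _, _, (F.al_pos (RingEquiv.refl ℂ)).ne', F.quad (RingEquiv.refl ℂ)⟩
  have h3 := jInv_mem_of_isCM h2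
  rw [h1] at h3
  exact h3

theorem typ_cc {β : ℂ} (F : CMF β) : ∃ C : ℕ, 0 < C ∧ ∀ (L : ℕ), L.Prime → L ≠ 2 →
    4 * F.n < L ^ 2 → ¬ L ∣ F.B → ∀ (s : ℂ ≃+* ℂ) (x y ya yb : ℂ), NCM x → HeckeRel x y →
    mdeg ya yb = mdeg x y → IsogDeg L x ya → IsogDeg L y yb →
    ∀ (τ τ' : ℍ) (g : Matrix (Fin 2) (Fin 2) ℤ), 1 < τ.im → jInv τ = s x → jInv τ' = s y →
    g.det = mdeg x y → Prim g → Maps g (τ' : ℂ) (τ : ℂ) →
    ¬ (L : ℤ) ∣ Qf F (s β) (g 1 0) (g 1 1) →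
    ‖(τ' : ℂ) - F.t (s β)‖ ≤ Real.exp (-(((C : ℝ) * L) ^ C)) →
    ∃ τ₁ : ℍ, jInv τ₁ = s ya ∧
      (Complex.exp (2 * Real.pi * Complex.I * τ₁) ^ L = Complex.exp (2 * Real.pi * Complex.I * τ) ∨
      (Complex.exp (2 * Real.pi * Complex.I * τ₁) = Complex.exp (2 * Real.pi * Complex.I * τ) ^ L ∧
        ∀ w ∈ SG F.n L β, Real.exp (-(((C : ℝ) * L) ^ C)) ≤ ‖s yb - s w‖)) := by
  obtain ⟨C₁, hC₁, hsep⟩ := sep (TypCC_mem F)
  obtain ⟨C₂, hC₂, hlip⟩ := lip F.B F.B_pos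
  refine ⟨C₁ + C₂ + 2 * F.B + 1, by omega, ?_⟩
  intro L hLp hL2 hLn hLB s x y ya yb hx h hab ha hb τ τ' g h1 e1 e2 hgN hgp hgm hQf hclose
  have hL : 0 < L := hLp.pos
  have hpw := TypCC_pow hC₁ hC₂ F.B_pos hL
  set E : ℝ := (((C₁ + C₂ + 2 * F.B + 1 : ℕ) : ℝ) * L) ^ (C₁ + C₂ + 2 * F.B + 1) with hE
  obtain ⟨a, d, b, τ₁, ha0, hd0, had, hj, hexp, hmap⟩ := TypCC_rep hL e1 (isogDeg_map s hL ha)
  refine ⟨τ₁, hj, ?_⟩
  rcases (Nat.dvd_prime hLp).mp ⟨d, had.symm⟩ with ha1 | haL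
  · left
    have hd1 : d = L := by rw [← had, ha1, one_mul]
    rw [ha1, hd1, pow_one] at hexp
    exact hexp
  right
  have hd1 : d = 1 := by
    rw [haL] at had
    exact Nat.eq_of_mul_eq_mul_left hL (by rw [had, mul_one])
  refine ⟨by rw [haL, hd1, pow_one] at hexp; exact hexp, ?_⟩
  -- the neighbour of `s y`
  have hbs : IsogDeg L (jInv τ') (s yb) := by
    rw [e2]
    exact isogDeg_map s hL hb
  obtain ⟨A', hA'⟩ := (Gal.isogDeg_iff_act hL τ' (s yb)).mp hbs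
  have hmap' := Gal.maps_act hL A' τ'
  have hdet' : A'.1.det = L := A'.2
  set τ₁' : ℍ := act hL A' τ' with hτ₁'
  -- the point is not CM
  obtain ⟨N₀, hN₀, hI⟩ := heckeRel_iff.mp h
  have hy : NCM (s y) := by
    have h3 : NCM y := by
      rw [ncm_iff] at hx ⊢
      rwa [← hI.isCMVal_iff hN₀]
    exact (ncm_map_iff s).mpr h3
  have hτ' : NonCM (τ' : ℂ) := by
    rw [← ncm_jInv, e2]
    exact hy
  -- the second primitive matrix
  have hIb : IsogDeg (L * N₀ * L) yb ya := (hb.symm.trans hN₀ hI.symm).trans hL ha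
  have hpos : 0 < L * N₀ * L := Nat.mul_pos (Nat.mul_pos hL hN₀) hL
  have hsIb : IsogDeg (L * N₀ * L) (jInv τ₁') (jInv τ₁) := by
    rw [hj, ← hA']
    exact isogDeg_map s hpos hIb
  obtain ⟨g', hg', hg0', hgp', hgm'⟩ := exists_prim_mdeg ⟨_, hpos, hsIb⟩
  have hgN' : g'.det = mdeg x y := by
    rw [hg', hj, ← hA', mdeg_map, mdeg_symm, hab]
  -- the two products
  set P := !![(a : ℤ), b; 0, (d : ℤ)] * g with hP
  set Q := g' * A'.1 with hQ
  have hPm : Maps P (τ' : ℂ) (τ₁ : ℂ) := hgm.mul hmap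
  have hQm : Maps Q (τ' : ℂ) (τ₁ : ℂ) := hmap'.mul hgm'
  have hdA : (!![(a : ℤ), b; 0, (d : ℤ)]).det = L := by
    rw [Matrix.det_fin_two_of, ← had]
    push_cast
    ring
  have hPd : P.det = (L : ℤ) * (mdeg x y : ℤ) := by rw [hP, Matrix.det_mul, hdA, hgN]
  have hQd : Q.det = (L : ℤ) * (mdeg x y : ℤ) := by
    rw [hQ, Matrix.det_mul, hdet', hgN', mul_comm]
  have hN1 : 0 < (mdeg x y : ℤ) := by rw [← hgN']; exact hg0'
  have hΔ : 0 < P.det := by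
    rw [hPd]
    have : (0 : ℤ) < (L : ℤ) := by exact_mod_cast hL
    positivity
  obtain ⟨c, hc⟩ := hτ'.prop hPm hQm
  have hc2 : c = P.det ∨ c = -P.det := by
    have h3 := congrArg Matrix.det hc
    rw [Matrix.det_smul, Matrix.det_smul, hQd, ← hPd] at h3
    simp only [Fintype.card_fin] at h3
    have h4 : c ^ 2 = P.det ^ 2 := by
      apply mul_right_cancel₀ hΔ.ne'
      linear_combination -h3
    exact sq_eq_sq_iff_eq_or_eq_neg.mp h4
  have hP1 : ∀ j, P 1 j = g 1 j := by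
    intro j
    rw [hP, Matrix.mul_apply, Fin.sum_univ_two, hd1]
    simp
  have hQ1 : ∀ j, Q 1 j = g' 1 0 * A'.1 0 j + g' 1 1 * A'.1 1 j := by
    intro j
    rw [hQ, Matrix.mul_apply, Fin.sum_univ_two]
  have hw : ∃ w : Fin 2 → ℤ, ∀ j, g 1 j = w 0 * A'.1 0 j + w 1 * A'.1 1 j := by
    rcases hc2 with h4 | h4
    · refine ⟨g' 1, fun j => ?_⟩
      have h3 := congrFun (congrFun hc 1) j
      simp only [Matrix.smul_apply, smul_eq_mul] at h3
      rw [h4] at h3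
      have h5 := mul_left_cancel₀ hΔ.ne' h3
      rw [← hP1, ← h5, hQ1]
    · refine ⟨fun i => -g' 1 i, fun j => ?_⟩
      have h3 := congrFun (congrFun hc 1) j
      simp only [Matrix.smul_apply, smul_eq_mul] at h3
      rw [h4] at h3
      have h5 : Q 1 j = -P 1 j := by
        apply mul_left_cancel₀ hΔ.ne'
        linear_combination h3
      rw [hQ1, hP1] at h5
      linear_combination h5
  obtain ⟨w, hw⟩ := hw
  -- the neighbour of `s β`
  set t : ℍ := F.t (s β) with ht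
  have hmapt := Gal.maps_act hL A' t
  set t' : ℍ := act hL A' t with ht'
  have hfar : ¬ IsogDeg F.n (jInv t') (jInv t') :=
    TypCC_far F hLp hL2 hLn hLB s A'.1 hdet' hmapt w (g 1 0) (g 1 1) (hw 0) (hw 1) hQf
  have hβt : IsogDeg L (s β) (jInv t') := ⟨t, t', A'.1, hdet', hmapt, (F.j s).symm, rfl⟩
  have hβt' : IsogDeg L β (s.symm (jInv t')) := by
    have h3 := isogDeg_map s.symm hL hβt
    rwa [RingEquiv.symm_apply_apply] at h3
  -- the Lipschitz estimate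
  have hC₁0 : 0 ≤ ((C₁ : ℝ) * L) ^ C₁ := by positivity
  have hC₂0 : 0 ≤ ((C₂ : ℝ) * L) ^ C₂ := by positivity
  have hBR : (1 : ℝ) ≤ F.B := by exact_mod_cast F.B_pos
  have hsm : ‖(τ' : ℂ) - t‖ ≤ 1 / (2 * F.B) := by
    refine hclose.trans ?_
    rw [Real.exp_neg, inv_eq_one_div]
    apply one_div_le_one_div_of_le (by linarith)
    have h3 := Real.add_one_le_exp E
    linarith
  have hl := hlip L t τ' t' τ₁' A'.1 hL (F.im s).1 (F.im s).2 hsm hdet' hmapt hmap'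
  rw [← hA'] at hl
  intro v hv
  have hne : s.symm (jInv t') ≠ v := by
    intro h3
    apply hfar
    have h4 := isogDeg_map s F.n_pos hv.2
    rwa [← h3, RingEquiv.apply_symm_apply] at h4
  have hs := hsep L hL _ _ hβt' hv.1 hne s
  rw [RingEquiv.apply_symm_apply] at hs
  have h3 : ‖s yb - jInv t'‖ ≤ Real.exp (((C₂ : ℝ) * L) ^ C₂) * Real.exp (-E) :=
    hl.trans (mul_le_mul_of_nonneg_left hclose (Real.exp_pos _).le)
  have h4 := TypCC_est hC₂0 (E := E) (by linarith) hs h3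
  have h5 : ‖jInv t' - s v‖ ≤ ‖s yb - jInv t'‖ + ‖s yb - s v‖ := by
    have h6 : jInv t' - s v = -(s yb - jInv t') + (s yb - s v) := by ring
    rw [h6]
    refine (norm_add_le _ _).trans ?_
    rw [norm_neg]
  linarith

end Pool.Agent.LGO.RCM
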