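import Mathlib
import Pool.Agent.LGO.RCM.SysC
import Pool.Agent.LGO.RU.Sys2

/-!
# LGO/RCM: the second system (`p(ξ) - F G`)

Compare `sys2` (`LGO/RU/Sys2.lean`, `Gfg`).  PROOF.  `sysC` with `N = 2 R`, `R = L + 1`, `U = 1`, `I = range R × range T` (`r = R T`), so `(L + 1) R T = R ^ 2 T` conditions, `T = e (I + n₂) + 2 h e + 2 m L R + 1`; unknowns: `p_j`, `j < I`, and `g`: `Fin e × Fin (I - 4 L R) × Fin R × Fin R`.
-/

namespace Pool.Agent.LGO.RCM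

open PowerSeries Pool.Agent.Hhelper14.ZP Pool.Agent.LGO.RU Pool.Agent.LGO

variable {n : ℕ} {V : Set (Fin n → ℂ)} {a b : Fin n} {β : ℂ}

private theorem Sys2_countC {t R e A n₁ n₂ I : ℕ} (h : t ≤ R ^ 2) (he : 0 < e)
    (hI : I = R ^ 2 * (A + e * (n₁ + n₂)) + 1) (hn : n₁ = 0 ∨ 0 < R) :
    n₁ ≤ I ∧ t * (e * (I + n₂) + A) < I + e * (I - n₁) * R ^ 2 := by
  have h1 : n₁ ≤ I := by
    rcases hn with h0 | h0
    · omega
    · have h2 : 1 ≤ R ^ 2 := Nat.one_le_pow _ _ h0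
      have h3 : n₁ ≤ A + e * (n₁ + n₂) := by nlinarith
      have h4 : A + e * (n₁ + n₂) ≤ R ^ 2 * (A + e * (n₁ + n₂)) := Nat.le_mul_of_pos_left _ h2
      omega
  refine ⟨h1, ?_⟩
  obtain ⟨δ, hδ⟩ := Nat.exists_eq_add_of_le h1
  have e2 : I - n₁ = δ := by omega
  rw [e2]
  have e3 : t * (e * (I + n₂) + A) ≤ R ^ 2 * (e * (I + n₂) + A) := Nat.mul_le_mul_right _ h
  have e4 : R ^ 2 * (e * (I + n₂) + A) + 1 = I + e * δ * R ^ 2 := by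
    have e5 : R ^ 2 * (e * (I + n₂) + A) = R ^ 2 * (A + e * (n₁ + n₂)) + e * δ * R ^ 2 := by
      rw [hδ]
      ring
    rw [e5]
    omega
  omega

private theorem Sys2_garC {e h n₁ I R : ℕ} (hn : n₁ ≤ I) (W : Ser)
    (c : Fin e × Fin (I - n₁) × Fin R × Fin R → OO) (c' : ℕ → ℕ → ℕ → ℕ → OO)
    (hu : ∀ u : Fin e × Fin (I - n₁) × Fin R × Fin R,
      c' u.1 (n₁ + u.2.1) u.2.2.1 u.2.2.2 = c u)
    (hs : ∀ i j k k', c' i j k k' ≠ 0 → i < e ∧ n₁ ≤ j ∧ j < I ∧ k < R ∧ k' < R)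
    (P : ℕ → ℕ → Ser) :
    ∑ l ∈ Finset.range R, ∑ l' ∈ Finset.range R, P l l' * Gar e h I W c' l l' =
      ∑ u : Fin e × Fin (I - n₁) × Fin R × Fin R,
      PowerSeries.C (c u) * (P u.2.2.1 u.2.2.2 *
        (W ^ (u.1 : ℕ) * X ^ (e * (I - (n₁ + u.2.1)) + h * (e - u.1)))) := by
  have hG : ∀ l l', Gar e h I W c' l l' = ∑ i : Fin e, ∑ j : Fin (I - n₁),
      PowerSeries.C (c' i (n₁ + j) l l') * W ^ (i : ℕ) *
        X ^ (e * (I - (n₁ + j)) + h * (e - i)) := by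
    intro l l'
    unfold Gar
    rw [Finset.sum_range]
    refine Finset.sum_congr rfl fun i _ => ?_
    rw [← Finset.sum_range (fun j => PowerSeries.C (c' i (n₁ + j) l l') * W ^ (i : ℕ) *
        X ^ (e * (I - (n₁ + j)) + h * (e - i))),
      ← Finset.sum_Ico_eq_sum_range (fun j => PowerSeries.C (c' i j l l') * W ^ (i : ℕ) *
      X ^ (e * (I - j) + h * (e - i))) n₁ I, ← Finset.sum_range_add_sum_Ico _ hn]
    rw [Finset.sum_eq_zero, zero_add]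
    intro j hj
    have hz : c' i j l l' = 0 := by
      by_contra hne
      have := (hs _ _ _ _ hne).2.1
      have := Finset.mem_range.1 hj
      omega
    rw [hz, map_zero, zero_mul, zero_mul]
  simp_rw [hG, Finset.mul_sum]
  rw [Fintype.sum_prod_type]
  simp_rw [Fintype.sum_prod_type]
  rw [Finset.sum_range]
  simp_rw [Finset.sum_range]
  -- both sides are sums over `l, l', i, j`
  have hr : ∀ (f : Fin R → Fin R → Fin e → Fin (I - n₁) → Ser),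
      ∑ l, ∑ l', ∑ i, ∑ j, f l l' i j = ∑ i, ∑ j, ∑ l, ∑ l', f l l' i j := by
    intro f
    calc ∑ l, ∑ l', ∑ i, ∑ j, f l l' i j = ∑ l, ∑ i, ∑ l', ∑ j, f l l' i j :=
          Finset.sum_congr rfl fun l _ => Finset.sum_comm
      _ = ∑ i, ∑ l, ∑ l', ∑ j, f l l' i j := Finset.sum_comm
      _ = ∑ i, ∑ l, ∑ j, ∑ l', f l l' i j :=
          Finset.sum_congr rfl fun i _ => Finset.sum_congr rfl fun l _ => Finset.sum_comm
      _ = ∑ i, ∑ j, ∑ l, ∑ l', f l l' i j :=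
          Finset.sum_congr rfl fun i _ => Finset.sum_comm
  rw [hr]
  refine Finset.sum_congr rfl fun i _ => Finset.sum_congr rfl fun j _ =>
    Finset.sum_congr rfl fun l _ => Finset.sum_congr rfl fun l' _ => ?_
  rw [← hu (i, j, l, l')]
  ring

private theorem Sys2_sizeC {L R e h ml n₁ n₂ I Z c₅ c₆ A : ℕ} (hL : 1 ≤ L) (hR : R ≤ 4 * L)
    (hZ : L ≤ Z) (hn₂ : n₂ ≤ Z) (hA : A = 2 * (h * e) + 2 * (ml * L * R) + 1)
    (hn₁ : n₁ = 4 * L * R) (hI : I = R ^ 2 * (A + e * (n₁ + n₂)) + 1)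
    (hc₅ : c₅ = 16 * (2 * (h * e) + 8 * ml + 17 * e + 1) + 1)
    (hc₆ : c₆ = e * (c₅ + 1) + 2 * (h * e) + 8 * ml + 1) :
    I ≤ c₅ * Z ^ 4 ∧ e * (I + n₂) + A ≤ c₆ * Z ^ 4 ∧
      I + e * (I - n₁) * R ^ 2 ≤ c₅ * (1 + 16 * e) * Z ^ 6 := by
  have hZ1 : 1 ≤ Z := hL.trans hZ
  have hLR : L * R ≤ 4 * Z ^ 2 := by
    calc L * R ≤ Z * (4 * Z) := Nat.mul_le_mul hZ (hR.trans (Nat.mul_le_mul_left 4 hZ))
      _ = 4 * Z ^ 2 := by ring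
  have hZ2 : 1 ≤ Z ^ 2 := Nat.one_le_pow _ _ hZ1
  have hZZ2 : Z ≤ Z ^ 2 := Nat.le_self_pow (by norm_num) Z
  have hR2 : R ^ 2 ≤ 16 * Z ^ 2 := by
    calc R ^ 2 ≤ (4 * Z) ^ 2 := Nat.pow_le_pow_left (hR.trans (Nat.mul_le_mul_left 4 hZ)) 2
      _ = 16 * Z ^ 2 := by ring
  have hA' : A ≤ (2 * (h * e) + 8 * ml + 1) * Z ^ 2 := by
    rw [hA]
    have e1 : ml * L * R ≤ 4 * ml * Z ^ 2 := by
      rw [mul_assoc]
      calc ml * (L * R) ≤ ml * (4 * Z ^ 2) := Nat.mul_le_mul_left _ hLR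
        _ = 4 * ml * Z ^ 2 := by ring
    have e2 : 2 * (h * e) ≤ 2 * (h * e) * Z ^ 2 := Nat.le_mul_of_pos_right _ hZ2
    calc 2 * (h * e) + 2 * (ml * L * R) + 1 ≤ 2 * (h * e) * Z ^ 2 + 2 * (4 * ml * Z ^ 2) + Z ^ 2 := by
          omega
      _ = (2 * (h * e) + 8 * ml + 1) * Z ^ 2 := by ring
  have hn : e * (n₁ + n₂) ≤ 17 * e * Z ^ 2 := by
    have e1 : n₁ + n₂ ≤ 17 * Z ^ 2 := by
      rw [hn₁]
      have : 4 * L * R = 4 * (L * R) := by ring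
      omega
    calc e * (n₁ + n₂) ≤ e * (17 * Z ^ 2) := Nat.mul_le_mul_left _ e1
      _ = 17 * e * Z ^ 2 := by ring
  have hZ4 : 1 ≤ Z ^ 4 := Nat.one_le_pow _ _ hZ1
  have h1 : I ≤ c₅ * Z ^ 4 := by
    rw [hI, hc₅]
    calc R ^ 2 * (A + e * (n₁ + n₂)) + 1 ≤
        16 * Z ^ 2 * ((2 * (h * e) + 8 * ml + 1) * Z ^ 2 + 17 * e * Z ^ 2) + Z ^ 4 :=
          Nat.add_le_add (Nat.mul_le_mul hR2 (Nat.add_le_add hA' hn)) hZ4
      _ = _ := by ring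
  have hZ24 : Z ^ 2 ≤ Z ^ 4 := Nat.pow_le_pow_right hZ1 (by norm_num)
  refine ⟨h1, ?_, ?_⟩
  · rw [hc₆]
    have e1 : I + n₂ ≤ (c₅ + 1) * Z ^ 4 := by
      have : n₂ ≤ Z ^ 4 := hn₂.trans (hZZ2.trans hZ24)
      calc I + n₂ ≤ c₅ * Z ^ 4 + Z ^ 4 := Nat.add_le_add h1 this
        _ = _ := by ring
    calc e * (I + n₂) + A ≤ e * ((c₅ + 1) * Z ^ 4) + (2 * (h * e) + 8 * ml + 1) * Z ^ 4 :=
          Nat.add_le_add (Nat.mul_le_mul_left _ e1) (hA'.trans (Nat.mul_le_mul_left _ hZ24))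
      _ = _ := by ring
  · have hZ46 : Z ^ 4 ≤ Z ^ 6 := Nat.pow_le_pow_right hZ1 (by norm_num)
    calc I + e * (I - n₁) * R ^ 2 ≤ c₅ * Z ^ 6 + e * (c₅ * Z ^ 4) * (16 * Z ^ 2) :=
          Nat.add_le_add (h1.trans (Nat.mul_le_mul_left _ hZ46))
            (Nat.mul_le_mul (Nat.mul_le_mul_left _ ((Nat.sub_le _ _).trans h1)) hR2)
      _ = _ := by ring

theorem sys2C (D : LocC V a b β) (Q : QDC D) : ∃ C : ℕ, 0 < C ∧ ∀ (L : ℕ) (B : ℝ)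
    (ld : LD D.K₀ β L B), L.Prime → 1 ≤ B → (L : ℝ) ≤ B →
    ∀ (n₂ : ℕ) (c : ℕ → ℕ → ℕ → ℕ → OO), (n₂ : ℝ) ≤ B → CB D.K₀ c D.e (4 * L * (L + 1)) n₂ (L + 1) B →
    ∃ (I : ℕ) (p : ℕ → OO) (g : ℕ → ℕ → ℕ → ℕ → OO), (I : ℝ) ≤ ((C : ℝ) * B) ^ C ∧
      ((∃ j < I, p j ≠ 0) ∨ ∃ i j k k', g i j k k' ≠ 0) ∧ (∀ j, ((p j : OO) : ℂ) ∈ D.K₀) ∧
      (∀ j (s : ℂ ≃+* ℂ), ‖s ((p j : OO) : ℂ)‖ ≤ Real.exp (((C : ℝ) * B) ^ C)) ∧
      CB D.K₀ g D.e (4 * L * (L + 1)) I (L + 1) (((C : ℝ) * B) ^ C) ∧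
      VAC L (2 * (L + 1)) (L + 1) (Gfg D.e D.h n₂ I (L + 1) D.W c g p) Q.qa (Phs ld.Φ D.Sb) 1
        (D.e * (I + n₂) + (2 * (D.h * D.e) + 2 * (D.m * L * (L + 1)) + 1)) := by
  classical
  have := D.fd
  obtain ⟨Cs, hCs, hsys⟩ := sysC D.K₀ Q.pos.1 Q.pos.2.1 Q.c0 Q.inK Q.gr.1
  obtain ⟨c₅, hc₅⟩ : ∃ c₅ : ℕ, c₅ = 16 * (2 * (D.h * D.e) + 8 * D.m + 17 * D.e + 1) + 1 :=
    ⟨_, rfl⟩
  obtain ⟨c₆, hc₆⟩ : ∃ c₆ : ℕ, c₆ = D.e * (c₅ + 1) + 2 * (D.h * D.e) + 8 * D.m + 1 :=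
    ⟨_, rfl⟩
  obtain ⟨c₇, hc₇⟩ : ∃ c₇ : ℕ, c₇ = 14 + c₆ + 2 * (D.e * Q.C) + D.e + Q.C := ⟨_, rfl⟩
  obtain ⟨c₈, hc₈⟩ : ∃ c₈ : ℕ, c₈ = Cs * (c₅ * (1 + 16 * D.e)) * c₇ + c₅ + 1 := ⟨_, rfl⟩
  refine ⟨2 * c₈ + 10 * Cs, by omega, ?_⟩
  intro L B ld hLp hB hLB n₂ c hn₂B hc
  obtain ⟨R, hRL⟩ : ∃ R : ℕ, R = L + 1 := ⟨_, rfl⟩
  rw [← hRL] at hc ⊢
  have hL : 1 ≤ L := hLp.one_lt.le
  have hR1 : 1 ≤ R := by omega
  have hR : R ≤ 4 * L := by omega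
  have he : 0 < D.e := D.pos.1
  obtain ⟨Z, hZ⟩ : ∃ Z : ℕ, Z = ⌈B⌉₊ := ⟨_, rfl⟩
  have hBN : B ≤ Z := by rw [hZ]; exact Nat.le_ceil B
  have hN2 : (Z : ℝ) ≤ 2 * B := by
    rw [hZ]
    have := (Nat.ceil_lt_add_one (by linarith : (0 : ℝ) ≤ B)).le
    linarith
  have hN1 : 1 ≤ Z := by exact_mod_cast hB.trans hBN
  have hn₂N : n₂ ≤ Z := by exact_mod_cast hn₂B.trans hBN
  have hLZ : L ≤ Z := by exact_mod_cast hLB.trans hBN
  obtain ⟨A, hA⟩ : ∃ A : ℕ, A = 2 * (D.h * D.e) + 2 * (D.m * L * R) + 1 := ⟨_, rfl⟩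
  obtain ⟨n₁, hn₁⟩ : ∃ n₁ : ℕ, n₁ = 4 * L * R := ⟨_, rfl⟩
  obtain ⟨I, hI⟩ : ∃ I : ℕ, I = R ^ 2 * (A + D.e * (n₁ + n₂)) + 1 := ⟨_, rfl⟩
  obtain ⟨hn1I, hcount⟩ := Sys2_countC (le_refl (R ^ 2)) he hI (Or.inr hR1)
  obtain ⟨hIs, hTs, hcs⟩ := Sys2_sizeC hL hR hLZ hn₂N hA hn₁ hI hc₅ hc₆
  rw [← hn₁, ← hA]
  rw [← hn₁] at hc
  -- the unknowns
  let κ : Type := Fin I ⊕ (Fin D.e × Fin (I - n₁) × Fin R × Fin R)
  have hcard : Fintype.card κ = I + D.e * (I - n₁) * R ^ 2 := by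
    rw [Fintype.card_sum, Fintype.card_prod, Fintype.card_prod, Fintype.card_prod,
      Fintype.card_fin, Fintype.card_fin, Fintype.card_fin, Fintype.card_fin]
    ring
  let P : ℕ → ℕ → ℕ → ℕ → Ser := fun k k' l l' =>
    if l ≤ k ∧ l' ≤ k' then Gar D.e D.h n₂ D.W c (k - l) (k' - l') else 0
  let Gs : κ → ℕ → ℕ → Ser := fun u k k' => match u with
    | Sum.inl j => if k = 0 ∧ k' = 0 then X ^ (D.e * (I + n₂ - j) + 2 * (D.h * D.e)) else 0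
    | Sum.inr u => P k k' u.2.2.1 u.2.2.2 *
        (D.W ^ (u.1 : ℕ) * X ^ (D.e * (I - (n₁ + u.2.1)) + D.h * (D.e - u.1)))
  have hρ := Q.pos.1.le
  have hρ1 := Q.pos.2.1
  obtain ⟨B₁, hB₁⟩ : ∃ B₁ : ℝ, B₁ = B + D.e + n₂ + 2 * (D.e * Q.C) := ⟨_, rfl⟩
  have hB₁0 : 0 ≤ B₁ := by rw [hB₁]; positivity
  obtain ⟨B₃, hB₃⟩ : ∃ B₃ : ℝ, B₃ = Z + B + Q.C * Z := ⟨_, rfl⟩
  have hB₃0 : 0 ≤ B₃ := by rw [hB₃]; positivity
  obtain ⟨B₂, hB₂⟩ : ∃ B₂ : ℝ, B₂ = (L : ℝ) + (2 * R : ℕ) + ((D.e * (I + n₂) + A : ℕ) : ℝ) + 1 +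
    B₁ + B₃ := ⟨_, rfl⟩
  have hL0 : (0 : ℝ) ≤ L := Nat.cast_nonneg _
  have hR0 : (0 : ℝ) ≤ ((2 * R : ℕ) : ℝ) := Nat.cast_nonneg _
  have hT0 : (0 : ℝ) ≤ ((D.e * (I + n₂) + A : ℕ) : ℝ) := Nat.cast_nonneg _
  have hW : Gr Q.ρ (Real.exp Q.C) D.W := Q.gr.2.1.mono (by
    have := Real.add_one_le_exp (Q.C : ℝ)
    linarith)
  have hexp : (1 : ℝ) ≤ Real.exp Q.C := Real.one_le_exp (Nat.cast_nonneg _)
  have hGsK : ∀ u, ∀ k k', InK D.K₀ (Gs u k k') := by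
    rintro (j | u) k k'
    · exact InK.ite (InK.X.pow _)
    · exact (InK.ite (gar_inK hc D.inK.1 _ _)).mul ((D.inK.1.pow _).mul (InK.X.pow _))
  have hGsG : ∀ u, ∀ k k', Gr Q.ρ (Real.exp B₁) (Gs u k k') := by
    rintro (j | u) k k'
    · exact Gr.ite ((Gr.X_pow hρ hρ1 _).mono (Real.one_le_exp hB₁0))
    · refine ((Gr.ite (gar_gr2 hρ hρ1 hc Q.gr.2.1 _ _)).mul hρ
        (((hW.pow hρ (u.1 : ℕ)).mul hρ (Gr.X_pow hρ hρ1 _)))).mono ?_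
      have h1 : Real.exp Q.C ^ (u.1 : ℕ) ≤ Real.exp (D.e * Q.C) := by
        rw [Real.exp_nat_mul]
        exact pow_le_pow_right₀ hexp u.1.2.le
      calc Real.exp (B + D.e + n₂ + D.e * Q.C) * (Real.exp Q.C ^ (u.1 : ℕ) * 1)
          ≤ Real.exp (B + D.e + n₂ + D.e * Q.C) * Real.exp (D.e * Q.C) := by
            rw [mul_one]
            exact mul_le_mul_of_nonneg_left h1 (Real.exp_pos _).le
        _ = Real.exp B₁ := by
            rw [← Real.exp_add, hB₁]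
            congr 1
            ring
  -- the modular polynomial
  have hPm := phs_monic (S := D.Sb) ld.monic
  have hPg : GrP Q.ρ (Real.exp B₂) (Phs ld.Φ D.Sb) := by
    have hSb : Gr Q.ρ (Real.exp Q.C) D.Sb := Q.gr.2.2.mono (by
      have := Real.add_one_le_exp (Q.C : ℝ)
      linarith)
    have h1 := phs_gr hρ hSb hexp (Φ := ld.Φ) (d := Z) (B := Real.exp B)
      (fun k => by exact_mod_cast (ld.bdd k).trans hBN) ld.bdc
    intro k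
    refine (h1 k).mono ?_
    have h2 : (Z : ℝ) + 1 ≤ Real.exp Z := Real.add_one_le_exp _
    calc ((Z : ℝ) + 1) * (Real.exp B * Real.exp Q.C ^ Z)
        ≤ Real.exp Z * (Real.exp B * Real.exp Q.C ^ Z) :=
          mul_le_mul_of_nonneg_right h2 (by positivity)
      _ = Real.exp B₃ := by
          rw [← Real.exp_nat_mul, ← Real.exp_add, ← Real.exp_add, hB₃]
          congr 1
          ring
      _ ≤ Real.exp B₂ := Real.exp_le_exp.2 (by rw [hB₂]; linarith)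
  have hone : ∀ k, InK D.K₀ ((1 : Polynomial Ser).coeff k) := by
    intro k
    rw [Polynomial.coeff_one]
    split_ifs
    · intro n
      rw [PowerSeries.coeff_one]
      split_ifs
      · exact D.K₀.one_mem
      · exact D.K₀.zero_mem
    · intro n
      exact D.K₀.zero_mem
  have honeG : GrP Q.ρ (Real.exp B₂) (1 : Polynomial Ser) := by
    intro k
    rw [Polynomial.coeff_one]
    have h1 : Gr Q.ρ (Real.exp B₂) (X ^ 0 : Ser) := (Gr.X_pow hρ hρ1 0).mono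
      (Real.one_le_exp (by rw [hB₂]; positivity))
    rw [pow_zero] at h1
    exact Gr.ite h1
  obtain ⟨x, ⟨u₀, hu₀⟩, hxK, hxb, hV⟩ := hsys κ L (2 * R) R (D.e * (I + n₂) + A)
    (R * (D.e * (I + n₂) + A)) Gs (Phs ld.Φ D.Sb) 1 B₂ (by omega) (by omega)
    (by rw [hB₂]; linarith) (by rw [hB₂]; linarith) (by rw [hB₂]; linarith)
    (by
      have h1 : (R : ℝ) ≤ ((2 * R : ℕ) : ℝ) := by
        push_cast
        have : (0 : ℝ) ≤ R := Nat.cast_nonneg _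
        linarith
      rw [hB₂]
      linarith)
    (by rw [hB₂]; linarith) hPm.1 (by rw [hPm.2, ld.deg, hRL])
    (phs_inK D.inK.2.2 ld.Φ) hPg (by
      rw [Polynomial.natDegree_one, Nat.cast_zero, hB₂]
      positivity) hone honeG
    (fun u k _ k' _ => ⟨hGsK u k k', (hGsG u k k').mono (Real.exp_le_exp.2 (by
      rw [hB₂]
      linarith))⟩)
    ⟨Finset.range R ×ˢ Finset.range (D.e * (I + n₂) + A), by
      rw [Finset.card_product, Finset.card_range, Finset.card_range], fun x hx => by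
      rw [Finset.mem_product, Finset.mem_range, Finset.mem_range] at hx
      exact hx, fun P hP i hi m hm => hP (i, m) (by
        rw [Finset.mem_product, Finset.mem_range, Finset.mem_range]
        exact ⟨hi, hm⟩)⟩
    (by
      rw [hcard]
      refine lt_of_eq_of_lt ?_ hcount
      rw [hRL]
      ring)
  -- the sizes
  have hZ1 : (1 : ℝ) ≤ Z := by exact_mod_cast hN1
  have hcard' : (Fintype.card κ : ℝ) ≤ ((c₅ * (1 + 16 * D.e) : ℕ) : ℝ) * (Z : ℝ) ^ 6 := by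
    rw [hcard]
    exact_mod_cast hcs
  have hY : B₂ ≤ (c₇ : ℝ) * (Z : ℝ) ^ 4 := by
    have h1 : L + 2 * R + (D.e * (I + n₂) + A) + 1 + (Z + D.e + n₂ + 2 * (D.e * Q.C)) +
        (Z + Z + Q.C * Z) ≤ c₇ * Z ^ 4 := by
      have hZ4 : 1 ≤ Z ^ 4 := Nat.one_le_pow _ _ hN1
      have e1 : Z ≤ Z ^ 4 := Nat.le_self_pow (by norm_num) Z
      have e4 : D.e * Q.C ≤ D.e * Q.C * Z ^ 4 := Nat.le_mul_of_pos_right _ hZ4
      have e5 : D.e ≤ D.e * Z ^ 4 := Nat.le_mul_of_pos_right _ hZ4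
      have e6 : Q.C * Z ≤ Q.C * Z ^ 4 := Nat.mul_le_mul_left _ e1
      rw [hc₇]
      calc L + 2 * R + (D.e * (I + n₂) + A) + 1 + (Z + D.e + n₂ + 2 * (D.e * Q.C)) +
            (Z + Z + Q.C * Z)
          ≤ Z ^ 4 + 8 * Z ^ 4 + c₆ * Z ^ 4 + Z ^ 4 + (Z ^ 4 + D.e * Z ^ 4 + Z ^ 4 +
            2 * (D.e * Q.C * Z ^ 4)) + (Z ^ 4 + Z ^ 4 + Q.C * Z ^ 4) := by
            omega
        _ = (14 + c₆ + 2 * (D.e * Q.C) + D.e + Q.C) * Z ^ 4 := by ring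
    have h2 : (L : ℝ) + (2 * R : ℕ) + ((D.e * (I + n₂) + A : ℕ) : ℝ) + 1 +
        (Z + D.e + n₂ + 2 * (D.e * Q.C)) + (Z + Z + Q.C * Z) ≤ (c₇ : ℝ) * (Z : ℝ) ^ 4 := by
      exact_mod_cast h1
    rw [hB₂, hB₁, hB₃]
    linarith
  have hc₈1 : (1 : ℝ) ≤ c₈ := by
    rw [hc₈]
    push_cast
    have : (0 : ℝ) ≤ Cs * (c₅ * (1 + 16 * D.e)) * c₇ + c₅ := by positivity
    linarith
  have hCZ : (c₈ : ℝ) * Z ≤ ((2 * c₈ + 10 * Cs : ℕ) : ℝ) * B := by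
    have e1 : (c₈ : ℝ) * Z ≤ c₈ * (2 * B) := mul_le_mul_of_nonneg_left hN2 (by linarith)
    refine e1.trans ?_
    push_cast
    have e2 : (0 : ℝ) ≤ 10 * Cs * B := by positivity
    linarith
  have hCZ1 : (1 : ℝ) ≤ c₈ * Z := one_le_mul_of_one_le_of_one_le hc₈1 hZ1
  have hfin : ∀ k ≤ 10 * Cs, ((c₈ : ℝ) * Z) ^ k ≤
      (((2 * c₈ + 10 * Cs : ℕ) : ℝ) * B) ^ (2 * c₈ + 10 * Cs) := by
    intro k hk
    refine (pow_le_pow_left₀ (by linarith) hCZ k).trans ?_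
    exact pow_le_pow_right₀ (hCZ1.trans hCZ) (by omega)
  have hbd : ((Cs : ℝ) * (Fintype.card κ) * B₂) ^ Cs ≤
      (((2 * c₈ + 10 * Cs : ℕ) : ℝ) * B) ^ (2 * c₈ + 10 * Cs) := by
    have hB₂0 : 0 ≤ B₂ := by rw [hB₂]; positivity
    have h1 : (Cs : ℝ) * (Fintype.card κ) * B₂ ≤ ((c₈ : ℝ) * Z) ^ 10 := by
      calc (Cs : ℝ) * (Fintype.card κ) * B₂
          ≤ (Cs : ℝ) * (((c₅ * (1 + 16 * D.e) : ℕ) : ℝ) * (Z : ℝ) ^ 6) *
            ((c₇ : ℝ) * (Z : ℝ) ^ 4) := by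
            gcongr
        _ = (Cs * (c₅ * (1 + 16 * D.e)) * c₇ : ℝ) * (Z : ℝ) ^ 10 := by
            push_cast
            ring
        _ ≤ (c₈ : ℝ) ^ 10 * (Z : ℝ) ^ 10 := by
            have e1 : (Cs * (c₅ * (1 + 16 * D.e)) * c₇ : ℝ) ≤ c₈ := by
              rw [hc₈]
              push_cast
              have : (0 : ℝ) ≤ (c₅ : ℝ) := Nat.cast_nonneg _
              linarith
            have e2 : (c₈ : ℝ) ≤ (c₈ : ℝ) ^ 10 := le_self_pow₀ hc₈1 (by norm_num)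
            gcongr
            exact e1.trans e2
        _ = _ := by rw [mul_pow]
    calc _ ≤ (((c₈ : ℝ) * Z) ^ 10) ^ Cs := pow_le_pow_left₀ (by positivity) h1 Cs
      _ = ((c₈ : ℝ) * Z) ^ (10 * Cs) := by rw [← pow_mul]
      _ ≤ _ := hfin _ le_rfl
  -- the coefficients
  let p : ℕ → OO := fun j => if hj : j < I then - x (Sum.inl ⟨j, hj⟩) else 0
  let g : ℕ → ℕ → ℕ → ℕ → OO := fun i j k k' =>
    if hh : i < D.e ∧ (n₁ ≤ j ∧ j < I) ∧ k < R ∧ k' < R then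
      x (Sum.inr (⟨i, hh.1⟩, ⟨j - n₁, by omega⟩, ⟨k, hh.2.2.1⟩, ⟨k', hh.2.2.2⟩)) else 0
  have hgu : ∀ u : Fin D.e × Fin (I - n₁) × Fin R × Fin R,
      g u.1 (n₁ + u.2.1) u.2.2.1 u.2.2.2 = x (Sum.inr u) := by
    intro u
    have hh : (u.1 : ℕ) < D.e ∧ (n₁ ≤ n₁ + (u.2.1 : ℕ) ∧ n₁ + (u.2.1 : ℕ) < I) ∧
        (u.2.2.1 : ℕ) < R ∧ (u.2.2.2 : ℕ) < R :=
      ⟨u.1.2, ⟨by omega, by have := u.2.1.2; omega⟩, u.2.2.1.2, u.2.2.2.2⟩
    simp only [g, dif_pos hh]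
    congr 2
    ext <;> simp
  have hgs : ∀ i j k k', g i j k k' ≠ 0 → i < D.e ∧ n₁ ≤ j ∧ j < I ∧ k < R ∧ k' < R := by
    intro i j k k' hne
    by_contra hcon
    apply hne
    simp only [g]
    rw [dif_neg]
    rintro ⟨h1, ⟨h2, h3⟩, h4, h5⟩
    exact hcon ⟨h1, h2, h3, h4, h5⟩
  have hz0 : ∀ s : ℂ ≃+* ℂ, ‖s ((0 : OO) : ℂ)‖ = 0 := by
    intro s
    simp
  refine ⟨I, p, g, ?_, ?_, ?_, ?_, ⟨hgs, ?_, ?_⟩, ?_⟩
  · calc (I : ℝ) ≤ (c₅ : ℝ) * (Z : ℝ) ^ 4 := by exact_mod_cast hIs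
      _ ≤ (c₈ : ℝ) ^ 4 * (Z : ℝ) ^ 4 := by
          have e1 : (c₅ : ℝ) ≤ c₈ := by
            rw [hc₈]
            push_cast
            have : (0 : ℝ) ≤ Cs * (c₅ * (1 + 16 * D.e)) * c₇ := by positivity
            linarith
          have e2 : (c₈ : ℝ) ≤ (c₈ : ℝ) ^ 4 := le_self_pow₀ hc₈1 (by norm_num)
          gcongr
          exact e1.trans e2
      _ = ((c₈ : ℝ) * Z) ^ 4 := by rw [mul_pow]
      _ ≤ _ := hfin _ (by omega)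
  · rcases u₀ with j | u
    · refine Or.inl ⟨j, j.2, ?_⟩
      simp only [p, dif_pos j.2]
      exact neg_ne_zero.2 hu₀
    · exact Or.inr ⟨_, _, _, _, by rw [hgu u]; exact hu₀⟩
  · intro j
    simp only [p]
    split_ifs with hj
    · push_cast
      exact D.K₀.neg_mem (hxK _)
    · exact D.K₀.zero_mem
  · intro j s
    simp only [p]
    split_ifs with hj
    · rw [show ((- x (Sum.inl ⟨j, hj⟩) : OO) : ℂ) = - ((x (Sum.inl ⟨j, hj⟩) : OO) : ℂ) from rfl,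
        map_neg, norm_neg]
      exact (hxb _ s).trans (Real.exp_le_exp.2 hbd)
    · rw [hz0]
      exact (Real.exp_pos _).le
  · intro i j k k'
    simp only [g]
    split_ifs with hh
    · exact hxK _
    · exact D.K₀.zero_mem
  · intro i j k k' s
    simp only [g]
    split_ifs with hh
    · exact (hxb _ s).trans (Real.exp_le_exp.2 hbd)
    · rw [hz0]
      exact (Real.exp_pos _).le
  · have hG : (Gfg D.e D.h n₂ I R D.W c g p) = fun k k' => ∑ u, PowerSeries.C (x u) * Gs u k k' := by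
      funext k k'
      rw [Fintype.sum_sum_type]
      have h1 := Sys2_garC (h := D.h) hn1I D.W (fun u => x (Sum.inr u)) g hgu hgs (P k k')
      have h2 : ∑ l ∈ Finset.range R, ∑ l' ∈ Finset.range R, (if l ≤ k ∧ l' ≤ k' then
          Gar D.e D.h n₂ D.W c (k - l) (k' - l') * Gar D.e D.h I D.W g l l' else 0) =
          ∑ l ∈ Finset.range R, ∑ l' ∈ Finset.range R, P k k' l l' * Gar D.e D.h I D.W g l l' := by
        refine Finset.sum_congr rfl fun l _ => Finset.sum_congr rfl fun l' _ => ?_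
        simp only [P]
        rw [ite_mul, zero_mul]
      rw [Gfg, h2, h1, sub_eq_neg_add]
      congr 1
      by_cases hk : k = 0 ∧ k' = 0
      · rw [if_pos hk, ← Finset.sum_neg_distrib, Finset.sum_range]
        refine Finset.sum_congr rfl fun j _ => ?_
        simp only [Gs, p, dif_pos j.2]
        rw [if_pos hk, map_neg, neg_mul, neg_neg]
      · rw [if_neg hk, neg_zero]
        symm
        refine Finset.sum_eq_zero fun j _ => ?_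
        simp only [Gs]
        rw [if_neg hk, mul_zero]
    rw [hG]
    exact hV

end Pool.Agent.LGO.RCM
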