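import Mathlib
import Pool.Agent.LGO.RCM.Sys2
import Pool.Agent.LGO.RCM.BndN
import Pool.Agent.LGO.RU.Aux2
import Pool.Agent.LGO.Gal.Basic

/-!
# LGO/RCM: the second auxiliary function

Compare `aux2` (`LGO/RU/Aux2.lean`).  PROOF.  `sys2C`; near the point at infinity (`Q.near_c` for the identity): `y_a = jQ κa τ`, `τ` may be replaced by the `τ` of `near_c` up to `SL₂(ℤ)` (as in `Aux2_main`), the type `a ∈ {1, L}` (`L` prime), `y_b = jQ κb τ'` is a root of `Φ(x_b, Y)` (`ld.root`, `Gal.isogDeg_iff_jQ`), `evP_phs`;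
`vac_c` with `N = 2 R`, `U = 1`, `G = Gfg`; `‖evc qa t‖ ≥ ‖t‖ ^ m / C`, `T = e (I + n₂) + 2 h e + 2 m L R + 1`: the value of `p(ξ) - F G` times `t ^ (e (I + n₂) + 2 h e)` is `O(t ^ (T - 2 m L R))`, so the value is `O(t)` and `t ^ e ξ = 1`.
-/

namespace Pool.Agent.LGO.RCM

open PowerSeries UpperHalfPlane Pool.Agent.Hhelper14.ZP Pool.Agent.Hhelper14.ZPL
  Pool.Agent.LGO.RU Pool.Agent.LGO

variable {n : ℕ} {V : Set (Fin n → ℂ)} {a b : Fin n} {β : ℂ}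

private theorem Aux2C_shift {M : Type} [AddCommMonoid M] {R l : ℕ} (hl : l < R) (f : ℕ → M)
    (hf : ∀ m, R ≤ m → f m = 0) :
    ∑ k ∈ Finset.range (2 * R), (if l ≤ k then f (k - l) else 0) =
      ∑ m ∈ Finset.range R, f m := by
  have h1 : 2 * R = l + (2 * R - l) := by omega
  rw [h1, Finset.sum_range_add]
  have h2 : ∑ x ∈ Finset.range l, (if l ≤ x then f (x - l) else 0) = 0 := by
    refine Finset.sum_eq_zero fun x hx => ?_
    rw [Finset.mem_range] at hx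
    rw [if_neg (by omega)]
  have h3 : ∑ x ∈ Finset.range (2 * R - l), (if l ≤ l + x then f (l + x - l) else 0) =
      ∑ x ∈ Finset.range (2 * R - l), f x := by
    refine Finset.sum_congr rfl fun x _ => ?_
    rw [if_pos (by omega), Nat.add_sub_cancel_left]
  rw [h2, h3, zero_add]
  exact Finset.eventually_constant_sum hf (by omega)

private theorem Aux2C_conv {R : ℕ} (A B : ℕ → ℕ → ℂ) (hA : ∀ k k', R ≤ k ∨ R ≤ k' → A k k' = 0)
    (y y' : ℂ) :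
    ∑ k ∈ Finset.range (2 * R), ∑ k' ∈ Finset.range (2 * R),
      (∑ l ∈ Finset.range R, ∑ l' ∈ Finset.range R,
        if l ≤ k ∧ l' ≤ k' then A (k - l) (k' - l') * B l l' else 0) * y ^ k * y' ^ k' =
    (∑ k ∈ Finset.range R, ∑ k' ∈ Finset.range R, A k k' * y ^ k * y' ^ k') *
      ∑ k ∈ Finset.range R, ∑ k' ∈ Finset.range R, B k k' * y ^ k * y' ^ k' := by
  have h1 : ∀ k k' : ℕ, (∑ l ∈ Finset.range R, ∑ l' ∈ Finset.range R,
        if l ≤ k ∧ l' ≤ k' then A (k - l) (k' - l') * B l l' else 0) * y ^ k * y' ^ k' =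
      ∑ l ∈ Finset.range R, ∑ l' ∈ Finset.range R, (if l ≤ k then
        (if l' ≤ k' then A (k - l) (k' - l') * y ^ (k - l) * y' ^ (k' - l') else 0) else 0) *
        (B l l' * y ^ l * y' ^ l') := by
    intro k k'
    rw [Finset.sum_mul, Finset.sum_mul]
    refine Finset.sum_congr rfl fun l _ => ?_
    rw [Finset.sum_mul, Finset.sum_mul]
    refine Finset.sum_congr rfl fun l' _ => ?_
    by_cases h2 : l ≤ k
    · by_cases h3 : l' ≤ k'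
      · rw [if_pos ⟨h2, h3⟩, if_pos h2, if_pos h3]
        have e1 : y ^ k = y ^ (k - l) * y ^ l := by rw [← pow_add, Nat.sub_add_cancel h2]
        have e2 : y' ^ k' = y' ^ (k' - l') * y' ^ l' := by
          rw [← pow_add, Nat.sub_add_cancel h3]
        rw [e1, e2]
        ring
      · rw [if_neg (fun h => h3 h.2), if_pos h2, if_neg h3]
        ring
    · rw [if_neg (fun h => h2 h.1), if_neg h2]
      ring
  have h2 : ∑ k ∈ Finset.range (2 * R), ∑ k' ∈ Finset.range (2 * R),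
      (∑ l ∈ Finset.range R, ∑ l' ∈ Finset.range R,
        if l ≤ k ∧ l' ≤ k' then A (k - l) (k' - l') * B l l' else 0) * y ^ k * y' ^ k' =
      ∑ l ∈ Finset.range R, ∑ l' ∈ Finset.range R,
        (∑ k ∈ Finset.range (2 * R), if l ≤ k then ∑ k' ∈ Finset.range (2 * R),
        (if l' ≤ k' then A (k - l) (k' - l') * y ^ (k - l) * y' ^ (k' - l') else 0) else 0) *
        (B l l' * y ^ l * y' ^ l') := by
    rw [Finset.sum_congr rfl fun k _ => Finset.sum_congr rfl fun k' _ => h1 k k']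
    rw [Finset.sum_congr rfl fun k _ => Finset.sum_comm]
    rw [Finset.sum_comm]
    refine Finset.sum_congr rfl fun l _ => ?_
    rw [Finset.sum_congr rfl fun k _ => Finset.sum_comm]
    rw [Finset.sum_comm]
    refine Finset.sum_congr rfl fun l' _ => ?_
    rw [Finset.sum_mul]
    refine Finset.sum_congr rfl fun k _ => ?_
    by_cases h3 : l ≤ k
    · simp only [if_pos h3]
      rw [Finset.sum_mul]
    · simp only [if_neg h3, zero_mul, Finset.sum_const_zero]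
  rw [h2, Finset.mul_sum]
  refine Finset.sum_congr rfl fun l hl => ?_
  rw [Finset.mul_sum]
  refine Finset.sum_congr rfl fun l' hl' => ?_
  rw [Finset.mem_range] at hl hl'
  congr 1
  have h3 := Aux2C_shift hl (fun m => ∑ k' ∈ Finset.range (2 * R),
    (if l' ≤ k' then A m (k' - l') * y ^ m * y' ^ (k' - l') else 0)) (by
      intro m hm
      refine Finset.sum_eq_zero fun k' _ => ?_
      split_ifs
      · rw [hA m _ (Or.inl hm)]
        ring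
      · rfl)
  refine h3.trans (Finset.sum_congr rfl fun m _ => ?_)
  exact Aux2C_shift hl' (fun m' => A m m' * y ^ m * y' ^ m') (by
    intro m' hm'
    rw [hA m m' (Or.inr hm')]
    ring)

variable {ρ : ℝ} {W : Ser} {t ξ η : ℂ} {s : ℂ ≃+* ℂ} {e h : ℕ}

private theorem Aux2C_gar {K : IntermediateField ℚ ℂ} {n₁ J R QC : ℕ}
    {c : ℕ → ℕ → ℕ → ℕ → OO} {B : ℝ} (hρ0 : 0 ≤ ρ) (hc : CB K c e n₁ J R B)
    (hW : Gr ρ QC W)
    (ht : ‖t‖ ≤ ρ) (h1 : t ^ e * ξ = 1) (h2 : t ^ h * η = evc s W t) (k k' : ℕ) :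
    evc s (Gar e h J W c k k') t = t ^ (e * J + h * e) *
      ∑ i ∈ Finset.range e, ∑ j ∈ Finset.range J, sC s (c i j k k') * η ^ i * ξ ^ j := by
  have g1 : ∀ i j, Gr ρ (Real.exp B) (PowerSeries.C (c i j k k')) := fun i j =>
    gr_C (Real.exp_pos B).le (fun s => hc.bd i j k k' s)
  have g2 : ∀ i, Gr ρ ((QC : ℝ) ^ i) (W ^ i) := fun i => gr_pow hW hρ0 i
  have g3 : ∀ i j, Gr ρ (Real.exp B * (QC : ℝ) ^ i * ρ ^ (e * (J - j) + h * (e - i)))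
      (PowerSeries.C (c i j k k') * W ^ i * X ^ (e * (J - j) + h * (e - i))) := fun i j =>
    gr_mul (gr_mul (g1 i j) (g2 i) hρ0) (gr_Xpow hρ0 _) hρ0
  unfold Gar
  rw [evc_sum _ _ _ (fun i _ => gr_sum _ _ _ hρ0 fun j _ => g3 i j) ht s, Finset.mul_sum]
  refine Finset.sum_congr rfl fun i hi => ?_
  rw [evc_sum _ _ _ (fun j _ => g3 i j) ht s, Finset.mul_sum]
  refine Finset.sum_congr rfl fun j hj => ?_
  rw [Finset.mem_range] at hi hj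
  rw [evc_mul (gr_mul (g1 i j) (g2 i) hρ0) (gr_Xpow hρ0 _) ht s, evc_mul (g1 i j) (g2 i) ht s,
    evc_C, evc_pow hW ht, evc_Xpow, ← h2, sC_apply]
  have e1 : e * J = e * (J - j) + e * j := by rw [← mul_add, Nat.sub_add_cancel hj.le]
  have e2 : h * e = h * (e - i) + h * i := by rw [← mul_add, Nat.sub_add_cancel hi.le]
  have e3 : t ^ (e * j) * ξ ^ j = 1 := by rw [pow_mul, ← mul_pow, h1, one_pow]
  calc s (c i j k k' : ℂ) * (t ^ h * η) ^ i * t ^ (e * (J - j) + h * (e - i))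
      = s (c i j k k' : ℂ) * (t ^ h * η) ^ i * t ^ (e * (J - j) + h * (e - i)) *
        (t ^ (e * j) * ξ ^ j) := by rw [e3, mul_one]
    _ = t ^ (e * J + h * e) * (s (c i j k k' : ℂ) * η ^ i * ξ ^ j) := by
        rw [e1, e2, mul_pow, ← pow_mul]
        simp only [pow_add]
        ring

private theorem Aux2C_S {K : IntermediateField ℚ ℂ} {n₁ n₂ I R QC : ℕ}
    {c g : ℕ → ℕ → ℕ → ℕ → OO} {p : ℕ → OO} {B B' B₁ B₂ : ℝ} (hρ0 : 0 ≤ ρ)
    (hc : CB K c e n₁ n₂ R B) (hg : CB K g e n₁ I R B') (hp : ∀ j (s : ℂ ≃+* ℂ), ‖s ((p j : OO) : ℂ)‖ ≤ Real.exp B')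
    (hW : Gr ρ QC W) (hRp : 0 < R)
    (hGc : ∀ k k', Gr ρ (Real.exp B₁) (Gar e h n₂ W c k k'))
    (hGg : ∀ k k', Gr ρ (Real.exp B₂) (Gar e h I W g k k'))
    (ht : ‖t‖ ≤ ρ) (h1 : t ^ e * ξ = 1) (h2 : t ^ h * η = evc s W t) (y y' : ℂ) :
    ∑ k ∈ Finset.range (2 * R), ∑ k' ∈ Finset.range (2 * R),
      evc s (Gfg e h n₂ I R W c g p k k') t * y ^ k * y' ^ k' =
    t ^ (e * (I + n₂) + 2 * (h * e)) * (vE (sC s) c e n₂ R ξ η y y' * vE (sC s) g e I R ξ η y y' -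
      ∑ j ∈ Finset.range I, s ((p j : OO) : ℂ) * ξ ^ j) := by
  classical
  have e1 : ∀ k k', evc s (Gfg e h n₂ I R W c g p k k') t =
      (∑ l ∈ Finset.range R, ∑ l' ∈ Finset.range R, if l ≤ k ∧ l' ≤ k' then
        evc s (Gar e h n₂ W c (k - l) (k' - l')) t * evc s (Gar e h I W g l l') t else 0) -
      (if k = 0 ∧ k' = 0 then ∑ j ∈ Finset.range I,
        s ((p j : OO) : ℂ) * t ^ (e * (I + n₂ - j) + 2 * (h * e)) else 0) := by
    intro k k'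
    have g1 : ∀ l l', Gr ρ (Real.exp B₁ * Real.exp B₂) (if l ≤ k ∧ l' ≤ k' then
        Gar e h n₂ W c (k - l) (k' - l') * Gar e h I W g l l' else 0) := by
      intro l l'
      split_ifs
      · exact gr_mul (hGc _ _) (hGg _ _) hρ0
      · exact gr_mono gr_zero (by positivity)
    have g2 : ∀ j, Gr ρ (Real.exp B' * ρ ^ (e * (I + n₂ - j) + 2 * (h * e)))
        (PowerSeries.C (p j) * X ^ (e * (I + n₂ - j) + 2 * (h * e))) := fun j =>
      gr_mul (gr_C (Real.exp_pos B').le (hp j)) (gr_Xpow hρ0 _) hρ0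
    have g3 : Gr ρ (∑ j ∈ Finset.range I, Real.exp B' * ρ ^ (e * (I + n₂ - j) + 2 * (h * e)))
        (if k = 0 ∧ k' = 0 then ∑ j ∈ Finset.range I,
          PowerSeries.C (p j) * X ^ (e * (I + n₂ - j) + 2 * (h * e)) else 0) := by
      split_ifs
      · exact gr_sum _ _ _ hρ0 fun j _ => g2 j
      · exact gr_mono gr_zero (Finset.sum_nonneg fun j _ => by positivity)
    unfold Gfg
    rw [evc_sub (gr_sum _ _ _ hρ0 fun l _ => gr_sum _ _ _ hρ0 fun l' _ => g1 l l') g3 ht s]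
    congr 1
    · rw [evc_sum _ _ _ (fun l _ => gr_sum _ _ _ hρ0 fun l' _ => g1 l l') ht s]
      refine Finset.sum_congr rfl fun l _ => ?_
      rw [evc_sum _ _ _ (fun l' _ => g1 l l') ht s]
      refine Finset.sum_congr rfl fun l' _ => ?_
      split_ifs
      · exact evc_mul (hGc _ _) (hGg _ _) ht s
      · exact evc_zero s t
    · split_ifs
      · rw [evc_sum _ _ _ (fun j _ => g2 j) ht s]
        refine Finset.sum_congr rfl fun j _ => ?_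
        rw [evc_mul (gr_C (Real.exp_pos B').le (hp j)) (gr_Xpow hρ0 _) ht s, evc_C, evc_Xpow]
      · exact evc_zero s t
  have e2 : ∀ k k', R ≤ k ∨ R ≤ k' → evc s (Gar e h n₂ W c k k') t = 0 := by
    intro k k' hk
    rw [Aux2C_gar hρ0 hc hW ht h1 h2]
    have h3 : ∀ i j, c i j k k' = 0 := by
      intro i j
      by_contra hcon
      obtain ⟨-, -, -, h4, h5⟩ := hc.supp i j k k' hcon
      omega
    simp [h3]
  have e3 : ∀ {n₃ J : ℕ} {c : ℕ → ℕ → ℕ → ℕ → OO} {B : ℝ}, CB K c e n₃ J R B →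
      ∑ k ∈ Finset.range R, ∑ k' ∈ Finset.range R, evc s (Gar e h J W c k k') t * y ^ k * y' ^ k' =
      t ^ (e * J + h * e) * vE (sC s) c e J R ξ η y y' := by
    intro n₃ J c B hc
    have f1 : vE (sC s) c e J R ξ η y y' = ∑ k ∈ Finset.range R, ∑ k' ∈ Finset.range R,
        (∑ i ∈ Finset.range e, ∑ j ∈ Finset.range J, sC s (c i j k k') * η ^ i * ξ ^ j) *
          y ^ k * y' ^ k' := by
      unfold vE
      rw [Finset.sum_congr rfl fun i _ => Finset.sum_comm, Finset.sum_comm]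
      refine Finset.sum_congr rfl fun k _ => ?_
      rw [Finset.sum_congr rfl fun i _ => Finset.sum_congr rfl fun j _ => rfl]
      rw [Finset.sum_congr rfl fun i _ => Finset.sum_comm, Finset.sum_comm]
      refine Finset.sum_congr rfl fun k' _ => ?_
      rw [Finset.sum_mul, Finset.sum_mul]
      refine Finset.sum_congr rfl fun i _ => ?_
      rw [Finset.sum_mul, Finset.sum_mul]
    rw [f1, Finset.mul_sum]
    refine Finset.sum_congr rfl fun k _ => ?_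
    rw [Finset.mul_sum]
    refine Finset.sum_congr rfl fun k' _ => ?_
    rw [Aux2C_gar hρ0 hc hW ht h1 h2]
    ring
  have e4 : ∑ k ∈ Finset.range (2 * R), ∑ k' ∈ Finset.range (2 * R),
      (if k = 0 ∧ k' = 0 then ∑ j ∈ Finset.range I,
        s ((p j : OO) : ℂ) * t ^ (e * (I + n₂ - j) + 2 * (h * e)) else 0) * y ^ k * y' ^ k' =
      t ^ (e * (I + n₂) + 2 * (h * e)) * ∑ j ∈ Finset.range I, s ((p j : OO) : ℂ) * ξ ^ j := by
    rw [Finset.sum_eq_single 0, Finset.sum_eq_single 0]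
    · rw [if_pos ⟨rfl, rfl⟩, pow_zero, pow_zero, mul_one, mul_one, Finset.mul_sum]
      refine Finset.sum_congr rfl fun j hj => ?_
      rw [Finset.mem_range] at hj
      have f1 : e * (I + n₂) = e * (I + n₂ - j) + e * j := by
        rw [← mul_add, Nat.sub_add_cancel (by omega)]
      have f2 : t ^ (e * j) * ξ ^ j = 1 := by rw [pow_mul, ← mul_pow, h1, one_pow]
      calc s (p j : ℂ) * t ^ (e * (I + n₂ - j) + 2 * (h * e))
          = s (p j : ℂ) * t ^ (e * (I + n₂ - j) + 2 * (h * e)) * (t ^ (e * j) * ξ ^ j) := by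
            rw [f2, mul_one]
        _ = t ^ (e * (I + n₂) + 2 * (h * e)) * (s (p j : ℂ) * ξ ^ j) := by
            rw [f1]
            simp only [pow_add]
            ring
    · intro k' _ hk'
      rw [if_neg (fun h => hk' h.2)]
      ring
    · intro h3
      exact absurd (Finset.mem_range.2 (by omega)) h3
    · intro k _ hk
      refine Finset.sum_eq_zero fun k' _ => ?_
      rw [if_neg (fun h => hk h.1)]
      ring
    · intro h3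
      exact absurd (Finset.mem_range.2 (by omega)) h3
  have e5 : ∑ k ∈ Finset.range (2 * R), ∑ k' ∈ Finset.range (2 * R),
      evc s (Gfg e h n₂ I R W c g p k k') t * y ^ k * y' ^ k' =
      (∑ k ∈ Finset.range (2 * R), ∑ k' ∈ Finset.range (2 * R),
      (∑ l ∈ Finset.range R, ∑ l' ∈ Finset.range R, if l ≤ k ∧ l' ≤ k' then
        evc s (Gar e h n₂ W c (k - l) (k' - l')) t * evc s (Gar e h I W g l l') t else 0) *
        y ^ k * y' ^ k') -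
      ∑ k ∈ Finset.range (2 * R), ∑ k' ∈ Finset.range (2 * R),
      (if k = 0 ∧ k' = 0 then ∑ j ∈ Finset.range I,
        s ((p j : OO) : ℂ) * t ^ (e * (I + n₂ - j) + 2 * (h * e)) else 0) * y ^ k * y' ^ k' := by
    rw [← Finset.sum_sub_distrib]
    refine Finset.sum_congr rfl fun k _ => ?_
    rw [← Finset.sum_sub_distrib]
    refine Finset.sum_congr rfl fun k' _ => ?_
    rw [e1]
    ring
  rw [e5, e4, Aux2C_conv (fun k k' => evc s (Gar e h n₂ W c k k') t)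
    (fun k k' => evc s (Gar e h I W g k k') t) e2 y y', e3 hc, e3 hg, mul_sub]
  congr 1
  have f1 : t ^ (e * (I + n₂) + 2 * (h * e)) = t ^ (e * n₂ + h * e) * t ^ (e * I + h * e) := by
    rw [← pow_add]
    congr 1
    ring
  rw [f1]
  ring

/-- the growth of the array -/
private theorem Aux2C_gr {n₂ I R : ℕ} {c g : ℕ → ℕ → ℕ → ℕ → OO} {p : ℕ → OO} {B' B₁ B₂ : ℝ}
    (hρ0 : 0 ≤ ρ) (hp : ∀ j (s : ℂ ≃+* ℂ), ‖s ((p j : OO) : ℂ)‖ ≤ Real.exp B')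
    (hGc : ∀ k k', Gr ρ (Real.exp B₁) (Gar e h n₂ W c k k'))
    (hGg : ∀ k k', Gr ρ (Real.exp B₂) (Gar e h I W g k k')) :
    ∃ P : ℝ, ∀ k k', Gr ρ (Real.exp P) (Gfg e h n₂ I R W c g p k k') := by
  refine ⟨(∑ l ∈ Finset.range R, ∑ l' ∈ Finset.range R, Real.exp B₁ * Real.exp B₂) +
    ∑ j ∈ Finset.range I, Real.exp B' * ρ ^ (e * (I + n₂ - j) + 2 * (h * e)), fun k k' => ?_⟩
  have g1 : ∀ l l', Gr ρ (Real.exp B₁ * Real.exp B₂) (if l ≤ k ∧ l' ≤ k' then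
      Gar e h n₂ W c (k - l) (k' - l') * Gar e h I W g l l' else 0) := by
    intro l l'
    split_ifs
    · exact gr_mul (hGc _ _) (hGg _ _) hρ0
    · exact gr_mono gr_zero (by positivity)
  have g2 : ∀ j, Gr ρ (Real.exp B' * ρ ^ (e * (I + n₂ - j) + 2 * (h * e)))
      (PowerSeries.C (p j) * X ^ (e * (I + n₂ - j) + 2 * (h * e))) := fun j =>
    gr_mul (gr_C (Real.exp_pos B').le (hp j)) (gr_Xpow hρ0 _) hρ0
  have g3 : Gr ρ (∑ j ∈ Finset.range I, Real.exp B' * ρ ^ (e * (I + n₂ - j) + 2 * (h * e)))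
      (if k = 0 ∧ k' = 0 then ∑ j ∈ Finset.range I,
        PowerSeries.C (p j) * X ^ (e * (I + n₂ - j) + 2 * (h * e)) else 0) := by
    split_ifs
    · exact gr_sum _ _ _ hρ0 fun j _ => g2 j
    · exact gr_mono gr_zero (Finset.sum_nonneg fun j _ => by positivity)
  refine gr_mono (gr_sub (gr_sum _ _ _ hρ0 fun l _ => gr_sum _ _ _ hρ0 fun l' _ => g1 l l') g3 hρ0) ?_
  have := Real.add_one_le_exp ((∑ l ∈ Finset.range R, ∑ l' ∈ Finset.range R,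
    Real.exp B₁ * Real.exp B₂) +
    ∑ j ∈ Finset.range I, Real.exp B' * ρ ^ (e * (I + n₂ - j) + 2 * (h * e)))
  linarith

/-- the representative of a class -/
private theorem Aux2C_rep {L : ℕ} (hL : 0 < L) (κ : QQ L) {τ τ₀ : ℍ} (h : jInv τ = jInv τ₀)
    (h1 : 1 < τ₀.im) :
    ∃ (a d : ℕ) (τ₁ : ℍ), 0 < a ∧ 0 < d ∧ a * d = L ∧ jQ hL κ τ = jInv τ₁ ∧
      Complex.exp (2 * Real.pi * Complex.I * τ₁) ^ d =
        Complex.exp (2 * Real.pi * Complex.I * τ₀) ^ a ∧ 1 ≤ (L : ℝ) * τ₁.im := by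
  obtain ⟨γ, hγ⟩ := Gal.j_inj h
  have h2 : jQ hL κ τ = jQ hL (rQ γ κ) τ₀ := by
    rw [jQ_rQ, hγ]
  rw [h2]
  generalize rQ γ κ = κ'
  induction κ' using Quotient.inductionOn' with
  | h A =>
    obtain ⟨A', hA', δ, rfl⟩ := exists_rep hL A
    obtain ⟨a, d, b, ha, hd, had, h00, h11, hact⟩ := rep_shape' hL hA'
    have hd' : (d : ℂ) ≠ 0 := by exact_mod_cast hd.ne'
    refine ⟨a, d, act hL A' τ₀, ha, hd, had, ?_, ?_, ?_⟩
    · rw [jQ_mk, jA_smul]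
      rfl
    · rw [← Complex.exp_nat_mul, ← Complex.exp_nat_mul, Complex.exp_eq_exp_iff_exists_int]
      refine ⟨b, ?_⟩
      rw [hact τ₀]
      field_simp
    · have e1 : (act hL A' τ₀).im = a * τ₀.im / d := by
        have e2 : (act hL A' τ₀).im = ((act hL A' τ₀ : ℍ) : ℂ).im := rfl
        rw [e2, hact τ₀]
        have e3 : ((a : ℂ) * τ₀ + b) / d = ((a / d : ℝ) : ℂ) * τ₀ + ((b / d : ℝ) : ℂ) := by
          push_cast
          field_simp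
        rw [e3, Complex.add_im, Complex.ofReal_im, add_zero, Complex.im_ofReal_mul]
        change (a / d : ℝ) * τ₀.im = a * τ₀.im / d
        ring
      rw [e1, ← had]
      push_cast
      have ha1 : (1 : ℝ) ≤ a := by exact_mod_cast ha
      have hd1 : (d : ℝ) ≠ 0 := by exact_mod_cast hd.ne'
      have e4 : (a : ℝ) * d * (a * τ₀.im / d) = a * a * τ₀.im := by
        field_simp
      rw [e4]
      nlinarith


private theorem Aux2C_one {ρ : ℝ} (s : ℂ ≃+* ℂ) (t y : ℂ) : evP s (1 : Polynomial Ser) t y = 1 ∧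
    GrP ρ 1 (1 : Polynomial Ser) := by
  constructor
  · rw [evP, Polynomial.natDegree_one, zero_add, Finset.sum_range_one, Polynomial.coeff_one_zero,
      evc_one, pow_zero, mul_one]
  · intro k
    rw [Polynomial.coeff_one]
    split_ifs
    · exact gr_one
    · exact gr_mono gr_zero zero_le_one

/-- bound for the roots -/
private theorem Aux2C_root {ρ A : ℝ} {Φs : Polynomial Ser} (hm : Φs.Monic) (h : GrP ρ A Φs)
    (s : ℂ ≃+* ℂ) {t y : ℂ} (ht : ‖t‖ ≤ ρ) (hy : evP s Φs t y = 0) :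
    ‖y‖ ≤ max 1 (Φs.natDegree * A) := by
  have hA : 0 ≤ A := gr_nonneg (h 0)
  rcases le_or_gt ‖y‖ 1 with h1 | h1
  · exact h1.trans (le_max_left _ _)
  refine le_trans ?_ (le_max_right _ _)
  have hy0 : 0 < ‖y‖ := by linarith
  rw [evP, Finset.sum_range_succ, hm.coeff_natDegree, evc_one, one_mul] at hy
  rcases Nat.eq_zero_or_pos Φs.natDegree with h0 | h0
  · rw [h0] at hy
    simp at hy
  have h2 : y ^ Φs.natDegree = -∑ k ∈ Finset.range Φs.natDegree, evc s (Φs.coeff k) t * y ^ k :=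
    eq_neg_of_add_eq_zero_right hy
  have h3 : ‖y‖ ^ Φs.natDegree ≤ Φs.natDegree * (A * ‖y‖ ^ (Φs.natDegree - 1)) := by
    rw [← norm_pow, h2, norm_neg]
    refine (norm_sum_le _ _).trans ?_
    calc ∑ k ∈ Finset.range Φs.natDegree, ‖evc s (Φs.coeff k) t * y ^ k‖
        ≤ ∑ k ∈ Finset.range Φs.natDegree, A * ‖y‖ ^ (Φs.natDegree - 1) := by
          refine Finset.sum_le_sum fun k hk => ?_
          rw [Finset.mem_range] at hk
          rw [norm_mul, norm_pow]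
          exact mul_le_mul (evc_norm_le (h k) ht s) (pow_le_pow_right₀ h1.le (by omega))
            (by positivity) hA
      _ = _ := by rw [Finset.sum_const, Finset.card_range, nsmul_eq_mul]
  have h4 : ‖y‖ ^ Φs.natDegree = ‖y‖ ^ (Φs.natDegree - 1) * ‖y‖ := by
    rw [← pow_succ, Nat.sub_add_cancel h0]
  rw [h4] at h3
  have h5 : ‖y‖ ^ (Φs.natDegree - 1) * ‖y‖ ≤ ‖y‖ ^ (Φs.natDegree - 1) * (Φs.natDegree * A) := by
    linarith
  exact le_of_mul_le_mul_left h5 (by positivity)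

private theorem Aux2C_main (D : LocC V a b β) (Q : QDC D) {L : ℕ} (hLp : L.Prime) (hL : 0 < L)
    {B₀ : ℝ} (ld : LD D.K₀ β L B₀) (hB₀ : 1 ≤ B₀)
    {n₁ n₂ I : ℕ} {c g : ℕ → ℕ → ℕ → ℕ → OO} {p : ℕ → OO} {B B' : ℝ}
    (hc : CB D.K₀ c D.e n₁ n₂ (L + 1) B) (hg : CB D.K₀ g D.e n₁ I (L + 1) B')
    (hp : ∀ j (s : ℂ ≃+* ℂ), ‖s ((p j : OO) : ℂ)‖ ≤ Real.exp B')
    (hv : VAC L (2 * (L + 1)) (L + 1) (Gfg D.e D.h n₂ I (L + 1) D.W c g p) Q.qa (Phs ld.Φ D.Sb) 1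
        (D.e * (I + n₂) + (2 * (D.h * D.e) + 2 * (D.m * L * (L + 1)) + 1))) :
    ∃ C' : ℝ, ∀ x ∈ V, x ∉ D.E → C' ≤ ‖D.ξ x‖ → ∀ (κa κb : QQ L) (τ τ' : UpperHalfPlane),
      jInv τ = x a → jInv τ' = x b →
      ‖∑ j ∈ Finset.range I, ((p j : OO) : ℂ) * D.ξ x ^ j -
        vE OO.subtype c D.e n₂ (L + 1) (D.ξ x) (D.η x) (jQ hL κa τ) (jQ hL κb τ') *
        vE OO.subtype g D.e I (L + 1) (D.ξ x) (D.η x) (jQ hL κa τ) (jQ hL κb τ')‖ ^ D.e *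
          ‖D.ξ x‖ ≤ C' := by
  obtain ⟨hρ0, hρ1, hQC⟩ := Q.pos
  have hQC1 : (1 : ℝ) ≤ Q.C := by exact_mod_cast hQC
  have hR : 0 < L + 1 := Nat.succ_pos L
  have hGc := gar_gr2 hρ0.le hρ1 hc (h := D.h) Q.gr.2.1
  have hGg := gar_gr2 hρ0.le hρ1 hg (h := D.h) Q.gr.2.1
  obtain ⟨P, hP⟩ := Aux2C_gr (n₂ := n₂) (I := I) (R := L + 1) hρ0.le hp hGc hGg
  obtain ⟨C₀, hC₀, hvc⟩ := vac_c hρ0 hρ1 Q.c0 Q.gr.1
  obtain ⟨A, hA⟩ : ∃ A : ℝ, A = ((⌊B₀⌋₊ : ℕ) + 1) * (Real.exp B₀ * (Q.C : ℝ) ^ ⌊B₀⌋₊) := ⟨_, rfl⟩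
  have hA1 : 1 ≤ A := by
    rw [hA]
    have e1 : (1 : ℝ) ≤ ((⌊B₀⌋₊ : ℕ) : ℝ) + 1 := by
      have : (0 : ℝ) ≤ ((⌊B₀⌋₊ : ℕ) : ℝ) := Nat.cast_nonneg _
      linarith
    exact one_le_mul_of_one_le_of_one_le e1
      (one_le_mul_of_one_le_of_one_le (Real.one_le_exp (by linarith)) (one_le_pow₀ hQC1))
  have gP : GrP Q.ρ A (Phs ld.Φ D.Sb) := by
    rw [hA]
    exact phs_gr hρ0.le Q.gr.2.2 hQC1 (Φ := ld.Φ) (d := ⌊B₀⌋₊) (B := Real.exp B₀)
      (fun k => Nat.le_floor (ld.bdd k)) ld.bdc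
  have hmon := phs_monic (S := D.Sb) ld.monic
  have hdeg : (Phs ld.Φ D.Sb).natDegree = L + 1 := by rw [hmon.2, ld.deg]
  obtain ⟨B₁, hB₁⟩ : ∃ B₁ : ℝ, B₁ = 2 * ((L : ℝ) + 1) * A + |P| := ⟨_, rfl⟩
  have hL0 : (0 : ℝ) ≤ L := Nat.cast_nonneg _
  have hLA : (L : ℝ) + 1 ≤ ((L : ℝ) + 1) * A := le_mul_of_one_le_right (by linarith) hA1
  have hAL : A ≤ ((L : ℝ) + 1) * A := le_mul_of_one_le_left (by linarith) (by linarith)
  have hP0 := abs_nonneg P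
  have b1 : 1 ≤ B₁ := by rw [hB₁]; nlinarith
  have bL : (L : ℝ) ≤ B₁ := by rw [hB₁]; nlinarith
  have bN : ((2 * (L + 1) : ℕ) : ℝ) ≤ B₁ := by rw [hB₁]; push_cast; nlinarith
  have bR : ((L + 1 : ℕ) : ℝ) ≤ B₁ := by rw [hB₁]; push_cast; nlinarith
  have bA : ((L : ℝ) + 1) * A ≤ B₁ := by rw [hB₁]; nlinarith
  have bP : P ≤ B₁ := by
    rw [hB₁]
    have := le_abs_self P
    nlinarith
  have hex : ∀ z : ℝ, z ≤ B₁ → z ≤ Real.exp B₁ := fun z hz => by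
    have := Real.add_one_le_exp B₁
    linarith
  have gP' : GrP Q.ρ (Real.exp B₁) (Phs ld.Φ D.Sb) := fun k =>
    gr_mono (gP k) (hex A (hAL.trans bA))
  have gG : ∀ k < 2 * (L + 1), ∀ k' < 2 * (L + 1),
      Gr Q.ρ (Real.exp B₁) (Gfg D.e D.h n₂ I (L + 1) D.W c g p k k') := fun k _ k' _ =>
    gr_mono (hP k k') (Real.exp_le_exp.2 bP)
  obtain ⟨T₀, hT₀⟩ : ∃ T₀ : ℕ, T₀ = D.e * (I + n₂) + 2 * (D.h * D.e) := ⟨_, rfl⟩
  obtain ⟨T₁, hT₁⟩ : ∃ T₁ : ℕ, T₁ = 2 * (D.m * L * (L + 1)) := ⟨_, rfl⟩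
  have hT : D.e * (I + n₂) + (2 * (D.h * D.e) + 2 * (D.m * L * (L + 1)) + 1) = T₀ + T₁ + 1 := by
    rw [hT₀, hT₁]
    ring
  rw [hT] at hv
  obtain ⟨K₂, hK₂⟩ : ∃ K₂ : ℝ, K₂ = Real.exp (((C₀ : ℝ) * B₁) ^ C₀) / Q.ρ ^ (T₀ + T₁ + 1) := ⟨_, rfl⟩
  obtain ⟨K₁, hK₁⟩ : ∃ K₁ : ℝ, K₁ = 1 / (Q.C : ℝ) ^ (L * (2 * (L + 1))) := ⟨_, rfl⟩
  have hQC0 : (0 : ℝ) < Q.C := by linarith
  have hK₁0 : 0 < K₁ := by rw [hK₁]; positivity
  have hK₂0 : 0 < K₂ := by rw [hK₂]; positivity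
  refine ⟨max Q.C ((K₂ / K₁) ^ D.e), ?_⟩
  intro x hx hxE hxi κa κb τ τ' hτ hτ'
  obtain ⟨t, ht0, ht, h1, h2, hxb, -, hqt, τ₀, hi, hj, hq⟩ :=
    Q.near_c (RingEquiv.refl ℂ) x hx hxE ((le_max_left _ _).trans hxi)
  change t ^ D.e * D.ξ x = 1 at h1
  change t ^ D.h * D.η x = evc (RingEquiv.refl ℂ) D.W t at h2
  change x b = evc (RingEquiv.refl ℂ) D.Sb t at hxb
  change jInv τ₀ = x a at hj
  obtain ⟨aa, dd, τ₁, haa, hdd, had, hJ, hAA, hIm⟩ := Aux2C_rep hL κa (hτ.trans hj.symm) hi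
  rw [hq] at hAA
  have hu1 : ‖t‖ ≤ 1 := ht.trans hρ1
  -- the root
  have hroot : evP (RingEquiv.refl ℂ) (Phs ld.Φ D.Sb) t (jQ hL κb τ') = 0 := by
    rw [evP_phs (RingEquiv.refl ℂ) Q.gr.2.2 ld.Φ ht, ← hxb]
    refine ld.root _ _ ?_
    rw [← hτ', Gal.isogDeg_iff_jQ hL]
    exact ⟨κb, rfl⟩
  have hyb : ‖jQ hL κb τ'‖ ≤ Real.exp B₁ := by
    refine hex _ ((Aux2C_root hmon.1 gP (RingEquiv.refl ℂ) ht hroot).trans ?_)
    rw [hdeg]
    refine max_le b1 ?_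
    push_cast
    exact bA
  have hS := Aux2C_S (s := RingEquiv.refl ℂ) hρ0.le hc hg hp Q.gr.2.1 hR hGc hGg ht h1 h2
    (jQ hL κa τ) (jQ hL κb τ')
  obtain ⟨v1, v2⟩ := hvc L (2 * (L + 1)) (L + 1) (T₀ + T₁ + 1)
    (Gfg D.e D.h n₂ I (L + 1) D.W c g p) (Phs ld.Φ D.Sb) 1 B₁ (RingEquiv.refl ℂ) t (jQ hL κb τ') τ₁
    hL hR b1 bL bN bR hmon.1 hdeg gP' (by rw [Polynomial.natDegree_one]; simpa using (by linarith : (0 : ℝ) ≤ B₁))
    (fun k => gr_mono ((Aux2C_one (ρ := Q.ρ) (RingEquiv.refl ℂ) t 0).2 k) (Real.one_le_exp (by linarith)))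
    gG hv ht0 ht hroot hyb
  rw [(Aux2C_one (ρ := Q.ρ) (RingEquiv.refl ℂ) t (jQ hL κb τ')).1, norm_one, one_mul] at v2
  have hvv : ‖∑ k ∈ Finset.range (2 * (L + 1)), ∑ k' ∈ Finset.range (2 * (L + 1)),
      evc (RingEquiv.refl ℂ) (Gfg D.e D.h n₂ I (L + 1) D.W c g p k k') t * jInv τ₁ ^ k *
        jQ hL κb τ' ^ k'‖ * ‖evc (RingEquiv.refl ℂ) Q.qa t‖ ^ (L * (2 * (L + 1))) ≤
      Real.exp (((C₀ : ℝ) * B₁) ^ C₀) * (‖t‖ / Q.ρ) ^ (T₀ + T₁ + 1) := by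
    rcases (Nat.dvd_prime hLp).1 (Dvd.intro _ had) with h | h
    · subst h
      rw [one_mul] at had
      subst had
      rw [pow_one] at hAA
      exact v1 hAA
    · rw [h] at had hAA
      have hd1 : dd = 1 := by
        have : L * dd = L * 1 := by rw [had, mul_one]
        exact Nat.eq_of_mul_eq_mul_left hL this
      rw [hd1, pow_one] at hAA
      exact v2 hAA
  rw [← hJ, hS, ← hT₀] at hvv
  have hsub : sC (RingEquiv.refl ℂ) = OO.subtype := by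
    ext x
    rfl
  rw [hsub] at hvv
  have hpp : ∑ j ∈ Finset.range I, (RingEquiv.refl ℂ) ((p j : OO) : ℂ) * D.ξ x ^ j =
      ∑ j ∈ Finset.range I, ((p j : OO) : ℂ) * D.ξ x ^ j := rfl
  rw [hpp] at hvv
  obtain ⟨H, hH⟩ : ∃ H : ℂ, H = ∑ j ∈ Finset.range I, ((p j : OO) : ℂ) * D.ξ x ^ j -
        vE OO.subtype c D.e n₂ (L + 1) (D.ξ x) (D.η x) (jQ hL κa τ) (jQ hL κb τ') *
        vE OO.subtype g D.e I (L + 1) (D.ξ x) (D.η x) (jQ hL κa τ) (jQ hL κb τ') := ⟨_, rfl⟩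
  rw [← hH]
  have hH' : vE OO.subtype c D.e n₂ (L + 1) (D.ξ x) (D.η x) (jQ hL κa τ) (jQ hL κb τ') *
        vE OO.subtype g D.e I (L + 1) (D.ξ x) (D.η x) (jQ hL κa τ) (jQ hL κb τ') -
        ∑ j ∈ Finset.range I, ((p j : OO) : ℂ) * D.ξ x ^ j = -H := by rw [hH]; ring
  rw [hH', norm_mul, norm_neg, norm_pow] at hvv
  -- lower bound
  have hlow : K₁ * ‖t‖ ^ T₁ ≤ ‖evc (RingEquiv.refl ℂ) Q.qa t‖ ^ (L * (2 * (L + 1))) := by
    have e1 : K₁ * ‖t‖ ^ T₁ = (‖t‖ ^ D.m / Q.C) ^ (L * (2 * (L + 1))) := by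
      rw [hK₁, hT₁, div_pow, ← pow_mul, show D.m * (L * (2 * (L + 1))) = 2 * (D.m * L * (L + 1)) by ring]
      ring
    rw [e1]
    refine pow_le_pow_left₀ (by positivity) ?_ _
    rw [div_le_iff₀' hQC0]
    exact hqt
  have h3 : ‖t‖ ^ T₀ * ‖H‖ * (K₁ * ‖t‖ ^ T₁) ≤ K₂ * ‖t‖ ^ (T₀ + T₁ + 1) := by
    refine (mul_le_mul_of_nonneg_left hlow (by positivity)).trans (hvv.trans (le_of_eq ?_))
    rw [hK₂, div_pow]
    ring
  have h4 : ‖H‖ ≤ K₂ / K₁ * ‖t‖ := by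
    have e1 : (‖t‖ ^ (T₀ + T₁) * K₁) * ‖H‖ ≤ (‖t‖ ^ (T₀ + T₁) * K₁) * (K₂ / K₁ * ‖t‖) := by
      have e2 : (‖t‖ ^ (T₀ + T₁) * K₁) * (K₂ / K₁ * ‖t‖) = K₂ * ‖t‖ ^ (T₀ + T₁ + 1) := by
        rw [pow_succ]
        field_simp
      rw [e2]
      refine le_trans (le_of_eq ?_) h3
      rw [pow_add]
      ring
    exact le_of_mul_le_mul_left e1 (by positivity)
  refine le_trans ?_ (le_max_right _ _)
  have h5 : ‖t‖ ^ D.e * ‖D.ξ x‖ = 1 := by rw [← norm_pow, ← norm_mul, h1, norm_one]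
  calc ‖H‖ ^ D.e * ‖D.ξ x‖ ≤ (K₂ / K₁ * ‖t‖) ^ D.e * ‖D.ξ x‖ :=
        mul_le_mul_of_nonneg_right (pow_le_pow_left₀ (norm_nonneg _) h4 _) (norm_nonneg _)
    _ = (K₂ / K₁) ^ D.e := by rw [mul_pow, mul_assoc, h5, mul_one]

theorem aux2C (D : LocC V a b β) (Q : QDC D) : ∃ C : ℕ, 0 < C ∧ ∀ (L : ℕ) (hL : 0 < L) (B : ℝ)
    (_ : LD D.K₀ β L B), L.Prime → 1 ≤ B → (L : ℝ) ≤ B →
    ∀ (n₂ : ℕ) (c : ℕ → ℕ → ℕ → ℕ → OO), (n₂ : ℝ) ≤ B → CB D.K₀ c D.e (4 * L * (L + 1)) n₂ (L + 1) B →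
    ∃ (I : ℕ) (p : ℕ → OO) (g : ℕ → ℕ → ℕ → ℕ → OO), (I : ℝ) ≤ ((C : ℝ) * B) ^ C ∧
      ((∃ j < I, p j ≠ 0) ∨ ∃ i j k k', g i j k k' ≠ 0) ∧ (∀ j, ((p j : OO) : ℂ) ∈ D.K₀) ∧
      (∀ j (s : ℂ ≃+* ℂ), ‖s ((p j : OO) : ℂ)‖ ≤ Real.exp (((C : ℝ) * B) ^ C)) ∧
      CB D.K₀ g D.e (4 * L * (L + 1)) I (L + 1) (((C : ℝ) * B) ^ C) ∧
      ∃ C' : ℝ, ∀ x ∈ V, x ∉ D.E → C' ≤ ‖D.ξ x‖ → ∀ (κa κb : QQ L)
        (τ τ' : UpperHalfPlane), jInv τ = x a → jInv τ' = x b →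
        ‖∑ j ∈ Finset.range I, ((p j : OO) : ℂ) * D.ξ x ^ j -
          vE OO.subtype c D.e n₂ (L + 1) (D.ξ x) (D.η x) (jQ hL κa τ) (jQ hL κb τ') *
          vE OO.subtype g D.e I (L + 1) (D.ξ x) (D.η x) (jQ hL κa τ)
            (jQ hL κb τ')‖ ^ D.e * ‖D.ξ x‖ ≤ C' := by
  obtain ⟨C, hC, h⟩ := sys2C D Q
  refine ⟨C, hC, ?_⟩
  intro L hL B ld hLp hB hLB n₂ c hn₂ hc
  obtain ⟨I, p, g, r1, r2, r3, r4, r5, r6⟩ := h L B ld hLp hB hLB n₂ c hn₂ hc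
  exact ⟨I, p, g, r1, r2, r3, r4, r5, Aux2C_main D Q hLp hL ld hB hc r5 r4 r6⟩

end Pool.Agent.LGO.RCM
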