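import Mathlib
import Pool.Agent.LGO.RCM.Aux2
import Pool.Agent.LGO.RCM.NV
import Pool.Agent.LGO.RU.Zero
import Pool.Agent.LGO.RU.NVGrid
import Pool.Agent.LGO.RU.NVCard

/-!
# LGO/RCM: the case where the auxiliary function vanishes

Copy of `LGO/RU/Zero.lean` (`vE_up`, `fib_fin`, `zero_ht`) for `D : LocC`, `Md : MdlC D`, `L` prime, with `aux2C` instead of `aux2`.
-/

namespace Pool.Agent.LGO.RCM

open PowerSeries Pool.Agent.Hhelper14.ZP Pool.Agent.LGO.RU Pool.Agent.LGO Pool.Agent.LGO.AX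
  UpperHalfPlane Filter Topology
open scoped MatrixGroups

variable {n : ℕ} {V : Set (Fin n → ℂ)} {a b : Fin n} {β : ℂ}

/-- the upper bound for the function where `ξ` is bounded -/
theorem Zero_up (D : LocC V a b β) {L : ℕ} (hL : 0 < L) {c : ℕ → ℕ → ℕ → ℕ → OO} {e J R : ℕ}
    (hc : ∀ i j k k', c i j k k' ≠ 0 → 4 * L * R ≤ j) (T : ℝ) : ∃ C : ℝ, ∀ x ∈ V, x ∉ D.E → ‖D.ξ x‖ ≤ T →
    ∀ (κa κb : QQ L) (τ τ' : ℍ), jInv τ = x a → jInv τ' = x b →
      ‖vE OO.subtype c e J R (D.ξ x) (D.η x) (jQ hL κa τ) (jQ hL κb τ')‖ ≤ C := by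
  obtain ⟨C₀, hC₀, hlev⟩ := lev_c
  set U : ℝ := D.C * max 1 (max 1 T) ^ D.C with hU
  set W : ℝ := max 1 (max T U) with hW
  set Y : ℝ := (C₀ * W) ^ (2 * L) with hY
  have hW1 : 1 ≤ W := le_max_left _ _
  have hTW : T ≤ W := (le_max_left _ _).trans (le_max_right _ _)
  have hUW : U ≤ W := (le_max_right _ _).trans (le_max_right _ _)
  have hY0 : 0 ≤ Y := by positivity
  refine ⟨∑ i ∈ Finset.range e, ∑ j ∈ Finset.range J, ∑ k ∈ Finset.range R, ∑ k' ∈ Finset.range R,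
    ‖OO.subtype (c i j k k')‖ * W ^ i * W ^ j * Y ^ k * Y ^ k', ?_⟩
  intro x hx hxE hxT κa κb τ τ' hτ hτ'
  have hup := D.up_c (RingEquiv.refl ℂ) x hx hxE
  simp only [RingEquiv.refl_apply] at hup
  change ‖D.η x‖ ≤ D.C * max 1 ‖D.ξ x‖ ^ D.C ∧ ‖D.ξ x‖ * ‖x a‖ ≤ D.C * max 1 ‖D.ξ x‖ ^ D.C ∧
    ‖D.ξ x‖ * ‖x b‖ ≤ D.C * max 1 ‖D.ξ x‖ ^ D.C at hup
  have hUb : (D.C : ℝ) * max 1 ‖D.ξ x‖ ^ D.C ≤ U := by
    rw [hU]
    refine mul_le_mul_of_nonneg_left (pow_le_pow_left₀ (by positivity) ?_ _) (Nat.cast_nonneg _)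
    exact max_le (le_max_left _ _) (hxT.trans ((le_max_right _ _).trans (le_max_right _ _)))
  have hη : ‖D.η x‖ ≤ W := (hup.1.trans hUb).trans hUW
  have hξ : ‖D.ξ x‖ ≤ W := hxT.trans hTW
  have key : ∀ (u : ℂ) (σ : ℍ) (κ : QQ L), jInv σ = u → ‖D.ξ x‖ * ‖u‖ ≤ W →
      ‖D.ξ x‖ ^ (2 * L) * ‖jQ hL κ σ‖ ≤ Y := by
    intro u σ κ hσ hu
    have h1 : IsogDeg L (jInv σ) (jQ hL κ σ) := (Gal.isogDeg_iff_jQ hL σ _).mpr ⟨κ, rfl⟩
    have h2 := hlev (RingEquiv.refl ℂ) _ _ L hL h1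
    simp only [RingEquiv.refl_apply] at h2
    rw [hσ] at h2
    calc ‖D.ξ x‖ ^ (2 * L) * ‖jQ hL κ σ‖ ≤ ‖D.ξ x‖ ^ (2 * L) * (C₀ * max 1 ‖u‖) ^ (2 * L) :=
          mul_le_mul_of_nonneg_left h2 (by positivity)
      _ = (C₀ * (‖D.ξ x‖ * max 1 ‖u‖)) ^ (2 * L) := by rw [← mul_pow]; ring
      _ ≤ (C₀ * W) ^ (2 * L) := by
          refine pow_le_pow_left₀ (by positivity) (mul_le_mul_of_nonneg_left ?_ (Nat.cast_nonneg _)) _
          rw [mul_max_of_nonneg _ _ (norm_nonneg _), mul_one]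
          exact max_le hξ hu
  have hya := key (x a) τ κa hτ ((hup.2.1.trans hUb).trans hUW)
  have hyb := key (x b) τ' κb hτ' ((hup.2.2.trans hUb).trans hUW)
  unfold vE
  refine (norm_sum_le _ _).trans (Finset.sum_le_sum fun i hi => ?_)
  refine (norm_sum_le _ _).trans (Finset.sum_le_sum fun j hj => ?_)
  refine (norm_sum_le _ _).trans (Finset.sum_le_sum fun k hk => ?_)
  refine (norm_sum_le _ _).trans (Finset.sum_le_sum fun k' hk' => ?_)
  rw [Finset.mem_range] at hk hk'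
  by_cases h0 : c i j k k' = 0
  · rw [h0, map_zero]
    simp
  have hj4 := hc i j k k' h0
  have hjs : 2 * L * (k + k') ≤ j := by
    refine le_trans ?_ hj4
    calc 2 * L * (k + k') ≤ 2 * L * (2 * R) := Nat.mul_le_mul_left _ (by omega)
      _ = 4 * L * R := by ring
  obtain ⟨m, rfl⟩ := Nat.exists_eq_add_of_le hjs
  rw [norm_mul, norm_mul, norm_mul, norm_mul, norm_pow, norm_pow, norm_pow, norm_pow]
  calc ‖OO.subtype (c i (2 * L * (k + k') + m) k k')‖ * ‖D.η x‖ ^ i * ‖D.ξ x‖ ^ (2 * L * (k + k') + m) *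
        ‖jQ hL κa τ‖ ^ k * ‖jQ hL κb τ'‖ ^ k'
      = ‖OO.subtype (c i (2 * L * (k + k') + m) k k')‖ * ‖D.η x‖ ^ i * ‖D.ξ x‖ ^ m *
        (‖D.ξ x‖ ^ (2 * L) * ‖jQ hL κa τ‖) ^ k * (‖D.ξ x‖ ^ (2 * L) * ‖jQ hL κb τ'‖) ^ k' := by ring
    _ ≤ ‖OO.subtype (c i (2 * L * (k + k') + m) k k')‖ * W ^ i * W ^ (2 * L * (k + k') + m) *
        Y ^ k * Y ^ k' := by
        have h1 : ‖D.ξ x‖ ^ m ≤ W ^ (2 * L * (k + k') + m) :=
          (pow_le_pow_left₀ (norm_nonneg _) hξ m).trans (pow_le_pow_right₀ hW1 (by omega))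
        gcongr

/-- the fibres of `ξ` over algebraic points are finite -/
theorem Zero_fib (D : LocC V a b β) {T : ℂ} (hT : IsAlgebraic ℚ T) :
    {x | x ∈ V ∧ x ∉ D.E ∧ D.ξ x = T}.Finite := by
  by_contra hinf
  have hinf' : {x | x ∈ V ∧ x ∉ D.E ∧ D.ξ x = T}.Infinite := hinf
  set c : ℕ → ℕ → ℂ := fun i j => if i = 0 then (if j = 0 then -T else if j = 1 then 1 else 0) else 0
    with hc
  have hca : ∀ i j, IsAlgebraic ℚ (c i j) := by
    intro i j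
    simp only [hc]
    split_ifs
    · exact hT.neg
    · exact isAlgebraic_one
    · exact isAlgebraic_zero
    · exact isAlgebraic_zero
  have h1 := D.indep 2 c hca (hinf'.mono ?_) 0 D.pos.1 1 (by norm_num)
  · simp [hc] at h1
  · rintro x ⟨hx, hxE, hxT⟩
    refine ⟨hx, hxE, ?_⟩
    rw [Finset.sum_eq_single 0]
    · change D.ξ x = T at hxT
      rw [Finset.sum_range_succ, Finset.sum_range_one]
      simp only [hc, if_true, pow_zero, mul_one, pow_one, one_ne_zero, if_false, one_mul]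
      change -T + D.ξ x = 0
      rw [hxT]
      ring
    · intro i _ hi
      refine Finset.sum_eq_zero fun j _ => ?_
      simp [hc, hi]
    · intro h
      exact absurd (Finset.mem_range.mpr D.pos.1) h

private theorem Zero_s4 (e J R : ℕ) (f : ℕ → ℕ → ℕ → ℕ → ℂ) :
    ∑ i ∈ Finset.range e, ∑ j ∈ Finset.range J, ∑ k ∈ Finset.range R, ∑ k' ∈ Finset.range R, f i j k k' =
      ∑ k ∈ Finset.range R, ∑ k' ∈ Finset.range R, ∑ i ∈ Finset.range e, ∑ j ∈ Finset.range J, f i j k k' := by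
  have h1 : ∀ i, ∑ j ∈ Finset.range J, ∑ k ∈ Finset.range R, ∑ k' ∈ Finset.range R, f i j k k' =
      ∑ k ∈ Finset.range R, ∑ j ∈ Finset.range J, ∑ k' ∈ Finset.range R, f i j k k' := fun i =>
    Finset.sum_comm
  simp only [h1]
  rw [Finset.sum_comm]
  refine Finset.sum_congr rfl fun k _ => ?_
  have h2 : ∀ i, ∑ j ∈ Finset.range J, ∑ k' ∈ Finset.range R, f i j k k' =
      ∑ k' ∈ Finset.range R, ∑ j ∈ Finset.range J, f i j k k' := fun i => Finset.sum_comm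
  simp only [h2]
  rw [Finset.sum_comm]

private theorem Zero_fin {f : ℂ → ℂ} {K : Set ℂ} (hK : IsCompact K) (hf : ∀ v ∈ K, AnalyticAt ℂ f v) {s : ℂ}
    (hne : ∀ v ∈ K, ¬ ∀ᶠ w in 𝓝 v, f w = s) : {v | v ∈ K ∧ f v = s}.Finite := by
  by_contra hinf
  have hinf' : {v | v ∈ K ∧ f v = s}.Infinite := hinf
  obtain ⟨x, hx, hacc⟩ := hinf'.exists_accPt_of_subset_isCompact hK (fun v hv => hv.1)
  rw [accPt_iff_frequently_nhdsNE] at hacc
  have h1 : ∃ᶠ w in 𝓝[≠] x, f w = s := hacc.mono fun w hw => hw.2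
  exact hne x hx (((hf x hx).frequently_eq_iff_eventually_eq analyticAt_const).mp h1)

private theorem Zero_T {S : AXG.Cur 2} (β : AXG.Br S) (s : ℂ) : {v : ℂ | (β.pt v).1 = s}.Countable := by
  by_cases hne : ∃ v₀, (β.pt v₀).1 = s
  · obtain ⟨v₀, hv₀⟩ := hne
    refine (Set.countable_range fun k : ℤ => v₀ + k * (2 * Real.pi * Complex.I) / β.m).mono ?_
    intro v hv
    have h1 : Tp β.o (Complex.exp v ^ β.m) = Tp β.o (Complex.exp v₀ ^ β.m) := by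
      have h2 : (β.pt v).1 = (β.pt v₀).1 := by rw [hv₀]; exact hv
      exact h2
    have h3 : Complex.exp v ^ β.m = Complex.exp v₀ ^ β.m := by
      cases ho : β.o with
      | none =>
        rw [ho] at h1
        simpa [Tp] using h1
      | some c =>
        rw [ho] at h1
        simpa [Tp] using h1
    rw [← Complex.exp_nat_mul, ← Complex.exp_nat_mul, Complex.exp_eq_exp_iff_exists_int] at h3
    obtain ⟨k, hk⟩ := h3
    have hm : (β.m : ℂ) ≠ 0 := by exact_mod_cast β.m_pos.ne'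
    refine ⟨k, ?_⟩
    change v₀ + k * (2 * Real.pi * Complex.I) / β.m = v
    field_simp
    linear_combination -hk
  · refine Set.countable_empty.mono ?_
    intro v hv
    exact absurd ⟨v, hv⟩ hne

theorem Zero_grid (D : LocC V a b β) (Md : MdlC D) {L : ℕ} (hL : 0 < L) {c : ℕ → ℕ → ℕ → ℕ → OO} {J R : ℕ}
    (hR : R ≤ Nat.card (QQ L))
    (hc : ∀ i j k k', c i j k k' ≠ 0 → i < D.e ∧ j < J ∧ k < R ∧ k' < R) (β : AXG.Br Md.S)
    (h : ∀ κa κb, AXG.RR (Fl hL c D.e J R κa κb) β 1) : ∀ i j k k', c i j k k' = 0 := by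
  have := finite_QQ hL
  have : Fintype (QQ L) := Fintype.ofFinite _
  rw [Nat.card_eq_fintype_card] at hR
  -- a closed disc in `U`
  obtain ⟨w₀, hw₀, -⟩ := AX.br_avoid (β.ax 0) ∅
  change w₀ ∈ β.U at hw₀
  obtain ⟨ρ, hρ, hball⟩ := Metric.nhds_basis_closedBall.mem_iff.mp (β.isOpen.mem_nhds hw₀)
  -- the quadratic numbers
  have hcount : ∀ a : Fin 2, {v | v ∈ Metric.closedBall w₀ ρ ∧ IsAlgebraic ℚ (β.z a v)}.Countable := by
    intro a
    have h1 : {v | v ∈ Metric.closedBall w₀ ρ ∧ IsAlgebraic ℚ (β.z a v)} ⊆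
        ⋃ s ∈ {s : ℂ | IsAlgebraic ℚ s}, {v | v ∈ Metric.closedBall w₀ ρ ∧ β.z a v = s} := by
      rintro v ⟨hv, hal⟩
      exact Set.mem_biUnion (x := β.z a v) hal ⟨hv, rfl⟩
    refine Set.Countable.mono h1 (Set.Countable.biUnion (Algebraic.countable ℚ ℂ) fun s _ => ?_)
    refine (Zero_fin (isCompact_closedBall w₀ ρ) (fun v hv => ?_) fun v hv hev => ?_).countable
    · exact ((β.zdiff a).analyticOnNhd β.isOpen) v (hball hv)
    · exact AXG.z_nc Md.nco Md.A β a (hball hv) hev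
  set Bad : Set ℂ := {v | v ∈ Metric.closedBall w₀ ρ ∧ IsAlgebraic ℚ (β.z 0 v)} ∪
    {v | v ∈ Metric.closedBall w₀ ρ ∧ IsAlgebraic ℚ (β.z 1 v)} ∪ ⋃ s ∈ Md.ET, {v | (β.pt v).1 = s} with hBad
  have hBadc : Bad.Countable := by
    refine ((hcount 0).union (hcount 1)).union ?_
    exact Set.Countable.biUnion Md.ET.countable_toSet fun s _ => Zero_T β s
  set G : Set ℂ := Metric.closedBall w₀ ρ \ Bad with hG
  have hGunc : ¬ G.Countable := by
    intro hGc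
    have h1 : (Metric.closedBall w₀ ρ).Countable :=
      (hGc.union hBadc).mono fun v hv => by
        by_cases hb : v ∈ Bad
        · exact Or.inr hb
        · exact Or.inl ⟨hv, hb⟩
    have h2 : ¬ (Metric.ball w₀ ρ).Countable := by
      intro h3
      obtain ⟨v, hv1, hv2⟩ := (h3.dense_compl ℝ).inter_open_nonempty _ Metric.isOpen_ball
        ⟨w₀, Metric.mem_ball_self hρ⟩
      exact hv2 hv1
    exact h2 (h1.mono Metric.ball_subset_closedBall)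
  have halg : ∀ {z : ℂ}, ¬ IsAlgebraic ℚ z → NonCM z := by
    intro z hz p q r hpqr
    by_contra hne
    apply hz
    refine ⟨Polynomial.C (p : ℚ) * Polynomial.X ^ 2 + Polynomial.C (q : ℚ) * Polynomial.X +
      Polynomial.C (r : ℚ), ?_, ?_⟩
    · intro h0
      apply hne
      have e2 := congrArg (fun P => Polynomial.coeff P 2) h0
      have e1 := congrArg (fun P => Polynomial.coeff P 1) h0
      have e0 := congrArg (fun P => Polynomial.coeff P 0) h0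
      simp only [Polynomial.coeff_add, Polynomial.coeff_C_mul, Polynomial.coeff_X_pow, Polynomial.coeff_X,
        Polynomial.coeff_C, Polynomial.coeff_zero] at e2 e1 e0
      norm_num at e2 e1 e0
      exact ⟨e2, e1, e0⟩
    · simp only [map_add, map_mul, map_pow, Polynomial.aeval_C, Polynomial.aeval_X]
      simpa using hpqr
  -- the sums vanish at the points of `G`
  have hsum : ∀ v ∈ G, ∀ k < R, ∀ k' < R, ∑ i ∈ Finset.range D.e, ∑ j ∈ Finset.range J,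
      ((c i j k k' : OO) : ℂ) * (β.pt v).2 ^ i * (β.pt v).1 ^ j = 0 := by
    intro v hv k hk k' hk'
    have hvU : v ∈ β.U := hball hv.1
    have hn : ∀ a : Fin 2, NonCM ((ofComplex (β.z a v) : ℍ) : ℂ) := by
      intro a
      have h1 : ¬ IsAlgebraic ℚ (β.z a v) := by
        intro hal
        apply hv.2
        rw [hBad]
        fin_cases a
        · exact Or.inl (Or.inl ⟨hv.1, hal⟩)
        · exact Or.inl (Or.inr ⟨hv.1, hal⟩)
      have h2 : ((ofComplex (β.z a v) : ℍ) : ℂ) = β.z a v := by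
        rw [ofComplex_apply_of_im_pos (β.zim a hvU)]
      rw [h2]
      exact halg h1
    refine grid (jq_inj hL (hn 0)) (jq_inj hL (hn 1)) hR hR (fun k k' => ∑ i ∈ Finset.range D.e,
      ∑ j ∈ Finset.range J, ((c i j k k' : OO) : ℂ) * (β.pt v).2 ^ i * (β.pt v).1 ^ j) ?_ k hk k' hk'
    intro κa κb
    have h1 := h κa κb v hvU
    simp only [Fl, Pi.one_apply, mz_one, vE] at h1
    rw [Zero_s4] at h1
    rw [← h1]
    refine Finset.sum_congr rfl fun k _ => Finset.sum_congr rfl fun k' _ => ?_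
    simp only [Finset.sum_mul]
    rfl
  -- infinitely many points of `V`
  intro i j k k'
  by_contra hne
  obtain ⟨hi, hj, hk, hk'⟩ := hc i j k k' hne
  have hinf : {x | x ∈ V ∧ x ∉ D.E ∧ ∑ i ∈ Finset.range D.e, ∑ j ∈ Finset.range J,
      ((c i j k k' : OO) : ℂ) * (MvPolynomial.aeval x D.Et : ℂ) ^ i *
        (MvPolynomial.aeval x D.Xi : ℂ) ^ j = 0}.Infinite := by
    intro hfin
    apply hGunc
    have h1 : G ⊆ ⋃ s ∈ D.ξ '' {x | x ∈ V ∧ x ∉ D.E ∧ ∑ i ∈ Finset.range D.e, ∑ j ∈ Finset.range J,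
        ((c i j k k' : OO) : ℂ) * (MvPolynomial.aeval x D.Et : ℂ) ^ i *
          (MvPolynomial.aeval x D.Xi : ℂ) ^ j = 0}, {v | (β.pt v).1 = s} := by
      intro v hv
      have hET : (β.pt v).1 ∉ Md.ET := by
        intro hET
        apply hv.2
        rw [hBad]
        exact Or.inr (Set.mem_biUnion (x := (β.pt v).1) hET rfl)
      obtain ⟨x, hx, hxE, h2, h3⟩ := Md.from_ _ (β.ptm (hball hv.1)) hET
      refine Set.mem_biUnion (x := (β.pt v).1) ⟨x, ⟨hx, hxE, ?_⟩, h2⟩ rfl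
      have h4 := hsum v hv k hk k' hk'
      rw [← h2, ← h3] at h4
      exact h4
    exact (Set.Countable.biUnion (hfin.image _).countable fun s _ => Zero_T β s).mono h1
  have h5 := D.indep J (fun i j => ((c i j k k' : OO) : ℂ)) (fun i j => ?_) hinf i hi j hj
  · exact hne (Subtype.ext h5)
  · have h6 : IsIntegral ℤ ((c i j k k' : OO) : ℂ) := (c i j k k').2
    exact (h6.tower_top (A := ℚ)).isAlgebraic

private theorem Zero_card {L : ℕ} (hL : L.Prime) : L + 1 ≤ Nat.card (QQ L) := by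
  refine le_trans (le_of_eq ?_) (sum_divisors_le hL.pos)
  rw [hL.sum_divisors]

theorem zero_htC (D : LocC V a b β) (Q : QDC D) (Md : MdlC D) : ∃ (C : ℕ) (E' : Set (Fin n → ℂ)), 0 < C ∧
    E'.Finite ∧ ∀ (L : ℕ) (hL : 0 < L) (B : ℝ) (_ : LD D.K₀ β L B), L.Prime → 1 ≤ B → (L : ℝ) ≤ B →
    ∀ (n₂ : ℕ) (c : ℕ → ℕ → ℕ → ℕ → OO), (n₂ : ℝ) ≤ B →
      CB D.K₀ c D.e (4 * L * (L + 1)) n₂ (L + 1) B →
      (∀ (β : AXG.Br Md.S) (κa κb : QQ L), ¬ AXG.RR (Fl hL c D.e n₂ (L + 1) κa κb) β 1) →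
      ∃ (I : ℕ) (p : ℕ → OO), (I : ℝ) ≤ ((C : ℝ) * B) ^ C ∧ (∃ j < I, p j ≠ 0) ∧
        (∀ j, ((p j : OO) : ℂ) ∈ D.K₀) ∧
        (∀ j (s : ℂ ≃+* ℂ), ‖s ((p j : OO) : ℂ)‖ ≤ Real.exp (((C : ℝ) * B) ^ C)) ∧
        ∀ x ∈ V, x ∉ D.E → x ∉ E' → IsAlgebraic ℚ (D.ξ x) → ∀ (κa κb : QQ L)
          (τ τ' : UpperHalfPlane), jInv τ = x a → jInv τ' = x b →
          vE OO.subtype c D.e n₂ (L + 1) (D.ξ x) (D.η x) (jQ hL κa τ) (jQ hL κb τ') = 0 →
            ∑ j ∈ Finset.range I, ((p j : OO) : ℂ) * D.ξ x ^ j = 0 := by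
  obtain ⟨C, hC, haux⟩ := aux2C D Q
  refine ⟨C, {x | x ∈ V ∧ x ∉ D.E ∧ D.ξ x ∈ Md.A.cen ∧ IsAlgebraic ℚ (D.ξ x)}, hC, ?_, ?_⟩
  · have h1 : (⋃ T ∈ {T : ℂ | T ∈ Md.A.cen ∧ IsAlgebraic ℚ T},
        {x | x ∈ V ∧ x ∉ D.E ∧ D.ξ x = T}).Finite := by
      refine Set.Finite.biUnion ((Md.A.cen.finite_toSet).subset fun T hT => hT.1) ?_
      rintro T ⟨-, hT⟩
      exact Zero_fib D hT
    refine h1.subset ?_
    rintro x ⟨hx, hxE, h2, h3⟩
    exact Set.mem_biUnion (x := D.ξ x) ⟨h2, h3⟩ ⟨hx, hxE, rfl⟩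
  intro L hL B ld hLp hB hLB n₂ c hn₂ hc hnv
  obtain ⟨I, p, g, hI, hpg, hpK, hps, hg, C', hC'⟩ := haux L hL B ld hLp hB hLB n₂ c hn₂ hc
  set R := L + 1 with hRdef
  have := finite_QQ hL
  have : Fintype (QQ L × QQ L) := Fintype.ofFinite _
  set H : QQ L × QQ L → (Fin 2 → ℂ) → ℂ × ℂ → ℂ := fun κ ζ q =>
    ∑ j ∈ Finset.range I, ((p j : OO) : ℂ) * q.1 ^ j -
      Fl hL c D.e n₂ R κ.1 κ.2 ζ q * Fl hL g D.e I R κ.1 κ.2 ζ q with hH
  have hAn : ∀ κ, AXG.AnR Md.S (H κ) := by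
    intro κ β γ
    refine AnalyticOnNhd.sub ?_ ((fl_an hL Md.S c D.e n₂ R κ.1 κ.2 β γ).mul
      (fl_an hL Md.S g D.e I R κ.1 κ.2 β γ))
    refine DifferentiableOn.analyticOnNhd ?_ β.isOpen
    exact DifferentiableOn.fun_sum fun j _ =>
      (differentiableOn_const _).mul ((AXG.br_dT β).pow j)
  have hEq : ∀ δ : Fin 2 → SL(2, ℤ), ∃ σ : Equiv.Perm (QQ L × QQ L), ∀ κ ζ q, (∀ a, 0 < (ζ a).im) →
      H κ (fun a => mz (δ a).1 (ζ a)) q = H (σ κ) ζ q := by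
    intro δ
    refine ⟨rQ2 hL δ, fun κ ζ q hζ => ?_⟩
    simp only [hH, rQ2_apply]
    rw [fl_mz hL c D.e n₂ R κ.1 κ.2 δ hζ q, fl_mz hL g D.e I R κ.1 κ.2 δ hζ q]
  -- the points of `V` below the points of the branches
  have hpt : ∀ (β : AXG.Br Md.S), ∀ w ∈ β.U, (β.pt w).1 ∉ Md.ET → ∃ x ∈ V, x ∉ D.E ∧
      β.pt w = (D.ξ x, D.η x) ∧ jInv (ofComplex (β.z 0 w)) = x a ∧
      jInv (ofComplex (β.z 1 w)) = x b := by
    intro β w hw hET
    obtain ⟨x, hx, hxE, h1, h2⟩ := Md.from_ _ (β.ptm hw) hET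
    obtain ⟨-, h4, h5⟩ := Md.to_ x hx hxE
    have h3 : β.pt w = (D.ξ x, D.η x) := Prod.ext h1.symm h2.symm
    refine ⟨x, hx, hxE, h3, ?_, ?_⟩
    · have := β.jFz 0 hw
      rw [h3, h4] at this
      exact this
    · have := β.jFz 1 hw
      rw [h3, h5] at this
      exact this
  have hHx : ∀ (β : AXG.Br Md.S) (w : ℂ) (x : Fin n → ℂ), β.pt w = (D.ξ x, D.η x) → ∀ κ,
      H κ (fun a => β.z a w) (β.pt w) = ∑ j ∈ Finset.range I, ((p j : OO) : ℂ) * D.ξ x ^ j -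
        vE OO.subtype c D.e n₂ R (D.ξ x) (D.η x) (jQ hL κ.1 (ofComplex (β.z 0 w)))
          (jQ hL κ.2 (ofComplex (β.z 1 w))) *
        vE OO.subtype g D.e I R (D.ξ x) (D.η x) (jQ hL κ.1 (ofComplex (β.z 0 w)))
          (jQ hL κ.2 (ofComplex (β.z 1 w))) := by
    intro β w x h κ
    simp only [hH, Fl]
    rw [h]
  have hpos := D.pos.1
  have hlim : ∀ ε : ℝ, 0 < ε → ∃ C : ℝ, ∀ (β : AXG.Br Md.S), ∀ w ∈ β.U, (β.pt w).1 ∉ Md.ET →
      C ≤ ‖(β.pt w).1‖ → ∀ κ, ‖H κ (fun a => β.z a w) (β.pt w)‖ ≤ ε := by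
    intro ε hε
    refine ⟨max C' (|C'| / ε ^ D.e + 1), fun β w hw hET hbig κ => ?_⟩
    obtain ⟨x, hx, hxE, h3, h4, h5⟩ := hpt β w hw hET
    rw [hHx β w x h3 κ]
    rw [h3] at hbig
    change max C' (|C'| / ε ^ D.e + 1) ≤ ‖D.ξ x‖ at hbig
    have h6 := hC' x hx hxE ((le_max_left _ _).trans hbig) κ.1 κ.2 _ _ h4 h5
    have h7 := (le_max_right _ _).trans hbig
    by_contra hcon
    push Not at hcon
    have hεe : 0 < ε ^ D.e := pow_pos hε _
    have h8 : ε ^ D.e * ‖D.ξ x‖ ≤ |C'| := by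
      refine le_trans ?_ (h6.trans (le_abs_self _))
      exact mul_le_mul_of_nonneg_right (pow_le_pow_left₀ hε.le hcon.le _) (norm_nonneg _)
    have h9 : ‖D.ξ x‖ ≤ |C'| / ε ^ D.e := by
      rw [le_div_iff₀ hεe]
      linarith
    linarith
  have hbd : ∃ C : ℝ, ∀ (β : AXG.Br Md.S), ∀ w ∈ β.U, (β.pt w).1 ∉ Md.ET → ∀ κ,
      ‖H κ (fun a => β.z a w) (β.pt w)‖ ≤ C := by
    obtain ⟨T, hT⟩ := hlim 1 one_pos
    obtain ⟨C₁, h1⟩ := Zero_up D hL (c := c) (e := D.e) (J := n₂) (R := R)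
      (fun i j k k' h => (hc.supp i j k k' h).2.1) T
    obtain ⟨C₂, h2⟩ := Zero_up D hL (c := g) (e := D.e) (J := I) (R := R)
      (fun i j k k' h => (hg.supp i j k k' h).2.1) T
    refine ⟨max 1 (∑ j ∈ Finset.range I, ‖((p j : OO) : ℂ)‖ * |T| ^ j + |C₁| * |C₂|),
      fun β w hw hET κ => ?_⟩
    rcases le_or_gt T ‖(β.pt w).1‖ with hbig | hsm
    · exact (hT β w hw hET hbig κ).trans (le_max_left _ _)
    · refine le_trans ?_ (le_max_right _ _)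
      obtain ⟨x, hx, hxE, h3, h4, h5⟩ := hpt β w hw hET
      rw [hHx β w x h3 κ]
      rw [h3] at hsm
      change ‖D.ξ x‖ < T at hsm
      refine (norm_sub_le _ _).trans (add_le_add ?_ ?_)
      · refine (norm_sum_le _ _).trans (Finset.sum_le_sum fun j _ => ?_)
        rw [norm_mul, norm_pow]
        exact mul_le_mul_of_nonneg_left
          (pow_le_pow_left₀ (norm_nonneg _) (hsm.le.trans (le_abs_self _)) j) (norm_nonneg _)
      · rw [norm_mul]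
        exact mul_le_mul ((h1 x hx hxE hsm.le κ.1 κ.2 _ _ h4 h5).trans (le_abs_self _))
          ((h2 x hx hxE hsm.le κ.1 κ.2 _ _ h4 h5).trans (le_abs_self _)) (norm_nonneg _) (abs_nonneg _)
  have hRR := sym_zero (0 : Fin 2) Md.A H hAn hEq Md.ET hbd hlim
  refine ⟨I, p, hI, ?_, hpK, hps, ?_⟩
  · -- `p ≠ 0`
    by_contra hcon
    push Not at hcon
    have hg0 : ∃ i j k k', g i j k k' ≠ 0 := by
      rcases hpg with ⟨j, hj, hne⟩ | h
      · exact absurd (hcon j hj) hne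
      · exact h
    obtain ⟨β₀, -, -⟩ := Md.cusp
    have h1 : ∀ κa κb, AXG.RR (Fl hL g D.e I R κa κb) β₀ 1 := by
      intro κa κb
      have h2 : AXG.RR (fun ζ q => Fl hL c D.e n₂ R κa κb ζ q * Fl hL g D.e I R κa κb ζ q) β₀ 1 := by
        intro v hv
        have h3 := hRR β₀ 1 (κa, κb) v hv
        simp only [hH] at h3
        rw [Finset.sum_eq_zero (fun j hj => by
          rw [hcon j (Finset.mem_range.mp hj)]
          simp), zero_sub, neg_eq_zero] at h3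
        exact h3
      rcases rr_mul (fl_an hL Md.S c D.e n₂ R κa κb) (fl_an hL Md.S g D.e I R κa κb) h2 with h | h
      · exact absurd h (hnv β₀ κa κb)
      · exact h
    obtain ⟨i, j, k, k', hne'⟩ := hg0
    refine hne' (Zero_grid D Md hL (R := R) (Zero_card hLp) (fun i j k k' h => ?_) β₀ h1 i j k k')
    obtain ⟨e1, -, e3, e4, e5⟩ := hg.supp i j k k' h
    exact ⟨e1, e3, e4, e5⟩
  · intro x hx hxE hxE' halg κa κb τ τ' hτ hτ' hzero
    have hcen : D.ξ x ∉ Md.A.cen := fun h => hxE' ⟨hx, hxE, h, halg⟩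
    obtain ⟨hq, hqa, hqb⟩ := Md.to_ x hx hxE
    obtain ⟨i, w, hw, hpw⟩ := AXG.cover_mem Md.A hq hcen
    have ha : jInv τ = jInv (ofComplex ((Md.A.br i).z 0 w)) := by
      have := (Md.A.br i).jFz 0 hw
      rw [hpw, hqa] at this
      rw [hτ]
      exact this.symm
    have hb : jInv τ' = jInv (ofComplex ((Md.A.br i).z 1 w)) := by
      have := (Md.A.br i).jFz 1 hw
      rw [hpw, hqb] at this
      rw [hτ']
      exact this.symm
    obtain ⟨γ, hγ⟩ := Gal.j_inj ha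
    obtain ⟨γ', hγ'⟩ := Gal.j_inj hb
    have h1 := hRR (Md.A.br i) 1 (rQ γ κa, rQ γ' κb) w hw
    simp only [Pi.one_apply, mz_one] at h1
    rw [hHx (Md.A.br i) w x hpw] at h1
    simp only [jQ_rQ] at h1
    rw [← hγ, ← hγ', hzero, zero_mul, sub_zero] at h1
    exact h1

end Pool.Agent.LGO.RCM
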