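import Mathlib
import Pool.Agent.LGO.RCM.Aux1
import Pool.Agent.LGO.RCM.Bnd
import Pool.Agent.LGO.RCM.CSQ
import Pool.Agent.LGO.RCM.ExF
import Pool.Agent.LGO.RCM.GeoEx
import Pool.Agent.LGO.RCM.MainN
import Pool.Agent.LGO.RCM.NV
import Pool.Agent.LGO.RCM.PrimS
import Pool.Agent.LGO.RCM.QEx
import Pool.Agent.LGO.RCM.SigG
import Pool.Agent.LGO.RCM.TypCC
import Pool.Agent.LGO.RCM.Zero
import Pool.Agent.LGO.RU.Main

/-!
# LGO/RCM: the pair theorem at a point at infinity where `x_a` is infinite and `x_b` is a singular modulus (note 3207)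
-/

namespace Pool.Agent.LGO.RCM

open Filter Topology Pool.Agent.Hhelper14.ZP Pool.Agent.Hhelper14.ZPL Pool.Agent.LGO Pool.Agent.LGO.PA
  Pool.Agent.LGO.ZV Pool.Agent.LGO.TG Pool.Agent.LGO.RU

variable {n : ℕ} {V : Set (Fin n → ℂ)} {a b : Fin n} {β : ℂ}

theorem LocC.mem (D : LocC V a b β) : β ∈ D.K₀ := by
  have h := D.inK.2.2 0
  rwa [D.val] at h

theorem CBmono {K : IntermediateField ℚ ℂ} {c : ℕ → ℕ → ℕ → ℕ → OO} {e n₁ J R : ℕ} {B B' : ℝ}
    (h : CB K c e n₁ J R B) (hB : B ≤ B') : CB K c e n₁ J R B' :=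
  ⟨h.supp, h.mem, fun i j k k' s => (h.bd i j k k' s).trans (Real.exp_le_exp.2 hB)⟩

/-- the smallness of the local parameter -/
theorem small_t {e : ℕ} (he : 0 < e) {B X y : ℝ} (hX : Real.exp B ≤ X) {t : ℝ} (ht : 0 ≤ t)
    (h : t ^ e * X = 1) (hB : (e : ℝ) * y ≤ B) : t ≤ Real.exp (-y) := by
  have hX0 : 0 < X := (Real.exp_pos B).trans_le hX
  have h1 : t ^ e ≤ Real.exp (-y) ^ e := by
    have h2 : t ^ e = X⁻¹ := eq_inv_of_mul_eq_one_left h
    rw [h2, ← Real.exp_nat_mul, inv_le_comm₀ hX0 (Real.exp_pos _), ← Real.exp_neg]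
    refine le_trans (Real.exp_le_exp.2 ?_) hX
    linarith
  exact le_of_pow_le_pow_left₀ he.ne' (Real.exp_pos _).le h1

/-- the height of `ξ` -/
theorem xi_htC (D : LocC V a b β) (F : CMF β) (Md : MdlC D) :
    ∃ (C : ℕ) (E' : Set (Fin n → ℂ)), 1 ≤ C ∧ E'.Finite ∧
    ∀ x ∈ V, x ∉ E' → NCM (x a) → NCM (x b) → HeckeRel (x a) (x b) →
    ∀ (K : IntermediateField ℚ ℂ) [FiniteDimensional ℚ K], x a ∈ K → x b ∈ K → D.ξ x ∈ K →
      D.η x ∈ K → Bd K (((C : ℝ) * (Module.finrank ℚ K * (1 + Real.log (mdeg (x a) (x b))))) ^ C)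
        (D.ξ x) := by
  classical
  obtain ⟨Q⟩ := exists_qdc D
  obtain ⟨c₀, hc₀, hnv⟩ := nvC D Md
  obtain ⟨CA, hCA, haux⟩ := aux1C D Q
  obtain ⟨C₁, hC₁, hlevc⟩ := lev_c
  obtain ⟨CB, hCB, hbnd⟩ := bndC D Q C₁
  obtain ⟨CZ, E', hCZ, hE', hzero⟩ := zero_htC D Q Md
  obtain ⟨CL, hCL, hld⟩ := exists_ld F
  obtain ⟨CT, hCT, htyp⟩ := typ_cc F
  obtain ⟨CQ, hCQ, hcsq⟩ := csq F
  have h4 : F.be β ^ 2 - 4 * F.al β * F.ga β < 0 := by
    have hq := F.quad (RingEquiv.refl ℂ)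
    have ha := F.al_pos (RingEquiv.refl ℂ)
    simp only [RingEquiv.refl_apply] at hq ha
    have hq' : (F.al β : ℝ) * ((F.t β).re ^ 2 - (F.t β).im ^ 2) + F.be β * (F.t β).re + F.ga β = 0 := by
      have := congrArg Complex.re hq
      simpa [pow_two] using this
    have hq2 : (F.al β : ℝ) * (2 * (F.t β).re * (F.t β).im) + F.be β * (F.t β).im = 0 := by
      have := congrArg Complex.im hq
      simp [pow_two] at this
      linarith
    have him := (F.t β).im_pos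
    have h1 : (F.be β : ℝ) = -2 * F.al β * (F.t β).re := by
      have h2 : (F.t β).im * (2 * F.al β * (F.t β).re + F.be β) = 0 := by linarith
      rcases mul_eq_zero.1 h2 with h3 | h3
      · exact absurd h3 him.ne'
      · linarith
    have h2 : ((F.be β ^ 2 - 4 * F.al β * F.ga β : ℤ) : ℝ) < 0 := by
      push_cast
      have h3 : (F.ga β : ℝ) = F.al β * ((F.t β).re ^ 2 + (F.t β).im ^ 2) := by
        rw [h1] at hq'
        linarith
      rw [h1, h3]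
      have ha' : (0 : ℝ) < F.al β := by exact_mod_cast ha
      have h5 : (-2 * (F.al β : ℝ) * (F.t β).re) ^ 2 - 4 * F.al β *
          (F.al β * ((F.t β).re ^ 2 + (F.t β).im ^ 2)) = -(4 * (F.al β : ℝ) ^ 2 * (F.t β).im ^ 2) := by
        ring
      rw [h5]
      have : 0 < 4 * (F.al β : ℝ) ^ 2 * (F.t β).im ^ 2 := by positivity
      linarith
    exact_mod_cast h2
  have hal : 0 < F.al β := F.al_pos (RingEquiv.refl ℂ)
  obtain ⟨CP, hCP, hprim⟩ := prim_s _ _ _ hal h4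
  have hfd₀ := D.fd
  set d₀ : ℕ := Module.finrank ℚ D.K₀ with hd₀
  obtain ⟨c₁, hc₁⟩ : ∃ c₁ : ℕ, c₁ = c₀ + F.B + (4 * F.n + 2).factorial := ⟨_, rfl⟩
  obtain ⟨C, hC, hnum⟩ := main_numC CA CB CZ CL CT CP CQ Q.C D.e D.n₀ d₀ c₁
  refine ⟨C, D.E ∪ E', hC, D.fin.union hE', ?_⟩
  intro x hx hxE hna hnb hab K _ hKa hKb hKξ hKη
  have hxE1 : x ∉ D.E := fun h => hxE (Or.inl h)
  have hxE2 : x ∉ E' := fun h => hxE (Or.inr h)
  set N : ℕ := mdeg (x a) (x b) with hN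
  have hiso := heckeRel_iff.1 hab
  have hN0 : 0 < N := mdeg_pos hiso
  -- the field
  have hfd₁ : FiniteDimensional ℚ (K ⊔ D.K₀ : IntermediateField ℚ ℂ) :=
    IntermediateField.finiteDimensional_sup K D.K₀
  have hr₁ : Module.finrank ℚ (K ⊔ D.K₀ : IntermediateField ℚ ℂ) ≤ Module.finrank ℚ K * d₀ :=
    IntermediateField.finrank_sup_le K D.K₀
  have hD1 : (1 : ℝ) ≤ Module.finrank ℚ K := by
    exact_mod_cast (Module.finrank_pos : 0 < Module.finrank ℚ K)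
  -- the prime
  obtain ⟨P₁, hP₁, hP₁N, hcs⟩ := hcsq (K ⊔ D.K₀) ((le_sup_left : K ≤ K ⊔ D.K₀) hKa)
    ((le_sup_left : K ≤ K ⊔ D.K₀) hKb) ((le_sup_right : D.K₀ ≤ K ⊔ D.K₀) D.mem) hna hab
  have hfac : 0 < (4 * F.n + 2).factorial := Nat.factorial_pos _
  obtain ⟨L, hLp, hLP, ⟨v, hv⟩, hLle⟩ := hprim (N * c₀ * F.B * (4 * F.n + 2).factorial * P₁)
    (Nat.mul_pos (Nat.mul_pos (Nat.mul_pos (Nat.mul_pos hN0 hc₀) F.B_pos) hfac) hP₁)
  have hL : 0 < L := hLp.pos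
  have hLN : ¬ L ∣ N := fun h => hLP (Dvd.dvd.mul_right (Dvd.dvd.mul_right
    (Dvd.dvd.mul_right (Dvd.dvd.mul_right h _) _) _) _)
  have hLc : ¬ L ∣ c₀ := fun h => hLP (Dvd.dvd.mul_right (Dvd.dvd.mul_right
    (Dvd.dvd.mul_right (Dvd.dvd.mul_left h _) _) _) _)
  have hLB : ¬ L ∣ F.B := fun h => hLP (Dvd.dvd.mul_right (Dvd.dvd.mul_right
    (Dvd.dvd.mul_left h _) _) _)
  have hLf : ¬ L ∣ (4 * F.n + 2).factorial := fun h => hLP (Dvd.dvd.mul_right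
    (Dvd.dvd.mul_left h _) _)
  have hLP₁ : ¬ L ∣ P₁ := fun h => hLP (Dvd.dvd.mul_left h _)
  have hLbig : 4 * F.n + 2 < L := by
    by_contra hcon
    exact hLf ((Nat.Prime.dvd_factorial hLp).2 (not_lt.1 hcon))
  have hL2 : L ≠ 2 := by omega
  have hLn : 4 * F.n < L ^ 2 := by nlinarith
  have hcopN : L.Coprime N := (Nat.Prime.coprime_iff_not_dvd hLp).2 hLN
  have hcopc : L.Coprime c₀ := (Nat.Prime.coprime_iff_not_dvd hLp).2 hLc
  have hLR : (1 : ℝ) ≤ L := by exact_mod_cast hL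
  -- the level pair
  obtain ⟨ya, yb, hya, hyb, hyab⟩ := lev hL hna hab hcopN
  -- the fields
  obtain ⟨K₂, hK₁₂, hfd₂, hyaK, hr₂⟩ := fld_isog (K ⊔ D.K₀) hL
    ((le_sup_left : K ≤ K ⊔ D.K₀) hKa) hya
  obtain ⟨K₃, hK₂₃, hfd₃, hybK, hr₃⟩ := fld_isog K₂ hL
    (hK₁₂ ((le_sup_left : K ≤ K ⊔ D.K₀) hKb)) hyb
  have hKK₃ : K ≤ K₃ := (le_sup_left.trans hK₁₂).trans hK₂₃
  have hK₀₃ : D.K₀ ≤ K₃ := (le_sup_right.trans hK₁₂).trans hK₂₃
  have hq := card_QQ_le hL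
  have hD₃ : (Module.finrank ℚ K₃ : ℝ) ≤ 4 * (L : ℝ) ^ 4 * (d₀ * Module.finrank ℚ K) := by
    have h1 : (Module.finrank ℚ K₃ : ℝ) ≤ Nat.card (QQ L) * Module.finrank ℚ K₂ := by
      exact_mod_cast hr₃
    have h2 : (Module.finrank ℚ K₂ : ℝ) ≤ Nat.card (QQ L) *
        Module.finrank ℚ (K ⊔ D.K₀ : IntermediateField ℚ ℂ) := by exact_mod_cast hr₂
    have h3 : (Module.finrank ℚ (K ⊔ D.K₀ : IntermediateField ℚ ℂ) : ℝ) ≤
        Module.finrank ℚ K * d₀ := by exact_mod_cast hr₁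
    have h4 : (0 : ℝ) ≤ Nat.card (QQ L) := Nat.cast_nonneg _
    calc (Module.finrank ℚ K₃ : ℝ) ≤ Nat.card (QQ L) * (Nat.card (QQ L) *
          (Module.finrank ℚ K * d₀)) :=
          h1.trans (mul_le_mul_of_nonneg_left (h2.trans (mul_le_mul_of_nonneg_left h3 h4)) h4)
      _ ≤ (2 * (L : ℝ) ^ 2) * ((2 * (L : ℝ) ^ 2) * (Module.finrank ℚ K * d₀)) := by
          refine mul_le_mul hq (mul_le_mul_of_nonneg_right hq (by positivity)) (by positivity)
            (by positivity)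
      _ = _ := by ring
  -- the numbers
  have hlN : 0 ≤ Real.log N := Real.log_natCast_nonneg _
  have hlP : Real.log ((N * c₀ * F.B * (4 * F.n + 2).factorial * P₁ : ℕ) : ℝ) ≤
      (d₀ * Module.finrank ℚ K + 1) * (Real.log N + CQ) + c₁ := by
    have h1 : (0 : ℝ) < N := by exact_mod_cast hN0
    have h2 : (0 : ℝ) < c₀ := by exact_mod_cast hc₀
    have h3 : (0 : ℝ) < P₁ := by exact_mod_cast hP₁
    have h5 : (0 : ℝ) < F.B := by exact_mod_cast F.B_pos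
    have h6 : (0 : ℝ) < (4 * F.n + 2).factorial := by exact_mod_cast hfac
    have h7 : (0 : ℝ) < CQ := by exact_mod_cast hCQ
    push_cast
    rw [Real.log_mul (by positivity) h3.ne', Real.log_mul (by positivity) h6.ne',
      Real.log_mul (by positivity) h5.ne', Real.log_mul h1.ne' h2.ne']
    have hlt : ∀ y : ℝ, 0 < y → Real.log y ≤ y := fun y hy =>
      (Real.log_le_sub_one_of_pos hy).trans (by linarith)
    have h8 : Real.log P₁ ≤ (d₀ * Module.finrank ℚ K) * (Real.log N + CQ) := by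
      have h9 : Real.log P₁ ≤ Module.finrank ℚ (K ⊔ D.K₀ : IntermediateField ℚ ℂ) *
          Real.log ((CQ : ℝ) * N) := by
        calc Real.log P₁ ≤ Real.log (((CQ : ℝ) * N) ^
              Module.finrank ℚ (K ⊔ D.K₀ : IntermediateField ℚ ℂ)) := Real.log_le_log h3 hP₁N
          _ = _ := Real.log_pow _ _
      rw [Real.log_mul h7.ne' h1.ne'] at h9
      have h10 : (Module.finrank ℚ (K ⊔ D.K₀ : IntermediateField ℚ ℂ) : ℝ) ≤
          d₀ * Module.finrank ℚ K := by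
        rw [mul_comm]
        exact_mod_cast hr₁
      have h11 : 0 ≤ Real.log (CQ : ℝ) := Real.log_natCast_nonneg _
      refine h9.trans (mul_le_mul h10 ?_ (by linarith) (by positivity))
      linarith [hlt _ h7]
    have h12 : (c₁ : ℝ) = c₀ + F.B + (4 * F.n + 2).factorial := by rw [hc₁]; push_cast; rfl
    rw [h12]
    have := hlt _ h2
    have := hlt _ h5
    have := hlt _ h6
    nlinarith
  let X : CtxC CP CQ d₀ c₁ :=
    { D := Module.finrank ℚ K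
      l := Real.log N
      L := L
      P := Real.log ((N * c₀ * F.B * (4 * F.n + 2).factorial * P₁ : ℕ) : ℝ)
      D₃ := Module.finrank ℚ K₃
      hD := hD1
      hl := hlN
      hL1 := hLR
      hP0 := Real.log_natCast_nonneg _
      hP := hlP
      hL := hLle
      hD0 := Nat.cast_nonneg _
      hD₃ := hD₃ }
  obtain ⟨hnum1, hnum2⟩ := hnum X
  -- the bounds
  set B₀ : ℝ := ((CL : ℝ) * L) ^ CL + L + 1 with hB₀
  set B : ℝ := Bf CA CL CT CQ Q.C D.e L with hBdef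
  set δ : ℝ := Real.exp (-(((CT : ℝ) * L) ^ CT)) with hδ
  have hcl0 : 0 ≤ ((CL : ℝ) * L) ^ CL := by positivity
  have hct0 : 0 ≤ ((CT : ℝ) * L) ^ CT := by positivity
  have hB₀1 : 1 ≤ B₀ := by rw [hB₀]; linarith
  have hB₀L : (L : ℝ) ≤ B₀ := by rw [hB₀]; linarith
  have hCQ1 : (1 : ℝ) ≤ CQ := by exact_mod_cast hCQ
  have hQC1 : (1 : ℝ) ≤ Q.C := by exact_mod_cast Q.pos.2.2
  have he0 : 0 < D.e := D.pos.1
  have he1 : (1 : ℝ) ≤ D.e := by exact_mod_cast he0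
  have hA0 : 0 ≤ ((CA : ℝ) * B₀) ^ CA := by positivity
  have hz1 : 0 ≤ ((L : ℝ) + 1) * ((CT : ℝ) * L) ^ CT := by positivity
  have hz2 : 0 ≤ (D.e : ℝ) * ((Q.C : ℝ) * CQ + CQ * ((CT : ℝ) * L) ^ CT) := by positivity
  have hBe : B = ((CA : ℝ) * B₀) ^ CA + ((L : ℝ) + 1) * ((CT : ℝ) * L) ^ CT +
    D.e * ((Q.C : ℝ) * CQ + CQ * ((CT : ℝ) * L) ^ CT) + Q.C + B₀ := rfl
  have hBA : ((CA : ℝ) * B₀) ^ CA ≤ B := by rw [hBe]; linarith
  have hBT : ((L : ℝ) + 1) * ((CT : ℝ) * L) ^ CT ≤ B := by rw [hBe]; linarith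
  have hBe' : (D.e : ℝ) * ((Q.C : ℝ) * CQ + CQ * ((CT : ℝ) * L) ^ CT) ≤ B := by rw [hBe]; linarith
  have hBQ : (Q.C : ℝ) ≤ B := by rw [hBe]; linarith
  have hBB₀ : B₀ ≤ B := by rw [hBe]; linarith
  have hB1 : 1 ≤ B := hB₀1.trans hBB₀
  obtain ⟨ld, hldG⟩ := hld D.K₀ D.mem L v hLp hv B₀ (by rw [hB₀]; linarith)
  -- the auxiliary function
  obtain ⟨n₂, c, hn₂, hcne, hCB1, hVA⟩ := haux L B₀ ld hLp hB₀1 hB₀L
  have hCB2 := CBmono hCB1 hBA
  have hfinp : ∀ (p : ℕ) [Fact p.Prime] (φ : ℂ →+* ℂ_[p]), ‖φ (D.ξ x)‖ ≤ 1 := by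
    intro p _ φ
    by_contra hcon
    obtain ⟨h1, h2⟩ := D.near_p p φ x hx hxE1 (not_le.1 hcon)
    have h3 := (isog_norm φ (heckeRel_iff.1 (HeckeRel.symm' hab))).1 h2
    exact absurd h3 (not_le.2 h1)
  obtain ⟨⟨k, hk, hfin⟩, hinf⟩ := hbnd L B (ld.mono hBB₀) hLp hB1 (hB₀L.trans hBB₀) n₂ c
    (hn₂.trans hBA) hCB2 hVA x hx hxE1 ya yb hyb hfinp
    (by
      intro s τ hs h1 e1
      obtain ⟨t, ht0, htρ, ht1, -, hxb, hxbβ, -, -⟩ := Q.near_c s x hx hxE1 (by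
        refine le_trans ?_ hs
        refine hBQ.trans ?_
        linarith [Real.add_one_le_exp B])
      have hts : ‖t‖ ^ D.e * ‖s (D.ξ x)‖ = 1 := by
        rw [← norm_pow, ← norm_mul, ht1, norm_one]
      have htsm := small_t he0 hs (norm_nonneg t) hts hBe'
      have hexpQ : (Q.C : ℝ) * CQ * ‖t‖ ≤ Real.exp (-(CQ * ((CT : ℝ) * L) ^ CT)) := by
        have h2 : (Q.C : ℝ) * CQ ≤ Real.exp ((Q.C : ℝ) * CQ) := by
          linarith [Real.add_one_le_exp ((Q.C : ℝ) * CQ)]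
        calc (Q.C : ℝ) * CQ * ‖t‖ ≤ Real.exp ((Q.C : ℝ) * CQ) *
              Real.exp (-((Q.C : ℝ) * CQ + CQ * ((CT : ℝ) * L) ^ CT)) :=
              mul_le_mul h2 htsm (norm_nonneg _) (Real.exp_pos _).le
          _ = _ := by
              rw [← Real.exp_add]
              congr 1
              ring
      have hle1 : Real.exp (-(CQ * ((CT : ℝ) * L) ^ CT)) ≤ 1 := by
        rw [Real.exp_le_one_iff, neg_nonpos]
        positivity
      have hcl : ‖s (x b) - s β‖ ≤ 1 / CQ := by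
        rw [le_div_iff₀ (by linarith)]
        calc ‖s (x b) - s β‖ * CQ ≤ (Q.C * ‖t‖) * CQ :=
              mul_le_mul_of_nonneg_right hxbβ (by linarith)
          _ = (Q.C : ℝ) * CQ * ‖t‖ := by ring
          _ ≤ 1 := hexpQ.trans hle1
      obtain ⟨τ', g, h2, h3, h4, h5, h6, h7, h8⟩ := hcs s τ h1 e1 hcl
      have h9 : ‖(τ' : ℂ) - F.t (s β)‖ ≤ δ := by
        have h10 : ‖(τ' : ℂ) - F.t (s β)‖ ^ CQ ≤ δ ^ CQ := by
          rw [hδ, ← Real.exp_nat_mul]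
          refine h3.trans ?_
          calc (CQ : ℝ) * ‖s (x b) - s β‖ ≤ CQ * (Q.C * ‖t‖) :=
                mul_le_mul_of_nonneg_left hxbβ (by linarith)
            _ = (Q.C : ℝ) * CQ * ‖t‖ := by ring
            _ ≤ _ := hexpQ
            _ = _ := by rw [mul_neg]
        exact le_of_pow_le_pow_left₀ hCQ.ne' (Real.exp_pos _).le h10
      have h10 : ¬ (L : ℤ) ∣ Qf F (s β) (g 1 0) (g 1 1) := by
        intro hdv
        apply hLP₁
        exact (Int.natCast_dvd.1 hdv).trans h8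
      obtain ⟨τ₁, h11, h12⟩ := htyp L hLp hL2 hLn hLB s (x a) (x b) ya yb hna hab hyab hya hyb τ τ' g
        h1 e1 h2 h4 h5 h6 h10 h9
      refine ⟨τ₁, h11, ?_⟩
      rcases h12 with h12 | ⟨h12, h13⟩
      · exact Or.inl h12
      · refine Or.inr ⟨h12, ?_⟩
        have h14 := hldG s (s yb) δ (Real.exp_pos _) (by
          rw [hδ, Real.exp_le_one_iff, neg_nonpos]
          exact hct0) h13
        refine le_trans ?_ h14
        rw [hδ, ← Real.exp_nat_mul, Real.exp_le_exp]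
        push_cast
        linarith)
    (fun p _ φ => ⟨lev_p φ hL hya, lev_p φ hL hyb⟩)
    (fun s => ⟨hlevc s _ _ _ hL hya, hlevc s _ _ _ hL hyb⟩)
  set G : ℂ := vE OO.subtype c D.e n₂ (L + 1) (D.ξ x) (D.η x) ya yb with hG
  have hFK : G ∈ K₃ := vE_mem (fun i j k k' => hK₀₃ (hCB1.mem i j k k')) (hKK₃ hKξ) (hKK₃ hKη)
    (hK₂₃ hyaK) hybK
  by_cases hF0 : G = 0
  · -- the second system
    have hnvc := hnv L hL hLp hcopc n₂ c hcne (fun i j k k' h => by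
      obtain ⟨h1, -, h3, h4, h5⟩ := hCB1.supp i j k k' h
      exact ⟨h1, h3, h4, h5⟩)
    obtain ⟨I, p, hI, hpne, hpK, hpb, hroot⟩ := hzero L hL B (ld.mono hBB₀) hLp hB1
      (hB₀L.trans hBB₀) n₂ c (hn₂.trans hBA) hCB2 hnvc
    obtain ⟨τ, hτ⟩ := j_surj (x a)
    obtain ⟨τ', hτ'⟩ := j_surj (x b)
    obtain ⟨κa, hκa⟩ := (Gal.isogDeg_iff_jQ hL τ ya).1 (by rw [hτ]; exact hya)
    obtain ⟨κb, hκb⟩ := (Gal.isogDeg_iff_jQ hL τ' yb).1 (by rw [hτ']; exact hyb)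
    have halg : IsAlgebraic ℚ (D.ξ x) := by
      have h4 : IsIntegral ℚ (⟨D.ξ x, hKξ⟩ : K) := Algebra.IsIntegral.isIntegral _
      exact (h4.map K.val).isAlgebraic
    have hz := hroot x hx hxE1 hxE2 halg κa κb τ τ' hτ hτ' (by rw [← hκa, ← hκb]; exact hF0)
    have hT0 : (0 : ℝ) ≤ ((CZ : ℝ) * B) ^ CZ := by positivity
    have h1 := case_zero hK₀₃ (hKK₃ hKξ) p I hT0 hpne hpK hpb hz
    refine bd_down (h1.mono (le_trans ?_ hnum2)) hKξ
    refine mul_le_mul_of_nonneg_right hI ?_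
    positivity
  · have h1 := case_ne K₃ (hKK₃ hKξ) hFK hF0 D.pos.2.2.1 (k := k) (fun p _ φ => hfin p φ)
      (fun s => hinf s)
    refine bd_down (h1.mono (le_trans ?_ hnum1)) hKξ
    refine mul_le_mul_of_nonneg_left ?_ (Nat.cast_nonneg _)
    have hn₀ : (0 : ℝ) < D.n₀ := by exact_mod_cast D.pos.2.2.1
    have hln : Real.log D.n₀ ≤ D.n₀ := (Real.log_le_sub_one_of_pos hn₀).trans (by linarith)
    have hln0 : 0 ≤ Real.log D.n₀ := Real.log_natCast_nonneg _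
    refine add_le_add le_rfl ?_
    exact mul_le_mul hk hln hln0 (by positivity)

/-- **the pair theorem from the local data** -/
theorem pair_locC (h : CrvM V a b) (D : LocC V a b β) (F : CMF β) (Md : MdlC D) :
    PairHt V a b ∧ PairHt V b a := by
  obtain ⟨C, E', hC, hE', hξ⟩ := xi_htC D F Md
  refine pair_core h.irr h.kcl h.dim h.nc D.Et D.Et D.Xi D.nc hE' C hC ?_
  intro x hx hxE hnb hiso K _ hKa hKb hKη _ hKξ H hH _ _
  have hr : HeckeRel (x a) (x b) := HeckeRel.symm' (heckeRel_iff.2 hiso)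
  have hna : NCM (x a) := by
    obtain ⟨m, hm, hm'⟩ := hiso
    exact NCM.of_isog hm hm' hnb
  refine (hξ x hx hxE hna hnb hr K hKa hKb hKξ hKη).mono ?_
  rw [mdeg_symm (x a) (x b)]
  have hlH : 0 ≤ Real.log H := Real.log_nonneg hH
  have hlN : 0 ≤ Real.log (mdeg (x b) (x a) : ℝ) := Real.log_natCast_nonneg _
  refine pow_le_pow_left₀ (by positivity) ?_ _
  refine mul_le_mul_of_nonneg_left ?_ (Nat.cast_nonneg _)
  refine mul_le_mul_of_nonneg_left ?_ (Nat.cast_nonneg _)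
  linarith

/-- **Theorem RCM**: the pair theorem for two coordinates of a curve with a point at infinity where the first is infinite and the second is a singular modulus -/
theorem pair_cmM (h : CrvM V a b) (hβ : ¬ NCM β)
    (P : ℕ → Fin n → ℂ) (hP : ∀ k, P k ∈ V) (ha : Tendsto (fun k => ‖P k a‖) atTop atTop)
    (hb : Tendsto (fun k => P k b) atTop (𝓝 β)) : PairHt V a b ∧ PairHt V b a := by
  obtain ⟨F⟩ := exists_cmf hβ
  obtain ⟨D, ⟨Md⟩⟩ := exists_locC h hβ P hP ha hb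
  have halg : IsAlgebraic ℚ β := by
    have h1 : IsIntegral ℚ (⟨β, D.mem⟩ : D.K₀) := by
      have := D.fd
      exact Algebra.IsIntegral.isIntegral _
    exact (h1.map D.K₀.val).isAlgebraic
  obtain ⟨h1, h2⟩ := pair_locC (h.adj halg) D F Md
  exact ⟨pairHt_adj h h1, pairHt_adj h h2⟩

/-- Theorem RCM for a curve -/
theorem pair_cm (h : Pool.Agent.LGO.ZV.Crv V) (hab : a ≠ b) (hβ : ¬ NCM β)
    (P : ℕ → Fin n → ℂ) (hP : ∀ k, P k ∈ V) (ha : Tendsto (fun k => ‖P k a‖) atTop atTop)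
    (hb : Tendsto (fun k => P k b) atTop (𝓝 β)) : PairHt V a b ∧ PairHt V b a :=
  pair_cmM (crvM_of h hab) hβ P hP ha hb

end Pool.Agent.LGO.RCM
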