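import Mathlib
import Pool.Agent.LGO.RCM.Defs
import Pool.Agent.LGO.RCM.GeoM
import Pool.Agent.Hhelper14.ZP.Rat

/-!
# LGO/RCM: existence of the local data `LocC` and of the complex model `MdlC`, for the curve `adj V b β`

`adj V b β = {(x, y) | x ∈ V, y (x_b - β) = 1}`; `pairHt_adj` (`CrvM.lean`) gives the pair theorem for `V` from that of `adj V b β`.
-/

namespace Pool.Agent.LGO.RCM

open Filter Topology Pool.Agent.LGO.RU Pool.Agent.LGO Pool.Agent.Hhelper14.ZP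

variable {n : ℕ} {V : Set (Fin n → ℂ)} {a b : Fin n} {β : ℂ}

/-- the local data of the other form -/
noncomputable def LocM.toC (D : LocM V a b β) : LocC V a b β where
  e := D.e
  h := D.h
  m := D.m
  n₀ := D.n₀
  C := D.C
  K₀ := D.K₀
  E := D.E
  Xi := D.Xi
  Et := D.Et
  W := D.W
  Wa := D.Wa
  Sb := D.Wb
  r := D.r
  fd := D.fd
  fin := D.fin
  pos := ⟨D.pos.1, D.pos.2.1, D.pos.2.2.2.1, D.pos.2.2.2.2.1, D.pos.2.2.2.2.2.1, D.pos.2.2.2.2.2.2⟩
  inK := ⟨D.inK.1, D.inK.2.1, D.inK.2.2.1⟩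
  gr := ⟨D.gr.1, D.gr.2.1, D.gr.2.2.1⟩
  val := D.val
  near_p := D.near_p
  near_c := fun s x hx hxE h => by
    obtain ⟨t, h1, h2, h3, h4, h5, h6, h7, -, -⟩ := D.near_c s x hx hxE h
    exact ⟨t, h1, h2, h3, h4, h5, h7, h6⟩
  up_p := D.up_p
  up_c := D.up_c
  indep := D.indep
  nc := D.nc

/-- the complex model of the other form -/
noncomputable def MdlM.toC {D : LocM V a b β} (M : MdlM D) : MdlC D.toC where
  S := M.S
  A := M.A
  ET := M.ET
  nco := M.nco
  nomod := M.nomod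
  to_ := M.to_
  from_ := M.from_
  cusp := M.cusp

/-- existence of the local data and of the complex model -/
theorem exists_locC_adj (h : CrvM V a b) (hβ : ¬ NCM β) (P : ℕ → Fin n → ℂ) (hP : ∀ k, P k ∈ V)
    (ha : Tendsto (fun k => ‖P k a‖) atTop atTop) (hb : Tendsto (fun k => P k b) atTop (𝓝 β)) :
    ∃ D : LocC (adj V b β) a.castSucc b.castSucc β, Nonempty (MdlC D) := by
  have hi : IsIntegral ℤ β := by
    rw [NCM] at hβ
    push Not at hβ
    obtain ⟨τ, rfl, hτ⟩ := hβ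
    exact jInv_mem_of_isCM hτ
  obtain ⟨D, ⟨M⟩⟩ := exists_locM h hi P hP ha hb
  exact ⟨D.toC, ⟨M.toC⟩⟩

end Pool.Agent.LGO.RCM
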