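import Mathlib
import Pool.Agent.LGO.RU.GeoAll
import Pool.Agent.LGO.RU.GeoTr

/-!
# LGO/RCM: the plane model with one point at infinity where `x_a` is infinite and `x_b` is finite

`GeoEx_plane`: the same as `RU.exists_plane` with the additional statement on the functions `ψ i - c` in the maximal ideal of `O`.
`GeoEx_planeV`: the same as `RU.exists_planeV`.
-/

namespace Pool.Agent.LGO.RCM

open Polynomial Pool.Agent.LGO Pool.Agent.LGO.RU Filter Topology Pool.Agent.Hhelper14.ZPL

section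

variable {k L : Type} [Field k] [Field L] [Algebra k L]

private theorem GeoA_tr [IsAlgClosed k] {O : ValuationSubring L} (hO : Over k O) {x : L} (hx : x ∉ O) :
    Transcendental k x := by
  intro halg
  have hint : IsIntegral k x := halg.isIntegral
  have h1 : (minpoly k x).degree = 1 :=
    IsAlgClosed.degree_eq_one_of_irreducible k (minpoly.irreducible hint)
  obtain ⟨c, hc⟩ := minpoly.mem_range_of_degree_eq_one k x h1
  apply hx
  rw [← hc]
  exact hO c

private theorem GeoA_mem {O : ValuationSubring L} (hO : Over k O) {x : L} (hx : x ∈ O) (p : k[X]) :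
    aeval x p ∈ O := by
  induction p using Polynomial.induction_on' with
  | add p q hp hq => rw [map_add]; exact O.add_mem _ _ hp hq
  | monomial n a =>
    rw [aeval_monomial]
    exact O.mul_mem _ _ (hO a) (O.toSubring.pow_mem hx n)

private theorem GeoA_memA {A : Subalgebra k L} {x : L} (hx : x ∈ A) (p : k[X]) : aeval x p ∈ A := by
  induction p using Polynomial.induction_on' with
  | add p q hp hq => rw [map_add]; exact A.add_mem hp hq
  | monomial n a =>
    rw [aeval_monomial]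
    exact A.mul_mem (A.algebraMap_mem a) (A.pow_mem hx n)

private theorem GeoA_ev2 (x y : L) (q : k[X]) (N : k[X][X]) :
    ev2 x y (C q * N) = aeval x q * ev2 x y N := by
  unfold ev2
  rw [eval₂_mul, eval₂_C]
  rfl

theorem GeoEx_plane [IsAlgClosed k] [CharZero k] (hdep : Dep k L) {m : ℕ} (ψ : Fin m → L)
    (hgen : IntermediateField.adjoin k (Set.range ψ) = ⊤) {O : ValuationSubring L} (hO : Over k O)
    {a : Fin m} (ha : ψ a ∉ O) :
    ∃ (Fx Fy : MvPolynomial (Fin m) k) (e h : ℕ) (P : k[X][X]) (M : k[X]) (N : Fin m → k[X][X]),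
      PlaneF ψ O Fx Fy e h P M N ∧ ∀ (i : Fin m) (c : k), ψ i ≠ algebraMap k L c →
        O.valuation (ψ i - algebraMap k L c) < 1 → wtG e h (N i - C (C c * M)) < e * M.natDegree := by
  classical
  have htr : Transcendental k (ψ a) := GeoA_tr hO ha
  obtain ⟨t, δ₀, b₀, hS⟩ := exists_setup hdep ψ hgen htr
  have htO : t ∉ O := by
    intro ht
    exact ha (hS.int (ψ a) (Algebra.subset_adjoin ⟨a, rfl⟩) O hO ht)
  obtain ⟨F, hFA, hFt, hFO, huniqF⟩ := exists_pole hdep hS (O := O) ⟨hO, htO⟩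
  choose Mi hMi0 hMi using fun i => exists_mulI hdep hFt (ψ i)
  set p : k[X] := X * ∏ i, Mi i with hp
  have hpr0 : ∏ i, Mi i ≠ 0 := Finset.prod_ne_zero_iff.2 fun i _ => hMi0 i
  have hp0 : p ≠ 0 := mul_ne_zero X_ne_zero hpr0
  have hpd : 0 < p.natDegree := by
    rw [hp, natDegree_mul X_ne_zero hpr0, natDegree_X]
    omega
  set x : L := aeval F p with hx
  have hxint : ∀ i, IntO k x (x * ψ i) := by
    intro i
    have h1 : IntO k F (x * ψ i) := by
      have h2 : x * ψ i = aeval F (X * ∏ j ∈ Finset.univ.erase i, Mi j) * (aeval F (Mi i) * ψ i) := by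
        rw [hx, hp, ← Finset.mul_prod_erase Finset.univ Mi (Finset.mem_univ i)]
        simp only [map_mul]
        ring
      rw [h2]
      exact (intO_aeval F _).mul (hMi i)
    exact h1.mono hpd
  have hxO : x ∉ O := by
    intro h
    rw [← O.valuation_le_one_iff, hx, valuation_aeval hO hFO hp0] at h
    exact absurd h (not_le.2 (one_lt_pow₀ (one_lt_of_notMem hFO) hpd.ne'))
  have huniq : ∀ O' : ValuationSubring L, Over k O' → x ∉ O' → O' = O := by
    intro O' hO' hx'
    refine huniqF O' hO' fun hF => hx' ?_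
    exact GeoA_mem hO' hF p
  have hxt : Transcendental k x := GeoA_tr hO hxO
  obtain ⟨δ, b, hb⟩ := exists_bas hdep ψ hgen hxt
  obtain ⟨g, e, hg⟩ := exists_gam hdep hO hxO (δ := δ) fun y => dep_poly hb (Nat.lt_succ_self δ) y
  obtain rfl : δ = e := deg_eq hdep hO hxO huniq hg hb
  set A : Subalgebra k L := Algebra.adjoin k (Set.range ψ) with hA
  have hxA : x ∈ A := GeoA_memA hFA p
  have hAz : ∀ z : L, ∃ D ∈ A, D ≠ 0 ∧ D * z ∈ A := by
    intro z
    have h1 : z ∈ IntermediateField.adjoin k (Set.range ψ) := by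
      rw [hgen]
      exact IntermediateField.mem_top
    rw [IntermediateField.mem_adjoin_iff_div] at h1
    obtain ⟨r, hr, s, hs, hz⟩ := h1
    by_cases hs0 : s = 0
    · refine ⟨1, A.one_mem, one_ne_zero, ?_⟩
      rw [hz, hs0, div_zero, mul_zero]
      exact A.zero_mem
    · refine ⟨s, hs, hs0, ?_⟩
      rw [hz, mul_div_cancel₀ _ hs0]
      exact hr
  obtain ⟨y, hyA, h, P, h0, hcop, hvy, hPm, hPd, hPw, hPt, hP0⟩ := exists_y hdep hO hg hb hxA hAz
  choose Ni' hNi' using fun i => rep_y hO hg hcop hvy hb (ψ i)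
  choose Ni hNi0 hNid hNi using hNi'
  rw [hA, Algebra.adjoin_range_eq_range_aeval] at hxA hyA
  obtain ⟨Fx, hFx⟩ := hxA
  obtain ⟨Fy, hFy⟩ := hyA
  have hFx' : MvPolynomial.aeval ψ Fx = x := hFx
  have hFy' : MvPolynomial.aeval ψ Fy = y := hFy
  have hM0 : ∏ i, Ni' i ≠ 0 := Finset.prod_ne_zero_iff.2 fun i _ => hNi0 i
  have hrep : ∀ i, aeval x (∏ i, Ni' i) * ψ i =
      ev2 x y (C (∏ j ∈ Finset.univ.erase i, Ni' j) * Ni i) := by
    intro i
    rw [GeoA_ev2, ← hNi i, ← Finset.mul_prod_erase Finset.univ Ni' (Finset.mem_univ i), map_mul]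
    ring
  have hNd : ∀ i, (C (∏ j ∈ Finset.univ.erase i, Ni' j) * Ni i).natDegree < δ := by
    intro i
    exact (natDegree_C_mul_le _ _).trans_lt (hNid i)
  refine ⟨Fx, Fy, δ, h, P, ∏ i, Ni' i, fun i => C (∏ j ∈ Finset.univ.erase i, Ni' j) * Ni i, ?_, ?_⟩
  swap
  · intro i c hne hlt
    have hxpos : 1 < O.valuation g := hg.one
    have hMx : aeval x (∏ i, Ni' i) ≠ 0 := by
      intro h1
      exact hxt ⟨_, hM0, h1⟩
    have hev : ev2 x y (C (∏ j ∈ Finset.univ.erase i, Ni' j) * Ni i - C (C c * ∏ i, Ni' i)) =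
        aeval x (∏ i, Ni' i) * (ψ i - algebraMap k L c) := by
      have h1 : ev2 x y (C (C c * ∏ i, Ni' i)) = algebraMap k L c * aeval x (∏ i, Ni' i) := by
        have h2 := GeoA_ev2 x y (C c * ∏ i, Ni' i) 1
        rw [mul_one] at h2
        rw [h2, map_mul, aeval_C]
        have h3 : ev2 x y (1 : k[X][X]) = 1 := by
          unfold ev2
          rw [eval₂_one]
        rw [h3, mul_one]
      have h4 : ev2 x y (C (∏ j ∈ Finset.univ.erase i, Ni' j) * Ni i - C (C c * ∏ i, Ni' i)) =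
          ev2 x y (C (∏ j ∈ Finset.univ.erase i, Ni' j) * Ni i) - ev2 x y (C (C c * ∏ i, Ni' i)) := by
        unfold ev2
        rw [eval₂_sub]
      rw [h4, h1, ← hrep i]
      ring
    have hne0 : C (∏ j ∈ Finset.univ.erase i, Ni' j) * Ni i - C (C c * ∏ i, Ni' i) ≠ 0 := by
      intro h1
      rw [h1] at hev
      unfold ev2 at hev
      rw [eval₂_zero] at hev
      exact mul_ne_zero hMx (sub_ne_zero.2 hne) hev.symm
    have hdeg : (C (∏ j ∈ Finset.univ.erase i, Ni' j) * Ni i - C (C c * ∏ i, Ni' i)).natDegree < δ := by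
      refine (natDegree_sub_le _ _).trans_lt (max_lt (hNd i) ?_)
      rw [natDegree_C]
      exact hg.e0
    have h1 := val_ev2 hO hg hcop hvy hdeg hne0
    rw [hev, map_mul, valuation_aeval hO hxO hM0, hg.vx, ← pow_mul] at h1
    have h2 : O.valuation g ^ wtG δ h
        (C (∏ j ∈ Finset.univ.erase i, Ni' j) * Ni i - C (C c * ∏ i, Ni' i)) <
        O.valuation g ^ (δ * (∏ i, Ni' i).natDegree) := by
      rw [← h1]
      have h3 : 0 < O.valuation g ^ (δ * (∏ i, Ni' i).natDegree) := pow_pos (zero_lt_one.trans hxpos) _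
      exact mul_lt_of_lt_one_right h3 hlt
    exact (pow_lt_pow_iff_right₀ hxpos).1 h2
  refine
    { e0 := hg.e0
      h0 := h0
      cop := hcop
      monic := hPm
      deg := hPd
      wt := hPw
      top := hPt
      rel := ?_
      ker := ?_
      M0 := hM0
      Nd := hNd
      rep := ?_
      pole := ?_
      int := ?_ }
  · rw [hFx', hFy']
    exact hP0
  · intro Q hQ
    rw [hFx', hFy'] at hQ
    exact ker_y hO hg hcop hvy hPm hPd hP0 hQ
  · intro i
    rw [hFx', hFy']
    exact hrep i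
  · intro i hi
    have hxpos : 1 < O.valuation g := hg.one
    have hi0 : ψ i ≠ 0 := by
      intro h1
      apply hi
      rw [h1]
      exact O.zero_mem
    have hne : aeval x (∏ i, Ni' i) ≠ 0 := by
      intro h1
      exact hxt ⟨_, hM0, h1⟩
    have hNne : C (∏ j ∈ Finset.univ.erase i, Ni' j) * Ni i ≠ 0 := by
      intro h1
      have h2 := hrep i
      rw [h1] at h2
      unfold ev2 at h2
      rw [eval₂_zero] at h2
      exact mul_ne_zero hne hi0 h2
    have h1 := val_ev2 hO hg hcop hvy (hNd i) hNne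
    rw [← hrep i, map_mul, valuation_aeval hO hxO hM0, hg.vx, ← pow_mul] at h1
    have h2 : O.valuation g ^ (δ * (∏ i, Ni' i).natDegree) <
        O.valuation g ^ wtG δ h (C (∏ j ∈ Finset.univ.erase i, Ni' j) * Ni i) := by
      rw [← h1]
      have h3 : 0 < O.valuation g ^ (δ * (∏ i, Ni' i).natDegree) := pow_pos (zero_lt_one.trans hxpos) _
      exact lt_mul_of_one_lt_right h3 (one_lt_of_notMem hi)
    exact (pow_lt_pow_iff_right₀ hxpos).1 h2
  · intro i
    rw [hFx']
    exact hxint i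

end

/-- the value at `(T, Z)` -/
private noncomputable def GeoA_Tev {B : Type} [CommRing B] [Algebra Qb B] (T Z : B) : Qb[X][X] →+* B :=
  eval₂RingHom (aeval T : Qb[X] →ₐ[Qb] B).toRingHom Z

private theorem GeoA_TC {B : Type} [CommRing B] [Algebra Qb B] (T Z : B) (p : Qb[X]) :
    GeoA_Tev T Z (C p) = aeval T p := by
  unfold GeoA_Tev
  rw [coe_eval₂RingHom, eval₂_C]
  rfl

private theorem GeoA_TX {B : Type} [CommRing B] [Algebra Qb B] (T Z : B) :
    GeoA_Tev T Z X = Z := by
  unfold GeoA_Tev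
  rw [coe_eval₂RingHom, eval₂_X]

private theorem GeoA_Tev2 {L : Type} [Field L] [Algebra Qb L] (T Z : L) (P : Qb[X][X]) :
    ev2 T Z P = GeoA_Tev T Z P := rfl

private theorem GeoA_Thom {B B' : Type} [CommRing B] [Algebra Qb B] [CommRing B'] [Algebra Qb B']
    (f : B →ₐ[Qb] B') (T Z : B) (P : Qb[X][X]) : f (GeoA_Tev T Z P) = GeoA_Tev (f T) (f Z) P := by
  have h : (f : B →+* B').comp (GeoA_Tev T Z) = GeoA_Tev (f T) (f Z) := by
    apply Polynomial.ringHom_ext
    · intro p
      rw [RingHom.comp_apply, GeoA_TC, GeoA_TC]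
      exact (aeval_algHom_apply f T p).symm
    · rw [RingHom.comp_apply, GeoA_TX, GeoA_TX]
      rfl
  exact congrArg (fun g => g P) h

private theorem GeoA_TtoC1 (M : Qb[X]) (T : ℂ) : (toC1 M).eval T = aeval T M := by
  unfold toC1
  rw [eval_map_algebraMap]

private theorem GeoA_TtoC (P : Qb[X][X]) (T Z : ℂ) : (toC P).evalEval T Z = GeoA_Tev T Z P := by
  have h : (evalEvalRingHom T Z).comp (mapRingHom (mapRingHom (algebraMap Qb ℂ))) = GeoA_Tev T Z := by
    apply Polynomial.ringHom_ext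
    · intro p
      rw [RingHom.comp_apply, GeoA_TC, coe_mapRingHom, map_C, coe_evalEvalRingHom, evalEval_C,
        coe_mapRingHom, eval_map_algebraMap]
    · rw [RingHom.comp_apply, GeoA_TX, coe_mapRingHom, map_X, coe_evalEvalRingHom, evalEval_X]
  exact congrArg (fun g => g P) h

/-- clearing denominators -/
private theorem GeoA_Tclear {n : ℕ} (M : Qb[X]) (N : Fin n → Qb[X][X]) (G : MvPolynomial (Fin n) Qb) :
    ∃ (d : ℕ) (Q : Qb[X][X]), ∀ (B : Type) [CommRing B] [Algebra Qb B] (T Z : B) (z : Fin n → B),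
      (∀ c, aeval T M * z c = GeoA_Tev T Z (N c)) →
        (aeval T M) ^ d * MvPolynomial.aeval z G = GeoA_Tev T Z Q := by
  induction G using MvPolynomial.induction_on with
  | C r =>
    refine ⟨0, C (C r), ?_⟩
    intro B _ _ T Z z _
    rw [pow_zero, one_mul, MvPolynomial.aeval_C, GeoA_TC, aeval_C]
  | add p q hp hq =>
    obtain ⟨d₁, Q₁, h₁⟩ := hp
    obtain ⟨d₂, Q₂, h₂⟩ := hq
    refine ⟨d₁ + d₂, C M ^ d₂ * Q₁ + C M ^ d₁ * Q₂, ?_⟩
    intro B _ _ T Z z hz
    rw [map_add, map_add, map_mul, map_mul, map_pow, map_pow, GeoA_TC, ← h₁ B T Z z hz,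
      ← h₂ B T Z z hz]
    ring
  | mul_X p c hp =>
    obtain ⟨d, Q, h⟩ := hp
    refine ⟨d + 1, Q * N c, ?_⟩
    intro B _ _ T Z z hz
    rw [map_mul, map_mul, MvPolynomial.aeval_X, ← h B T Z z hz, ← hz c]
    ring

theorem GeoEx_planeV {n : ℕ} {V : Set (Fin n → ℂ)} (hV : Pool.Agent.Hhelper14.ZPL.IsIrredClosed V)
    (hVk : KClosed V) (hdim : Pool.Agent.Hhelper14.ZPL.dim V = 1) (P : ℕ → Fin n → ℂ)
    (hP : ∀ m, P m ∈ V) (a b : Fin n) (ha : Tendsto (fun m => ‖P m a‖) atTop atTop)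
    (β : Qb) (hb : Tendsto (fun m => P m b) atTop (𝓝 (β : ℂ))) (hnb : ∃ x ∈ V, x b ≠ (β : ℂ)) :
    ∃ (Fx Fy : MvPolynomial (Fin n) Qb) (e h : ℕ) (P : Polynomial (Polynomial Qb))
      (M : Polynomial Qb) (N : Fin n → Polynomial (Polynomial Qb)), PlaneV V Fx Fy e h P M N ∧
      e * M.natDegree < wtG e h (N a) ∧ wtG e h (N b - C (C β * M)) < e * M.natDegree := by
  obtain ⟨L, hL, hA, ψ, hgen, hdep, h0, hfin⟩ := GM.exists_funQM hV hVk hdim (id : Fin n → Fin n)
  have hid : ∀ x : Fin n → ℂ, x ∘ (id : Fin n → Fin n) = x := fun x => rfl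
  -- the place
  obtain ⟨O, hOver, hlt, hnot⟩ := GM.exists_ultraM ψ hgen (fun m => P m ∘ id)
    (fun D hD m => (h0 D).mp hD (P m) (hP m))
    (fun D hD => by
      filter_upwards [eventually_notMem_finite (hfin D hD) (id a) P ha] with m hm h5
      exact hm ⟨hP m, h5⟩)
  have hO : ∀ c : Fin n, Tendsto (fun m => ‖P m c‖) atTop atTop → ψ c ∉ O := by
    intro c hc
    have h1 := hnot (MvPolynomial.X c) 1 (by rw [map_one]; exact one_ne_zero) (by
      simpa only [MvPolynomial.aeval_X, map_one, div_one, Function.comp_apply, id] using hc)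
    rwa [MvPolynomial.aeval_X, map_one, div_one] at h1
  have hβv : O.valuation (ψ b - algebraMap Qb L β) < 1 := by
    have h1 := hlt (MvPolynomial.X b - MvPolynomial.C β) 1 (by rw [map_one]; exact one_ne_zero) (by
      have h2 : Tendsto (fun m => P m b - (β : ℂ)) atTop (𝓝 ((β : ℂ) - β)) := hb.sub_const _
      rw [sub_self] at h2
      refine h2.congr fun m => ?_
      rw [map_sub, MvPolynomial.aeval_X, MvPolynomial.aeval_C, map_one, div_one]
      rfl)
    rwa [map_sub, MvPolynomial.aeval_X, MvPolynomial.aeval_C, map_one, div_one] at h1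
  have hβn : ψ b ≠ algebraMap Qb L β := by
    intro h1
    obtain ⟨x, hx, hxb⟩ := hnb
    have h2 : MvPolynomial.aeval ψ (MvPolynomial.X b - MvPolynomial.C β : MvPolynomial (Fin n) Qb) = 0 := by
      rw [map_sub, MvPolynomial.aeval_X, MvPolynomial.aeval_C, h1, sub_self]
    have h3 := (h0 _).mp h2 x hx
    rw [map_sub, MvPolynomial.aeval_X, MvPolynomial.aeval_C, sub_eq_zero] at h3
    exact hxb h3
  obtain ⟨Fx, Fy, e, h, R, M, N, hF, hFb⟩ := GeoEx_plane hdep ψ hgen hOver (hO a ha)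
  set ξ : L := MvPolynomial.aeval ψ Fx with hξ
  set η : L := MvPolynomial.aeval ψ Fy with hη
  have hrel : GeoA_Tev ξ η R = 0 := by rw [← GeoA_Tev2]; exact hF.rel
  have hrep : ∀ c, aeval ξ M * ψ c = GeoA_Tev ξ η (N c) := fun c => by
    rw [← GeoA_Tev2]; exact hF.rep c
  have hker : ∀ Q : Qb[X][X], GeoA_Tev ξ η Q = 0 → R ∣ Q := fun Q hQ =>
    hF.ker Q (by rw [GeoA_Tev2]; exact hQ)
  -- identities in the function field hold on `V`
  have hon : ∀ G : MvPolynomial (Fin n) Qb, MvPolynomial.aeval ψ G = 0 →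
      ∀ x ∈ V, (MvPolynomial.aeval x G : ℂ) = 0 := fun G hG x hx => (h0 G).mp hG x hx
  -- `V` is closed over `Qb`
  have hmem : ∀ x : Fin n → ℂ, (∀ G : MvPolynomial (Fin n) Qb, MvPolynomial.aeval ψ G = 0 →
      (MvPolynomial.aeval x G : ℂ) = 0) → x ∈ V := by
    intro x hx
    rw [kclosed_iff] at hVk
    apply hVk
    intro p hp
    apply hx
    rw [h0]
    exact fun y hy => (MvPolynomial.mem_vanishingIdeal_iff.mp hp) y hy
  refine ⟨Fx, Fy, e, h, R, M, N, ?_, hF.pole a (hO a ha), hFb b β hβn hβv⟩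
  refine ⟨hF.e0, hF.h0, hF.cop, hF.monic, hF.deg, hF.wt, hF.top, hF.M0, hF.Nd, ?_, ?_, ?_, ?_, ?_⟩
  · -- `Fx` is not constant
    intro c
    by_contra hcon
    push Not at hcon
    have h1 : (1 : MvPolynomial (Fin n) Qb) ∉
        (MvPolynomial.vanishingIdeal Qb V : Ideal (MvPolynomial (Fin n) Qb)) := by
      intro h2
      have h3 := (MvPolynomial.mem_vanishingIdeal_iff.mp h2) (P 0) (hP 0)
      rw [map_one] at h3
      exact one_ne_zero h3
    obtain ⟨z, hz, -⟩ := exists_Qb_point hVk h1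
    have h4 : c = ((MvPolynomial.aeval z Fx : Qb) : ℂ) := by
      rw [← hcon _ hz]
      unfold vl
      rw [← aeval_coe]
    have h5 : MvPolynomial.aeval ψ (Fx - MvPolynomial.C (MvPolynomial.aeval z Fx : Qb) :
        MvPolynomial (Fin n) Qb) = 0 := by
      rw [h0]
      intro x hx
      rw [hid, map_sub, MvPolynomial.aeval_C]
      have h6 := hcon x hx
      unfold vl at h6
      rw [h6, h4]
      exact sub_self _
    rw [map_sub, MvPolynomial.aeval_C, sub_eq_zero] at h5
    have h7 : R ∣ C (X - C (MvPolynomial.aeval z Fx : Qb)) := by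
      apply hker
      rw [GeoA_TC, map_sub, aeval_X, aeval_C, ← h5, hξ, sub_self]
    have h8 : (C (X - C (MvPolynomial.aeval z Fx : Qb)) : Qb[X][X]) ≠ 0 := by
      rw [Ne, C_eq_zero]
      exact X_sub_C_ne_zero _
    have h9 := natDegree_le_of_dvd h7 h8
    rw [natDegree_C, hF.deg] at h9
    exact absurd hF.e0 (by omega)
  · intro x hx
    rw [GeoA_TtoC]
    have h1 := hon (GeoA_Tev Fx Fy R) (by rw [GeoA_Thom]; exact hrel) x hx
    rw [GeoA_Thom] at h1
    exact h1
  · intro x hx c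
    have h1 := hon (aeval Fx M * MvPolynomial.X c - GeoA_Tev Fx Fy (N c)) (by
      rw [map_sub, map_mul, MvPolynomial.aeval_X, GeoA_Thom, ← aeval_algHom_apply, sub_eq_zero]
      exact hrep c) x hx
    rw [map_sub, map_mul, MvPolynomial.aeval_X, GeoA_Thom, ← aeval_algHom_apply, sub_eq_zero] at h1
    rw [GeoA_TtoC1, GeoA_TtoC]
    exact h1
  · intro T Z hTZ hMT
    rw [GeoA_TtoC] at hTZ
    rw [GeoA_TtoC1] at hMT
    set x : Fin n → ℂ := fun c => GeoA_Tev T Z (N c) / aeval T M with hx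
    have hz : ∀ c, aeval T M * x c = GeoA_Tev T Z (N c) := fun c => by
      rw [hx]
      exact mul_div_cancel₀ _ hMT
    have hdvd : ∀ Q : Qb[X][X], R ∣ Q → GeoA_Tev T Z Q = 0 := by
      rintro Q ⟨Q', rfl⟩
      rw [map_mul, hTZ, zero_mul]
    have key : ∀ (G : MvPolynomial (Fin n) Qb) (S : Qb[X][X]),
        MvPolynomial.aeval ψ G = GeoA_Tev ξ η S → (MvPolynomial.aeval x G : ℂ) = GeoA_Tev T Z S := by
      intro G S hG
      obtain ⟨d, Q, hQ⟩ := GeoA_Tclear M N G
      have h1 := hQ L ξ η ψ hrep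
      have h2 := hQ ℂ T Z x hz
      have h3 : GeoA_Tev ξ η (C M ^ d * S - Q) = 0 := by
        rw [map_sub, map_mul, map_pow, GeoA_TC, ← h1, hG, sub_self]
      have h4 := hdvd _ (hker _ h3)
      rw [map_sub, map_mul, map_pow, GeoA_TC, ← h2, sub_eq_zero] at h4
      exact (mul_left_cancel₀ (pow_ne_zero d hMT) h4).symm
    refine ⟨x, ?_, ?_, ?_, ?_⟩
    · apply hmem
      intro G hG
      have h1 := key G 0 (by rw [map_zero]; exact hG)
      rw [h1, map_zero]
    · have h1 := key Fx (C X) (by rw [GeoA_TC, aeval_X])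
      rw [GeoA_TC, aeval_X] at h1
      exact h1
    · have h1 := key Fy X (by rw [GeoA_TX])
      rw [GeoA_TX] at h1
      exact h1
    · intro c
      rw [GeoA_TtoC1, GeoA_TtoC]
      exact hz c
  · intro c
    obtain ⟨r, q, hr, hq⟩ := hF.int c
    refine ⟨r, q, hr, ?_⟩
    intro x hx
    have h1 := hon ((Fx * MvPolynomial.X c) ^ r +
      ∑ j ∈ Finset.range r, aeval Fx (q j) * (Fx * MvPolynomial.X c) ^ j) (by
        rw [map_add, map_pow, map_mul, MvPolynomial.aeval_X, map_sum]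
        rw [← hq]
        congr 1
        refine Finset.sum_congr rfl fun j _ => ?_
        rw [map_mul, map_pow, map_mul, MvPolynomial.aeval_X, ← aeval_algHom_apply]) x hx
    rw [map_add, map_pow, map_mul, MvPolynomial.aeval_X, map_sum] at h1
    unfold vl
    rw [← h1]
    congr 1
    refine Finset.sum_congr rfl fun j _ => ?_
    rw [map_mul, map_pow, map_mul, MvPolynomial.aeval_X, ← aeval_algHom_apply, GeoA_TtoC1]

end Pool.Agent.LGO.RCM
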