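import Mathlib
import Pool.Agent.LGO.RU.GeoOm
import Pool.Agent.LGO.RU.GeoV

/-!
# LGO/RCM: the expansion of a coordinate which is finite at the pole

`N' = N - β M` has weight `< w = e deg M`, so `sb = β + Tw e h w N' W * (Tw e h w (C M) W)⁻¹` has the constant coefficient `β`.
-/

namespace Pool.Agent.LGO.RCM

open Polynomial Pool.Agent.LGO Pool.Agent.LGO.RU

private theorem GeoB_coeff (a : ℂ) (n l : ℕ) (W : PowerSeries ℂ) :
    PowerSeries.coeff 0 (PowerSeries.C a * PowerSeries.X ^ n * W ^ l) =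
      a * 0 ^ n * (PowerSeries.coeff 0 W) ^ l := by
  simp only [PowerSeries.coeff_zero_eq_constantCoeff_apply, map_mul, map_pow,
    PowerSeries.constantCoeff_C, PowerSeries.constantCoeff_X]

private theorem GeoB_lt0 {e h w : ℕ} {N : ℂ[X][X]} (hw : wtG e h N < w) (W : PowerSeries ℂ) :
    PowerSeries.coeff 0 (Tw e h w N W) = 0 := by
  unfold Tw
  rw [map_sum]
  refine Finset.sum_eq_zero fun l _ => ?_
  rw [map_sum]
  refine Finset.sum_eq_zero fun k hk => ?_
  have h1 : e * k + h * l ≤ wtG e h N := wt_wtG e h N l k (Polynomial.mem_support_iff.1 hk)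
  rw [GeoB_coeff, zero_pow (by omega), mul_zero, zero_mul]

/-- the series of the denominator -/
noncomputable def GeoEx_Mt (e h : ℕ) (M : ℂ[X]) (W : PowerSeries ℂ) : PowerSeries ℂ :=
  Tw e h (e * M.natDegree) (C M) W

private theorem GeoB_wtC (e h : ℕ) (M : ℂ[X]) :
    Wt e h (e * M.natDegree) (C M : ℂ[X][X]) := by
  intro l k hk
  rw [Polynomial.coeff_C] at hk
  by_cases hl : l = 0
  · subst hl
    rw [if_pos rfl] at hk
    have h1 : k ≤ M.natDegree := Polynomial.le_natDegree_of_ne_zero hk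
    have h2 : e * k ≤ e * M.natDegree := Nat.mul_le_mul_left _ h1
    omega
  · rw [if_neg hl, Polynomial.coeff_zero] at hk
    exact absurd rfl hk

private theorem GeoB_coeffM {e h : ℕ} (he : 0 < e) {M : ℂ[X]} (hM : M ≠ 0) (W : PowerSeries ℂ) :
    PowerSeries.coeff 0 (GeoEx_Mt e h M W) ≠ 0 := by
  have hsup : (C M : ℂ[X][X]).support = {0} := Polynomial.support_C hM
  have key : PowerSeries.coeff 0 (Tw e h (e * M.natDegree) (C M : ℂ[X][X]) W) =
      M.leadingCoeff := by
    unfold Tw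
    rw [hsup, Finset.sum_singleton, Polynomial.coeff_C_zero, map_sum,
      Finset.sum_eq_single M.natDegree]
    · rw [GeoB_coeff, pow_zero, mul_one, mul_zero, add_zero, Nat.sub_self, pow_zero, mul_one]
      rfl
    · intro k hk hkne
      have h1 : k ≤ M.natDegree := Polynomial.le_natDegree_of_mem_supp k hk
      have h2 : k < M.natDegree := lt_of_le_of_ne h1 hkne
      have h3 : e * k < e * M.natDegree := Nat.mul_lt_mul_of_pos_left h2 he
      rw [GeoB_coeff, zero_pow (by omega), mul_zero, zero_mul]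
    · intro hnm
      exact absurd (Polynomial.natDegree_mem_support_of_nonzero hM) hnm
  unfold GeoEx_Mt
  rw [key]
  exact Polynomial.leadingCoeff_ne_zero.2 hM

theorem GeoEx_sb {K : IntermediateField ℚ ℂ} [FiniteDimensional ℚ K] {e h : ℕ} (he : 0 < e)
    {M : ℂ[X]} {N : ℂ[X][X]} {β : ℂ} (hM : M ≠ 0) (hMK : ∀ k, M.coeff k ∈ K)
    (hNK : FldP K N) (hβ : β ∈ K) {W : PowerSeries ℂ} (hW : Gd K W)
    (hlt : wtG e h (N - C (C β * M)) < e * M.natDegree) :
    ∃ sb : PowerSeries ℂ, Gd K sb ∧ PowerSeries.coeff 0 sb = β ∧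
      Gd K (GeoEx_Mt e h M W)⁻¹ ∧ ∀ {E : Type} [NormedField E] [CompleteSpace E] (φ : ℂ →+* E)
        (τ x y z : ℂ), Cv φ W (φ τ) → Cv φ (GeoEx_Mt e h M W)⁻¹ (φ τ) → τ ^ e * x = 1 →
        φ (y * τ ^ h) = evE φ W (φ τ) → M.eval x * z = N.evalEval x y →
        φ z = evE φ sb (φ τ) ∧ Cv φ sb (φ τ) := by
  have hM0 : PowerSeries.coeff 0 (GeoEx_Mt e h M W) ≠ 0 := GeoB_coeffM (h := h) he hM W
  have hMF : FldP K (C M : ℂ[X][X]) := by
    intro l k
    rw [Polynomial.coeff_C]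
    by_cases hl : l = 0
    · rw [if_pos hl]
      exact hMK k
    · rw [if_neg hl, Polynomial.coeff_zero]
      exact K.zero_mem
  have hN'F : FldP K (N - C (C β * M)) := by
    intro l k
    rw [Polynomial.coeff_sub, Polynomial.coeff_sub, Polynomial.coeff_C]
    by_cases hl : l = 0
    · rw [if_pos hl, Polynomial.coeff_C_mul]
      exact sub_mem (hNK l k) (mul_mem hβ (hMK k))
    · rw [if_neg hl, Polynomial.coeff_zero, sub_zero]
      exact hNK l k
  have hGM : Gd K (GeoEx_Mt e h M W) := Gd.tw hMF hW e h _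
  have hGi : Gd K (GeoEx_Mt e h M W)⁻¹ := hGM.inv hM0
  have hwt : Wt e h (e * M.natDegree) (N - C (C β * M)) := fun l k hk =>
    (wt_wtG e h _ l k hk).trans hlt.le
  refine ⟨PowerSeries.C β + Tw e h (e * M.natDegree) (N - C (C β * M)) W * (GeoEx_Mt e h M W)⁻¹,
    (gd_C hβ).add ((Gd.tw hN'F hW e h _).mul hGi), ?_, hGi, ?_⟩
  · have h1 := GeoB_lt0 hlt W
    rw [PowerSeries.coeff_zero_eq_constantCoeff_apply] at h1 ⊢
    rw [map_add, map_mul, h1, zero_mul, add_zero, PowerSeries.constantCoeff_C]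
  · intro E _ _ φ τ x y z hcW hcI hx hy hz
    have hx' : (φ τ) ^ e * φ x = 1 := by
      rw [← map_pow, ← map_mul, hx, map_one]
    have hy' : φ y * (φ τ) ^ h = evE φ W (φ τ) := by
      rw [← hy, map_mul, map_pow]
    have hcN : Cv φ (Tw e h (e * M.natDegree) (N - C (C β * M)) W) (φ τ) := cv_Tw _ hcW
    have hcM : Cv φ (GeoEx_Mt e h M W) (φ τ) := cv_Tw _ hcW
    have hevN : evE φ (Tw e h (e * M.natDegree) (N - C (C β * M)) W) (φ τ) =
        φ ((N - C (C β * M)).evalEval x y) * (φ τ) ^ (e * M.natDegree) :=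
      ev_Tw hwt hcW hx' hy'
    have hevM : evE φ (GeoEx_Mt e h M W) (φ τ) = φ (M.eval x) * (φ τ) ^ (e * M.natDegree) := by
      unfold GeoEx_Mt
      rw [ev_Tw (GeoB_wtC e h M) hcW hx' hy', Polynomial.evalEval_C]
    have hone : GeoEx_Mt e h M W * (GeoEx_Mt e h M W)⁻¹ = 1 := by
      apply PowerSeries.mul_inv_cancel
      rwa [← PowerSeries.coeff_zero_eq_constantCoeff_apply]
    have h1 : φ (M.eval x) * (φ τ) ^ (e * M.natDegree) * evE φ (GeoEx_Mt e h M W)⁻¹ (φ τ) = 1 := by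
      rw [← hevM, ← evE_mul hcM hcI, hone, ← map_one (PowerSeries.C (R := ℂ)), evE_C, map_one]
    have h2 : (N - C (C β * M)).evalEval x y = M.eval x * (z - β) := by
      rw [Polynomial.evalEval_sub, ← hz, Polynomial.evalEval_C, Polynomial.eval_mul, Polynomial.eval_C]
      ring
    refine ⟨?_, (cv_C _).add (hcN.mul hcI)⟩
    rw [evE_add (cv_C _) (hcN.mul hcI), evE_C, evE_mul hcN hcI, hevN, h2, map_mul, map_sub]
    linear_combination (φ β - φ z) * h1

end Pool.Agent.LGO.RCM
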