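import Mathlib
import Pool.Agent.LGO.RU.GeoSc
import Pool.Agent.LGO.RCM.GeoExB

/-!
# LGO/RCM: scaling, final form of the geometric input

`GeoEx_Geo V a b β`: `Geo V a a` (`LGO/RU/GeoV.lean`) and the power series `Sb` of `x_b` in the local parameter, `Sb(0) = β`.
`GeoEx_geo_of_plane`: the proof of `RU.geo_of_plane` with the series of `GeoEx_sb` for `x_b`; `A` is divisible by `A3 ^ 2`, so that `A ^ n c_n` is an algebraic
integer for all `n ≥ 1` (`c_0 = β` is one).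
-/

namespace Pool.Agent.LGO.RCM

open Polynomial Pool.Agent.LGO Pool.Agent.LGO.RU Pool.Agent.Hhelper14.ZPL Pool.Agent.Hhelper14.ZP

/-- the geometric input at a point at infinity where `x_a` is infinite and `x_b = β` -/
structure GeoEx_Geo {n : ℕ} (V : Set (Fin n → ℂ)) (a b : Fin n) (β : ℂ) where
  G : Geo V a a
  Sb : PowerSeries OO
  val : ((PowerSeries.coeff 0 Sb : OO) : ℂ) = β
  fld : ∀ n, ((PowerSeries.coeff n Sb : OO) : ℂ) ∈ G.K
  gro : ∀ (σ : ℂ →+* ℂ) (n : ℕ), ‖σ ((PowerSeries.coeff n Sb : OO) : ℂ)‖ ≤ G.C ^ (n + 1)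
  locp : ∀ (p : ℕ) [Fact p.Prime] (φ : ℂ →+* ℂ_[p]), ∀ x ∈ V, 1 < ‖φ (vl G.Fx x)‖ →
    ∃ τ : ℂ, τ ^ G.e * vl G.Fx x = 1 ∧ (x a ≠ 0 ∧ ValP φ G.oa τ ((x a * τ ^ G.ma)⁻¹)) ∧
      ValP φ Sb τ (x b)
  locc : ∀ σ : ℂ →+* ℂ, ∀ x ∈ V, G.C < ‖σ (vl G.Fx x)‖ →
    ∃ τ : ℂ, τ ^ G.e * vl G.Fx x = 1 ∧ ValC σ G.W τ (vl G.Fy x * τ ^ G.h) ∧
      (x a ≠ 0 ∧ ValC σ G.oa τ ((x a * τ ^ G.ma)⁻¹) ∧ ‖σ (x a * τ ^ G.ma)‖ ≤ G.C) ∧
      ValC σ Sb τ (x b)

theorem GeoEx_geo_of_plane {n : ℕ} {V : Set (Fin n → ℂ)} {Fx Fy : MvPolynomial (Fin n) Qb} {e h : ℕ}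
    {P : Polynomial (Polynomial Qb)} {M : Polynomial Qb} {N : Fin n → Polynomial (Polynomial Qb)}
    (hP : PlaneV V Fx Fy e h P M N) {a b : Fin n} (ha : e * M.natDegree < wtG e h (N a))
    {β₀ : Qb} (hβi : IsIntegral ℤ (β₀ : ℂ)) (hb : wtG e h (N b - C (C β₀ * M)) < e * M.natDegree) :
    Nonempty (GeoEx_Geo V a b (β₀ : ℂ)) := by
  classical
  have hPm : (toC P).Monic := hP.monic.map _
  have hPd : (toC P).natDegree = e := by rw [toC_natDegree, hP.deg]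
  have hPw : Wt e h (e * h) (toC P) := by
    intro l k hlk
    rw [toC_coeff] at hlk
    have h1 : (P.coeff l).coeff k ≠ 0 := by
      intro h2
      rw [h2] at hlk
      exact hlk rfl
    have h2 : k ≤ (P.coeff l).natDegree := le_natDegree_of_ne_zero h1
    have h3 : l ≤ e := by
      rw [← hP.deg]
      refine le_natDegree_of_ne_zero ?_
      intro h4
      rw [h4, coeff_zero] at h1
      exact h1 rfl
    rcases h3.lt_or_eq with h4 | h4
    · have h5 := hP.wt l h4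
      have h6 : e * k ≤ e * (P.coeff l).natDegree := Nat.mul_le_mul_left _ h2
      omega
    · have h5 : (P.coeff l).natDegree = 0 := by
        rw [h4, ← hP.deg, hP.monic.coeff_natDegree, natDegree_one]
      have h6 : k = 0 := by omega
      rw [h6, h4, mul_zero, zero_add, mul_comm]
  have hPt : ((toC P).coeff 0).coeff h ≠ 0 := by
    rw [toC_coeff, ← hP.top, coeff_natDegree]
    intro h1
    have h2 : (P.coeff 0).leadingCoeff = 0 := by exact_mod_cast h1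
    rw [leadingCoeff_eq_zero] at h2
    have h3 := hP.top
    rw [h2, natDegree_zero] at h3
    exact hP.h0.ne h3
  have hPalg : ∀ l k, IsAlgebraic ℚ (((toC P).coeff l).coeff k) := by
    intro l k
    rw [toC_coeff]
    exact sc_alg _
  obtain ⟨K₁, W, hK₁, hPK₁, hW₁, hW0, hTw⟩ := exists_W hP.e0 hP.h0 hP.cop hPm hPd hPw hPt hPalg
  obtain ⟨K, hK, hK₁K, hKs⟩ := exists_fld ((toC1 M).coeffs ∪
    ((toC (N a)).coeffs.biUnion fun q => q.coeffs) ∪ ((toC (N b)).coeffs.biUnion fun q => q.coeffs) ∪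
      {(β₀ : ℂ)})
    (by
      intro x hx
      rw [Finset.mem_union, Finset.mem_union, Finset.mem_union, Finset.mem_biUnion, Finset.mem_biUnion,
        Finset.mem_singleton] at hx
      rcases hx with ((hx | ⟨q, hq, hx⟩) | ⟨q, hq, hx⟩) | rfl
      · obtain ⟨k, -, rfl⟩ := mem_coeffs_iff.1 hx
        rw [toC1_coeff]
        exact sc_alg _
      · obtain ⟨l, -, rfl⟩ := mem_coeffs_iff.1 hq
        obtain ⟨k, -, rfl⟩ := mem_coeffs_iff.1 hx
        rw [toC_coeff]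
        exact sc_alg _
      · obtain ⟨l, -, rfl⟩ := mem_coeffs_iff.1 hq
        obtain ⟨k, -, rfl⟩ := mem_coeffs_iff.1 hx
        rw [toC_coeff]
        exact sc_alg _
      · exact sc_alg _) K₁
  have hMK : ∀ k, (toC1 M).coeff k ∈ K := by
    intro k
    by_cases h0 : (toC1 M).coeff k = 0
    · rw [h0]
      exact zero_mem K
    · exact hKs _ (Finset.mem_union_left _ (Finset.mem_union_left _ (Finset.mem_union_left _ (coeff_mem_coeffs h0))))
  have hNaK : FldP K (toC (N a)) := by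
    intro l k
    by_cases h0 : ((toC (N a)).coeff l).coeff k = 0
    · rw [h0]
      exact zero_mem K
    · refine hKs _ (Finset.mem_union_left _ (Finset.mem_union_left _ (Finset.mem_union_right _
        (Finset.mem_biUnion.2 ⟨(toC (N a)).coeff l, coeff_mem_coeffs ?_, coeff_mem_coeffs h0⟩))))
      intro h1
      rw [h1, coeff_zero] at h0
      exact h0 rfl
  have hNbK : FldP K (toC (N b)) := by
    intro l k
    by_cases h0 : ((toC (N b)).coeff l).coeff k = 0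
    · rw [h0]
      exact zero_mem K
    · refine hKs _ (Finset.mem_union_left _ (Finset.mem_union_right _ (Finset.mem_biUnion.2
        ⟨(toC (N b)).coeff l, coeff_mem_coeffs ?_, coeff_mem_coeffs h0⟩)))
      intro h1
      rw [h1, coeff_zero] at h0
      exact h0 rfl
  have hβK : (β₀ : ℂ) ∈ K := hKs _ (Finset.mem_union_right _ (Finset.mem_singleton_self _))
  have hPK : FldP K (toC P) := fun l k => hK₁K (hPK₁ l k)
  have hW : Gd K W := ⟨fun n => hK₁K (hW₁.fld n), hW₁.eis, hW₁.gro⟩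
  have hM0 : toC1 M ≠ 0 := (Polynomial.map_ne_zero_iff (algebraMap Qb ℂ).injective).2 hP.M0
  obtain ⟨ma, oma, hma0, hoa, hoa0, hNta, hva⟩ := exists_om (M := toC1 M) (N := toC (N a)) hP.e0 hP.cop
    hM0 hMK hNaK (by rw [toC_natDegree]; exact hP.Nd a) hW hW0
    (by rw [toC1_natDegree, toC_wtG]; exact ha)
  have hbC : wtG e h (toC (N b) - C (C (β₀ : ℂ) * toC1 M)) < e * (toC1 M).natDegree := by
    have h1 : toC (N b) - C (C (β₀ : ℂ) * toC1 M) = toC (N b - C (C β₀ * M)) := by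
      ext l k
      rw [toC_coeff, coeff_sub, coeff_sub, coeff_sub, coeff_sub, toC_coeff, coeff_C, coeff_C]
      push_cast
      congr 1
      split_ifs with hl
      · rw [coeff_C_mul, coeff_C_mul, toC1_coeff]
        push_cast
        rfl
      · rw [coeff_zero, coeff_zero]
        push_cast
        rfl
    rw [h1, toC_wtG, toC1_natDegree]
    exact hb
  obtain ⟨omb, hob, hob0, hNtb, hvb⟩ := GeoEx_sb (M := toC1 M) (N := toC (N b)) hP.e0
    hM0 hMK hNbK hβK hW hbC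
  -- the integers
  obtain ⟨A1, hA1, hA1'⟩ := hW.eis
  obtain ⟨A2, hA2, hA2'⟩ := hoa.eis
  obtain ⟨A3, hA3, hA3'⟩ := hob.eis
  obtain ⟨A4, hA4, hA4'⟩ := hNta.eis
  obtain ⟨A5, hA5, hA5'⟩ := hNtb.eis
  have hia : Gd K oma⁻¹ := hoa.inv hoa0
  obtain ⟨A7, hA7, hA7'⟩ := hia.eis
  obtain ⟨A6, hA6, hA6'⟩ := sc_den (K := K) ((toC P).coeffs.biUnion fun q => q.coeffs) (by
    intro x hx
    obtain ⟨q, hq, hx⟩ := Finset.mem_biUnion.1 hx
    obtain ⟨l, -, rfl⟩ := mem_coeffs_iff.1 hq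
    obtain ⟨k, -, rfl⟩ := mem_coeffs_iff.1 hx
    exact hPK l k)
  have hA6P : ∀ l k, IsIntegral ℤ ((A6 : ℂ) * ((toC P).coeff l).coeff k) := by
    intro l k
    by_cases h0 : ((toC P).coeff l).coeff k = 0
    · rw [h0, mul_zero]
      exact isIntegral_zero
    · refine hA6' _ (Finset.mem_biUnion.2 ⟨(toC P).coeff l, coeff_mem_coeffs ?_, coeff_mem_coeffs h0⟩)
      intro h1
      rw [h1, coeff_zero] at h0
      exact h0 rfl
  obtain ⟨A, hAdef⟩ : ∃ A, A = A1 * A2 * (A3 * A3) * A4 * A5 * A6 * A7 := ⟨_, rfl⟩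
  have hA0 : 0 < A := by
    rw [hAdef]
    positivity
  have d1 : A1 ∣ A := by rw [hAdef]; exact ⟨A2 * (A3 * A3) * A4 * A5 * A6 * A7, by ring⟩
  have d2 : A2 ∣ A := by rw [hAdef]; exact ⟨A1 * (A3 * A3) * A4 * A5 * A6 * A7, by ring⟩
  have d3 : A3 * A3 ∣ A := by rw [hAdef]; exact ⟨A1 * A2 * A4 * A5 * A6 * A7, by ring⟩
  have d4 : A4 ∣ A := by rw [hAdef]; exact ⟨A1 * A2 * (A3 * A3) * A5 * A6 * A7, by ring⟩
  have d5 : A5 ∣ A := by rw [hAdef]; exact ⟨A1 * A2 * (A3 * A3) * A4 * A6 * A7, by ring⟩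
  have d6 : A6 ∣ A := by rw [hAdef]; exact ⟨A1 * A2 * (A3 * A3) * A4 * A5 * A7, by ring⟩
  have d7 : A7 ∣ A := by rw [hAdef]; exact ⟨A1 * A2 * (A3 * A3) * A4 * A5 * A6, by ring⟩
  have e1 : ∀ n, IsIntegral ℤ ((A : ℂ) ^ (n + 1) * PowerSeries.coeff n W) := fun n => sc_mono d1 (hA1' n)
  have e2 : ∀ n, IsIntegral ℤ ((A : ℂ) ^ (n + 1) * PowerSeries.coeff n oma) := fun n =>
    sc_mono d2 (hA2' n)
  have e3 : ∀ n, IsIntegral ℤ ((A : ℂ) ^ n * PowerSeries.coeff n omb) := by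
    intro n
    rcases Nat.eq_zero_or_pos n with rfl | hn
    · rw [pow_zero, one_mul, hob0]
      exact hβi
    · obtain ⟨q, hq⟩ := d3
      have h1 : (A : ℂ) ^ n * PowerSeries.coeff n omb =
          (A3 : ℂ) ^ (n - 1) * (q : ℂ) ^ n * ((A3 : ℂ) ^ (n + 1) * PowerSeries.coeff n omb) := by
        have h2 : (A3 : ℂ) ^ n * (A3 : ℂ) ^ n = (A3 : ℂ) ^ (n - 1) * (A3 : ℂ) ^ (n + 1) := by
          rw [← pow_add, ← pow_add]
          congr 1
          omega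
        rw [hq]
        push_cast
        rw [mul_pow, mul_pow]
        linear_combination (q : ℂ) ^ n * PowerSeries.coeff n omb * h2
      have hnat : ∀ m : ℕ, IsIntegral ℤ (m : ℂ) := fun m => by
        have h3 := isIntegral_algebraMap (R := ℤ) (A := ℂ) (x := (m : ℤ))
        simpa using h3
      rw [h1]
      exact (((hnat A3).pow _).mul ((hnat q).pow _)).mul (hA3' n)
  have e4 : ∀ n, IsIntegral ℤ ((A : ℂ) ^ (n + 1) * PowerSeries.coeff n (Nt e h (toC (N a)) W)⁻¹) :=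
    fun n => sc_mono d4 (hA4' n)
  have e5 : ∀ n, IsIntegral ℤ ((A : ℂ) ^ (n + 1) * PowerSeries.coeff n (GeoEx_Mt e h (toC1 M) W)⁻¹) :=
    fun n => sc_mono d5 (hA5' n)
  have e7 : ∀ n, IsIntegral ℤ ((A : ℂ) ^ (n + 1) * PowerSeries.coeff n oma⁻¹) := fun n =>
    sc_mono d7 (hA7' n)
  have e6 : ∀ l k, IsIntegral ℤ ((A : ℂ) * ((toC P).coeff l).coeff k) := fun l k => by
    have := sc_mono (m := 1) d6 (by rw [pow_one]; exact hA6P l k)
    rwa [pow_one] at this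
  obtain ⟨TW, hTW⟩ := exists_sc (s := 1) one_pos e1
  obtain ⟨Ta, hTa⟩ := exists_sc hma0 e2
  obtain ⟨Tb, hTb⟩ : ∃ T : PowerSeries OO, ∀ n, ((PowerSeries.coeff n T : OO) : ℂ) =
      (A : ℂ) ^ (n + 0) * PowerSeries.coeff n omb :=
    ⟨PowerSeries.mk fun n => ⟨_, e3 n⟩, fun n => by rw [PowerSeries.coeff_mk, add_zero]⟩
  obtain ⟨Ta', hTa'⟩ := exists_sc (s := 1) one_pos e7
  -- the constants
  obtain ⟨C1, hC1, g1⟩ := hW.gro
  obtain ⟨C2, hC2, g2⟩ := hoa.gro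
  obtain ⟨C3, hC3, g3⟩ := hob.gro
  obtain ⟨C4, hC4, g4⟩ := hNta.gro
  obtain ⟨C5, hC5, g5⟩ := hNtb.gro
  obtain ⟨C6, hC6, g6⟩ := hia.gro
  obtain ⟨Cm, hCm⟩ : ∃ Cm, Cm = C1 + C2 + C3 + C4 + C5 + 2 * C6 := ⟨_, rfl⟩
  have hCm0 : 0 < Cm := by rw [hCm]; positivity
  have hm1 : C1 ≤ Cm := by rw [hCm]; linarith
  have hm2 : C2 ≤ Cm := by rw [hCm]; linarith
  have hm3 : C3 ≤ Cm := by rw [hCm]; linarith
  have hm4 : C4 ≤ Cm := by rw [hCm]; linarith
  have hm5 : C5 ≤ Cm := by rw [hCm]; linarith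
  have hm6 : 2 * C6 ≤ Cm := by rw [hCm]; linarith
  have hAr : (1 : ℝ) ≤ A := by exact_mod_cast hA0
  obtain ⟨C, hCdef⟩ : ∃ C : ℝ, C = 1 + ((A : ℝ) * Cm) ^ e + (A : ℝ) ^ 1 * Cm + (A : ℝ) ^ ma * Cm :=
    ⟨_, rfl⟩
  have p1 : 0 ≤ ((A : ℝ) * Cm) ^ e := by positivity
  have p2 : 0 ≤ (A : ℝ) ^ 1 * Cm := by positivity
  have p3 : 0 ≤ (A : ℝ) ^ ma * Cm := by positivity
  have q0 : 1 ≤ C := by rw [hCdef]; linarith
  have q1 : ((A : ℝ) * Cm) ^ e ≤ C := by rw [hCdef]; linarith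
  have q2 : (A : ℝ) ^ 1 * C1 ≤ C := by
    have : (A : ℝ) ^ 1 * C1 ≤ (A : ℝ) ^ 1 * Cm := mul_le_mul_of_nonneg_left hm1 (by positivity)
    rw [hCdef]; linarith
  have q3 : (A : ℝ) ^ ma * C2 ≤ C := by
    have : (A : ℝ) ^ ma * C2 ≤ (A : ℝ) ^ ma * Cm := mul_le_mul_of_nonneg_left hm2 (by positivity)
    rw [hCdef]; linarith
  have q4 : (A : ℝ) * C3 ≤ C := by
    have : (A : ℝ) * C3 ≤ (A : ℝ) * Cm := mul_le_mul_of_nonneg_left hm3 (by positivity)
    rw [hCdef]; linarith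
  have g3' : ∀ (σ : ℂ →+* ℂ) (n : ℕ), ‖σ ((PowerSeries.coeff n Tb : OO) : ℂ)‖ ≤ C ^ (n + 1) := by
    intro σ n
    rw [hTb, add_zero, map_mul, map_pow, map_natCast, norm_mul, norm_pow, Complex.norm_natCast]
    calc (A : ℝ) ^ n * ‖σ (PowerSeries.coeff n omb)‖ ≤ (A : ℝ) ^ (n + 1) * C3 ^ (n + 1) := by
          refine mul_le_mul (pow_le_pow_right₀ hAr (Nat.le_succ n)) (g3 σ n) (norm_nonneg _) (by positivity)
      _ = ((A : ℝ) * C3) ^ (n + 1) := by rw [mul_pow]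
      _ ≤ C ^ (n + 1) := pow_le_pow_left₀ (by positivity) q4 _
  have q5 : Cm ≤ C := by
    have : Cm ≤ (A : ℝ) ^ 1 * Cm := by
      rw [pow_one]
      exact le_mul_of_one_le_left hCm0.le hAr
    rw [hCdef]; linarith
  have hAc : (A : ℂ) ≠ 0 := Nat.cast_ne_zero.2 hA0.ne'
  have hαe : (A : ℂ) ^ e ≠ 0 := pow_ne_zero _ hAc
  have hβ : (A : ℂ) ^ (h + 1) ≠ 0 := pow_ne_zero _ hAc
  have key : ∀ {E : Type} [NormedField E] [CompleteSpace E] (φ : ℂ →+* E), ∀ x ∈ V, vl Fx x ≠ 0 →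
      (∀ τ : ℂ, τ ^ e * vl Fx x = 1 → Cv φ W (φ τ) ∧ Cv φ (Nt e h (toC (N a)) W)⁻¹ (φ τ) ∧
        Cv φ (GeoEx_Mt e h (toC1 M) W)⁻¹ (φ τ)) →
      ∃ τ : ℂ, τ ^ e * vl Fx x = 1 ∧ (φ (vl Fy x * τ ^ h) = evE φ W (φ τ) ∧ Cv φ W (φ τ)) ∧
        (x a ≠ 0 ∧ φ ((x a * τ ^ ma)⁻¹) = evE φ oma (φ τ) ∧ Cv φ oma (φ τ)) ∧
        (φ (x b) = evE φ omb (φ τ) ∧ Cv φ omb (φ τ)) := by
    intro E _ _ φ x hx hx0 hcv
    obtain ⟨τ, hτ, hτy⟩ := loc_W φ hP.e0 hP.h0 hP.cop hPm hPd hPw hW0 hTw hx0 (hP.onV x hx)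
      fun τ hτ => (hcv τ hτ).1
    obtain ⟨c1, c2, c3⟩ := hcv τ hτ
    exact ⟨τ, hτ, ⟨hτy, c1⟩, hva φ τ _ _ _ c1 c2 hτ hτy (hP.rep x hx a),
      hvb φ τ _ _ _ c1 c3 hτ hτy (hP.rep x hx b)⟩
  have hvx : ∀ x, vl (MvPolynomial.C ((A : Qb) ^ e) * Fx) x = (A : ℂ) ^ e * vl Fx x := by
    intro x
    rw [vl, vl, map_mul, MvPolynomial.aeval_C, map_pow, map_natCast]
  have hvy : ∀ x, vl (MvPolynomial.C ((A : Qb) ^ (h + 1)) * Fy) x = (A : ℂ) ^ (h + 1) * vl Fy x := by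
    intro x
    rw [vl, vl, map_mul, MvPolynomial.aeval_C, map_pow, map_natCast]
  have hsm := scl_monic (α := (A : ℂ) ^ e) hβ hPm
  rw [hPd] at hsm
  have hix : ∀ z : ℂ, ((A : ℂ) ^ e)⁻¹ * ((A : ℂ) ^ e * z) = z := fun z => inv_mul_cancel_left₀ hαe z
  have hiy : ∀ z : ℂ, ((A : ℂ) ^ (h + 1))⁻¹ * ((A : ℂ) ^ (h + 1) * z) = z := fun z =>
    inv_mul_cancel_left₀ hβ z
  have hτe : ∀ {τ ξ : ℂ}, τ ^ e * ξ = 1 → ((A : ℂ)⁻¹ * τ) ^ e * ((A : ℂ) ^ e * ξ) = 1 := by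
    intro τ ξ hτ
    rw [mul_pow, inv_pow]
    calc ((A : ℂ) ^ e)⁻¹ * τ ^ e * ((A : ℂ) ^ e * ξ) =
        (((A : ℂ) ^ e)⁻¹ * (A : ℂ) ^ e) * (τ ^ e * ξ) := by ring
      _ = 1 := by rw [hτ, inv_mul_cancel₀ hαe, one_mul]
  have hτh : ∀ τ η : ℂ, (A : ℂ) ^ (h + 1) * η * ((A : ℂ)⁻¹ * τ) ^ h = (A : ℂ) ^ 1 * (η * τ ^ h) := by
    intro τ η
    rw [mul_pow, inv_pow, pow_succ]
    calc (A : ℂ) ^ h * (A : ℂ) * η * (((A : ℂ) ^ h)⁻¹ * τ ^ h) =
        ((A : ℂ) ^ h * ((A : ℂ) ^ h)⁻¹) * ((A : ℂ) * (η * τ ^ h)) := by ring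
      _ = (A : ℂ) ^ 1 * (η * τ ^ h) := by rw [mul_inv_cancel₀ (pow_ne_zero _ hAc), one_mul, pow_one]
  have hτa : ∀ (τ z : ℂ) (m : ℕ), (z * ((A : ℂ)⁻¹ * τ) ^ m)⁻¹ = (A : ℂ) ^ m * (z * τ ^ m)⁻¹ := by
    intro τ z m
    rw [mul_pow, inv_pow, mul_inv, mul_inv, mul_inv, inv_inv]
    ring
  have hξ0 : ∀ {E : Type} [NormedField E] (φ : ℂ →+* E) {ξ : ℂ} {c : ℝ}, 0 ≤ c →
      c < ‖φ ((A : ℂ) ^ e * ξ)‖ → ξ ≠ 0 := by
    rintro E _ φ ξ c hc h1 rfl
    rw [mul_zero, map_zero, norm_zero] at h1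
    linarith
  have hlocp : ∀ (p : ℕ) [Fact p.Prime] (φ : ℂ →+* ℂ_[p]), ∀ x ∈ V,
      1 < ‖φ (vl (MvPolynomial.C ((A : Qb) ^ e) * Fx) x)‖ →
      ∃ τ : ℂ, τ ^ e * vl (MvPolynomial.C ((A : Qb) ^ e) * Fx) x = 1 ∧
        ValP φ TW τ (vl (MvPolynomial.C ((A : Qb) ^ (h + 1)) * Fy) x * τ ^ h) ∧
        (x a ≠ 0 ∧ ValP φ Ta τ ((x a * τ ^ ma)⁻¹) ∧
          ‖φ ((A ^ (ma + 1) : ℕ) : ℂ)‖ * ‖φ (x a * τ ^ ma)‖ ≤ 1) ∧ ValP φ Tb τ (x b) := by
    intro p _ φ x hx hlt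
    rw [hvx] at hlt
    obtain ⟨τ, h1, ⟨h2, -⟩, ⟨h3, h4, h4'⟩, ⟨h6, h6'⟩⟩ := key φ x hx (hξ0 φ zero_le_one hlt) fun τ hτ => by
      have hτ' : ‖φ τ‖ < ‖φ (A : ℂ)‖ := sc_lt φ hP.e0 hτ hlt
      exact ⟨cv_p e1 hτ', cv_p e4 hτ', cv_p e5 hτ'⟩
    have hτ' : ‖φ τ‖ < ‖φ (A : ℂ)‖ := sc_lt φ hP.e0 h1 hlt
    refine ⟨(A : ℂ)⁻¹ * τ, ?_, ?_, ⟨h3, ?_, ?_⟩, ?_⟩
    · rw [hvx]
      exact hτe h1
    · rw [hvy, hτh]
      exact sc_P hA0 hTW h2
    · rw [hτa]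
      exact sc_P hA0 hTa h4
    · exact sc_lowP hA0 hoa0 hTa' h4 h4' (cv_p e7 hτ') hτ' le_rfl
    · have h7 := sc_P hA0 hTb h6
      rwa [pow_zero, one_mul] at h7
  have hlocc : ∀ σ : ℂ →+* ℂ, ∀ x ∈ V, C < ‖σ (vl (MvPolynomial.C ((A : Qb) ^ e) * Fx) x)‖ →
      ∃ τ : ℂ, τ ^ e * vl (MvPolynomial.C ((A : Qb) ^ e) * Fx) x = 1 ∧
        ValC σ TW τ (vl (MvPolynomial.C ((A : Qb) ^ (h + 1)) * Fy) x * τ ^ h) ∧
        (x a ≠ 0 ∧ ValC σ Ta τ ((x a * τ ^ ma)⁻¹) ∧ ‖σ (x a * τ ^ ma)‖ ≤ C) ∧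
        ValC σ Tb τ (x b) := by
    intro σ x hx hlt
    rw [hvx] at hlt
    obtain ⟨τ, h1, ⟨h2, h2'⟩, ⟨h3, h4, h4'⟩, ⟨h6, h6'⟩⟩ := key σ x hx
      (hξ0 σ (zero_le_one.trans q0) hlt) fun τ hτ => by
        have hτ' : ‖σ τ‖ * Cm < 1 := sc_cx σ hP.e0 hA0 hCm0 q1 hτ hlt
        have hb : ∀ {c : ℝ}, c ≤ Cm → ‖σ τ‖ * c < 1 := fun {c} hc =>
          (mul_le_mul_of_nonneg_left hc (norm_nonneg _)).trans_lt hτ'
        exact ⟨cv_c hC1 (g1 σ) (hb hm1), cv_c hC4 (g4 σ) (hb hm4), cv_c hC5 (g5 σ) (hb hm5)⟩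
    have hτ' : ‖σ τ‖ * Cm < 1 := sc_cx σ hP.e0 hA0 hCm0 q1 h1 hlt
    have hb : ∀ {c : ℝ}, c ≤ Cm → ‖σ τ‖ * c < 1 := fun {c} hc =>
      (mul_le_mul_of_nonneg_left hc (norm_nonneg _)).trans_lt hτ'
    refine ⟨(A : ℂ)⁻¹ * τ, ?_, ?_, ⟨h3, ?_, ?_⟩, ?_⟩
    · rw [hvx]
      exact hτe h1
    · rw [hvy, hτh]
      exact sc_C hA0 hTW h2 h2'
    · rw [hτa]
      exact sc_C hA0 hTa h4 h4'
    · exact (sc_lowC hA0 hoa0 hC6 (g6 σ) h4 h4' (cv_c hC6 (g6 σ) (hb (by linarith))) (hb hm6)).trans (hm6.trans q5)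
    · have h7 := sc_C hA0 hTb h6 h6'
      rwa [pow_zero, one_mul] at h7
  have hG : ∃ G : Geo V a a, G.Fx = MvPolynomial.C ((A : Qb) ^ e) * Fx ∧
      G.Fy = MvPolynomial.C ((A : Qb) ^ (h + 1)) * Fy ∧ G.e = e ∧ G.h = h ∧ G.K = K ∧ G.W = TW ∧
      G.ma = ma ∧ G.oa = Ta ∧ G.C = C := by
   refine ⟨{ Fx := MvPolynomial.C ((A : Qb) ^ e) * Fx
             Fy := MvPolynomial.C ((A : Qb) ^ (h + 1)) * Fy
             e := e
             h := h
             P := scl ((A : ℂ) ^ e) ((A : ℂ) ^ (h + 1)) (((A : ℂ) ^ (h + 1)) ^ e) (toC P)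
             M := (toC1 M).comp (Polynomial.C ((A : ℂ) ^ e)⁻¹ * X)
             N := fun c => scl ((A : ℂ) ^ e) ((A : ℂ) ^ (h + 1)) 1 (toC (N c))
             K := K
             W := TW
             ma := ma
             mb := ma
             oa := Ta
             ob := Ta
             n0 := A ^ (ma + 1)
             C := C
             e0 := hP.e0
             h0 := hP.h0
             cop := hP.cop
             fin := hK
             monic := hsm.1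
             deg := hsm.2
             wt := ?_
             top := ?_
             irr := ?_
             Pint := ?_
             PK := ?_
             M0 := ?_
             Malg := ?_
             Nd := ?_
             Nalg := ?_
             ncx := ?_
             onV := ?_
             rep := ?_
             back := ?_
             int := ?_
             C1 := q0
             SW := ⟨?_, ?_, sc_gro one_pos hA0 hTW hC1 g1 q2⟩
             Sa := ⟨?_, ?_, sc_gro hma0 hA0 hTa hC2 g2 q3⟩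
             Sb := ⟨?_, ?_, sc_gro hma0 hA0 hTa hC2 g2 q3⟩
             ma0 := hma0
             mb0 := hma0
             n00 := pow_pos hA0 _
             locp := ?_
             locc := ?_ }, rfl, rfl, rfl, rfl, rfl, rfl, rfl, rfl, rfl⟩
   · -- wt
     intro l k hlk
     rw [scl_coeff] at hlk
     exact hPw l k (right_ne_zero_of_mul hlk)
   · -- top
     rw [scl_coeff]
     refine mul_ne_zero (mul_ne_zero (mul_ne_zero (pow_ne_zero _ hβ) ?_) ?_) hPt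
     · exact pow_ne_zero _ (inv_ne_zero hβ)
     · exact pow_ne_zero _ (inv_ne_zero hαe)
   · -- irr
     refine irr_wt hP.e0 hP.h0 hP.cop hsm.1 hsm.2 ?_ ?_
     · intro l k hlk
       rw [scl_coeff] at hlk
       exact hPw l k (right_ne_zero_of_mul hlk)
     · rw [scl_coeff]
       refine mul_ne_zero (mul_ne_zero (mul_ne_zero (pow_ne_zero _ hβ) ?_) ?_) hPt
       · exact pow_ne_zero _ (inv_ne_zero hβ)
       · exact pow_ne_zero _ (inv_ne_zero hαe)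
   · -- Pint
     intro l k
     by_cases h0 : ((toC P).coeff l).coeff k = 0
     · rw [scl_coeff, h0, mul_zero]
       exact isIntegral_zero
     · have hle : l ≤ e := by
         rw [← hPd]
         refine le_natDegree_of_ne_zero ?_
         intro h1
         rw [h1, coeff_zero] at h0
         exact h0 rfl
       have hwt : e * k + h * l ≤ e * h := hPw l k h0
       obtain ⟨r, hr⟩ : ∃ r, (h + 1) * e = e * k + (h + 1) * l + r := by
         refine ⟨(h + 1) * e - (e * k + (h + 1) * l), ?_⟩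
         have h2 : (h + 1) * e = e * h + e := by ring
         have h3 : (h + 1) * l = h * l + l := by ring
         omega
       have hval : ((A : ℂ) ^ (h + 1)) ^ e * ((A : ℂ) ^ (h + 1))⁻¹ ^ l * ((A : ℂ) ^ e)⁻¹ ^ k = (A : ℂ) ^ r := by
         rw [← pow_mul, hr, pow_add, pow_add, inv_pow, inv_pow, ← pow_mul, ← pow_mul]
         have h4 : (A : ℂ) ^ (e * k) * ((A : ℂ) ^ (e * k))⁻¹ = 1 := mul_inv_cancel₀ (pow_ne_zero _ hAc)
         have h5 : (A : ℂ) ^ ((h + 1) * l) * ((A : ℂ) ^ ((h + 1) * l))⁻¹ = 1 :=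
           mul_inv_cancel₀ (pow_ne_zero _ hAc)
         linear_combination ((A : ℂ) ^ ((h + 1) * l) * ((A : ℂ) ^ ((h + 1) * l))⁻¹ * (A : ℂ) ^ r) * h4 +
           (A : ℂ) ^ r * h5
       rw [scl_coeff, hval]
       rcases Nat.eq_zero_or_pos r with hr0 | hr0
       · have h6 : l = e := by
           have h2 : (h + 1) * e = e * h + e := by ring
           have h3 : (h + 1) * l = h * l + l := by ring
           omega
         rw [hr0, pow_zero, one_mul, h6]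
         have h7 : (toC P).coeff e = 1 := by
           rw [← hPd]
           exact hPm.coeff_natDegree
         rw [h7, coeff_one]
         split_ifs
         · exact isIntegral_one
         · exact isIntegral_zero
       · have h8 : (A : ℂ) ^ r * ((toC P).coeff l).coeff k =
             (A : ℂ) ^ (r - 1) * ((A : ℂ) * ((toC P).coeff l).coeff k) := by
           rw [← mul_assoc, ← pow_succ]
           congr 2
           omega
         rw [h8]
         have h9 : IsIntegral ℤ (A : ℂ) := by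
           have h3 := isIntegral_algebraMap (R := ℤ) (A := ℂ) (x := (A : ℤ))
           simpa using h3
         exact (h9.pow _).mul (e6 l k)
   · -- PK
     intro l k
     rw [scl_coeff]
     have hAK : (A : ℂ) ∈ K := natCast_mem K A
     exact mul_mem (mul_mem (mul_mem (pow_mem (pow_mem hAK _) _) (pow_mem (inv_mem (pow_mem hAK _)) _))
       (pow_mem (inv_mem (pow_mem hAK _)) _)) (hPK l k)
   · -- M0
     intro h1
     have h2 : ∀ k, (toC1 M).coeff k = 0 := by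
       intro k
       have h3 := congrArg (fun q : ℂ[X] => q.coeff k) h1
       simp only [comp_C_mul_X_coeff, coeff_zero] at h3
       exact (mul_eq_zero.1 h3).resolve_right (pow_ne_zero _ (inv_ne_zero hαe))
     exact hM0 (ext fun k => by rw [h2 k, coeff_zero])
   · -- Malg
     intro k
     rw [comp_C_mul_X_coeff, toC1_coeff]
     refine (sc_alg _).mul (IsAlgebraic.pow ?_ _)
     exact (IsAlgebraic.pow (isAlgebraic_algebraMap (A := ℂ) (A : ℚ) |> fun h1 => by simpa using h1) _).inv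
   · intro c
     exact (scl_natDegree _ _ _ _).trans_lt (by rw [toC_natDegree]; exact hP.Nd c)
   · -- Nalg
     intro c l k
     rw [scl_coeff, toC_coeff, one_mul]
     have h1 : IsAlgebraic ℚ (A : ℂ) := by
       have h2 := isAlgebraic_algebraMap (R := ℚ) (A := ℂ) (A : ℚ)
       simpa using h2
     exact (((h1.pow _).inv.pow _).mul ((h1.pow _).inv.pow _)).mul (sc_alg _)
   · -- ncx
     intro c
     obtain ⟨x, hx, hne⟩ := hP.ncx (((A : ℂ) ^ e)⁻¹ * c)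
     refine ⟨x, hx, ?_⟩
     rw [hvx]
     intro h1
     apply hne
     rw [← h1, hix]
   · -- onV
     intro x hx
     rw [hvx, hvy, scl_eval, hix, hiy, hP.onV x hx, mul_zero]
   · -- rep
     intro x hx c
     rw [hvx, hvy, scl_eval, hix, hiy, one_mul, ← hP.rep x hx c, eval_comp, eval_mul, eval_C, eval_X, hix]
   · -- back
     intro X' Y' hXY hM'
     rw [scl_eval] at hXY
     rw [eval_comp, eval_mul, eval_C, eval_X] at hM'
     obtain ⟨x, hx, hxX, hxY, hxc⟩ := hP.back _ _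
       ((mul_eq_zero.1 hXY).resolve_left (pow_ne_zero _ hβ)) hM'
     refine ⟨x, hx, ?_, ?_, ?_⟩
     · rw [hvx, hxX, mul_inv_cancel_left₀ hαe]
     · rw [hvy, hxY, mul_inv_cancel_left₀ hβ]
     · intro c
       rw [scl_eval, one_mul, ← hxc c, eval_comp, eval_mul, eval_C, eval_X]
   · -- int
     intro c
     obtain ⟨r, q, hr, hq⟩ := hP.int c
     have hAq : (A : Qb) ^ e ≠ 0 := pow_ne_zero _ (Nat.cast_ne_zero.2 hA0.ne')
     refine ⟨r, fun j => Polynomial.C (((A : Qb) ^ e) ^ (r - j)) * (q j).comp (Polynomial.C ((A : Qb) ^ e)⁻¹ * X),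
       hr, fun x hx => ?_⟩
     have h1 : ∀ j, (toC1 (Polynomial.C (((A : Qb) ^ e) ^ (r - j)) *
         (q j).comp (Polynomial.C ((A : Qb) ^ e)⁻¹ * X))).eval ((A : ℂ) ^ e * vl Fx x) =
         ((A : ℂ) ^ e) ^ (r - j) * (toC1 (q j)).eval (vl Fx x) := by
       intro j
       rw [toC1, Polynomial.map_mul, map_C, eval_mul, eval_C, map_comp, Polynomial.map_mul, map_C, map_X,
         eval_comp, eval_mul, eval_C, eval_X, map_inv₀, map_pow, map_pow, map_natCast, hix]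
       rfl
     rw [hvx]
     have h2 : ∑ j ∈ Finset.range r, (toC1 (Polynomial.C (((A : Qb) ^ e) ^ (r - j)) *
         (q j).comp (Polynomial.C ((A : Qb) ^ e)⁻¹ * X))).eval ((A : ℂ) ^ e * vl Fx x) *
           ((A : ℂ) ^ e * vl Fx x * x c) ^ j =
         ((A : ℂ) ^ e) ^ r * ∑ j ∈ Finset.range r, (toC1 (q j)).eval (vl Fx x) * (vl Fx x * x c) ^ j := by
       rw [Finset.mul_sum]
       refine Finset.sum_congr rfl fun j hj => ?_
       have h3 : ((A : ℂ) ^ e) ^ r = ((A : ℂ) ^ e) ^ (r - j) * ((A : ℂ) ^ e) ^ j := by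
         rw [← pow_add]
         congr 1
         have := Finset.mem_range.1 hj
         omega
       rw [h1, h3, mul_assoc ((A : ℂ) ^ e), mul_pow]
       ring
     rw [h2, mul_assoc ((A : ℂ) ^ e), mul_pow, ← mul_add, hq x hx, mul_zero]
   · -- SW
     intro h1
     have h2 := hTW 0
     rw [h1] at h2
     exact mul_ne_zero (pow_ne_zero _ hAc) hW0 h2.symm
   · intro n
     rw [hTW]
     exact mul_mem (pow_mem (natCast_mem K A) _) (hW.fld n)
   · intro h1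
     have h2 := hTa 0
     rw [h1] at h2
     exact mul_ne_zero (pow_ne_zero _ hAc) hoa0 h2.symm
   · intro n
     rw [hTa]
     exact mul_mem (pow_mem (natCast_mem K A) _) (hoa.fld n)
   · intro h1
     have h2 := hTa 0
     rw [h1] at h2
     exact mul_ne_zero (pow_ne_zero _ hAc) hoa0 h2.symm
   · intro n
     rw [hTa]
     exact mul_mem (pow_mem (natCast_mem K A) _) (hoa.fld n)
   · -- locp
     intro p _ φ x hx hlt
     obtain ⟨τ, h1, h2, h3, -⟩ := hlocp p φ x hx hlt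
     exact ⟨τ, h1, h2, h3, h3⟩
   · -- locc
     intro σ x hx hlt
     obtain ⟨τ, h1, h2, h3, -⟩ := hlocc σ x hx hlt
     exact ⟨τ, h1, h2, h3, h3⟩
  obtain ⟨G, gFx, gFy, ge, gh, gK, gW, gma, goa, gC⟩ := hG
  refine ⟨{ G := G, Sb := Tb, val := ?_, fld := ?_, gro := ?_, locp := ?_, locc := ?_ }⟩
  · rw [hTb, add_zero, pow_zero, one_mul, hob0]
  · intro n
    rw [hTb, gK]
    exact mul_mem (pow_mem (natCast_mem K A) _) (hob.fld n)
  · intro σ n
    rw [gC]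
    exact g3' σ n
  · intro p _ φ x hx hlt
    rw [gFx] at hlt
    obtain ⟨τ, h1, -, ⟨h2, h3, -⟩, h4⟩ := hlocp p φ x hx hlt
    refine ⟨τ, ?_, ⟨h2, ?_⟩, h4⟩
    · rw [gFx, ge]
      exact h1
    · rw [goa, gma]
      exact h3
  · intro σ x hx hlt
    rw [gFx, gC] at hlt
    obtain ⟨τ, h1, h2, ⟨h3, h4, h5⟩, h6⟩ := hlocc σ x hx hlt
    refine ⟨τ, ?_, ?_, ⟨h3, ?_, ?_⟩, h6⟩
    · rw [gFx, ge]
      exact h1
    · rw [gW, gFy, gh]
      exact h2
    · rw [goa, gma]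
      exact h4
    · rw [gma, gC]
      exact h5

end Pool.Agent.LGO.RCM
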