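import Mathlib
import Pool.Agent.LGO.RCM.Defs
import Pool.Agent.LGO.RCM.GeoExC
import Pool.Agent.LGO.RU.GexLoc

/-!
# LGO/RCM: the local data from `GeoEx_Geo`, for every finite exceptional set

The same as `LGO/RU/GexNear.lean`, `LGO/RU/GexLoc.lean`.
-/

namespace Pool.Agent.LGO.RCM

open Polynomial Pool.Agent.LGO Pool.Agent.LGO.RU Pool.Agent.Hhelper14.ZPL Pool.Agent.Hhelper14.ZP
  Pool.Agent.LGO.PA

variable {n : ℕ} {V : Set (Fin n → ℂ)} {a b : Fin n} {β : ℂ}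

private theorem GeoD_nz {x τ : ℂ} {m e : ℕ} {ξ : ℂ} (he : 0 < e) (h1 : τ ^ e * ξ = 1) (hx : x ≠ 0) :
    τ ≠ 0 ∧ x * τ ^ m ≠ 0 := by
  have hτ : τ ≠ 0 := by
    rintro rfl
    rw [zero_pow he.ne', zero_mul] at h1
    exact zero_ne_one h1
  exact ⟨hτ, mul_ne_zero hx (pow_ne_zero _ hτ)⟩

private theorem GeoD_coord {F : Type} [NormedField F] (φ : ℂ →+* F) {x τ : ℂ} {m : ℕ} {E : F}
    (h0 : x * τ ^ m ≠ 0) (hE : φ ((x * τ ^ m)⁻¹) = E) : φ x * (φ τ ^ m * E) = 1 := by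
  have h2 : φ (x * τ ^ m) * E = 1 := by
    rw [← hE, ← map_mul, mul_inv_cancel₀ h0, map_one]
  rw [← mul_assoc, ← map_pow, ← map_mul]
  exact h2

theorem GeoEx_gr {C : ℝ} (hC : 1 ≤ C) {S : Ser}
    (h : ∀ (σ : ℂ →+* ℂ) (n : ℕ), ‖σ ((PowerSeries.coeff n S : OO) : ℂ)‖ ≤ C ^ (n + 1)) :
    Gr (1 / (2 * C)) (2 * C) S := by
  intro s k
  have hC0 : 0 < C := by linarith
  calc ∑ n ∈ Finset.range k, ‖s ((PowerSeries.coeff n S : OO) : ℂ)‖ * (1 / (2 * C)) ^ n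
      ≤ ∑ n ∈ Finset.range k, C * (1 / 2 : ℝ) ^ n := by
        refine Finset.sum_le_sum (fun n _ => ?_)
        have h1 : ‖s ((PowerSeries.coeff n S : OO) : ℂ)‖ ≤ C ^ (n + 1) := h (s : ℂ →+* ℂ) n
        calc ‖s ((PowerSeries.coeff n S : OO) : ℂ)‖ * (1 / (2 * C)) ^ n ≤
              C ^ (n + 1) * (1 / (2 * C)) ^ n := mul_le_mul_of_nonneg_right h1 (by positivity)
          _ = C * (1 / 2 : ℝ) ^ n := by
              have h2 : (1 / (2 * C)) ^ n = (1 / 2 : ℝ) ^ n * (C ^ n)⁻¹ := by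
                rw [← inv_pow, ← mul_pow]
                congr 1
                field_simp
              rw [h2, pow_succ]
              field_simp
    _ = C * ∑ n ∈ Finset.range k, (1 / 2 : ℝ) ^ n := by rw [Finset.mul_sum]
    _ ≤ C * 2 := mul_le_mul_of_nonneg_left (sum_geometric_two_le k) hC0.le
    _ = 2 * C := mul_comm _ _

theorem GeoEx_nearp (G : GeoEx_Geo V a b β) (p : ℕ) [Fact p.Prime] (φ : ℂ →+* ℂ_[p])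
    {x : Fin n → ℂ} (hx : x ∈ V) (h : 1 < ‖φ (vl G.G.Fx x)‖) : 1 < ‖φ (x a)‖ ∧ ‖φ (x b)‖ ≤ 1 := by
  obtain ⟨τ, h1, ⟨ha0, hVa⟩, hVb⟩ := G.locp p φ x hx h
  have h3 : ‖φ τ‖ ^ G.G.e * ‖φ (vl G.G.Fx x)‖ = 1 := by
    rw [← norm_pow, ← norm_mul, ← map_pow, ← map_mul, h1, map_one, norm_one]
  obtain ⟨hτ, ha1⟩ := GeoD_nz (m := G.G.ma) G.G.e0 h1 ha0
  have hτ0 : 0 < ‖φ τ‖ := by
    rw [norm_pos_iff]
    exact (map_ne_zero φ).2 hτ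
  have hτ1 : ‖φ τ‖ < 1 := by
    by_contra hcon
    rw [not_lt] at hcon
    have h4 : 1 ≤ ‖φ τ‖ ^ G.G.e := one_le_pow₀ hcon
    have h5 : 1 < ‖φ τ‖ ^ G.G.e * ‖φ (vl G.G.Fx x)‖ :=
      h.trans_le (le_mul_of_one_le_left (norm_nonneg _) h4)
    exact h5.ne' h3
  refine ⟨?_, ?_⟩
  · have h4 := GeoD_coord φ ha1 hVa
    have h5 : ‖ev (sO φ) G.G.oa (φ τ)‖ ≤ 1 := ev_norm_le (fun r => sc_int φ r) hτ1 _
    have h6 : ‖φ (x a)‖ * (‖φ τ‖ ^ G.G.ma * ‖ev (sO φ) G.G.oa (φ τ)‖) = 1 := by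
      rw [← norm_pow, ← norm_mul, ← norm_mul, h4, norm_one]
    have h7 : ‖φ τ‖ ^ G.G.ma < 1 := pow_lt_one₀ hτ0.le hτ1 G.G.ma0.ne'
    by_contra hcon
    rw [not_lt] at hcon
    have h8 : ‖φ τ‖ ^ G.G.ma * ‖ev (sO φ) G.G.oa (φ τ)‖ < 1 :=
      mul_lt_one_of_nonneg_of_lt_one_left (by positivity) h7 h5
    have h9 : ‖φ (x a)‖ * (‖φ τ‖ ^ G.G.ma * ‖ev (sO φ) G.G.oa (φ τ)‖) < 1 :=
      mul_lt_one_of_nonneg_of_lt_one_right hcon (by positivity) h8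
    exact h9.ne h6
  · have h4 : φ (x b) = ev (sO φ) G.Sb (φ τ) := hVb
    rw [h4]
    exact ev_norm_le (fun r => sc_int φ r) hτ1 _

private theorem GeoD_evc (s : ℂ ≃+* ℂ) {S : Ser} {τ y : ℂ} (h : ValC (s : ℂ →+* ℂ) S τ y) :
    s y = evc s S (s τ) := by
  have h1 : HasSum (fun n => sC s (PowerSeries.coeff n S) * s τ ^ n) (s y) := h
  exact h1.tsum_eq.symm

theorem GeoEx_nearc (G : GeoEx_Geo V a b β) {r : ℝ} (hr : 0 < r) : ∃ C : ℝ, 0 < C ∧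
    ∀ (s : ℂ ≃+* ℂ), ∀ x ∈ V,
    C ≤ ‖s (vl G.G.Fx x)‖ → ∃ t : ℂ, 0 < ‖t‖ ∧ ‖t‖ ≤ r ∧ t ^ G.G.e * s (vl G.G.Fx x) = 1 ∧
      t ^ G.G.h * s (vl G.G.Fy x) = evc s G.G.W t ∧
      s (x a) * (t ^ G.G.ma * evc s G.G.oa t) = 1 ∧ s (x b) = evc s G.Sb t ∧
      1 ≤ C * ‖evc s G.G.oa t‖ := by
  have hG : 1 ≤ G.G.C := G.G.C1
  refine ⟨G.G.C + 1 + (r ^ G.G.e)⁻¹, by positivity, fun s x hx h => ?_⟩
  have hre : 0 < (r ^ G.G.e)⁻¹ := by positivity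
  have hlt : G.G.C < ‖(s : ℂ →+* ℂ) (vl G.G.Fx x)‖ := lt_of_lt_of_le (by linarith) h
  obtain ⟨τ, h1, hW, ⟨ha0, hVa, hna⟩, hVb⟩ := G.locc (s : ℂ →+* ℂ) x hx hlt
  have h2 : s τ ^ G.G.e * s (vl G.G.Fx x) = 1 := by
    rw [← map_pow, ← map_mul, h1, map_one]
  have h3 : ‖s τ‖ ^ G.G.e * ‖s (vl G.G.Fx x)‖ = 1 := by
    rw [← norm_pow, ← norm_mul, h2, norm_one]
  obtain ⟨hτ, ha1⟩ := GeoD_nz (m := G.G.ma) G.G.e0 h1 ha0
  have hVa' := GeoD_evc s hVa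
  have a1 := GeoD_coord (s : ℂ →+* ℂ) ha1 hVa'
  have hle : G.G.C ≤ G.G.C + 1 + (r ^ G.G.e)⁻¹ := by linarith
  refine ⟨s τ, ?_, ?_, h2, ?_, a1, GeoD_evc s hVb, ?_⟩
  · rw [norm_pos_iff]
    exact (map_ne_zero s).2 hτ
  · by_contra hcon
    rw [not_le] at hcon
    have h4 : r ^ G.G.e < ‖s τ‖ ^ G.G.e := pow_lt_pow_left₀ hcon hr.le G.G.e0.ne'
    have h5 : (r ^ G.G.e)⁻¹ ≤ ‖s (vl G.G.Fx x)‖ := le_trans (by linarith) h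
    have h6 : 1 < ‖s τ‖ ^ G.G.e * ‖s (vl G.G.Fx x)‖ := by
      calc (1 : ℝ) = r ^ G.G.e * (r ^ G.G.e)⁻¹ := (mul_inv_cancel₀ (by positivity)).symm
        _ < ‖s τ‖ ^ G.G.e * (r ^ G.G.e)⁻¹ := mul_lt_mul_of_pos_right h4 hre
        _ ≤ ‖s τ‖ ^ G.G.e * ‖s (vl G.G.Fx x)‖ := mul_le_mul_of_nonneg_left h5 (by positivity)
    exact h6.ne' h3
  · rw [← GeoD_evc s hW, map_mul, map_pow, mul_comm]
  · have h4 : ‖(s : ℂ →+* ℂ) (x a * τ ^ G.G.ma)‖ * ‖evc s G.G.oa (s τ)‖ = 1 := by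
      rw [← hVa', ← norm_mul]
      have h5 : (s : ℂ →+* ℂ) (x a * τ ^ G.G.ma) * s ((x a * τ ^ G.G.ma)⁻¹) = 1 := by
        have h6 : s (x a * τ ^ G.G.ma) * s ((x a * τ ^ G.G.ma)⁻¹) = 1 := by
          rw [← map_mul, mul_inv_cancel₀ ha1, map_one]
        exact h6
      rw [h5, norm_one]
    calc (1 : ℝ) = ‖(s : ℂ →+* ℂ) (x a * τ ^ G.G.ma)‖ * ‖evc s G.G.oa (s τ)‖ := h4.symm
      _ ≤ (G.G.C + 1 + (r ^ G.G.e)⁻¹) * ‖evc s G.G.oa (s τ)‖ :=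
        mul_le_mul_of_nonneg_right (hna.trans hle) (norm_nonneg _)

theorem GeoEx_locE (G : GeoEx_Geo V a b β) (hV : Pool.Agent.Hhelper14.ZPL.IsIrredClosed V)
    (hdim : Pool.Agent.Hhelper14.ZPL.dim V = 1) {E : Set (Fin n → ℂ)} (hE : E.Finite) :
    ∃ D : LocC V a b β, D.E = E ∧ D.Xi = G.G.Fx ∧ D.Et = G.G.Fy := by
  have algC1 : ∀ (q : Polynomial Qb) k, IsAlgebraic ℚ ((toC1 q).coeff k) := by
    intro q k
    rw [toC1, coeff_map]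
    exact mem_algebraicClosure_iff.1 (q.coeff k).2
  obtain ⟨nP, CP, hnP, hCP, hP⟩ := gex_up G.G.e0 (fun l => G.G.P.coeff l) (fun l k =>
    (G.G.Pint l k).tower_top (A := ℚ) |>.isAlgebraic)
  obtain ⟨ra, qa, hra, hqa⟩ := G.G.int a
  obtain ⟨rb, qb, hrb, hqb⟩ := G.G.int b
  obtain ⟨na, Ca, hna, hCa, hA⟩ := gex_up hra (fun j => toC1 (qa j)) (fun j k => algC1 _ k)
  obtain ⟨nb, Cb, hnb, hCb, hB⟩ := gex_up hrb (fun j => toC1 (qb j)) (fun j k => algC1 _ k)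
  have hG1 := G.G.C1
  have hr0 : 0 < 1 / (2 * G.G.C) := by positivity
  have hr1 : 1 / (2 * G.G.C) ≤ 1 := by
    rw [div_le_one (by positivity)]
    linarith
  obtain ⟨C₁, hC₁, hnc⟩ := GeoEx_nearc G hr0
  obtain ⟨C, hC⟩ := exists_nat_ge (C₁ + 2 * G.G.C + CP + Ca + Cb)
  have cP : (0 : ℝ) ≤ CP := Nat.cast_nonneg _
  have cA : (0 : ℝ) ≤ Ca := Nat.cast_nonneg _
  have cB : (0 : ℝ) ≤ Cb := Nat.cast_nonneg _
  have k1 : C₁ ≤ C := by linarith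
  have k2 : 2 * G.G.C ≤ C := by linarith
  have k3 : CP ≤ C := by
    have : (CP : ℝ) ≤ C := by linarith
    exact_mod_cast this
  have k4 : Ca ≤ C := by
    have : (Ca : ℝ) ≤ C := by linarith
    exact_mod_cast this
  have k5 : Cb ≤ C := by
    have : (Cb : ℝ) ≤ C := by linarith
    exact_mod_cast this
  have hC0 : 0 < C := by omega
  set n₀ : ℕ := nP * na * nb with hn₀
  have d1 : nP ∣ n₀ := ⟨na * nb, by rw [hn₀]; ring⟩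
  have d2 : na ∣ n₀ := ⟨nP * nb, by rw [hn₀]; ring⟩
  have d3 : nb ∣ n₀ := ⟨nP * na, by rw [hn₀]; ring⟩
  have hgr : ∀ {S : Ser}, (∀ (σ : ℂ →+* ℂ) (n : ℕ), ‖σ ((PowerSeries.coeff n S : OO) : ℂ)‖ ≤
      G.G.C ^ (n + 1)) → Gr (1 / (2 * G.G.C)) C S := fun h s k =>
    (GeoEx_gr G.G.C1 h s k).trans k2
  have pw : ∀ {u : ℝ} {k : ℕ}, k ≤ C → max 1 u ^ k ≤ max 1 u ^ C := fun h =>
    pow_le_pow_right₀ (le_max_left _ _) h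
  have upp : ∀ (p : ℕ) [Fact p.Prime] (φ : ℂ →+* ℂ_[p]) (k D : ℕ) (y z : ℂ), k ∣ n₀ → D ≤ C →
      ‖(k : ℂ_[p])‖ * ‖φ y‖ ≤ max 1 ‖φ z‖ ^ D → ‖(n₀ : ℂ_[p])‖ * ‖φ y‖ ≤ max 1 ‖φ z‖ ^ C := by
    intro p _ φ k D y z hk hD h
    exact (mul_le_mul_of_nonneg_right (gex_nle hk) (norm_nonneg _)).trans (h.trans (pw hD))
  have upc : ∀ (s : ℂ ≃+* ℂ) (D : ℕ) (y z : ℂ), D ≤ C →
      ‖s y‖ ≤ D * max 1 ‖s z‖ ^ D → ‖s y‖ ≤ C * max 1 ‖s z‖ ^ C := by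
    intro s D y z hD h
    refine h.trans (mul_le_mul (by exact_mod_cast hD) (pw hD) (by positivity) (by positivity))
  refine ⟨{ e := G.G.e, h := G.G.h, m := G.G.ma, n₀ := n₀, C := C, K₀ := G.G.K, E := E,
            Xi := G.G.Fx, Et := G.G.Fy, W := G.G.W, Wa := G.G.oa, Sb := G.Sb,
            r := 1 / (2 * G.G.C),
            fd := G.G.fin, fin := hE,
            pos := ⟨G.G.e0, G.G.ma0, by positivity, hC0, hr0, hr1⟩,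
            inK := ⟨G.G.SW.fld, G.G.Sa.fld, G.fld⟩,
            gr := ⟨hgr G.G.SW.gro, hgr G.G.Sa.gro, hgr G.gro⟩,
            val := G.val,
            near_p := ?_, near_c := ?_, up_p := ?_, up_c := ?_, indep := ?_, nc := G.G.ncx },
          rfl, rfl, rfl⟩
  · intro p _ φ x hx _ h
    exact GeoEx_nearp G p φ hx h
  · intro s x hx _ h
    obtain ⟨t, h1, h2, h3, h4, h5, h6, h7⟩ := hnc s x hx (k1.trans h)
    exact ⟨t, h1, h2, h3, h4, h5, h6, h7.trans (mul_le_mul_of_nonneg_right k1 (norm_nonneg _))⟩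
  · intro p _ φ x hx _
    refine ⟨upp p φ nP CP _ _ d1 k3 ((hP _ _ (gex_eqP G.G hx)).1 p φ), ?_, ?_⟩
    · rw [← norm_mul, ← map_mul]
      exact upp p φ na Ca _ _ d2 k4 ((hA _ _ (hqa x hx)).1 p φ)
    · rw [← norm_mul, ← map_mul]
      exact upp p φ nb Cb _ _ d3 k5 ((hB _ _ (hqb x hx)).1 p φ)
  · intro s x hx _
    refine ⟨upc s CP _ _ k3 ((hP _ _ (gex_eqP G.G hx)).2 s), ?_, ?_⟩
    · rw [← norm_mul, ← map_mul]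
      exact upc s Ca _ _ k4 ((hA _ _ (hqa x hx)).2 s)
    · rw [← norm_mul, ← map_mul]
      exact upc s Cb _ _ k5 ((hB _ _ (hqb x hx)).2 s)
  · intro N c _ hinf
    exact gex_indep G.G hV hdim N c (hinf.mono fun x hx => ⟨hx.1, hx.2.2⟩)

end Pool.Agent.LGO.RCM
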