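import Mathlib
import Pool.Agent.LGO.RCM.Defs
import Pool.Agent.LGO.RCM.GeoExC
import Pool.Agent.LGO.RU.GexMdl
import Pool.Agent.LGO.AX.Rel

/-!
# LGO/RCM: the complex model `MdlC D`

The same as `LGO/RU/GexMdl.lean`.  The branch over `ξ = ∞`: `x_a` is unbounded on it, so `0 < e 0`; `x_b` is bounded near the centre, so `e 1 = 0` (`AX.x_inf`).
-/

namespace Pool.Agent.LGO.RCM

open Polynomial Pool.Agent.LGO Pool.Agent.LGO.RU Pool.Agent.LGO.AX Pool.Agent.Hhelper14.ZPL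
  Pool.Agent.Hhelper14.ZP Metric Filter Topology

variable {n : ℕ} {V : Set (Fin n → ℂ)} {a b : Fin n} {β : ℂ}

/-- a function which is finite at the centre of a branch is bounded on it -/
private theorem GeoE_bd {d : ℕ} {S : AXG.Cur d} (β : AXG.Br S) {c : Fin d} (h : β.e c = 0) :
    ∃ B : ℝ, ∀ w : ℂ, Real.exp w.re ≤ β.r * Real.exp (-5) → ‖S.x c (β.pt w)‖ ≤ B := by
  have hr := β.r_pos
  have he5 : Real.exp (-5 : ℝ) < 1 := by
    rw [Real.exp_lt_one_iff]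
    norm_num
  have hlt : β.r * Real.exp (-5) < β.r := by nlinarith
  have hzz : ∀ w, zz (β.e c) (β.ψ c) w = β.ψ c (Complex.exp w) := fun w => by
    rw [zz, h, Nat.cast_zero, zero_mul, zero_div, zero_add]
  have him : ∀ t ∈ closedBall (0 : ℂ) (β.r * Real.exp (-5)), 0 < (β.ψ c t).im := by
    intro t ht
    rw [mem_closedBall_zero_iff] at ht
    by_cases h0 : t = 0
    · rw [h0]
      exact β.cen c h
    · have h1 := β.im_pos c (Complex.log t) (by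
        rw [Complex.log_re, Real.exp_log (norm_pos_iff.2 h0)]
        exact ht.trans_lt hlt)
      rw [hzz, Complex.exp_log h0] at h1
      exact h1
  have hcont : ContinuousOn (fun t => jF (β.ψ c t)) (closedBall (0 : ℂ) (β.r * Real.exp (-5))) := by
    refine ContinuousOn.comp (g := jF) (f := β.ψ c) (t := {z : ℂ | 0 < z.im}) ?_ ?_ ?_
    · exact jF_analytic.continuousOn
    · exact (β.dψ c).continuousOn.mono (closedBall_subset_ball hlt)
    · exact fun t ht => him t ht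
  obtain ⟨B, hB⟩ := (isCompact_closedBall (0 : ℂ) (β.r * Real.exp (-5))).exists_bound_of_continuousOn
    hcont
  refine ⟨B, fun w hw => ?_⟩
  have h1 := β.jz c w (hw.trans_lt hlt)
  rw [hzz] at h1
  have h2 := hB (Complex.exp w) (by
    rw [mem_closedBall_zero_iff, Complex.norm_exp]
    exact hw)
  rw [h1] at h2
  exact h2

private theorem GeoE_up {C : ℝ} (hC : 1 ≤ C) {S : PowerSeries OO}
    (hS : ∀ (σ : ℂ →+* ℂ) (n : ℕ), ‖σ ((PowerSeries.coeff n S : OO) : ℂ)‖ ≤ C ^ (n + 1))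
    {τ y : ℂ} (hτ : 2 * C * ‖τ‖ ≤ 1) (h : ValC (RingHom.id ℂ) S τ y) : ‖y‖ ≤ C * 2 := by
  have hC0 : 0 < C := by linarith
  have h2 : HasSum (fun k : ℕ => C * (1 / 2 : ℝ) ^ k) (C * 2) := hasSum_geometric_two.mul_left C
  refine HasSum.norm_le_of_bounded h h2 fun k => ?_
  simp only [RingHom.id_apply, norm_mul, norm_pow]
  have h3 := hS (RingHom.id ℂ) k
  simp only [RingHom.id_apply] at h3
  calc ‖((PowerSeries.coeff k S : OO) : ℂ)‖ * ‖τ‖ ^ k ≤ C ^ (k + 1) * ‖τ‖ ^ k :=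
        mul_le_mul_of_nonneg_right h3 (by positivity)
    _ = C * (C * ‖τ‖) ^ k := by ring
    _ ≤ C * (1 / 2) ^ k := by
        refine mul_le_mul_of_nonneg_left (pow_le_pow_left₀ (by positivity) ?_ k) hC0.le
        linarith

private theorem GeoE_low {C : ℝ} (hC : 1 ≤ C) {S : PowerSeries OO}
    (hS : ∀ (σ : ℂ →+* ℂ) (n : ℕ), ‖σ ((PowerSeries.coeff n S : OO) : ℂ)‖ ≤ C ^ (n + 1))
    {τ y : ℂ} {m : ℕ} (hm : 0 < m) (hτ0 : τ ≠ 0) (hτ : 2 * C * ‖τ‖ ≤ 1)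
    (hy : y ≠ 0) (h : ValC (RingHom.id ℂ) S τ ((y * τ ^ m)⁻¹)) : 1 ≤ 2 * C * (‖y‖ * ‖τ‖) := by
  have hC0 : 0 < C := by linarith
  have hτn := norm_nonneg τ
  have h1 : ‖(y * τ ^ m)⁻¹‖ ≤ C * 2 := GeoE_up hC hS hτ h
  have hyt : y * τ ^ m ≠ 0 := mul_ne_zero hy (pow_ne_zero m hτ0)
  have h4 : ‖y * τ ^ m‖ ≤ ‖y‖ * ‖τ‖ := by
    rw [norm_mul, norm_pow]
    refine mul_le_mul_of_nonneg_left ?_ (norm_nonneg y)
    calc ‖τ‖ ^ m ≤ ‖τ‖ ^ 1 := pow_le_pow_of_le_one hτn (by nlinarith) hm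
      _ = ‖τ‖ := pow_one _
  rw [norm_inv, inv_le_comm₀ (norm_pos_iff.2 hyt) (by positivity)] at h1
  have h5 := h1.trans h4
  rw [inv_le_iff_one_le_mul₀ (by positivity)] at h5
  linarith

/-- `x_a` is large and `x_b` is bounded if `ξ` is large -/
private theorem GeoE_big (G : GeoEx_Geo V a b β) (B : ℝ) : ∃ R : ℝ, ∀ x ∈ V,
    R < ‖vl G.G.Fx x‖ → B < ‖x a‖ ∧ ‖x b‖ ≤ G.G.C * 2 := by
  have hC1 := G.G.C1
  have hC0 : 0 < G.G.C := by linarith
  set L : ℝ := 2 * G.G.C * (|B| + 1) with hL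
  have hB := abs_nonneg B
  have hL2 : 2 * G.G.C ≤ L := by nlinarith
  have hL0 : 0 < L := by linarith
  refine ⟨max G.G.C (L ^ G.G.e), fun x hx hR => ?_⟩
  have hR1 : G.G.C < ‖vl G.G.Fx x‖ := (le_max_left _ _).trans_lt hR
  have hR2 : L ^ G.G.e < ‖vl G.G.Fx x‖ := (le_max_right _ _).trans_lt hR
  obtain ⟨τ, h1, -, ⟨ha, ha2, -⟩, hb2⟩ := G.locc (RingHom.id ℂ) x hx hR1
  have hτ0 : τ ≠ 0 := by
    rintro rfl
    rw [zero_pow G.G.e0.ne', zero_mul] at h1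
    exact zero_ne_one h1
  have hτp : 0 < ‖τ‖ := norm_pos_iff.2 hτ0
  have h2 : ‖τ‖ ^ G.G.e * ‖vl G.G.Fx x‖ = 1 := by rw [← norm_pow, ← norm_mul, h1, norm_one]
  have h3 : L * ‖τ‖ < 1 := by
    by_contra hcon
    rw [not_lt] at hcon
    have h4 : (1 : ℝ) ≤ (L * ‖τ‖) ^ G.G.e := one_le_pow₀ hcon
    rw [mul_pow] at h4
    have h5 : 0 < ‖τ‖ ^ G.G.e := by positivity
    nlinarith
  have h4 : 2 * G.G.C * ‖τ‖ ≤ 1 := by nlinarith
  have key : ∀ y : ℂ, 1 ≤ 2 * G.G.C * (‖y‖ * ‖τ‖) → B < ‖y‖ := by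
    intro y hy
    by_contra hcon
    rw [not_lt] at hcon
    have h6 : ‖y‖ ≤ |B| := hcon.trans (le_abs_self B)
    have h7 : 2 * G.G.C * (‖y‖ * ‖τ‖) ≤ 2 * G.G.C * (|B| * ‖τ‖) := by gcongr
    have h8 : 2 * G.G.C * (|B| * ‖τ‖) ≤ L * ‖τ‖ := by
      rw [hL]
      have : 0 ≤ 2 * G.G.C * ‖τ‖ := by positivity
      nlinarith
    linarith
  exact ⟨key _ (GeoE_low hC1 G.G.Sa.gro G.G.ma0 hτ0 h4 ha ha2), GeoE_up hC1 G.gro h4 hb2⟩

/-- there are points with large first coordinate -/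
private theorem GeoE_pt {d : ℕ} (S : AXG.Cur d) (R : ℝ) {ρ : ℝ} (hρ : 0 < ρ) :
    ∃ s y : ℂ, 0 < ‖s‖ ∧ ‖s‖ < ρ ∧ (Tp none s, y) ∈ S.pt ∧ R < ‖Tp none s‖ := by
  have hinf : (Set.univ \ (((S.D.roots.toFinset : Set ℂ)) ∪
      closedBall (0 : ℂ) (max R ρ⁻¹))).Nonempty := by
    by_contra hcon
    rw [Set.not_nonempty_iff_eq_empty, Set.sdiff_eq_empty] at hcon
    have h1 : Bornology.IsBounded (Set.univ : Set ℂ) :=
      ((S.D.roots.toFinset.finite_toSet.isBounded).union isBounded_closedBall).subset hcon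
    exact NormedSpace.unbounded_univ ℝ ℂ h1
  obtain ⟨T, -, hT⟩ := hinf
  rw [Set.mem_union, not_or] at hT
  obtain ⟨hT1, hT2⟩ := hT
  have hD : S.D.eval T ≠ 0 := by
    intro h
    apply hT1
    rw [Finset.mem_coe, Multiset.mem_toFinset, mem_roots S.D_ne]
    exact h
  rw [mem_closedBall_zero_iff, not_le, max_lt_iff] at hT2
  obtain ⟨hT3, hT4⟩ := hT2
  have hT0 : T ≠ 0 := by
    rintro rfl
    rw [norm_zero] at hT4
    exact absurd hT4 (not_lt.2 (inv_pos.2 hρ).le)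
  obtain ⟨y, hy⟩ : ∃ y : ℂ, (S.F.map (evalRingHom T)).IsRoot y := by
    refine IsAlgClosed.exists_root _ fun h0 => ?_
    have h1 : (S.F.map (evalRingHom T)).natDegree = S.F.natDegree :=
      natDegree_map_of_leadingCoeff_ne_zero _ (S.lead T hD)
    have h2 := S.deg
    rw [← h1, natDegree_eq_of_degree_eq_some h0] at h2
    exact lt_irrefl _ h2
  have hTp : Tp none T⁻¹ = T := by
    show (T⁻¹)⁻¹ = T
    exact inv_inv T
  refine ⟨T⁻¹, y, ?_, ?_, ?_, ?_⟩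
  · rw [norm_inv]
    exact inv_pos.2 (norm_pos_iff.2 hT0)
  · rw [norm_inv]
    exact inv_lt_of_inv_lt₀ hρ hT4
  · rw [hTp]
    refine ⟨hD, ?_⟩
    rw [IsRoot.def, eval_map] at hy
    rw [← eval₂_evalRingHom]
    exact hy
  · rw [hTp]
    exact hT3

/-- on a branch over a finite point the first coordinate is bounded -/
private theorem GeoE_fin {d : ℕ} {S : AXG.Cur d} (β : AXG.Br S) : ∃ T : ℝ, β.o ≠ none →
    ∀ w : ℂ, Real.exp w.re ≤ β.r * Real.exp (-5) → ‖(β.pt w).1‖ ≤ T := by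
  obtain hβ | ⟨c, hβ⟩ : β.o = none ∨ ∃ c, β.o = some c := by
    cases h : β.o with
    | none => exact Or.inl rfl
    | some c => exact Or.inr ⟨c, rfl⟩
  · exact ⟨0, fun h => absurd hβ h⟩
  · refine ⟨‖c‖ + β.r ^ β.m, fun _ w hw => ?_⟩
    have h1 : (β.pt w).1 = c + Complex.exp w ^ β.m := by
      unfold AXG.Br.pt
      rw [hβ]
      rfl
    have he5 : Real.exp (-5 : ℝ) < 1 := by
      rw [Real.exp_lt_one_iff]
      norm_num
    have h2 : ‖Complex.exp w‖ ≤ β.r := by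
      rw [Complex.norm_exp]
      refine hw.trans ?_
      have := β.r_pos
      nlinarith
    rw [h1]
    refine (norm_add_le _ _).trans (add_le_add le_rfl ?_)
    rw [norm_pow]
    exact pow_le_pow_left₀ (norm_nonneg _) h2 _

/-- a branch where the first function is infinite and the second one is finite -/
private theorem GeoE_cusp (S : AXG.Cur 2) (h : ∀ B : ℝ, ∃ R : ℝ, ∀ p ∈ S.pt, R < ‖p.1‖ →
    B < ‖S.x 0 p‖) (h' : ∃ B R : ℝ, ∀ p ∈ S.pt, R < ‖p.1‖ → ‖S.x 1 p‖ ≤ B) :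
    ∃ β₀ : AXG.Br S, 0 < β₀.e 0 ∧ β₀.e 1 = 0 := by
  classical
  obtain ⟨ρ, k, br, hρ, hbr⟩ := AXG.exists_br S none
  have hbd : ∀ i : Fin k, ∃ B : ℝ, (br i).e 0 = 0 →
      ∀ w : ℂ, Real.exp w.re ≤ (br i).r * Real.exp (-5) → ‖S.x 0 ((br i).pt w)‖ ≤ B := by
    intro i
    by_cases h0 : (br i).e 0 = 0
    · obtain ⟨B, hB⟩ := GeoE_bd (br i) h0
      exact ⟨B, fun _ => hB⟩
    · exact ⟨0, fun h1 => absurd h1 h0⟩
  choose B hB using hbd
  choose T hT using fun i => GeoE_fin (br i)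
  obtain ⟨R, hR⟩ := h (∑ i, |B i|)
  obtain ⟨s, y, hs0, hs1, hp, hsR⟩ := GeoE_pt S (max R (∑ i, |T i|)) hρ
  rw [max_lt_iff] at hsR
  obtain ⟨i, w, hw, -, hiw⟩ := hbr s y hs0 hs1 hp
  have ho : (br i).o = none := by
    by_contra hne
    have h1 := hT i hne w hw
    rw [hiw] at h1
    have h3 : |T i| ≤ ∑ i, |T i| :=
      Finset.single_le_sum (f := fun i => |T i|) (fun _ _ => abs_nonneg _) (Finset.mem_univ i)
    have h4 := le_abs_self (T i)
    have h5 := hsR.2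
    have h6 : ‖Tp none s‖ ≤ T i := h1
    linarith
  refine ⟨br i, ?_, ?_⟩
  · rw [Nat.pos_iff_ne_zero]
    intro h0
    have h1 := hB i h0 w hw
    rw [hiw] at h1
    have h2 := hR _ hp hsR.1
    have h3 : |B i| ≤ ∑ i, |B i| :=
      Finset.single_le_sum (f := fun i => |B i|) (fun _ _ => abs_nonneg _) (Finset.mem_univ i)
    have h4 := le_abs_self (B i)
    linarith
  · by_contra hne
    obtain ⟨B₁, R₁, h₁⟩ := h'
    have h2 : Tendsto (fun t : ℝ => ‖S.x 1 ((br i).pt (-(t : ℂ)))‖) atTop atTop :=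
      AX.x_inf ((br i).ax 1) (a := 0) (Nat.pos_of_ne_zero hne)
    have h3 : ∀ t : ℝ, ‖Complex.exp (-(t : ℂ))‖ = Real.exp (-t) := fun t => by
      rw [Complex.norm_exp, Complex.neg_re, Complex.ofReal_re]
    have h4 : ∀ᶠ t : ℝ in atTop, Real.exp (-t) < (br i).r :=
      Real.tendsto_exp_neg_atTop_nhds_zero.eventually (gt_mem_nhds (br i).r_pos)
    have h5 : ∀ t : ℝ, ‖((br i).pt (-(t : ℂ))).1‖ = Real.exp ((br i).m * t) := by
      intro t
      have h6 : ((br i).pt (-(t : ℂ))).1 = (Complex.exp (-(t : ℂ)) ^ (br i).m)⁻¹ := by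
        unfold AXG.Br.pt
        rw [ho]
        rfl
      rw [h6, norm_inv, norm_pow, h3, ← Real.exp_nat_mul, ← Real.exp_neg]
      congr 1
      ring
    have h6 : Tendsto (fun t : ℝ => Real.exp ((br i).m * t)) atTop atTop :=
      Real.tendsto_exp_atTop.comp (Tendsto.const_mul_atTop
        (by exact_mod_cast (br i).m_pos) tendsto_id)
    obtain ⟨t, ht1, ht2, ht3⟩ := ((h2.eventually_gt_atTop B₁).and
      (h4.and (h6.eventually_gt_atTop R₁))).exists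
    have h7 : (br i).pt (-(t : ℂ)) ∈ S.pt := by
      refine (br i).mem _ ?_ ?_
      · rw [h3]
        exact Real.exp_pos _
      · rw [h3]
        exact ht2
    have h8 := h₁ _ h7 (by rw [h5]; exact ht3)
    linarith

theorem GeoEx_mdl (G : GeoEx_Geo V a b β) (h : ZV.Crv V) (hab : a ≠ b) :
    ∃ E₀ : Set (Fin n → ℂ), E₀.Finite ∧ ∀ D : LocC V a b β, D.Xi = G.G.Fx → D.Et = G.G.Fy →
      E₀ ⊆ D.E → Nonempty (MdlC D) := by
  classical
  obtain ⟨S, hF, hN, hM, hcov, hpt, hpt2⟩ := exists_cur G.G h.irr h.dim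
  refine ⟨{x ∈ V | S.D.eval (vl G.G.Fx x) = 0}, gex_root G.G h.irr h.dim S.D_ne, ?_⟩
  intro D hX hY hE
  have hξ : ∀ x, D.ξ x = vl G.G.Fx x := fun x => by rw [LocC.ξ, hX, vl]
  have hη : ∀ x, D.η x = vl G.G.Fy x := fun x => by rw [LocC.η, hY, vl]
  have hcov2 : ZV.Cov (S.res ![a, b]) V ![a, b] := by
    obtain ⟨E, hE, hc⟩ := hcov
    refine ⟨E, hE, fun x hx hxE => ?_⟩
    obtain ⟨p, hp, hpx⟩ := hc x hx hxE
    exact ⟨p, hp, fun c => hpx _⟩
  obtain ⟨A⟩ := AXG.exists_atl (S.res ![a, b])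
  have hinj : ∀ c c' : Fin 2, c ≠ c' → (![a, b] c) ≠ (![a, b] c') := by
    intro c c' hcc
    fin_cases c <;> fin_cases c'
    · exact absurd rfl hcc
    · exact hab
    · exact hab.symm
    · exact absurd rfl hcc
  refine ⟨{ S := S.res ![a, b]
            A := A
            ET := (D.fin.toFinset).image D.ξ
            nco := ZV.model_NCo_v h.irr h.dim (fun c => h.nc _) hcov2
            nomod := ZV.model_NoMod_v h.irr h.dim 0 (h.nc _)
              (fun c c' hcc => h.nomod _ _ (hinj c c' hcc)) hcov2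
            to_ := ?_
            from_ := ?_
            cusp := ?_ }⟩
  · intro x hx hxE
    have h1 : S.D.eval (vl G.G.Fx x) ≠ 0 := fun h0 => hxE (hE ⟨hx, h0⟩)
    obtain ⟨h2, h3⟩ := hpt2 x hx h1
    rw [hξ, hη]
    exact ⟨h2, h3 a, h3 b⟩
  · intro q hq hqE
    obtain ⟨h1, h2, h3⟩ := hpt q hq
    refine ⟨_, h1, fun hmem => hqE ?_, ?_, ?_⟩
    · rw [Finset.mem_image]
      exact ⟨_, D.fin.mem_toFinset.2 hmem, by rw [hξ, h2]⟩
    · rw [hξ, h2]
    · rw [hη, h3]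
  · refine GeoE_cusp _ (fun B => ?_) ?_
    · obtain ⟨R, hR⟩ := GeoE_big G B
      refine ⟨R, fun p hp hpR => ?_⟩
      obtain ⟨h1, h2, -⟩ := hpt p hp
      exact (hR _ h1 (by rw [h2]; exact hpR)).1
    · obtain ⟨R, hR⟩ := GeoE_big G 0
      refine ⟨G.G.C * 2, R, fun p hp hpR => ?_⟩
      obtain ⟨h1, h2, -⟩ := hpt p hp
      exact (hR _ h1 (by rw [h2]; exact hpR)).2

end Pool.Agent.LGO.RCM
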